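import Pool.Agent.Lib_helper45.REll.Defs2

/-!
# Block HOPF: restriction is multiplicative (Mackey formula)
-/

open scoped BigOperators ComplexConjugate
open Polynomial

namespace Pool.Agent.REll
variable {F : Type} [Field F]
namespace HOPF

section V2
variable {V : Type} [AddCommGroup V] [Module F V] [Finite V]

open Classical in
/-- summand of the Hall product, as a function on all subspaces -/
noncomputable def v2 (f h : CF F) (g : V ≃ₗ[F] V) (W : Submodule F V) : ℂ :=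
  if hW : W.map (g : V →ₗ[F] V) = W then f W (sub g ⟨W, hW⟩) * h (V ⧸ W) (quo g ⟨W, hW⟩) else 0

omit [Finite V] in
theorem finsum_stab (g : V ≃ₗ[F] V) (T : Submodule F V → ℂ)
    (hT : ∀ W : Submodule F V, W.map (g : V →ₗ[F] V) ≠ W → T W = 0) :
    ∑ᶠ W : Stab g, T W.1 = ∑ᶠ W : Submodule F V, T W := by
  have h2 := finsum_set_coe_eq_finsum_mem (f := T)
    {W : Submodule F V | W.map (g : V →ₗ[F] V) = W}
  refine Eq.trans h2 ?_
  apply finsum_congr
  intro W
  by_cases hW : W.map (g : V →ₗ[F] V) = W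
  · exact finsum_eq_if.trans (if_pos hW)
  · exact (finsum_eq_if.trans (if_neg hW)).trans (hT W hW).symm

theorem mul_eq (f h : CF F) (g : V ≃ₗ[F] V) :
    (f * h) V g = ∑ᶠ W : Submodule F V, v2 f h g W := by
  rw [CF.mul_apply]
  have h1 : ∀ W : Stab g, f W.1 (sub g W) * h (V ⧸ W.1) (quo g W) = v2 f h g W.1 := by
    intro W
    rw [v2, dif_pos W.2]
    rfl
  rw [finsum_congr h1]
  apply finsum_stab
  intro W hW
  rw [v2, dif_neg hW]

theorem v2_inv (f h : CF F) {V' : Type} [AddCommGroup V'] [Module F V'] [Finite V']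
    (g : V ≃ₗ[F] V) (g' : V' ≃ₗ[F] V') (e : V ≃ₗ[F] V') (he : ∀ v, e (g v) = g' (e v))
    (W : Submodule F V) : v2 f h g W = v2 f h g' (W.map (e : V →ₗ[F] V')) := by
  have key : (W.map (e : V →ₗ[F] V')).map (g' : V' →ₗ[F] V') =
      (W.map (g : V →ₗ[F] V)).map (e : V →ₗ[F] V') := by
    have h1 : (g' : V' →ₗ[F] V') ∘ₗ (e : V →ₗ[F] V') = (e : V →ₗ[F] V') ∘ₗ (g : V →ₗ[F] V) := by
      ext v; exact (he v).symm
    rw [← Submodule.map_comp, h1, Submodule.map_comp]
  have hinj : Function.Injective (Submodule.map (e : V →ₗ[F] V')) :=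
    Submodule.map_injective_of_injective e.injective
  by_cases hW : W.map (g : V →ₗ[F] V) = W
  · have hW' : (W.map (e : V →ₗ[F] V')).map (g' : V' →ₗ[F] V') = W.map (e : V →ₗ[F] V') := by
      rw [key, hW]
    rw [v2, v2, dif_pos hW, dif_pos hW']
    congr 1
    · apply f.inv' _ _ (e.submoduleMap W)
      intro v
      apply Subtype.ext
      show e (g v) = g' (e v)
      exact he v
    · apply h.inv' _ _ (Submodule.Quotient.equiv W (W.map (e : V →ₗ[F] V')) e rfl)
      intro v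
      obtain ⟨v, rfl⟩ := Submodule.Quotient.mk_surjective _ v
      show (Submodule.Quotient.mk (e (g v)) : V' ⧸ (W.map (e : V →ₗ[F] V')))
        = Submodule.Quotient.mk (g' (e v))
      rw [he]
  · have hW' : ¬ (W.map (e : V →ₗ[F] V')).map (g' : V' →ₗ[F] V') = W.map (e : V →ₗ[F] V') := by
      rw [key]
      intro h3
      exact hW (hinj h3)
    rw [v2, v2, dif_neg hW, dif_neg hW']

end V2

/-- average over the image of a surjective homomorphism -/
theorem avg_surj {H Q : Type} [AddCommGroup H] [AddCommGroup Q] [Fintype H] [Fintype Q]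
    (p : H →+ Q) (hp : Function.Surjective p) (G : Q → ℂ) :
    (∑ v : H, G (p v)) / (Fintype.card H : ℂ) = (∑ q : Q, G q) / (Fintype.card Q : ℂ) := by
  classical
  have hc : ∃ c : ℕ, ∀ q : Q, (Finset.univ.filter (fun v : H => p v = q)).card = c := by
    refine ⟨(Finset.univ.filter (fun v : H => p v = 0)).card, fun q => ?_⟩
    obtain ⟨v0, hv0⟩ := hp q
    refine Finset.card_nbij' (fun v => v - v0) (fun v => v + v0) ?_ ?_ ?_ ?_
    · intro v hv; simp at hv ⊢; rw [hv, hv0]; simp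
    · intro v hv; simp at hv ⊢; rw [hv, hv0]; simp
    · intro v hv; simp
    · intro v hv; simp
  obtain ⟨c, hc⟩ := hc
  have hG : ∀ G : Q → ℂ, (∑ v : H, G (p v)) = c * ∑ q : Q, G q := by
    intro G
    rw [← Finset.sum_fiberwise (s := Finset.univ) (g := fun v => p v), Finset.mul_sum]
    apply Finset.sum_congr rfl
    intro q _
    rw [Finset.sum_congr rfl (g := fun _ => G q), Finset.sum_const, hc q, nsmul_eq_mul]
    intro v hv
    simp at hv
    rw [hv]
  have h1 := hG (fun _ => 1)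
  simp only [Finset.sum_const, Finset.card_univ, nsmul_eq_mul, mul_one] at h1
  have hc0 : (c : ℂ) ≠ 0 := by
    intro h0
    rw [h0, zero_mul] at h1
    have : (Fintype.card H) = 0 := by exact_mod_cast h1
    exact Fintype.card_ne_zero this
  rw [hG G, h1, mul_div_mul_left _ _ hc0]

section AB
variable {A B : Type} [AddCommGroup A] [Module F A] [AddCommGroup B] [Module F B]

/-- shear -/
noncomputable def sh (Φ : B →ₗ[F] A) : (B × A) ≃ₗ[F] (B × A) :=
  tri (LinearEquiv.refl F A) (LinearEquiv.refl F B) Φ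

@[simp] theorem sh_apply (Φ : B →ₗ[F] A) (x : B × A) : sh Φ x = (x.1, x.2 + Φ x.1) := rfl

/-- conjugated cocycle -/
noncomputable def cj (α : A ≃ₗ[F] A) (β : B ≃ₗ[F] B) (Φ u : B →ₗ[F] A) : B →ₗ[F] A :=
  u + (Φ ∘ₗ (β : B →ₗ[F] B) - (α : A →ₗ[F] A) ∘ₗ Φ)

theorem sh_conj (α : A ≃ₗ[F] A) (β : B ≃ₗ[F] B) (Φ u : B →ₗ[F] A) (x : B × A) :
    sh Φ (tri α β u x) = tri α β (cj α β Φ u) (sh Φ x) := by
  simp only [sh_apply, tri_apply, cj]
  refine Prod.ext rfl ?_
  simp only [LinearMap.add_apply, LinearMap.sub_apply, LinearMap.comp_apply,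
    LinearEquiv.coe_coe, map_add]
  abel

/-- the `A`-part of a subspace -/
def W1 (W : Submodule F (B × A)) : Submodule F A := W.comap (LinearMap.inr F B A)
/-- the `B`-part of a subspace -/
def W2 (W : Submodule F (B × A)) : Submodule F B := W.map (LinearMap.fst F B A)

theorem mem_W1 (W : Submodule F (B × A)) (a : A) : a ∈ W1 W ↔ ((0 : B), a) ∈ W := Iff.rfl
theorem mem_W2 (W : Submodule F (B × A)) (b : B) : b ∈ W2 W ↔ ∃ a, (b, a) ∈ W := by
  constructor
  · rintro ⟨⟨b', a'⟩, h1, h2⟩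
    simp at h2
    subst h2
    exact ⟨a', h1⟩
  · rintro ⟨a, h⟩
    exact ⟨(b, a), h, rfl⟩

theorem mem_map_sh (Φ : B →ₗ[F] A) (W : Submodule F (B × A)) (b : B) (a : A) :
    (b, a) ∈ W.map (sh Φ : (B × A) →ₗ[F] (B × A)) ↔ (b, a - Φ b) ∈ W := by
  constructor
  · rintro ⟨⟨b', a'⟩, h1, h2⟩
    simp only [LinearEquiv.coe_coe, sh_apply, Prod.mk.injEq] at h2
    obtain ⟨rfl, rfl⟩ := h2
    simpa using h1
  · intro h
    refine ⟨(b, a - Φ b), h, ?_⟩
    simp

theorem W1_map_sh (Φ : B →ₗ[F] A) (W : Submodule F (B × A)) :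
    W1 (W.map (sh Φ : (B × A) →ₗ[F] (B × A))) = W1 W := by
  ext a
  rw [mem_W1, mem_W1, mem_map_sh]
  simp

theorem W2_map_sh (Φ : B →ₗ[F] A) (W : Submodule F (B × A)) :
    W2 (W.map (sh Φ : (B × A) →ₗ[F] (B × A))) = W2 W := by
  ext b
  rw [mem_W2, mem_W2]
  constructor
  · rintro ⟨a, h⟩
    rw [mem_map_sh] at h
    exact ⟨_, h⟩
  · rintro ⟨a, h⟩
    refine ⟨a + Φ b, ?_⟩
    rw [mem_map_sh]
    simpa using h

theorem exists_sh (W : Submodule F (B × A)) :
    ∃ Φ : B →ₗ[F] A, W.map (sh Φ : (B × A) →ₗ[F] (B × A)) = (W2 W).prod (W1 W) := by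
  have hmem : ∀ w : W, (w : B × A).1 ∈ W2 W := fun w => (mem_W2 W _).2 ⟨(w : B × A).2, w.2⟩
  let p : W →ₗ[F] (W2 W) := LinearMap.codRestrict (W2 W) (LinearMap.fst F B A ∘ₗ W.subtype) hmem
  have hp : Function.Surjective p := by
    rintro ⟨b, hb⟩
    obtain ⟨a, ha⟩ := (mem_W2 W b).1 hb
    exact ⟨⟨(b, a), ha⟩, rfl⟩
  obtain ⟨s, hs⟩ := p.exists_rightInverse_of_surjective (LinearMap.range_eq_top.2 hp)
  obtain ⟨φ, hφ⟩ := (LinearMap.snd F B A ∘ₗ W.subtype ∘ₗ s).exists_extend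
  have hφ' : ∀ b (hb : b ∈ W2 W), (b, φ b) ∈ W := by
    intro b hb
    have h1 : ((s ⟨b, hb⟩ : W) : B × A).1 = b := by
      have := congrArg (fun (r : W2 W →ₗ[F] W2 W) => ((r ⟨b, hb⟩ : W2 W) : B)) hs
      exact this
    have h2 : ((s ⟨b, hb⟩ : W) : B × A).2 = φ b := by
      have := congrArg (fun (r : W2 W →ₗ[F] A) => r ⟨b, hb⟩) hφ
      exact this.symm
    have h3 := (s ⟨b, hb⟩ : W).2
    have h4 : ((s ⟨b, hb⟩ : W) : B × A) = (b, φ b) := Prod.ext h1 h2
    rwa [h4] at h3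
  refine ⟨-φ, ?_⟩
  ext ⟨b, a⟩
  rw [mem_map_sh, Submodule.mem_prod]
  simp only [LinearMap.neg_apply, sub_neg_eq_add]
  constructor
  · intro h
    have hb : b ∈ W2 W := (mem_W2 W b).2 ⟨_, h⟩
    refine ⟨hb, ?_⟩
    have h5 := W.sub_mem h (hφ' b hb)
    simpa [mem_W1] using h5
  · rintro ⟨hb, ha⟩
    have h5 := W.add_mem ((mem_W1 W a).1 ha) (hφ' b hb)
    simpa using h5

theorem map_sh_prod_iff (Ψ : B →ₗ[F] A) (X2 : Submodule F B) (X1 : Submodule F A) :
    (X2.prod X1).map (sh Ψ : (B × A) →ₗ[F] (B × A)) = X2.prod X1 ↔ ∀ b ∈ X2, Ψ b ∈ X1 := by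
  constructor
  · intro h b hb
    have h1 : (b, Ψ b) ∈ (X2.prod X1).map (sh Ψ : (B × A) →ₗ[F] (B × A)) := by
      rw [mem_map_sh]
      simp [hb]
    rw [h] at h1
    exact h1.2
  · intro h
    ext ⟨b, a⟩
    rw [mem_map_sh, Submodule.mem_prod, Submodule.mem_prod]
    simp only
    constructor
    · rintro ⟨hb, ha⟩
      refine ⟨hb, ?_⟩
      have := X1.add_mem ha (h b hb)
      simpa using this
    · rintro ⟨hb, ha⟩
      exact ⟨hb, X1.sub_mem ha (h b hb)⟩

variable [Finite A] [Finite B]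

/-- number of homomorphisms mapping `X2` to `X1` -/
noncomputable def N (X1 : Submodule F A) (X2 : Submodule F B) : ℕ :=
  Nat.card {Ψ : B →ₗ[F] A // ∀ b ∈ X2, Ψ b ∈ X1}

theorem N_pos (X1 : Submodule F A) (X2 : Submodule F B) : 0 < N X1 X2 := by
  unfold N
  have : Nonempty {Ψ : B →ₗ[F] A // ∀ b ∈ X2, Ψ b ∈ X1} := ⟨⟨0, by simp⟩⟩
  exact Nat.card_pos

theorem card_sh (W : Submodule F (B × A)) :
    Nat.card {Φ : B →ₗ[F] A // W.map (sh Φ : (B × A) →ₗ[F] (B × A)) = (W2 W).prod (W1 W)}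
      = N (W1 W) (W2 W) := by
  obtain ⟨Φ0, h0⟩ := exists_sh W
  unfold N
  apply Nat.card_congr
  have hcomp : ∀ Ψ : B →ₗ[F] A, W.map (sh (Ψ + Φ0) : (B × A) →ₗ[F] (B × A)) =
      ((W2 W).prod (W1 W)).map (sh Ψ : (B × A) →ₗ[F] (B × A)) := by
    intro Ψ
    rw [← h0, ← Submodule.map_comp]
    congr 1
    ext x <;> simp [add_comm]
  refine (Equiv.subRight Φ0).subtypeEquiv ?_
  intro Φ
  simp only [Equiv.subRight_apply]
  rw [← map_sh_prod_iff, ← hcomp]
  simp

theorem W1_prod (X1 : Submodule F A) (X2 : Submodule F B) : W1 (X2.prod X1) = X1 := by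
  ext a
  rw [mem_W1]
  constructor
  · rintro ha; exact ha.2
  · intro ha; exact ⟨X2.zero_mem, ha⟩

theorem W2_prod (X1 : Submodule F A) (X2 : Submodule F B) : W2 (X2.prod X1) = X2 := by
  ext b
  rw [mem_W2]
  constructor
  · rintro ⟨a, ha⟩; exact ha.1
  · intro hb; exact ⟨0, hb, X1.zero_mem⟩

open Classical in
theorem sum_prod_eq [Fintype (Submodule F (B × A))] [Fintype (Submodule F A)]
    [Fintype (Submodule F B)] (Gf : Submodule F (B × A) → ℂ) :
    (∑ X : Submodule F (B × A), if X = (W2 X).prod (W1 X) then Gf X else 0) =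
      ∑ X1 : Submodule F A, ∑ X2 : Submodule F B, Gf (X2.prod X1) := by
  rw [← Finset.sum_filter, ← Finset.sum_product']
  refine Finset.sum_nbij' (fun X => (W1 X, W2 X)) (fun p => p.2.prod p.1) ?_ ?_ ?_ ?_ ?_
  · intro X _; simp
  · rintro ⟨X1, X2⟩ _
    simp only [Finset.mem_filter, Finset.mem_univ, true_and]
    congr 1
    · ext b
      rw [mem_W2]
      constructor
      · intro hb; exact ⟨0, hb, X1.zero_mem⟩
      · rintro ⟨a, ha⟩; exact ha.1
    · ext a
      rw [mem_W1]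
      constructor
      · intro ha; exact ⟨X2.zero_mem, ha⟩
      · rintro ha; exact ha.2
  · intro X hX
    simp only [Finset.mem_filter, Finset.mem_univ, true_and] at hX
    exact hX.symm
  · rintro ⟨X1, X2⟩ _
    refine Prod.ext ?_ ?_
    · ext a
      show a ∈ W1 _ ↔ _
      rw [mem_W1]
      constructor
      · rintro ha; exact ha.2
      · intro ha; exact ⟨X2.zero_mem, ha⟩
    · ext b
      show b ∈ W2 _ ↔ _
      rw [mem_W2]
      constructor
      · rintro ⟨a, ha⟩; exact ha.1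
      · intro hb; exact ⟨0, hb, X1.zero_mem⟩
  · intro X hX
    simp only [Finset.mem_filter, Finset.mem_univ, true_and] at hX
    exact congrArg Gf hX

/-- double counting over shears -/
theorem double_count [Fintype (Submodule F (B × A))] [Fintype (Submodule F A)]
    [Fintype (Submodule F B)] [Fintype (B →ₗ[F] A)] (f h : CF F) (α : A ≃ₗ[F] A)
    (β : B ≃ₗ[F] B) :
    (∑ u : B →ₗ[F] A, ∑ W : Submodule F (B × A), v2 f h (tri α β u) W) =
      (Fintype.card (B →ₗ[F] A) : ℂ) * ∑ X1 : Submodule F A, ∑ X2 : Submodule F B,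
        (∑ u : B →ₗ[F] A, v2 f h (tri α β u) (X2.prod X1)) / (N X1 X2 : ℂ) := by
  classical
  have hone : ∀ W : Submodule F (B × A),
      (∑ Φ : B →ₗ[F] A, if W.map (sh Φ : (B × A) →ₗ[F] (B × A)) = (W2 W).prod (W1 W)
        then (1 / (N (W1 W) (W2 W) : ℂ)) else 0) = 1 := by
    intro W
    rw [← Finset.sum_filter, Finset.sum_const]
    have h1 := card_sh W
    rw [Nat.card_eq_fintype_card, Fintype.card_subtype] at h1
    rw [h1, nsmul_eq_mul, mul_one_div, div_self]
    exact Nat.cast_ne_zero.2 (N_pos (W1 W) (W2 W)).ne'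
  have hterm : ∀ Φ : B →ₗ[F] A,
      (∑ u : B →ₗ[F] A, ∑ W : Submodule F (B × A),
        (if W.map (sh Φ : (B × A) →ₗ[F] (B × A)) = (W2 W).prod (W1 W)
        then (1 / (N (W1 W) (W2 W) : ℂ)) else 0) * v2 f h (tri α β u) W) =
      ∑ u : B →ₗ[F] A, ∑ X : Submodule F (B × A),
        (if X = (W2 X).prod (W1 X) then
          (1 / (N (W1 X) (W2 X) : ℂ)) * v2 f h (tri α β u) X else 0) := by
    intro Φ
    have hbijW : Function.Bijective
        (fun W : Submodule F (B × A) => W.map (sh Φ : (B × A) →ₗ[F] (B × A))) :=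
      (Submodule.orderIsoMapComap (sh Φ)).bijective
    refine Fintype.sum_bijective (fun u => cj α β Φ u) ?_ _ _ ?_
    · exact (Equiv.addRight (Φ ∘ₗ (β : B →ₗ[F] B) - (α : A →ₗ[F] A) ∘ₗ Φ)).bijective
    · intro u
      refine Fintype.sum_bijective _ hbijW _ _ ?_
      intro W
      simp only [W1_map_sh, W2_map_sh]
      rw [ite_mul, zero_mul]
      congr 1
      congr 1
      exact v2_inv f h _ _ (sh Φ) (sh_conj α β Φ u) W
  calc (∑ u : B →ₗ[F] A, ∑ W : Submodule F (B × A), v2 f h (tri α β u) W)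
      = ∑ u : B →ₗ[F] A, ∑ W : Submodule F (B × A), ∑ Φ : B →ₗ[F] A,
        (if W.map (sh Φ : (B × A) →ₗ[F] (B × A)) = (W2 W).prod (W1 W)
        then (1 / (N (W1 W) (W2 W) : ℂ)) else 0) * v2 f h (tri α β u) W := by
        apply Finset.sum_congr rfl; intro u _
        apply Finset.sum_congr rfl; intro W _
        rw [← Finset.sum_mul, hone W, one_mul]
    _ = ∑ Φ : B →ₗ[F] A, ∑ u : B →ₗ[F] A, ∑ W : Submodule F (B × A),
        (if W.map (sh Φ : (B × A) →ₗ[F] (B × A)) = (W2 W).prod (W1 W)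
        then (1 / (N (W1 W) (W2 W) : ℂ)) else 0) * v2 f h (tri α β u) W := by
        rw [Finset.sum_congr rfl (fun u _ => Finset.sum_comm)]
        exact Finset.sum_comm
    _ = ∑ Φ : B →ₗ[F] A, ∑ u : B →ₗ[F] A, ∑ X : Submodule F (B × A),
        (if X = (W2 X).prod (W1 X) then
          (1 / (N (W1 X) (W2 X) : ℂ)) * v2 f h (tri α β u) X else 0) := by
        apply Finset.sum_congr rfl; intro Φ _
        exact hterm Φ
    _ = _ := by
        rw [Finset.sum_const, Finset.card_univ, nsmul_eq_mul]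
        congr 1
        rw [Finset.sum_congr rfl (fun u _ => sum_prod_eq (fun X =>
          (1 / (N (W1 X) (W2 X) : ℂ)) * v2 f h (tri α β u) X))]
        rw [Finset.sum_comm]
        apply Finset.sum_congr rfl; intro X1 _
        rw [Finset.sum_comm]
        apply Finset.sum_congr rfl; intro X2 _
        rw [← Finset.mul_sum, W1_prod, W2_prod, one_div_mul_eq_div]

theorem stable_prod_iff (α : A ≃ₗ[F] A) (β : B ≃ₗ[F] B) (u : B →ₗ[F] A)
    (X1 : Submodule F A) (X2 : Submodule F B) :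
    (X2.prod X1).map (tri α β u : (B × A) →ₗ[F] (B × A)) = X2.prod X1 ↔
      X1.map (α : A →ₗ[F] A) = X1 ∧ X2.map (β : B →ₗ[F] B) = X2 ∧ ∀ b ∈ X2, u b ∈ X1 := by
  have himg : ∀ (b : B) (a : A), b ∈ X2 → a ∈ X1 →
      (β b, α a + u b) ∈ (X2.prod X1).map (tri α β u : (B × A) →ₗ[F] (B × A)) := by
    intro b a hb ha
    exact ⟨(b, a), ⟨hb, ha⟩, rfl⟩
  constructor
  · intro h
    refine ⟨?_, ?_, ?_⟩
    · ext a
      constructor
      · rintro ⟨a', ha', rfl⟩
        have h1 := himg 0 a' X2.zero_mem ha'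
        rw [h] at h1
        simpa using h1.2
      · intro ha
        have h1 : ((0 : B), a) ∈ X2.prod X1 := ⟨X2.zero_mem, ha⟩
        rw [← h] at h1
        obtain ⟨⟨b', a'⟩, ⟨hb', ha'⟩, h2⟩ := h1
        simp only [LinearEquiv.coe_coe, tri_apply, Prod.mk.injEq] at h2
        obtain ⟨h3, h4⟩ := h2
        have h5 : b' = 0 := by simpa using h3
        subst h5
        exact ⟨a', ha', by simpa using h4⟩
    · ext b
      constructor
      · rintro ⟨b', hb', rfl⟩
        have h1 := himg b' 0 hb' X1.zero_mem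
        rw [h] at h1
        exact h1.1
      · intro hb
        have h1 : (b, (0 : A)) ∈ X2.prod X1 := ⟨hb, X1.zero_mem⟩
        rw [← h] at h1
        obtain ⟨⟨b', a'⟩, ⟨hb', ha'⟩, h2⟩ := h1
        simp only [LinearEquiv.coe_coe, tri_apply, Prod.mk.injEq] at h2
        exact ⟨b', hb', h2.1⟩
    · intro b hb
      have h1 := himg b 0 hb X1.zero_mem
      rw [h] at h1
      simpa using h1.2
  · rintro ⟨h1, h2, h3⟩
    ext ⟨b, a⟩
    constructor
    · rintro ⟨⟨b', a'⟩, ⟨hb', ha'⟩, h4⟩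
      simp only [LinearEquiv.coe_coe, tri_apply, Prod.mk.injEq] at h4
      obtain ⟨rfl, rfl⟩ := h4
      refine ⟨?_, ?_⟩
      · show β b' ∈ X2
        rw [← h2]; exact ⟨b', hb', rfl⟩
      · show α a' + u b' ∈ X1
        refine X1.add_mem ?_ (h3 b' hb')
        rw [← h1]; exact ⟨a', ha', rfl⟩
    · rintro ⟨hb, ha⟩
      simp only at hb ha
      rw [← h2] at hb
      obtain ⟨b', hb', rfl⟩ := hb
      have h5 : a - u b' ∈ X1 := X1.sub_mem ha (h3 b' hb')
      rw [← h1] at h5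
      obtain ⟨a', ha', h6⟩ := h5
      refine ⟨(b', a'), ⟨hb', ha'⟩, Prod.ext rfl ?_⟩
      have h7 : α a' = a - u b' := h6
      show α a' + u b' = a
      rw [h7]; abel

/-- restriction of a compatible homomorphism -/
noncomputable def r1 (X1 : Submodule F A) (X2 : Submodule F B) :
    Submodule.compatibleMaps X2 X1 →+ (X2 →ₗ[F] X1) where
  toFun v := v.1.restrict v.2
  map_zero' := by ext; rfl
  map_add' _ _ := by ext; rfl

/-- induced homomorphism of the quotients -/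
noncomputable def r2 (X1 : Submodule F A) (X2 : Submodule F B) :
    Submodule.compatibleMaps X2 X1 →+ ((B ⧸ X2) →ₗ[F] (A ⧸ X1)) where
  toFun v := X2.mapQ X1 v.1 v.2
  map_zero' := by ext; rfl
  map_add' _ _ := by ext; rfl

theorem r_surj (X1 : Submodule F A) (X2 : Submodule F B) :
    Function.Surjective ((r1 X1 X2).prod (r2 X1 X2)) := by
  rintro ⟨s, t⟩
  obtain ⟨π, hπ⟩ := X2.subtype.exists_leftInverse_of_injective X2.ker_subtype
  obtain ⟨σ, hσ⟩ := X1.mkQ.exists_rightInverse_of_surjective (Submodule.range_mkQ X1)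
  have hπ' : ∀ b : X2, π (b : B) = b := fun b =>
    congrArg (fun (r : X2 →ₗ[F] X2) => r b) hπ
  have hσ' : ∀ c : A ⧸ X1, X1.mkQ (σ c) = c := fun c =>
    congrArg (fun (r : (A ⧸ X1) →ₗ[F] (A ⧸ X1)) => r c) hσ
  let v : B →ₗ[F] A := X1.subtype ∘ₗ s ∘ₗ π + σ ∘ₗ t ∘ₗ X2.mkQ
  have hv1 : ∀ b : X2, v b = s b := by
    intro b
    simp only [v, LinearMap.add_apply, LinearMap.comp_apply, hπ', Submodule.mkQ_apply,
      (Submodule.Quotient.mk_eq_zero X2).2 b.2, map_zero, add_zero]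
    rfl
  have hv : v ∈ Submodule.compatibleMaps X2 X1 := by
    intro b hb
    show v b ∈ X1
    rw [hv1 ⟨b, hb⟩]
    exact (s ⟨b, hb⟩).2
  refine ⟨⟨v, hv⟩, ?_⟩
  refine Prod.ext ?_ ?_
  · ext b
    show v b = s b
    exact hv1 b
  · refine LinearMap.ext fun c => ?_
    obtain ⟨b, rfl⟩ := Submodule.Quotient.mk_surjective _ c
    show X1.mkQ (v b) = t (X2.mkQ b)
    simp only [v, LinearMap.add_apply, LinearMap.comp_apply, map_add, hσ']
    have h1 : X1.mkQ (X1.subtype (s (π b))) = 0 := by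
      simp
    rw [h1, zero_add]

theorem v2_prod (f h : CF F) (α : A ≃ₗ[F] A) (β : B ≃ₗ[F] B)
    (X1 : Stab α) (X2 : Stab β) (v : Submodule.compatibleMaps X2.1 X1.1) :
    v2 f h (tri α β v.1) (X2.1.prod X1.1) =
      f (X2.1 × X1.1) (tri (sub α X1) (sub β X2) (r1 X1.1 X2.1 v)) *
      h ((B ⧸ X2.1) × (A ⧸ X1.1)) (tri (quo α X1) (quo β X2) (r2 X1.1 X2.1 v)) := by
  have hst : (X2.1.prod X1.1).map (tri α β v.1 : (B × A) →ₗ[F] (B × A)) = X2.1.prod X1.1 :=
    (stable_prod_iff α β v.1 X1.1 X2.1).2 ⟨X1.2, X2.2, fun b hb => v.2 hb⟩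
  rw [v2, dif_pos hst]
  congr 1
  · let e : (X2.1.prod X1.1) ≃ₗ[F] (X2.1 × X1.1) :=
      { toFun := fun x => (⟨x.1.1, x.2.1⟩, ⟨x.1.2, x.2.2⟩)
        map_add' := fun x y => rfl
        map_smul' := fun c x => rfl
        invFun := fun y => ⟨(y.1.1, y.2.1), ⟨y.1.2, y.2.2⟩⟩
        left_inv := fun x => rfl
        right_inv := fun y => rfl }
    apply f.inv' _ _ e
    intro x
    rfl
  · have hker : X2.1.prod X1.1 = LinearMap.ker (X2.1.mkQ.prodMap X1.1.mkQ) := by
      rw [LinearMap.ker_prodMap, Submodule.ker_mkQ, Submodule.ker_mkQ]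
    have hsurj : Function.Surjective (X2.1.mkQ.prodMap X1.1.mkQ) := by
      rw [LinearMap.coe_prodMap]
      exact Function.Surjective.prodMap (Submodule.mkQ_surjective _) (Submodule.mkQ_surjective _)
    let e : ((B × A) ⧸ (X2.1.prod X1.1)) ≃ₗ[F] ((B ⧸ X2.1) × (A ⧸ X1.1)) :=
      (Submodule.quotEquivOfEq _ _ hker).trans
        (LinearMap.quotKerEquivOfSurjective _ hsurj)
    apply h.inv' _ _ e
    intro x
    obtain ⟨x, rfl⟩ := Submodule.Quotient.mk_surjective _ x
    show (X2.1.mkQ.prodMap X1.1.mkQ) (tri α β v.1 x) =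
      tri (quo α X1) (quo β X2) (r2 X1.1 X2.1 v) ((X2.1.mkQ.prodMap X1.1.mkQ) x)
    refine Prod.ext ?_ ?_
    · rfl
    · show X1.1.mkQ (α x.2 + v.1 x.1) = _
      rw [map_add]
      rfl

end AB
end HOPF

open HOPF CF in
theorem coprod_mul [Finite F] {A B : Type} [AddCommGroup A] [Module F A] [Finite A]
    [AddCommGroup B] [Module F B] [Finite B] (f h : CF F) (α : A ≃ₗ[F] A) (β : B ≃ₗ[F] B) :
    coprod (f * h) α β = ∑ᶠ W' : Stab α, ∑ᶠ W'' : Stab β,
      coprod f (sub α W') (sub β W'') * coprod h (quo α W') (quo β W'') := by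
  classical
  letI : Fintype (B →ₗ[F] A) := Fintype.ofFinite _
  letI : Fintype (Submodule F (B × A)) := Fintype.ofFinite _
  letI : Fintype (Submodule F A) := Fintype.ofFinite _
  letI : Fintype (Submodule F B) := Fintype.ofFinite _
  -- right hand side over all subspaces
  let T : Submodule F A → Submodule F B → ℂ := fun X1 X2 =>
    (∑ u : B →ₗ[F] A, v2 f h (tri α β u) (X2.prod X1)) / (N X1 X2 : ℂ)
  have hT0 : ∀ X1 X2, ¬ (X1.map (α : A →ₗ[F] A) = X1 ∧ X2.map (β : B →ₗ[F] B) = X2) →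
      T X1 X2 = 0 := by
    intro X1 X2 hX
    simp only [T]
    rw [Finset.sum_eq_zero, zero_div]
    intro u _
    rw [v2, dif_neg]
    intro h1
    rw [stable_prod_iff] at h1
    exact hX ⟨h1.1, h1.2.1⟩
  have hT1 : ∀ (X1 : Stab α) (X2 : Stab β), T X1.1 X2.1 =
      coprod f (sub α X1) (sub β X2) * coprod h (quo α X1) (quo β X2) := by
    intro X1 X2
    letI : Fintype (Submodule.compatibleMaps X2.1 X1.1) := Fintype.ofFinite _
    letI : Fintype (X2.1 →ₗ[F] X1.1) := Fintype.ofFinite _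
    letI : Fintype ((B ⧸ X2.1) →ₗ[F] (A ⧸ X1.1)) := Fintype.ofFinite _
    have hsum : (∑ u : B →ₗ[F] A, v2 f h (tri α β u) (X2.1.prod X1.1)) =
        ∑ v : Submodule.compatibleMaps X2.1 X1.1, v2 f h (tri α β v.1) (X2.1.prod X1.1) := by
      have e1 := @Finset.sum_subtype (B →ₗ[F] A) ℂ _
        (fun u => u ∈ Submodule.compatibleMaps X2.1 X1.1)
        (inferInstanceAs (Fintype (Submodule.compatibleMaps X2.1 X1.1)))
        (Finset.univ.filter
        (fun u : B →ₗ[F] A => u ∈ Submodule.compatibleMaps X2.1 X1.1)) (by simp)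
        (fun u => v2 f h (tri α β u) (X2.1.prod X1.1))
      rw [Finset.sum_filter] at e1
      refine Eq.trans ?_ e1
      apply Finset.sum_congr rfl
      intro u _
      split_ifs with hu
      · rfl
      · rw [v2, dif_neg]
        intro h1
        rw [stable_prod_iff] at h1
        exact hu (fun b hb => h1.2.2 b hb)
    have hN : N X1.1 X2.1 = Fintype.card (Submodule.compatibleMaps X2.1 X1.1) := by
      rw [← Nat.card_eq_fintype_card]
      rfl
    simp only [T]
    rw [hsum, hN, Finset.sum_congr rfl (fun v _ => v2_prod f h α β X1 X2 v)]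
    have h2 := avg_surj ((r1 X1.1 X2.1).prod (r2 X1.1 X2.1)) (r_surj X1.1 X2.1)
      (fun q => f (X2.1 × X1.1) (tri (sub α X1) (sub β X2) q.1) *
        h ((B ⧸ X2.1) × (A ⧸ X1.1)) (tri (quo α X1) (quo β X2) q.2))
    refine Eq.trans h2 ?_
    rw [coprod, coprod, finsum_eq_sum_of_fintype, finsum_eq_sum_of_fintype,
      Nat.card_eq_fintype_card, Nat.card_eq_fintype_card, Fintype.card_prod, Nat.cast_mul,
      div_mul_div_comm, Finset.sum_mul_sum, ← Finset.sum_product']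
    rfl
  have hL : coprod (f * h) α β = ∑ X1 : Submodule F A, ∑ X2 : Submodule F B, T X1 X2 := by
    rw [coprod, finsum_eq_sum_of_fintype, Nat.card_eq_fintype_card]
    have h1 : ∀ u : B →ₗ[F] A, (f * h) (B × A) (tri α β u) =
        ∑ W : Submodule F (B × A), v2 f h (tri α β u) W := by
      intro u
      rw [mul_eq, finsum_eq_sum_of_fintype]
    rw [Finset.sum_congr rfl (fun u _ => h1 u), double_count, mul_comm, mul_div_assoc,
      div_self (Nat.cast_ne_zero.2 Fintype.card_ne_zero), mul_one]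
  rw [hL]
  have h3 : ∀ X1 : Stab α, (∑ᶠ X2 : Stab β,
      coprod f (sub α X1) (sub β X2) * coprod h (quo α X1) (quo β X2)) =
      ∑ X2 : Submodule F B, T X1.1 X2 := by
    intro X1
    rw [← finsum_eq_sum_of_fintype, ← finsum_stab β (T X1.1)
      (fun X2 h2 => hT0 X1.1 X2 (fun h3 => h2 h3.2))]
    exact finsum_congr (fun X2 => (hT1 X1 X2).symm)
  rw [finsum_congr h3, ← finsum_eq_sum_of_fintype, ← finsum_stab α]
  intro X1 h4
  exact Finset.sum_eq_zero (fun X2 _ => hT0 X1 X2 (fun h5 => h4 h5.1))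

end Pool.Agent.REll
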