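import Pool.Agent.Lib_helper45.REll.Defs2
import Pool.Agent.Lib_helper3.Wedd

/-!
# Block RT1: ordinary character theory of a finite group
-/

open scoped BigOperators ComplexConjugate

namespace Pool.Agent.REll
namespace RT

open Pool.Agent.Lib_helper3

/-- traces of the powers of an operator of finite order -/
theorem trace_decomp {V : Type*} [AddCommGroup V] [Module ℂ V] [FiniteDimensional ℂ V]
    (f : V →ₗ[ℂ] V) (n : ℕ) (hn : 0 < n) (hf : f ^ n = 1) (z : ℂ) (hz : IsPrimitiveRoot z n) :
    ∃ m : ℕ → ℕ, ∀ j : ℕ, LinearMap.trace ℂ V (f ^ j) =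
      ∑ k ∈ Finset.range n, (m k : ℂ) * z ^ (k * j) := by
  have hn0 : (n : ℂ) ≠ 0 := by exact_mod_cast hn.ne'
  have hz0 : z ≠ 0 := hz.ne_zero hn.ne'
  have hzn : z ^ n = 1 := hz.pow_eq_one
  let P : ℕ → (V →ₗ[ℂ] V) := fun k => (n : ℂ)⁻¹ • ∑ i ∈ Finset.range n, (z⁻¹) ^ (i * k) • f ^ i
  have hshift : ∀ k, f * P k = z ^ k • P k := by
    intro k
    simp only [P]
    rw [mul_smul_comm, smul_comm (z ^ k)]
    congr 1
    rw [Finset.mul_sum, Finset.smul_sum]
    have hF : ∀ i, f * (z⁻¹ ^ (i * k) • f ^ i) = z ^ k • (z⁻¹ ^ ((i + 1) * k) • f ^ (i + 1)) := by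
      intro i
      rw [mul_smul_comm, smul_smul, ← pow_succ']
      congr 1
      rw [add_mul, one_mul, pow_add, mul_left_comm, ← mul_pow, mul_inv_cancel₀ hz0,
        one_pow, mul_one]
    rw [Finset.sum_congr rfl (fun i _ => hF i)]
    have h1 := Finset.sum_range_succ (fun i => z ^ k • (z⁻¹ ^ (i * k) • f ^ i)) n
    have h2 := Finset.sum_range_succ' (fun i => z ^ k • (z⁻¹ ^ (i * k) • f ^ i)) n
    rw [h1] at h2
    have h3 : z ^ k • (z⁻¹ ^ (n * k) • f ^ n) = z ^ k • (z⁻¹ ^ (0 * k) • f ^ 0) := by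
      rw [hf, pow_mul, inv_pow, hzn, zero_mul, pow_zero, pow_zero, inv_one, one_pow]
    rw [h3] at h2
    exact (add_right_cancel h2).symm
  have hpow : ∀ k j, f ^ j * P k = z ^ (k * j) • P k := by
    intro k j
    induction j with
    | zero => simp
    | succ j ih =>
      rw [pow_succ', mul_assoc, ih, mul_smul_comm, hshift, smul_smul, ← pow_add]
      congr 2
  have hidem : ∀ k, P k * P k = P k := by
    intro k
    conv_lhs => rw [show P k * P k = ((n : ℂ)⁻¹ • ∑ i ∈ Finset.range n,
      (z⁻¹) ^ (i * k) • f ^ i) * P k from rfl]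
    rw [smul_mul_assoc, Finset.sum_mul]
    have h1 : ∀ i ∈ Finset.range n, (z⁻¹ ^ (i * k) • f ^ i) * P k = P k := by
      intro i _
      rw [smul_mul_assoc, hpow, smul_smul, mul_comm k i, ← mul_pow, inv_mul_cancel₀ hz0,
        one_pow, one_smul]
    rw [Finset.sum_congr rfl h1, Finset.sum_const, Finset.card_range, ← Nat.cast_smul_eq_nsmul ℂ,
      smul_smul, inv_mul_cancel₀ hn0, one_smul]
  have hsum : ∑ k ∈ Finset.range n, P k = 1 := by
    simp only [P]
    rw [← Finset.smul_sum, Finset.sum_comm]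
    have h1 : ∀ i ∈ Finset.range n, (∑ k ∈ Finset.range n, z⁻¹ ^ (i * k) • f ^ i) =
        if i = 0 then (n : ℂ) • (1 : V →ₗ[ℂ] V) else 0 := by
      intro i hi
      rw [← Finset.sum_smul]
      split_ifs with h0
      · subst h0
        simp
      · have h2 : (z⁻¹ ^ i) ≠ 1 := by
          rw [inv_pow]
          intro h3
          rw [inv_eq_one] at h3
          exact hz.pow_ne_one_of_pos_of_lt h0 (Finset.mem_range.1 hi) h3
        have h4 : ∑ k ∈ Finset.range n, z⁻¹ ^ (i * k) = 0 := by
          have h5 := geom_sum_eq h2 n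
          have h6 : (z⁻¹ ^ i) ^ n = 1 := by
            rw [← pow_mul, mul_comm i n, pow_mul, inv_pow, hzn, inv_one, one_pow]
          rw [h6, sub_self, zero_div] at h5
          rw [← h5]
          apply Finset.sum_congr rfl
          intro k _
          rw [pow_mul]
        rw [h4, zero_smul]
    rw [Finset.sum_congr rfl h1, Finset.sum_ite_eq' (Finset.range n) 0,
      if_pos (Finset.mem_range.2 hn), smul_smul, inv_mul_cancel₀ hn0, one_smul]
  refine ⟨fun k => Module.finrank ℂ (LinearMap.range (P k)), fun j => ?_⟩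
  have h1 : f ^ j = ∑ k ∈ Finset.range n, z ^ (k * j) • P k := by
    conv_lhs => rw [← mul_one (f ^ j), ← hsum, Finset.mul_sum]
    exact Finset.sum_congr rfl (fun k _ => hpow k j)
  rw [h1, map_sum]
  apply Finset.sum_congr rfl
  intro k _
  rw [map_smul, trace_of_idem (P k) (fun x => congrArg (fun r : V →ₗ[ℂ] V => r x) (hidem k)),
    smul_eq_mul, mul_comm]

section
variable {Γ : Type} [Group Γ] [Finite Γ]
variable {X : Type*} [AddCommGroup X] [Module ℂ X] [FiniteDimensional ℂ X]

theorem char_decomp (ρ : Representation ℂ Γ X) (g : Γ) :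
    ∃ (n : ℕ) (z : ℂ) (m : ℕ → ℕ), 0 < n ∧ IsPrimitiveRoot z n ∧
      ∀ j : ℕ, ρ.character (g ^ j) = ∑ k ∈ Finset.range n, (m k : ℂ) * z ^ (k * j) := by
  have hn : 0 < orderOf g := orderOf_pos g
  have hf : (ρ g) ^ (orderOf g) = 1 := by
    rw [← map_pow, pow_orderOf_eq_one, map_one]
  have hz := Complex.isPrimitiveRoot_exp (orderOf g) hn.ne'
  obtain ⟨m, hm⟩ := trace_decomp (ρ g) (orderOf g) hn hf _ hz
  refine ⟨orderOf g, _, m, hn, hz, fun j => ?_⟩
  rw [← hm j, Representation.character, map_pow]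

theorem char_inv (ρ : Representation ℂ Γ X) (g : Γ) :
    ρ.character g⁻¹ = conj (ρ.character g) := by
  have hn : 0 < orderOf g := orderOf_pos g
  have hf : (ρ g) ^ (orderOf g) = 1 := by
    rw [← map_pow, pow_orderOf_eq_one, map_one]
  have hz := Complex.isPrimitiveRoot_exp (orderOf g) hn.ne'
  obtain ⟨m, hm⟩ := trace_decomp (ρ g) (orderOf g) hn hf _ hz
  set z := Complex.exp (2 * Real.pi * Complex.I / (orderOf g : ℕ)) with hzdef
  have hginv : g⁻¹ = g ^ (orderOf g - 1) := by
    rw [inv_eq_iff_mul_eq_one, ← pow_succ', Nat.sub_add_cancel hn, pow_orderOf_eq_one]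
  have h1 : ρ.character g = LinearMap.trace ℂ X (ρ g ^ 1) := by
    rw [pow_one]; rfl
  have h2 : ρ.character g⁻¹ = LinearMap.trace ℂ X (ρ g ^ (orderOf g - 1)) := by
    rw [hginv, Representation.character, map_pow]
  rw [h1, h2, hm, hm, map_sum]
  apply Finset.sum_congr rfl
  intro k _
  rw [map_mul, map_pow, Complex.conj_natCast]
  congr 1
  have h3 : conj z = z⁻¹ := by
    have h4 : ‖z‖ = 1 := hz.norm'_eq_one hn.ne'
    rw [Complex.inv_def, Complex.normSq_eq_norm_sq, h4]
    simp
  rw [h3, mul_one, mul_comm k, pow_mul]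
  congr 1
  apply eq_inv_of_mul_eq_one_left
  rw [← pow_succ, Nat.sub_add_cancel hn, hz.pow_eq_one]

end
end RT

open RT Pool.Agent.Lib_helper3

section RT
variable (Γ : Type) [Group Γ] [Finite Γ]

theorem irrChar_eq_range (W : WD Γ) :
    IrrChar Γ = Set.range (fun i : Fin W.n => fun g : Γ => W.tr i (o g)) := by
  ext χ
  constructor
  · rintro ⟨d, ρ, hρ, rfl⟩
    obtain ⟨i, ⟨e⟩⟩ := W.exists_equiv_of_irreducible ρ
    refine ⟨i, ?_⟩
    funext g
    rw [← Representation.char_iso e, W.rep_character]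
  · rintro ⟨i, rfl⟩
    refine ⟨W.d i, W.rep i, W.rep_irreducible i, ?_⟩
    funext g
    rw [W.rep_character]

theorem irrChar_finite : (IrrChar Γ).Finite := by
  obtain ⟨W⟩ := exists_WD Γ
  rw [irrChar_eq_range Γ W]
  exact Set.finite_range _

variable {Γ}

theorem gip_eq_sum [Fintype Γ] (f h : Γ → ℂ) :
    gip f h = (∑ g, f g * conj (h g)) / Nat.card Γ := by
  rw [gip, finsum_eq_sum_of_fintype]

theorem gip_char {X Y : Type} [AddCommGroup X] [Module ℂ X] [FiniteDimensional ℂ X]
    [AddCommGroup Y] [Module ℂ Y] [FiniteDimensional ℂ Y]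
    (ρ : Representation ℂ Γ X) (σ : Representation ℂ Γ Y) :
    gip ρ.character σ.character = Module.finrank ℂ (Representation.IntertwiningMap σ ρ) := by
  let _ : Fintype Γ := Fintype.ofFinite Γ
  have hne : (Nat.card Γ : ℂ) ≠ 0 := by
    rw [Nat.card_eq_fintype_card]; exact_mod_cast Fintype.card_ne_zero
  let _ : Invertible (Nat.card Γ : ℂ) := invertibleOfNonzero hne
  rw [← Representation.card_inv_mul_sum_char_mul_char_eq_finrank, gip_eq_sum, div_eq_inv_mul]
  congr 1
  apply Finset.sum_congr rfl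
  intro g _
  rw [char_inv]

theorem gip_nat {X Y : Type} [AddCommGroup X] [Module ℂ X] [FiniteDimensional ℂ X]
    [AddCommGroup Y] [Module ℂ Y] [FiniteDimensional ℂ Y]
    (ρ : Representation ℂ Γ X) (σ : Representation ℂ Γ Y) :
    ∃ m : ℕ, gip ρ.character σ.character = m := ⟨_, gip_char ρ σ⟩

theorem irrChar_ortho {χ ψ : Γ → ℂ} (hχ : χ ∈ IrrChar Γ) (hψ : ψ ∈ IrrChar Γ) [Decidable (χ = ψ)] :
    gip χ ψ = if χ = ψ then 1 else 0 := by
  obtain ⟨d, ρ, hρ, rfl⟩ := hχ
  obtain ⟨d', σ, hσ, rfl⟩ := hψ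
  split_ifs with h
  · rw [← h, gip_char]
    rw [Representation.IsIrreducible.finrank_intertwiningMap_self]
    simp
  · rw [gip_char]
    have hE : IsEmpty (Representation.Equiv σ ρ) := by
      constructor
      intro e
      exact h (Representation.char_iso e).symm
    rw [Module.finrank_zero_of_subsingleton]
    simp

theorem tr_injective (W : WD Γ) :
    Function.Injective (fun i : Fin W.n => fun g : Γ => W.tr i (o g)) := by
  intro i j hij
  by_contra hne
  have h1 : ∀ x : MonoidAlgebra ℂ Γ, W.tr i x = W.tr j x := by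
    intro x
    induction x using alg_induction with
    | h1 g => exact congrFun hij g
    | hadd x y hx hy => rw [map_add, map_add, hx, hy]
    | hsmul a x hx => rw [map_smul, map_smul, hx]
  have : Nonempty (Fin (W.d i)) := ⟨⟨0, W.dpos i⟩⟩
  obtain ⟨k⟩ := this
  obtain ⟨x, hx⟩ := W.exists_block i (Matrix.single k k 1)
  have h4 := h1 x
  rw [WD.tr_apply, WD.tr_apply, hx, Pi.single_eq_same, Matrix.trace_single_eq_same,
    Pi.single_eq_of_ne (Ne.symm hne), Matrix.trace_zero] at h4
  exact one_ne_zero h4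

theorem irrChar_complete (f : Γ → ℂ) (hf : ∀ x g, f (x * g * x⁻¹) = f g) :
    f = ∑ χ ∈ (irrChar_finite Γ).toFinset, gip f χ • χ := by
  classical
  let _ : Fintype Γ := Fintype.ofFinite Γ
  have hne : (Nat.card Γ : ℂ) ≠ 0 := by
    rw [Nat.card_eq_fintype_card]; exact_mod_cast Fintype.card_ne_zero
  obtain ⟨W⟩ := exists_WD Γ
  have h1 : (irrChar_finite Γ).toFinset =
      Finset.univ.image (fun i : Fin W.n => fun g : Γ => W.tr i (o g)) := by
    ext χ
    rw [Set.Finite.mem_toFinset, irrChar_eq_range Γ W]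
    simp
  rw [h1, Finset.sum_image (fun i _ j _ h => tr_injective W h)]
  funext h
  rw [Finset.sum_apply]
  simp only [Pi.smul_apply, smul_eq_mul, gip_eq_sum]
  have hconj : ∀ (i : Fin W.n) (g : Γ), conj (W.tr i (o g)) = W.tr i (o g⁻¹) := by
    intro i g
    rw [← W.rep_character, ← W.rep_character, char_inv]
  simp only [hconj]
  calc f h = (Nat.card Γ : ℂ)⁻¹ * ∑ g : Γ, f g *
          ((Finset.univ.filter fun x : Γ => g⁻¹ * x * h = x).card : ℂ) := by
        have h2 : ∀ g : Γ, f g *
            ((Finset.univ.filter fun x : Γ => g⁻¹ * x * h = x).card : ℂ)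
            = ∑ x : Γ, if g = x * h * x⁻¹ then f h else 0 := by
          intro g
          rw [Finset.card_filter, Nat.cast_sum, Finset.mul_sum]
          refine Finset.sum_congr rfl fun x _ => ?_
          have h3 : g⁻¹ * x * h = x ↔ g = x * h * x⁻¹ := by
            rw [mul_assoc, inv_mul_eq_iff_eq_mul, eq_mul_inv_iff_mul_eq, eq_comm]
          by_cases hg : g = x * h * x⁻¹
          · rw [if_pos (h3.2 hg), if_pos hg, Nat.cast_one, mul_one, hg, hf]
          · rw [if_neg (fun h' => hg (h3.1 h')), if_neg hg, Nat.cast_zero, mul_zero]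
        rw [Finset.sum_congr rfl fun g _ => h2 g, Finset.sum_comm]
        simp only [Finset.sum_ite_eq', Finset.mem_univ, if_true, Finset.sum_const,
          Finset.card_univ, nsmul_eq_mul]
        rw [Nat.card_eq_fintype_card, ← mul_assoc, inv_mul_cancel₀, one_mul]
        rw [← Nat.card_eq_fintype_card]; exact hne
    _ = (Nat.card Γ : ℂ)⁻¹ * ∑ g : Γ, f g *
          ∑ i, W.tr i (o g⁻¹) * W.tr i (o h) := by
        congr 1
        refine Finset.sum_congr rfl fun g _ => ?_
        rw [W.sum_tr_mul_tr]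
    _ = _ := by
        simp_rw [Finset.mul_sum]
        rw [Finset.sum_comm]
        refine Finset.sum_congr rfl fun i _ => ?_
        rw [Finset.sum_div, Finset.sum_mul]
        refine Finset.sum_congr rfl fun g _ => ?_
        ring

theorem character_isIntegral {X : Type} [AddCommGroup X] [Module ℂ X] [FiniteDimensional ℂ X]
    (ρ : Representation ℂ Γ X) (g : Γ) : IsIntegral ℤ (ρ.character g) := by
  obtain ⟨n, z, m, hn, hz, hm⟩ := char_decomp ρ g
  have h1 := hm 1
  rw [pow_one] at h1
  rw [h1]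
  apply IsIntegral.sum
  intro k _
  apply IsIntegral.mul
  · exact isIntegral_algebraMap (R := ℤ) (x := (m k : ℤ)) |> fun h => by simpa using h
  · apply IsIntegral.pow
    exact hz.isIntegral hn

/-- the trivial character is irreducible -/
theorem one_mem_irrChar : (fun _ : Γ => (1 : ℂ)) ∈ IrrChar Γ := by
  refine ⟨1, Representation.trivial ℂ Γ (Fin 1 → ℂ), ?_, ?_⟩
  · have hnt : Nontrivial (Subrepresentation (Representation.trivial ℂ Γ (Fin 1 → ℂ))) := by
      refine ⟨⊥, ⊤, fun h => ?_⟩
      have h2 : (⊥ : Submodule ℂ (Fin 1 → ℂ)) = ⊤ :=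
        congrArg Subrepresentation.toSubmodule h
      exact bot_ne_top h2
    refine { toNontrivial := hnt, eq_bot_or_eq_top := fun S => ?_ }
    by_cases hS : S.toSubmodule = ⊥
    · left
      exact Subrepresentation.toSubmodule_injective hS
    · right
      apply Subrepresentation.toSubmodule_injective
      change S.toSubmodule = ⊤
      apply Submodule.eq_top_of_finrank_eq
      have h1 := Submodule.finrank_le S.toSubmodule
      have h2 : Module.finrank ℂ S.toSubmodule ≠ 0 := fun h3 =>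
        hS (Submodule.finrank_eq_zero.1 h3)
      rw [Module.finrank_fin_fun] at h1 ⊢
      omega
  · funext g
    rw [Representation.character]
    simp

end RT

end Pool.Agent.REll
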