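import Pool.Agent.Lib_helper39.TP.Stmt

/-!
MP_3b4c52_gt, block G1: graph charts of an embedded compact manifold.
-/

open Module Metric Set Filter Topology CategoryTheory
open scoped ContDiff Quaternion Manifold Matrix

noncomputable section
namespace Pool.Agent.TP

/-- a linear isomorphism `V × W ≃ E` extending an injective `A : V → E`. -/
theorem exists_equiv_extending {V W E : Type} [NormedAddCommGroup V] [NormedSpace ℝ V]
    [FiniteDimensional ℝ V] [NormedAddCommGroup W] [NormedSpace ℝ W] [FiniteDimensional ℝ W]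
    [NormedAddCommGroup E] [NormedSpace ℝ E] [FiniteDimensional ℝ E]
    (A : V →L[ℝ] E) (hA : Function.Injective A)
    (hdim : finrank ℝ V + finrank ℝ W = finrank ℝ E) :
    ∃ Θ : (V × W) ≃L[ℝ] E, ∀ v, Θ (v, 0) = A v := by
  obtain ⟨Q, hQ⟩ := Submodule.exists_isCompl (LinearMap.range (A : V →ₗ[ℝ] E))
  have h1 : finrank ℝ (LinearMap.range (A : V →ₗ[ℝ] E)) = finrank ℝ V :=
    LinearMap.finrank_range_of_inj hA
  have h2 := Submodule.finrank_add_eq_of_isCompl hQ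
  have h3 : finrank ℝ W = finrank ℝ Q := by omega
  let eA : V ≃ₗ[ℝ] LinearMap.range (A : V →ₗ[ℝ] E) := LinearEquiv.ofInjective _ hA
  let eQ : W ≃ₗ[ℝ] Q := LinearEquiv.ofFinrankEq W Q h3
  let e : (V × W) ≃ₗ[ℝ] E := (LinearEquiv.prodCongr eA eQ).trans
    (Submodule.prodEquivOfIsCompl _ _ hQ)
  refine ⟨e.toContinuousLinearEquiv, fun v => ?_⟩
  change e (v, 0) = A v
  simp [e, eA]

theorem graphChart_of_param {d : ℕ} {E : Type} [NormedAddCommGroup E] [NormedSpace ℝ E]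
    [FiniteDimensional ℝ E] (hE : finrank ℝ E = 3 * d + 2) (S : Set E)
    (F : Vd (2 * d) → E) (U : Set (Vd (2 * d))) (hU : IsOpen U) (e₀ : Vd (2 * d)) (he : e₀ ∈ U)
    (hF : ContDiffOn ℝ ∞ F U) (hinj : Function.Injective (fderiv ℝ F e₀))
    (hS : ∀ e ∈ U, F e ∈ S)
    (hcov : ∀ N ∈ 𝓝 e₀, ∃ δ > 0, ∀ x ∈ S, dist x (F e₀) < δ → ∃ e ∈ N, e ∈ U ∧ x = F e) :
    Nonempty (GraphChart d S (F e₀)) := by
  classical
  obtain ⟨Θ, hΘ⟩ := exists_equiv_extending (W := Vd (d + 2)) (fderiv ℝ F e₀) hinj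
    (by simp [Vd, hE]; omega)
  set p : E := F e₀ with hp
  let π₁ : E →L[ℝ] Vd (2 * d) := (ContinuousLinearMap.fst ℝ (Vd (2 * d)) (Vd (d + 2))).comp
    (Θ.symm : E →L[ℝ] Vd (2 * d) × Vd (d + 2))
  let π₂ : E →L[ℝ] Vd (d + 2) := (ContinuousLinearMap.snd ℝ (Vd (2 * d)) (Vd (d + 2))).comp
    (Θ.symm : E →L[ℝ] Vd (2 * d) × Vd (d + 2))
  have hπ₁ : ∀ v, π₁ (fderiv ℝ F e₀ v) = v := fun v => by
    simp only [π₁, ContinuousLinearMap.comp_apply, ← hΘ v]
    simp
  have hπ₂ : ∀ v, π₂ (fderiv ℝ F e₀ v) = 0 := fun v => by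
    simp only [π₂, ContinuousLinearMap.comp_apply, ← hΘ v]
    simp
  have hrec : ∀ y, Θ (π₁ y, π₂ y) = y := fun y => by
    have : (π₁ y, π₂ y) = Θ.symm y := rfl
    rw [this, Θ.apply_symm_apply]
  -- the map `G`
  let G : Vd (2 * d) → Vd (2 * d) := fun e => π₁ (F e - p)
  have hFat : ∀ e ∈ U, ContDiffAt ℝ ∞ F e := fun e he => hF.contDiffAt (hU.mem_nhds he)
  have hG : ∀ e ∈ U, ContDiffAt ℝ ∞ G e := fun e he =>
    π₁.contDiff.contDiffAt.comp e ((hFat e he).sub contDiffAt_const)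
  have hGon : ContDiffOn ℝ ∞ G U := fun e he => (hG e he).contDiffWithinAt
  have hdF : ∀ e ∈ U, HasFDerivAt F (fderiv ℝ F e) e := fun e he =>
    ((hFat e he).differentiableAt (by simp)).hasFDerivAt
  have hdG : ∀ e ∈ U, HasFDerivAt G (π₁.comp (fderiv ℝ F e)) e := fun e he =>
    π₁.hasFDerivAt.comp e ((hdF e he).sub_const p)
  have hG0 : HasFDerivAt G ((ContinuousLinearEquiv.refl ℝ (Vd (2 * d)) :
      Vd (2 * d) ≃L[ℝ] Vd (2 * d)) : Vd (2 * d) →L[ℝ] Vd (2 * d)) e₀ := by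
    have := hdG e₀ he
    convert this using 1
    ext v : 1
    simp [hπ₁ v]
  have hGe : G e₀ = 0 := by simp [G, hp]
  let H := (hG e₀ he).toOpenPartialHomeomorph G hG0 (by simp)
  have hHcoe : ∀ e, H e = G e := fun e => rfl
  have hes : e₀ ∈ H.source := (hG e₀ he).mem_toOpenPartialHomeomorph_source hG0 (by simp)
  have h0t : (0 : Vd (2 * d)) ∈ H.target := by
    have := (hG e₀ he).image_mem_toOpenPartialHomeomorph_target hG0 (by simp)
    rwa [hGe] at this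
  have hHe : H.symm 0 = e₀ := by
    rw [← hGe, ← hHcoe]
    exact H.left_inv hes
  -- the set where the derivative is invertible
  have hinv : ∀ᶠ e in 𝓝 e₀, fderiv ℝ G e ∈ range ((↑) : (Vd (2 * d) ≃L[ℝ] Vd (2 * d)) →
      (Vd (2 * d) →L[ℝ] Vd (2 * d))) := by
    have hc : ContinuousAt (fderiv ℝ G) e₀ :=
      ((hG e₀ he).fderiv_right (m := 0) (by simp)).continuousAt
    apply hc
    have h1 : fderiv ℝ G e₀ = ((ContinuousLinearEquiv.refl ℝ (Vd (2 * d)) :
      Vd (2 * d) ≃L[ℝ] Vd (2 * d)) : Vd (2 * d) →L[ℝ] Vd (2 * d)) := hG0.fderiv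
    rw [h1]
    exact ContinuousLinearEquiv.nhds _
  have hev : ∀ᶠ z in 𝓝 (0 : Vd (2 * d)), z ∈ H.target ∧ H.symm z ∈ U ∧
      fderiv ℝ G (H.symm z) ∈ range ((↑) : (Vd (2 * d) ≃L[ℝ] Vd (2 * d)) →
      (Vd (2 * d) →L[ℝ] Vd (2 * d))) := by
    have hcs : Tendsto H.symm (𝓝 0) (𝓝 e₀) := by
      have := H.continuousAt_symm h0t
      rw [ContinuousAt, hHe] at this
      exact this
    have ht : ∀ᶠ z in 𝓝 (0 : Vd (2 * d)), z ∈ H.target := H.open_target.mem_nhds h0t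
    have hu : ∀ᶠ e in 𝓝 e₀, e ∈ U := hU.mem_nhds he
    exact ht.and ((hcs.eventually hu).and (hcs.eventually hinv))
  obtain ⟨ρ, hρ, hball⟩ := Metric.eventually_nhds_iff_ball.1 hev
  have hsm : ∀ z ∈ ball (0 : Vd (2 * d)) ρ, ContDiffAt ℝ ∞ H.symm z := by
    intro z hz
    obtain ⟨h1, h2, e', h3⟩ := hball z hz
    refine H.contDiffAt_symm (f₀' := e') h1 ?_ ?_
    · have := (hdG _ h2).differentiableAt.hasFDerivAt
      rw [← h3] at this
      exact this
    · exact hG _ h2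
  -- the function
  let g₀ : Vd (2 * d) → Vd (d + 2) := fun z => π₂ (F (H.symm z) - p)
  have hg₀ : ∀ z ∈ ball (0 : Vd (2 * d)) ρ, ContDiffAt ℝ ∞ g₀ z := by
    intro z hz
    have h2 := (hball z hz).2.1
    exact π₂.contDiff.contDiffAt.comp z
      ((ContDiffAt.comp z (hFat _ h2) (hsm z hz)).sub contDiffAt_const)
  have hval : ∀ z ∈ ball (0 : Vd (2 * d)) ρ, p + Θ (z, g₀ z) = F (H.symm z) := by
    intro z hz
    have h1 : π₁ (F (H.symm z) - p) = z := by
      have := H.right_inv (hball z hz).1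
      rw [hHcoe] at this
      exact this
    have : ((z, g₀ z) : Vd (2 * d) × Vd (d + 2)) = (π₁ (F (H.symm z) - p), π₂ (F (H.symm z) - p)) := by
      rw [h1]
    rw [this, hrec]
    abel
  -- cutoff
  let b : ContDiffBump (0 : Vd (2 * d)) := ⟨ρ / 4, ρ / 2, by positivity, by linarith⟩
  let g : Vd (2 * d) → Vd (d + 2) := fun z => b z • g₀ z
  have hgsm : ContDiff ℝ ∞ g := by
    rw [contDiff_iff_contDiffAt]
    intro z
    by_cases hz : z ∈ ball (0 : Vd (2 * d)) ρ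
    · exact b.contDiffAt.smul (hg₀ z hz)
    · have : g =ᶠ[𝓝 z] fun _ => 0 := by
        have hz' : z ∈ (closedBall (0 : Vd (2 * d)) (ρ / 2))ᶜ := by
          intro h
          apply hz
          rw [mem_closedBall] at h
          rw [mem_ball]
          linarith
        filter_upwards [isClosed_closedBall.isOpen_compl.mem_nhds hz'] with y hy
        have : b y = 0 := by
          apply b.zero_of_le_dist
          have : ¬ (dist y 0 ≤ ρ / 2) := hy
          change ρ / 2 ≤ dist y 0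
          linarith
        simp [g, this]
      exact contDiffAt_const.congr_of_eventuallyEq this
  have hgeq : ∀ z ∈ ball (0 : Vd (2 * d)) (ρ / 4), g z = g₀ z := by
    intro z hz
    have : b z = 1 := b.one_of_mem_closedBall (ball_subset_closedBall hz)
    simp [g, this]
  have hsub : ∀ z ∈ ball (0 : Vd (2 * d)) (ρ / 4), z ∈ ball (0 : Vd (2 * d)) ρ := by
    intro z hz
    exact ball_subset_ball (by linarith) hz
  have hgev : g =ᶠ[𝓝 0] g₀ := by
    filter_upwards [ball_mem_nhds (0 : Vd (2 * d)) (by positivity : (0 : ℝ) < ρ / 4)] with z hz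
    exact hgeq z hz
  refine ⟨⟨Θ, g, ρ / 4, by positivity, hgsm, ?_, ?_, ?_, ?_⟩⟩
  · rw [hgev.self_of_nhds]
    simp [g₀, hHe, hp]
  · rw [hgev.fderiv_eq]
    have h1 : HasFDerivAt g₀ (π₂.comp ((fderiv ℝ F (H.symm 0)).comp (fderiv ℝ H.symm 0))) 0 := by
      have hs : HasFDerivAt H.symm (fderiv ℝ H.symm 0) 0 :=
        ((hsm 0 (mem_ball_self hρ)).differentiableAt (by simp)).hasFDerivAt
      have hF0 : HasFDerivAt F (fderiv ℝ F (H.symm 0)) (H.symm 0) := by
        rw [hHe]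
        exact hdF e₀ he
      exact π₂.hasFDerivAt.comp 0 ((hF0.comp 0 hs).sub_const p)
    rw [h1.fderiv, hHe]
    ext v : 1
    simp [hπ₂]
  · intro z hz
    rw [hgeq z hz, hval z (hsub z hz)]
    exact hS _ (hball z (hsub z hz)).2.1
  · intro r hr
    set r' := min r (ρ / 4) with hr'
    have hr'0 : 0 < r' := lt_min hr (by positivity)
    have hN : H.source ∩ G ⁻¹' ball 0 r' ∈ 𝓝 e₀ := by
      refine inter_mem (H.open_source.mem_nhds hes) ?_
      have hc : ContinuousAt G e₀ := (hG e₀ he).continuousAt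
      apply hc
      rw [hGe]
      exact ball_mem_nhds 0 hr'0
    obtain ⟨δ, hδ, hδ'⟩ := hcov _ hN
    refine ⟨δ, hδ, fun x hx hxp => ?_⟩
    obtain ⟨e, ⟨h1, h2⟩, h3, rfl⟩ := hδ' x hx hxp
    refine ⟨G e, ball_subset_ball (min_le_left _ _) h2, ?_⟩
    have h4 : G e ∈ ball (0 : Vd (2 * d)) (ρ / 4) := ball_subset_ball (min_le_right _ _) h2
    rw [hgeq _ h4, hval _ (hsub _ h4), ← hHcoe, H.left_inv h1]

/-- (G1) graph charts -/
theorem exists_graphChart {d : ℕ} (M : Type) [TopologicalSpace M] [CompactSpace M] [T2Space M]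
    [ChartedSpace (EuclideanSpace ℝ (Fin (2 * d))) M] [IsManifold (𝓡 (2 * d)) ∞ M]
    (f : M → EuclideanSpace ℝ (Fin (3 * d + 2))) (hf : IsSmoothEmb (n := 2 * d) f) :
    ∀ p ∈ Set.range f, Nonempty (GraphChart d (Set.range f) p) := by
  rintro _ ⟨x₀, rfl⟩
  obtain ⟨hsm, hinj, himm⟩ := hf
  set φ := extChartAt (𝓡 (2 * d)) x₀ with hφ
  have hx₀ : φ.symm (φ x₀) = x₀ := extChartAt_to_inv x₀
  let F : Vd (2 * d) → EuclideanSpace ℝ (Fin (3 * d + 2)) := f ∘ φ.symm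
  have hFx : F (φ x₀) = f x₀ := by simp [F, hx₀]
  have hopen : IsOpen φ.target := isOpen_extChartAt_target x₀
  have hF : ContDiffOn ℝ ∞ F φ.target := by
    rw [← contMDiffOn_iff_contDiffOn]
    exact hsm.comp_contMDiffOn (contMDiffOn_extChartAt_symm x₀)
  have hmd : MDifferentiableAt (𝓡 (2 * d)) (𝓡 (3 * d + 2)) f x₀ :=
    (hsm x₀).mdifferentiableAt (by simp)
  have hder : mfderiv (𝓡 (2 * d)) (𝓡 (3 * d + 2)) f x₀ = fderiv ℝ F (φ x₀) := by
    rw [hmd.mfderiv]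
    simp only [ModelWithCorners.range_eq_univ, fderivWithin_univ]
    rfl
  have hcov : ∀ N ∈ 𝓝 (φ x₀), ∃ δ > 0, ∀ x ∈ range f, dist x (F (φ x₀)) < δ →
      ∃ e ∈ N, e ∈ φ.target ∧ x = F e := by
    intro N hN
    have hemb : IsEmbedding f := (hsm.continuous.isClosedEmbedding hinj).isEmbedding
    have h1 : φ.source ∩ φ ⁻¹' N ∈ 𝓝 x₀ :=
      inter_mem (extChartAt_source_mem_nhds x₀) ((continuousAt_extChartAt x₀) hN)
    rw [hemb.isInducing.nhds_eq_comap, Filter.mem_comap] at h1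
    obtain ⟨t, ht, hsub⟩ := h1
    obtain ⟨δ, hδ, hball⟩ := Metric.mem_nhds_iff.1 ht
    refine ⟨δ, hδ, ?_⟩
    rintro _ ⟨m, rfl⟩ hm
    rw [hFx] at hm
    have h2 := hsub (hball hm)
    refine ⟨φ m, h2.2, φ.map_source h2.1, ?_⟩
    simp [F, φ.left_inv h2.1]
  have := graphChart_of_param (d := d) (by simp) (range f) F φ.target hopen (φ x₀)
    (mem_extChartAt_target x₀) hF (by rw [← hder]; exact himm x₀)
    (fun e _ => ⟨_, rfl⟩) hcov
  rwa [hFx] at this

end Pool.Agent.TP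
end
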