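import Pool.Agent.Lib_helper55.ABEntropyProof

/-!
# (a,b)-continued fraction maps: laps on [-1,1] and the entropy (MP_c34b65_an)
-/

open Filter Topology

namespace Pool.Agent.Lib_helper55.ABEntropy

/-! ## The homeomorphism `k` -/

theorem abs_k_lt (x : ℝ) : |k x| < 1 := by
  unfold k
  rw [abs_div, abs_of_pos (show (0 : ℝ) < 1 + |x| by positivity), div_lt_one (by positivity)]
  linarith [abs_nonneg x]

theorem k_mem (x : ℝ) : k x ∈ Set.Ioo (-1 : ℝ) 1 := abs_lt.1 (abs_k_lt x)

theorem kinv_k (x : ℝ) : kinv (k x) = x := by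
  unfold kinv
  have h : (0 : ℝ) < 1 + |x| := by positivity
  have h1 : |k x| = |x| / (1 + |x|) := by
    unfold k
    rw [abs_div, abs_of_pos h]
  rw [h1]
  unfold k
  have h2 : 1 - |x| / (1 + |x|) = 1 / (1 + |x|) := by field_simp; ring
  rw [h2]
  field_simp

theorem k_kinv {y : ℝ} (hy : y ∈ Set.Ioo (-1 : ℝ) 1) : k (kinv y) = y := by
  have h : |y| < 1 := abs_lt.2 hy
  have h0 : 0 < 1 - |y| := by linarith
  have h1 : |kinv y| = |y| / (1 - |y|) := by
    unfold kinv
    rw [abs_div, abs_of_pos h0]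
  unfold k
  rw [h1]
  have h2 : 1 + |y| / (1 - |y|) = 1 / (1 - |y|) := by field_simp; ring
  rw [h2]
  unfold kinv
  field_simp

theorem k_injective : Function.Injective k := fun x y h => by
  rw [← kinv_k x, ← kinv_k y, h]

theorem k_zero : k 0 = 0 := by simp [k]

theorem ftilde_k {a b x : ℝ} (hx : x ≠ 0) : ftilde a b (k x) = k (f a b x) := by
  have h := k_mem x
  have h0 : k x ≠ 0 := fun e => hx (k_injective (by rw [e, k_zero]))
  unfold ftilde
  rw [if_neg (not_le.2 h.1), if_neg (not_le.2 h.2), if_neg (fun e => h0 e.1), kinv_k]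

theorem ftilde_iterate {a b x : ℝ} (i : ℕ) (h : ∀ j < i, (f a b)^[j] x ≠ 0) :
    (ftilde a b)^[i] (k x) = k ((f a b)^[i] x) := by
  induction i with
  | zero => rfl
  | succ i ih =>
    rw [Function.iterate_succ_apply', Function.iterate_succ_apply',
      ih fun j hj => h j (by omega), ftilde_k (h i (by omega))]

theorem mem_cut_iff {a b x : ℝ} : k x ∈ ({k a, 0, k b} : Set ℝ) ↔ x ∈ ({a, 0, b} : Set ℝ) := by
  simp only [Set.mem_insert_iff, Set.mem_singleton_iff]
  rw [k_injective.eq_iff, k_injective.eq_iff]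
  have : k x = 0 ↔ x = 0 := by
    constructor
    · intro h
      exact k_injective (h.trans k_zero.symm)
    · rintro rfl
      exact k_zero
  rw [this]

theorem D_eq (a b : ℝ) (n : ℕ) : D a b n = k '' Dr a b n := by
  ext y
  constructor
  · rintro ⟨hy, hex⟩
    refine ⟨kinv y, ?_, k_kinv hy⟩
    obtain ⟨x, rfl⟩ : ∃ x, y = k x := ⟨kinv y, (k_kinv hy).symm⟩
    rw [kinv_k]
    classical
    let j := Nat.find hex
    obtain ⟨hj, hjc⟩ := Nat.find_spec hex
    have key : ∀ i ≤ j, ∀ i' < i, (f a b)^[i'] x ≠ 0 := by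
      intro i
      induction i with
      | zero => intro _ i' hi'; omega
      | succ i ih =>
        intro hij i' hi'
        rcases Nat.lt_succ_iff_lt_or_eq.1 hi' with h | h
        · exact ih (by omega) i' h
        · subst h
          intro h0
          have h1 := ftilde_iterate (a := a) (b := b) (x := x) i' (ih (by omega))
          apply Nat.find_min hex (m := i') (by omega)
          refine ⟨by omega, ?_⟩
          rw [h1, h0, k_zero]
          simp
    have h1 := ftilde_iterate (a := a) (b := b) (x := x) j (key j le_rfl)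
    refine ⟨j, hj, ?_⟩
    have h2 : (ftilde a b)^[j] (k x) ∈ ({k a, 0, k b} : Set ℝ) := hjc
    rw [h1] at h2
    exact mem_cut_iff.1 h2
  · rintro ⟨x, hex, rfl⟩
    refine ⟨k_mem x, ?_⟩
    classical
    have hex' : ∃ j, j < n ∧ (f a b)^[j] x ∈ ({a, 0, b} : Set ℝ) := hex
    let j := Nat.find hex'
    obtain ⟨hj, hjc⟩ := Nat.find_spec hex'
    have hmin : ∀ i < j, (f a b)^[i] x ≠ 0 := by
      intro i hi h
      exact Nat.find_min hex' hi ⟨hi.trans hj, by rw [h]; simp⟩
    refine ⟨j, hj, ?_⟩
    rw [ftilde_iterate j hmin]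
    exact mem_cut_iff.2 hjc

/-! ## Counting components -/

theorem card_components {D : Set ℝ} (hD : D.Finite) (hDI : D ⊆ Set.Ioo (-1 : ℝ) 1) :
    Nat.card (ConnectedComponents ↥(Set.Ioo (-1 : ℝ) 1 \ D)) = D.ncard + 1 := by
  classical
  -- separation by a point of `D`
  have sep : ∀ (x y : ↥(Set.Ioo (-1 : ℝ) 1 \ D)), ∀ d ∈ D, x.1 < d → d < y.1 →
      connectedComponent x ≠ connectedComponent y := by
    intro x y d hd hxd hdy h
    have hclopen : IsClopen {z : ↥(Set.Ioo (-1 : ℝ) 1 \ D) | z.1 < d} := by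
      constructor
      · have : {z : ↥(Set.Ioo (-1 : ℝ) 1 \ D) | z.1 < d} =
            {z : ↥(Set.Ioo (-1 : ℝ) 1 \ D) | z.1 ≤ d} := by
          ext z
          constructor
          · intro hz
            have hz' : z.1 < d := hz
            exact hz'.le
          · intro hz
            have hz' : z.1 ≤ d := hz
            have hz'' : z.1 ≠ d := fun e => z.2.2 (e ▸ hd)
            exact lt_of_le_of_ne hz' hz''
        rw [this]
        exact isClosed_le continuous_subtype_val continuous_const
      · exact isOpen_lt continuous_subtype_val continuous_const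
    have h1 := hclopen.connectedComponent_subset (x := x) hxd
    have h2 : y ∈ connectedComponent x := h ▸ mem_connectedComponent
    have h3 : y.1 < d := h1 h2
    linarith
  -- no point of `D` between implies the same component
  have same : ∀ (x y : ↥(Set.Ioo (-1 : ℝ) 1 \ D)), x.1 ≤ y.1 →
      (∀ d ∈ D, ¬ (x.1 < d ∧ d < y.1)) → connectedComponent x = connectedComponent y := by
    intro x y hxy hno
    have hsub : Set.Icc x.1 y.1 ⊆ Set.Ioo (-1 : ℝ) 1 \ D := by
      intro z hz
      refine ⟨⟨lt_of_lt_of_le x.2.1.1 hz.1, lt_of_le_of_lt hz.2 y.2.1.2⟩, fun hzD => ?_⟩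
      refine hno z hzD ⟨lt_of_le_of_ne hz.1 ?_, lt_of_le_of_ne hz.2 ?_⟩
      · rintro e; exact x.2.2 (e ▸ hzD)
      · rintro e; exact y.2.2 (e ▸ hzD)
    have hpre : IsPreconnected ((Subtype.val : ↥(Set.Ioo (-1 : ℝ) 1 \ D) → ℝ) ⁻¹'
        Set.Icc x.1 y.1) := by
      rw [← Topology.IsInducing.subtypeVal.isPreconnected_image]
      rw [Set.image_preimage_eq_inter_range, Subtype.range_coe,
        Set.inter_eq_left.2 hsub]
      exact isPreconnected_Icc
    have h1 := hpre.subset_connectedComponent (x := x) ⟨le_rfl, hxy⟩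
    have h2 : y ∈ connectedComponent x := h1 ⟨hxy, le_rfl⟩
    exact connectedComponent_eq h2
  let F : Finset ℝ := hD.toFinset
  let c : ℝ → ℕ := fun x => (F.filter (fun d => d < x)).card
  have hFcard : D.ncard = F.card := Set.ncard_eq_toFinset_card D hD
  have hc : ∀ x, c x < D.ncard + 1 := by
    intro x
    have h1 : c x ≤ F.card := Finset.card_filter_le _ _
    omega
  -- equal counts implies the same component
  have hcount : ∀ (x y : ↥(Set.Ioo (-1 : ℝ) 1 \ D)), x.1 ≤ y.1 → c x.1 = c y.1 →
      connectedComponent x = connectedComponent y := by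
    intro x y hxy hcxy
    apply same x y hxy
    rintro d hd ⟨h1, h2⟩
    have : c x.1 < c y.1 := by
      apply Finset.card_lt_card
      rw [Finset.ssubset_iff_of_subset]
      · refine ⟨d, ?_, ?_⟩
        · rw [Finset.mem_filter]; exact ⟨hD.mem_toFinset.2 hd, h2⟩
        · rw [Finset.mem_filter]; exact fun h => absurd h.2 (not_lt.2 h1.le)
      · intro e he
        rw [Finset.mem_filter] at he ⊢
        exact ⟨he.1, lt_of_lt_of_le he.2 hxy⟩
    omega
  have hcount' : ∀ (x y : ↥(Set.Ioo (-1 : ℝ) 1 \ D)), c x.1 = c y.1 →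
      connectedComponent x = connectedComponent y := by
    intro x y hcxy
    rcases le_total x.1 y.1 with h | h
    · exact hcount x y h hcxy
    · exact (hcount y x h hcxy.symm).symm
  -- upper bound
  let rep : ConnectedComponents ↥(Set.Ioo (-1 : ℝ) 1 \ D) → ↥(Set.Ioo (-1 : ℝ) 1 \ D) :=
    fun q => (ConnectedComponents.surjective_coe q).choose
  have hrep : ∀ q, (rep q : ConnectedComponents ↥(Set.Ioo (-1 : ℝ) 1 \ D)) = q :=
    fun q => (ConnectedComponents.surjective_coe q).choose_spec
  let φ : ConnectedComponents ↥(Set.Ioo (-1 : ℝ) 1 \ D) → Fin (D.ncard + 1) :=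
    fun q => ⟨c (rep q).1, hc _⟩
  have hφ : Function.Injective φ := by
    intro q q' h
    have h1 : c (rep q).1 = c (rep q').1 := congrArg Fin.val h
    rw [← hrep q, ← hrep q', ConnectedComponents.coe_eq_coe]
    exact hcount' _ _ h1
  have hfinite : Finite (ConnectedComponents ↥(Set.Ioo (-1 : ℝ) 1 \ D)) :=
    Finite.of_injective φ hφ
  apply le_antisymm
  · have := Nat.card_le_card_of_injective φ hφ
    simpa using this
  · -- lower bound
    have h1D : (1 : ℝ) ∉ D := fun h => lt_irrefl _ (hDI h).2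
    have hI : (insert (1 : ℝ) D).ncard = D.ncard + 1 := Set.ncard_insert_of_notMem h1D hD
    have hpt : ∀ d ∈ insert (1 : ℝ) D, ∃ x : ↥(Set.Ioo (-1 : ℝ) 1 \ D), x.1 < d ∧
        ∀ e ∈ D, e < d → e < x.1 := by
      intro d hd
      have hd1 : -1 < d ∧ d ≤ 1 := by
        rcases hd with rfl | hd
        · norm_num
        · exact ⟨(hDI hd).1, (hDI hd).2.le⟩
      have ev1 : ∀ᶠ x in 𝓝[<] d, -1 < x := by
        exact eventually_nhdsWithin_of_eventually_nhds (eventually_gt_nhds hd1.1)
      have ev2 : ∀ᶠ x in 𝓝[<] d, ∀ e ∈ D, e < d → e < x := by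
        rw [Filter.eventually_all_finite hD]
        intro e he
        by_cases hed : e < d
        · filter_upwards [eventually_nhdsWithin_of_eventually_nhds (eventually_gt_nhds hed)]
            with x hx _ using hx
        · exact Filter.Eventually.of_forall fun _ h => absurd h hed
      obtain ⟨x, hx1, hx2, hx3⟩ := (ev1.and (ev2.and self_mem_nhdsWithin)).exists
      have hx3' : x < d := hx3
      have hxD : x ∉ D := fun h => lt_irrefl _ (hx2 x h hx3')
      exact ⟨⟨x, ⟨hx1, lt_of_lt_of_le hx3' hd1.2⟩, hxD⟩, hx3', hx2⟩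
    choose g hg1 hg2 using hpt
    let ψ : ↥(insert (1 : ℝ) D) → ConnectedComponents ↥(Set.Ioo (-1 : ℝ) 1 \ D) :=
      fun d => (g d.1 d.2 : ConnectedComponents ↥(Set.Ioo (-1 : ℝ) 1 \ D))
    have hψ' : ∀ d d' : ↥(insert (1 : ℝ) D), d.1 < d'.1 → ψ d ≠ ψ d' := by
      intro d d' hdd' h
      have hdD : d.1 ∈ D := by
        rcases d.2 with h1 | h1
        · exfalso
          rcases d'.2 with h2 | h2
          · rw [h1, h2] at hdd'; exact lt_irrefl _ hdd'
          · rw [h1] at hdd'
            exact lt_irrefl _ (hdd'.trans (hDI h2).2)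
        · exact h1
      exact sep (g d.1 d.2) (g d'.1 d'.2) d.1 hdD (hg1 d.1 d.2) (hg2 d'.1 d'.2 d.1 hdD hdd')
        (ConnectedComponents.coe_eq_coe.1 h)
    have hψ : Function.Injective ψ := by
      intro d d' h
      by_contra hne
      have hne' : d.1 ≠ d'.1 := fun e => hne (Subtype.ext e)
      rcases lt_or_gt_of_ne hne' with h1 | h1
      · exact hψ' d d' h1 h
      · exact hψ' d' d h1 h.symm
    have := Nat.card_le_card_of_injective ψ hψ
    rw [Nat.card_coe_set_eq, hI] at this
    exact this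

theorem laps_eq (a b : ℝ) (n : ℕ) : laps a b n = lr a b n := by
  have hfin : (D a b n).Finite := by
    rw [D_eq]; exact (Dr_finite a b n).image k
  unfold laps
  rw [card_components hfin (fun y hy => hy.1), D_eq,
    Set.ncard_image_of_injective _ k_injective]
  rfl

/-! ## The entropy -/

theorem subadditive_log (a b : ℝ) : Subadditive fun n => Real.log (laps a b n) := by
  intro m n
  have h1 : ∀ n, (0 : ℝ) < (laps a b n : ℝ) := by
    intro n
    rw [laps_eq]
    exact_mod_cast Nat.succ_pos _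
  rw [← Real.log_mul (h1 m).ne' (h1 n).ne']
  apply Real.log_le_log (h1 _)
  rw [laps_eq, laps_eq, laps_eq]
  exact_mod_cast lr_add_le a b m n

theorem tendsto_entropy (a b : ℝ) :
    Tendsto (fun n : ℕ => 1 / (n : ℝ) * Real.log (laps a b n)) atTop (𝓝 (htop a b)) := by
  have hbdd : BddBelow (Set.range fun n : ℕ => Real.log (laps a b n) / n) := by
    refine ⟨0, ?_⟩
    rintro _ ⟨n, rfl⟩
    apply div_nonneg _ (Nat.cast_nonneg n)
    apply Real.log_nonneg
    rw [laps_eq]
    exact_mod_cast Nat.succ_pos _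
  have h := (subadditive_log a b).tendsto_lim hbdd
  have h' : Tendsto (fun n : ℕ => 1 / (n : ℝ) * Real.log (laps a b n)) atTop
      (𝓝 (subadditive_log a b).lim) := by
    refine h.congr fun n => ?_
    ring
  unfold htop
  rw [h'.limUnder_eq]
  exact h'

theorem htop_le {a a' b : ℝ} (hb0 : 0 ≤ b) (hb1 : b ≤ 1 / 2) (haa' : a ≤ a')
    (ha' : a' ≤ b - 1) (hab : -1 ≤ a * b) : htop a b ≤ htop a' b := by
  have h1 := tendsto_entropy a b
  have h2 := tendsto_entropy a' b
  have hlog : Tendsto (fun n : ℕ => 1 / (n : ℝ) * Real.log (25 * ((n : ℝ) + 1))) atTop (𝓝 0) := by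
    have h3 := Real.tendsto_pow_log_div_mul_add_atTop (1 / 25) (-1) 1 (by norm_num)
    have h4 : Tendsto (fun n : ℕ => 25 * ((n : ℝ) + 1)) atTop atTop := by
      apply Tendsto.const_mul_atTop (by norm_num)
      exact tendsto_atTop_add_const_right _ _ tendsto_natCast_atTop_atTop
    have h5 := h3.comp h4
    refine h5.congr fun n => ?_
    simp only [Function.comp_apply, pow_one]
    rw [show 1 / 25 * (25 * ((n : ℝ) + 1)) + -1 = n by ring]
    ring
  have h3 := hlog.add h2
  rw [zero_add] at h3
  refine le_of_tendsto_of_tendsto' h1 h3 fun n => ?_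
  rw [← mul_add]
  have hpos : ∀ a : ℝ, (0 : ℝ) < (laps a b n : ℝ) := by
    intro a
    rw [laps_eq]
    exact_mod_cast Nat.succ_pos _
  apply mul_le_mul_of_nonneg_left _ (by positivity)
  rw [← Real.log_mul (by positivity) (hpos a').ne']
  apply Real.log_le_log (hpos a)
  rw [laps_eq, laps_eq]
  exact_mod_cast lr_le_of_le hb0 hb1 haa' ha' hab n

end Pool.Agent.Lib_helper55.ABEntropy
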