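import Mathlib

/-!
# (a,b)-continued fraction maps: definitions (MP_c34b65_an)
-/

open Filter Topology

namespace Pool.Agent.Lib_helper55.ABEntropy

/-- The parameter set `P = {(a,b) : a ≤ 0 ≤ b, b - a ≥ 1, -ab ≤ 1}`. -/
def P : Set (ℝ × ℝ) := {p | p.1 ≤ 0 ∧ 0 ≤ p.2 ∧ 1 ≤ p.2 - p.1 ∧ -(p.1 * p.2) ≤ 1}

/-- The map `f_{a,b}` at real points (its value at `0`, when `a ≤ 0 < b`, is `∞`; this case is
treated separately in `ftilde`). -/
noncomputable def f (a b x : ℝ) : ℝ := if x < a then x + 1 else if x < b then -1 / x else x - 1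

/-- The homeomorphism `k x = x / (1 + |x|)` of `ℝ` onto `(-1, 1)`. -/
noncomputable def k (x : ℝ) : ℝ := x / (1 + |x|)

/-- The inverse `y / (1 - |y|)` of `k` on `(-1, 1)`. -/
noncomputable def kinv (y : ℝ) : ℝ := y / (1 - |y|)

/-- The map `f̃_{a,b} = k ∘ f_{a,b} ∘ k⁻¹` of `[-1, 1]`: the end points `-1` and `1` (which
correspond to `-∞` and `∞`) are fixed, `0` is sent to `1` if `a ≤ 0 < b` (there
`f_{a,b}(0) = ∞`, which corresponds to both `1` and `-1`; the choice is immaterial for what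
follows since `0` is a cut point), and any other `y` is sent to `k (f_{a,b} (k⁻¹ y))`. -/
noncomputable def ftilde (a b y : ℝ) : ℝ :=
  if y ≤ -1 then -1 else if 1 ≤ y then 1
  else if y = 0 ∧ a ≤ 0 ∧ 0 < b then 1 else k (f a b (kinv y))

/-- `D_n`: the set of `y ∈ (-1,1)` with `f̃^j(y) ∈ {k(a), 0, k(b)}` for some `0 ≤ j < n`. -/
def D (a b : ℝ) (n : ℕ) : Set ℝ :=
  {y | y ∈ Set.Ioo (-1 : ℝ) 1 ∧ ∃ j < n, (ftilde a b)^[j] y ∈ ({k a, 0, k b} : Set ℝ)}

/-- `ℓ_n`: the number of laps of `f̃^n`, i.e. of connected components of `(-1,1) \ D_n`. -/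
noncomputable def laps (a b : ℝ) (n : ℕ) : ℕ :=
  Nat.card (ConnectedComponents ↥(Set.Ioo (-1 : ℝ) 1 \ D a b n))

/-- The topological entropy `lim (1/n) log ℓ_n`. -/
noncomputable def htop (a b : ℝ) : ℝ :=
  limUnder atTop (fun n : ℕ => 1 / (n : ℝ) * Real.log (laps a b n))

end Pool.Agent.Lib_helper55.ABEntropy
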