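import Pool.Agent.Lib_helper55.ABEntropyDefs

/-!
# Monotonicity of the entropy of (a,b)-continued fraction maps: proofs (MP_c34b65_an)
-/

open Filter Topology

namespace Pool.Agent.Lib_helper55.ABEntropy

/-! ## Cut points on the real line -/

/-- Real version of `D_n`. -/
def Dr (a b : ℝ) (n : ℕ) : Set ℝ := {x | ∃ j < n, (f a b)^[j] x ∈ ({a, 0, b} : Set ℝ)}

theorem Dr_zero (a b : ℝ) : Dr a b 0 = ∅ := by
  ext x; simp [Dr]

theorem mem_Dr_succ {a b : ℝ} {n : ℕ} {x : ℝ} :
    x ∈ Dr a b (n + 1) ↔ x ∈ ({a, 0, b} : Set ℝ) ∨ f a b x ∈ Dr a b n := by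
  constructor
  · rintro ⟨j, hj, h⟩
    cases j with
    | zero => exact Or.inl h
    | succ j => exact Or.inr ⟨j, by omega, by rwa [Function.iterate_succ_apply] at h⟩
  · rintro (h | ⟨j, hj, h⟩)
    · exact ⟨0, by omega, h⟩
    · exact ⟨j + 1, by omega, by rwa [Function.iterate_succ_apply]⟩

theorem mem_Dr_add {a b : ℝ} {m n : ℕ} {x : ℝ} :
    x ∈ Dr a b (m + n) ↔ x ∈ Dr a b m ∨ (f a b)^[m] x ∈ Dr a b n := by
  constructor
  · rintro ⟨j, hj, h⟩
    rcases Nat.lt_or_ge j m with hjm | hjm
    · exact Or.inl ⟨j, hjm, h⟩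
    · obtain ⟨i, rfl⟩ := Nat.exists_eq_add_of_le hjm
      refine Or.inr ⟨i, by omega, ?_⟩
      rwa [← Function.iterate_add_apply, add_comm i m]
  · rintro (⟨j, hj, h⟩ | ⟨j, hj, h⟩)
    · exact ⟨j, by omega, h⟩
    · refine ⟨m + j, by omega, ?_⟩
      rwa [← Function.iterate_add_apply, add_comm j m] at h

theorem Dr_mono (a b : ℝ) {m n : ℕ} (h : m ≤ n) : Dr a b m ⊆ Dr a b n := by
  rintro x ⟨j, hj, hx⟩
  exact ⟨j, by omega, hx⟩

theorem fiber_subset (a b y : ℝ) : {x | f a b x = y} ⊆ {y - 1, -1 / y, y + 1} := by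
  intro x hx
  have hx' : f a b x = y := hx
  unfold f at hx'
  simp only [Set.mem_insert_iff, Set.mem_singleton_iff]
  split_ifs at hx'
  · left; linarith
  · right; left
    subst hx'
    by_cases h0 : x = 0
    · simp [h0]
    · field_simp
  · right; right; linarith

theorem iterate_fiber_finite (a b : ℝ) (n : ℕ) (y : ℝ) : {x | (f a b)^[n] x = y}.Finite := by
  induction n generalizing y with
  | zero =>
    refine (Set.finite_singleton y).subset ?_
    intro x hx
    exact hx
  | succ n ih =>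
    have : {x | (f a b)^[n + 1] x = y} ⊆ ⋃ z ∈ ({y - 1, -1 / y, y + 1} : Set ℝ),
        {x | (f a b)^[n] x = z} := by
      intro x hx
      have hx' : (f a b)^[n + 1] x = y := hx
      rw [Function.iterate_succ_apply'] at hx'
      simp only [Set.mem_iUnion]
      exact ⟨_, fiber_subset a b y hx', rfl⟩
    refine Set.Finite.subset ?_ this
    exact (Set.toFinite _).biUnion fun z _ => ih z

theorem Dr_finite (a b : ℝ) (n : ℕ) : (Dr a b n).Finite := by
  have : Dr a b n ⊆ ⋃ j ∈ Set.Iio n, ⋃ y ∈ ({a, 0, b} : Set ℝ), {x | (f a b)^[j] x = y} := by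
    rintro x ⟨j, hj, h⟩
    simp only [Set.mem_iUnion]
    exact ⟨j, hj, _, h, rfl⟩
  refine Set.Finite.subset ?_ this
  exact (Set.finite_Iio n).biUnion fun j _ => (Set.toFinite _).biUnion fun y _ =>
    iterate_fiber_finite a b j y

/-! ## Monotonicity on intervals without cut points -/

theorem f_surj_on {a b x y : ℝ} (hxy : x < y) (hD : ∀ z ∈ Set.Icc x y, z ∉ ({a, 0, b} : Set ℝ)) :
    f a b x < f a b y ∧ ∀ t ∈ Set.Icc (f a b x) (f a b y), ∃ z ∈ Set.Icc x y, f a b z = t := by
  have hcut : ∀ c ∈ ({a, 0, b} : Set ℝ), y < c ∨ c < x := by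
    intro c hc
    by_contra hcon
    push Not at hcon
    exact hD c ⟨hcon.2, hcon.1⟩ hc
  have ha := hcut a (by simp)
  have h0 := hcut 0 (by simp)
  have hb := hcut b (by simp)
  rcases ha with ha | ha
  · -- both in the first branch
    have e : ∀ z ∈ Set.Icc x y, f a b z = z + 1 := by
      intro z hz
      unfold f
      rw [if_pos (lt_of_le_of_lt hz.2 ha)]
    rw [e x ⟨le_rfl, hxy.le⟩, e y ⟨hxy.le, le_rfl⟩]
    refine ⟨by linarith, fun t ht => ⟨t - 1, ⟨by linarith [ht.1], by linarith [ht.2]⟩, ?_⟩⟩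
    rw [e _ ⟨by linarith [ht.1], by linarith [ht.2]⟩]
    ring
  · rcases hb with hb | hb
    · -- both in the middle branch
      have e : ∀ z ∈ Set.Icc x y, f a b z = -1 / z := by
        intro z hz
        unfold f
        rw [if_neg (not_lt.2 (ha.le.trans hz.1)), if_pos (lt_of_le_of_lt hz.2 hb)]
      rw [e x ⟨le_rfl, hxy.le⟩, e y ⟨hxy.le, le_rfl⟩]
      rcases h0 with h0 | h0
      · have hx0 : x < 0 := hxy.trans h0
        have hlt : -1 / x < -1 / y := by
          rw [neg_div, neg_div, neg_lt_neg_iff]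
          exact one_div_lt_one_div_of_neg_of_lt h0 hxy
        refine ⟨hlt, fun t ht => ?_⟩
        have ht0 : 0 < t := lt_of_lt_of_le (div_pos_of_neg_of_neg (by norm_num) hx0) ht.1
        have hz : -1 / t ∈ Set.Icc x y := by
          constructor
          · rw [le_div_iff₀ ht0]
            have h1 := ht.1
            rw [div_le_iff_of_neg hx0] at h1
            linarith
          · rw [div_le_iff₀ ht0]
            have h1 := ht.2
            rw [le_div_iff_of_neg h0] at h1
            linarith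
        refine ⟨-1 / t, hz, ?_⟩
        rw [e _ hz]
        field_simp
      · have hy0 : 0 < y := h0.trans hxy
        have hlt : -1 / x < -1 / y := by
          rw [neg_div, neg_div, neg_lt_neg_iff]
          exact one_div_lt_one_div_of_lt h0 hxy
        refine ⟨hlt, fun t ht => ?_⟩
        have ht0 : t < 0 := lt_of_le_of_lt ht.2 (div_neg_of_neg_of_pos (by norm_num) hy0)
        have hz : -1 / t ∈ Set.Icc x y := by
          constructor
          · rw [le_div_iff_of_neg ht0]
            have h1 := ht.1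
            rw [div_le_iff₀ h0] at h1
            linarith
          · rw [div_le_iff_of_neg ht0]
            have h1 := ht.2
            rw [le_div_iff₀ hy0] at h1
            linarith
        refine ⟨-1 / t, hz, ?_⟩
        rw [e _ hz]
        field_simp
    · -- both in the last branch
      have e : ∀ z ∈ Set.Icc x y, f a b z = z - 1 := by
        intro z hz
        unfold f
        rw [if_neg (not_lt.2 (ha.le.trans hz.1)), if_neg (not_lt.2 (hb.le.trans hz.1))]
      rw [e x ⟨le_rfl, hxy.le⟩, e y ⟨hxy.le, le_rfl⟩]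
      refine ⟨by linarith, fun t ht => ⟨t + 1, ⟨by linarith [ht.1], by linarith [ht.2]⟩, ?_⟩⟩
      rw [e _ ⟨by linarith [ht.1], by linarith [ht.2]⟩]
      ring

theorem iterate_lt (a b : ℝ) (n : ℕ) : ∀ x y : ℝ, x < y →
    (∀ z ∈ Set.Icc x y, z ∉ Dr a b n) → (f a b)^[n] x < (f a b)^[n] y := by
  induction n with
  | zero => intro x y hxy _; exact hxy
  | succ n ih =>
    intro x y hxy hD
    have h1 : ∀ z ∈ Set.Icc x y, z ∉ ({a, 0, b} : Set ℝ) :=
      fun z hz h => hD z hz (mem_Dr_succ.2 (Or.inl h))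
    obtain ⟨h2, h3⟩ := f_surj_on hxy h1
    rw [Function.iterate_succ_apply, Function.iterate_succ_apply]
    refine ih _ _ h2 ?_
    intro t ht htD
    obtain ⟨z, hz, rfl⟩ := h3 t ht
    exact hD z hz (mem_Dr_succ.2 (Or.inr htD))

/-! ## Counting -/

/-- A set on which each gap of a finite set `D` contains at most one point. -/
theorem ncard_le_of_gaps {D Z : Set ℝ} (hD : D.Finite)
    (h : ∀ x ∈ Z, ∀ y ∈ Z, x < y → ∃ z ∈ Set.Icc x y, z ∈ D) (hZD : Disjoint Z D) :
    Z.Finite ∧ Z.ncard ≤ D.ncard + 1 := by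
  classical
  let F : Finset ℝ := hD.toFinset
  let c : ℝ → ℕ := fun x => (F.filter (fun d => d < x)).card
  have hc : ∀ x, c x < D.ncard + 1 := by
    intro x
    have h1 : c x ≤ F.card := Finset.card_filter_le _ _
    have h2 : D.ncard = F.card := Set.ncard_eq_toFinset_card D hD
    omega
  have hinj : Set.InjOn c Z := by
    have key : ∀ x ∈ Z, ∀ y ∈ Z, x < y → c x < c y := by
      intro x hx y hy hxy
      obtain ⟨z, hz, hzD⟩ := h x hx y hy hxy
      have hzx : z ≠ x := fun e => (Set.disjoint_left.1 hZD hx) (e ▸ hzD)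
      have hzy : z ≠ y := fun e => (Set.disjoint_left.1 hZD hy) (e ▸ hzD)
      apply Finset.card_lt_card
      rw [Finset.ssubset_iff_of_subset]
      · refine ⟨z, ?_, ?_⟩
        · rw [Finset.mem_filter]
          exact ⟨hD.mem_toFinset.2 hzD, lt_of_le_of_ne hz.2 hzy⟩
        · rw [Finset.mem_filter]
          exact fun h => absurd h.2 (not_lt.2 hz.1)
      · intro d hd
        rw [Finset.mem_filter] at hd ⊢
        exact ⟨hd.1, hd.2.trans hxy⟩
    intro x hx y hy hxy
    by_contra hne
    rcases lt_or_gt_of_ne hne with h1 | h1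
    · exact absurd hxy (key x hx y hy h1).ne
    · exact absurd hxy (key y hy x hx h1).ne'
  have hmaps : Set.MapsTo c Z (Set.Iio (D.ncard + 1)) := fun x _ => hc x
  have hfin : Z.Finite := Set.Finite.of_injOn hmaps hinj (Set.finite_Iio _)
  refine ⟨hfin, ?_⟩
  have := Set.ncard_le_ncard_of_injOn c hmaps hinj (Set.finite_Iio _)
  rwa [← Finset.coe_Iio, Set.ncard_coe_finset, Nat.card_Iio] at this

/-- Real version of the lap number. -/
noncomputable def lr (a b : ℝ) (n : ℕ) : ℕ := (Dr a b n).ncard + 1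

theorem lr_mono (a b : ℝ) {m n : ℕ} (h : m ≤ n) : lr a b m ≤ lr a b n :=
  Nat.add_le_add_right (Set.ncard_le_ncard (Dr_mono a b h) (Dr_finite a b n)) 1

theorem ncard_fiber_diff (a b : ℝ) (n : ℕ) (y : ℝ) :
    ({x | (f a b)^[n] x = y} \ Dr a b n).ncard ≤ lr a b n := by
  refine (ncard_le_of_gaps (Dr_finite a b n) ?_ Set.disjoint_sdiff_left).2
  intro u hu v hv huv
  by_contra hcon
  push Not at hcon
  have h1 := iterate_lt a b n u v huv hcon
  have h2 : (f a b)^[n] u = y := hu.1
  have h3 : (f a b)^[n] v = y := hv.1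
  rw [h2, h3] at h1
  exact lt_irrefl _ h1

theorem ncard_fiber (a b : ℝ) (n : ℕ) (y : ℝ) :
    {x | (f a b)^[n] x = y}.ncard ≤ 2 * lr a b n := by
  have h1 := ncard_fiber_diff a b n y
  have h2 : {x | (f a b)^[n] x = y} ⊆ ({x | (f a b)^[n] x = y} \ Dr a b n) ∪ Dr a b n := by
    intro x hx
    by_cases h : x ∈ Dr a b n
    · exact Or.inr h
    · exact Or.inl ⟨hx, h⟩
  have h3 := Set.ncard_le_ncard h2
    (((iterate_fiber_finite a b n y).subset Set.sdiff_subset).union (Dr_finite a b n))
  have h4 := Set.ncard_union_le ({x | (f a b)^[n] x = y} \ Dr a b n) (Dr a b n)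
  unfold lr at *
  omega

/-- Submultiplicativity of the lap numbers. -/
theorem lr_add_le (a b : ℝ) (m n : ℕ) : lr a b (m + n) ≤ lr a b m * lr a b n := by
  classical
  have hsub : Dr a b (m + n) ⊆ Dr a b m ∪
      ⋃ y ∈ (Dr_finite a b n).toFinset, ({x | (f a b)^[m] x = y} \ Dr a b m) := by
    intro x hx
    by_cases h : x ∈ Dr a b m
    · exact Or.inl h
    · right
      rcases mem_Dr_add.1 hx with h' | h'
      · exact absurd h' h
      · simp only [Set.mem_iUnion]
        exact ⟨_, (Dr_finite a b n).mem_toFinset.2 h', rfl, h⟩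
  have hfinU : (⋃ y ∈ (Dr_finite a b n).toFinset,
      ({x | (f a b)^[m] x = y} \ Dr a b m)).Finite := by
    refine Set.Finite.biUnion (Finset.finite_toSet _) fun y _ => ?_
    exact (iterate_fiber_finite a b m y).subset Set.sdiff_subset
  have h1 := Set.ncard_le_ncard hsub ((Dr_finite a b m).union hfinU)
  have h2 := Set.ncard_union_le (Dr a b m) (⋃ y ∈ (Dr_finite a b n).toFinset,
      ({x | (f a b)^[m] x = y} \ Dr a b m))
  have h3 : (⋃ y ∈ (Dr_finite a b n).toFinset,
      ({x | (f a b)^[m] x = y} \ Dr a b m)).ncard ≤ (Dr a b n).ncard * lr a b m := by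
    have := Finset.set_ncard_biUnion_le (Dr_finite a b n).toFinset
      (fun y => ({x | (f a b)^[m] x = y} \ Dr a b m))
    refine this.trans ?_
    refine (Finset.sum_le_card_nsmul _ _ (lr a b m) fun y _ => ncard_fiber_diff a b m y).trans ?_
    rw [smul_eq_mul, ← Set.ncard_eq_toFinset_card _ (Dr_finite a b n)]
  have h4 : lr a b m * lr a b n = lr a b m + (Dr a b n).ncard * lr a b m := by
    unfold lr; ring
  rw [h4]
  unfold lr at *
  omega

/-! ## The coupling of the orbits of `f_{a,b}` and `f_{a',b}` -/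

/-- The relation between a point `X = f_{a,b}^i(x)` and a point `w = f_{a',b}^k(x)`. -/
def Rel (a' b X w : ℝ) (i k : ℕ) : Prop :=
  (X = w ∧ k ≤ i) ∨
  (w < a' ∧ -1 ≤ w * b ∧
    ((X = -1 / w ∧ (-1 ≤ w → k + 1 ≤ i) ∧ k ≤ i + 1) ∨
     (w < -1 ∧ X = -1 / w - 1 ∧ k ≤ i) ∨
     (w < -1 ∧ X = w / (w + 1) ∧ k + 1 ≤ i) ∨
     (-1 ≤ w ∧ X = -1 / w - 1 ∧ X < b ∧ k + 2 ≤ i)))

theorem rel_step {a a' b : ℝ} (hb0 : 0 ≤ b) (hb1 : b ≤ 1 / 2) (haa' : a ≤ a')
    (ha' : a' ≤ b - 1) (hab : -1 ≤ a * b) {x X : ℝ} {i k : ℕ} (hX : X ≠ 0)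
    (h : Rel a' b X ((f a' b)^[k] x) i k) :
    ∃ k', Rel a' b (f a b X) ((f a' b)^[k'] x) (i + 1) k' := by
  obtain ⟨w, hw⟩ : ∃ w, w = (f a' b)^[k] x := ⟨_, rfl⟩
  rw [← hw] at h
  have s1 : (f a' b)^[k + 1] x = f a' b w := by rw [Function.iterate_succ_apply', hw]
  have s2 : (f a' b)^[k + 2] x = f a' b (f a' b w) := by
    rw [Function.iterate_succ_apply', s1]
  have s3 : (f a' b)^[k + 3] x = f a' b (f a' b (f a' b w)) := by
    rw [Function.iterate_succ_apply', s2]
  -- three steps of `f_{a',b}` from `w ∈ (-1, a')`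
  have three : -1 < w → w < a' → f a' b (f a' b (f a' b w)) = w / (w + 1) := by
    intro h1 h2
    have e1 : f a' b w = w + 1 := by unfold f; rw [if_pos h2]
    have e2 : f a' b (w + 1) = -1 / (w + 1) := by
      unfold f
      rw [if_neg (by linarith), if_pos (by linarith)]
    have hw1 : 0 < w + 1 := by linarith
    have e3 : -1 / (w + 1) < a' := by
      rw [div_lt_iff₀ hw1]
      nlinarith
    have e4 : f a' b (-1 / (w + 1)) = -1 / (w + 1) + 1 := by unfold f; rw [if_pos e3]
    rw [e1, e2, e4]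
    field_simp
    ring
  rcases h with ⟨hXw, hk⟩ | ⟨hwa, hwb, h⟩
  · -- equal points
    subst hXw
    by_cases c1 : X < a
    · refine ⟨k + 1, Or.inl ⟨?_, by omega⟩⟩
      rw [s1]
      unfold f
      rw [if_pos c1, if_pos (lt_of_lt_of_le c1 haa')]
    · by_cases c2 : X < a'
      · refine ⟨k, ?_⟩
        rw [← hw]
        have e : f a b X = -1 / X := by
          unfold f
          rw [if_neg c1, if_pos (by linarith)]
        refine Or.inr ⟨c2, ?_, Or.inl ⟨e, fun _ => by omega, by omega⟩⟩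
        have : a * b ≤ X * b := mul_le_mul_of_nonneg_right (not_lt.1 c1) hb0
        linarith
      · refine ⟨k + 1, Or.inl ⟨?_, by omega⟩⟩
        rw [s1]
        unfold f
        rw [if_neg c1, if_neg c2]
  · have hw0 : w < 0 := by linarith
    have hinv : 0 < -1 / w := div_pos_of_neg_of_neg (by norm_num) hw0
    have hinvb : b ≤ -1 / w := by
      rw [le_div_iff_of_neg hw0]
      linarith
    rcases h with ⟨hXe, hk1, hk2⟩ | ⟨hw1, hXe, hk⟩ | ⟨hw1, hXe, hk⟩ | ⟨hw1, hXe, hXb, hk⟩
    · -- state `A`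
      have hstep : f a b X = -1 / w - 1 := by
        unfold f
        rw [hXe, if_neg (by linarith), if_neg (by linarith)]
      by_cases hw1 : w < -1
      · refine ⟨k, ?_⟩
        rw [← hw]
        exact Or.inr ⟨hwa, hwb, Or.inr (Or.inl ⟨hw1, hstep, hk2⟩)⟩
      · push Not at hw1
        have hk3 := hk1 hw1
        by_cases hq : -1 / w - 1 < b
        · refine ⟨k, ?_⟩
          rw [← hw]
          exact Or.inr ⟨hwa, hwb, Or.inr (Or.inr (Or.inr ⟨hw1, hstep, by rw [hstep]; exact hq,
            by omega⟩))⟩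
        · push Not at hq
          have hw2 : -1 < w := by
            rcases lt_or_eq_of_le hw1 with h | h
            · exact h
            · exfalso
              rw [← h] at hq hwa
              norm_num at hq
              linarith
          have hw3 : 0 < w + 1 := by linarith
          have e : (f a' b)^[k + 3] x = w / (w + 1) := by rw [s3, three hw2 hwa]
          refine ⟨k + 3, ?_⟩
          rw [e]
          refine Or.inr ⟨?_, ?_, Or.inl ⟨?_, ?_, by omega⟩⟩
          · rw [div_lt_iff₀ hw3]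
            nlinarith
          · have hw' : w ≠ 0 := hw0.ne
            have h3 : -(w + 1) ≤ b * w := by
              have h4 : -1 / w - 1 = -(w + 1) / w := by
                field_simp
                ring
              rw [h4, le_div_iff_of_neg hw0] at hq
              linarith
            have h5 : w / (w + 1) * b = w * b / (w + 1) := by ring
            rw [h5, le_div_iff₀ hw3]
            linarith
          · rw [hstep]
            have hw' : w ≠ 0 := hw0.ne
            have hw'' : w + 1 ≠ 0 := hw3.ne'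
            field_simp
            ring
          · intro h
            exfalso
            rw [le_div_iff₀ hw3] at h
            linarith
    · -- state `B1`
      refine ⟨k, ?_⟩
      rw [← hw]
      have hlt : -1 / w < 1 := by
        rw [div_lt_iff_of_neg hw0]; linarith
      have e : f a b X = w / (w + 1) := by
        unfold f
        rw [hXe, if_neg (by linarith), if_pos (by linarith)]
        have h1 : w ≠ 0 := hw0.ne
        have h2 : w + 1 ≠ 0 := by linarith
        have h3 : -1 / w - 1 = -(w + 1) / w := by field_simp; ring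
        rw [h3]
        field_simp
      exact Or.inr ⟨hwa, hwb, Or.inr (Or.inr (Or.inl ⟨hw1, e, by omega⟩))⟩
    · -- state `B2`
      have hw2 : w + 1 < 0 := by linarith
      have hgt : 1 < w / (w + 1) := by
        rw [lt_div_iff_of_neg hw2]; linarith
      have e : f a b X = -1 / (w + 1) := by
        unfold f
        rw [hXe, if_neg (by linarith), if_neg (by linarith)]
        have hw'' : w + 1 ≠ 0 := hw2.ne
        field_simp
        ring
      have e1 : (f a' b)^[k + 1] x = w + 1 := by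
        rw [s1]; unfold f; rw [if_pos hwa]
      by_cases c : w + 1 < a'
      · refine ⟨k + 1, ?_⟩
        rw [e1]
        refine Or.inr ⟨c, by nlinarith, Or.inl ⟨e, fun _ => by omega, by omega⟩⟩
      · refine ⟨k + 2, Or.inl ⟨?_, by omega⟩⟩
        rw [e, Function.iterate_succ_apply', e1]
        unfold f
        rw [if_neg c, if_pos (by linarith)]
    · -- state `C`
      have hw2 : w ≠ -1 := by
        intro h
        apply hX
        rw [hXe, h]
        norm_num
      have hw3 : -1 < w := lt_of_le_of_ne hw1 (Ne.symm hw2)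
      have hge : 1 ≤ -1 / w := by
        rw [le_div_iff_of_neg hw0]; linarith
      refine ⟨k + 3, Or.inl ⟨?_, by omega⟩⟩
      rw [s3, three hw3 hwa]
      unfold f
      rw [if_neg (by linarith), if_pos hXb, hXe]
      have h1 : w ≠ 0 := hw0.ne
      have h2 : w + 1 ≠ 0 := by linarith
      have h3 : -1 / w - 1 = -(w + 1) / w := by field_simp; ring
      rw [h3]
      field_simp

theorem coupling {a a' b : ℝ} (hb0 : 0 ≤ b) (hb1 : b ≤ 1 / 2) (haa' : a ≤ a')
    (ha' : a' ≤ b - 1) (hab : -1 ≤ a * b) (x : ℝ) (i : ℕ)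
    (h0 : ∀ j < i, (f a b)^[j] x ≠ 0) :
    ∃ k, Rel a' b ((f a b)^[i] x) ((f a' b)^[k] x) i k := by
  induction i with
  | zero => exact ⟨0, Or.inl ⟨rfl, le_rfl⟩⟩
  | succ i ih =>
    obtain ⟨k, hk⟩ := ih fun j hj => h0 j (by omega)
    rw [Function.iterate_succ_apply']
    exact rel_step hb0 hb1 haa' ha' hab (h0 i (by omega)) hk

/-- The candidates for the coupled point, given `X`. -/
noncomputable def cand (X : ℝ) : Finset ℝ := {X, -1 / X, -1 / (X + 1), X / (1 - X)}

theorem rel_cand {a' b X w : ℝ} {i k : ℕ} (ha' : a' < 0) (h : Rel a' b X w i k) :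
    w ∈ cand X ∧ k ≤ i + 1 := by
  unfold cand
  simp only [Finset.mem_insert, Finset.mem_singleton]
  rcases h with ⟨h1, h2⟩ | ⟨hwa, -, h⟩
  · exact ⟨Or.inl h1.symm, by omega⟩
  · have hw0 : w < 0 := by linarith
    have hw : w ≠ 0 := hw0.ne
    rcases h with ⟨hX, -, hk⟩ | ⟨hw1, hX, hk⟩ | ⟨hw1, hX, hk⟩ | ⟨hw1, hX, hXb, hk⟩
    · refine ⟨Or.inr (Or.inl ?_), hk⟩
      rw [hX]; field_simp
    · refine ⟨Or.inr (Or.inr (Or.inl ?_)), by omega⟩
      rw [hX, sub_add_cancel]; field_simp
    · refine ⟨Or.inr (Or.inr (Or.inr ?_)), by omega⟩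
      have h1 : w + 1 ≠ 0 := by linarith
      have h2 : 1 - w / (w + 1) = 1 / (w + 1) := by field_simp; ring
      rw [hX, h2]; field_simp
    · refine ⟨Or.inr (Or.inr (Or.inl ?_)), by omega⟩
      rw [hX, sub_add_cancel]; field_simp

theorem lr_le_of_le {a a' b : ℝ} (hb0 : 0 ≤ b) (hb1 : b ≤ 1 / 2) (haa' : a ≤ a')
    (ha' : a' ≤ b - 1) (hab : -1 ≤ a * b) (n : ℕ) :
    lr a b n ≤ 25 * (n + 1) * lr a' b n := by
  classical
  let G : Finset ℝ := cand a ∪ cand 0 ∪ cand b
  have hcand : ∀ X, (cand X).card ≤ 4 := fun X => Finset.card_le_four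
  have hG : G.card ≤ 12 := by
    have h1 := Finset.card_union_le (cand a ∪ cand 0) (cand b)
    have h2 := Finset.card_union_le (cand a) (cand 0)
    have h3 := hcand a
    have h4 := hcand 0
    have h5 := hcand b
    show (cand a ∪ cand 0 ∪ cand b).card ≤ 12
    omega
  have hsub : Dr a b n ⊆ ⋃ p ∈ (Finset.range (n + 1)) ×ˢ G, {x | (f a' b)^[p.1] x = p.2} := by
    intro x hx
    have hex : ∃ j, j < n ∧ (f a b)^[j] x ∈ ({a, 0, b} : Set ℝ) := hx
    let j := Nat.find hex
    obtain ⟨hj, hjc⟩ := Nat.find_spec hex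
    have hmin : ∀ i < j, (f a b)^[i] x ≠ 0 := by
      intro i hi h
      exact Nat.find_min hex hi ⟨hi.trans hj, by rw [h]; simp⟩
    obtain ⟨k, hk⟩ := coupling hb0 hb1 haa' ha' hab x j hmin
    obtain ⟨h1, h2⟩ := rel_cand (by linarith) hk
    simp only [Set.mem_iUnion]
    refine ⟨(k, (f a' b)^[k] x), ?_, rfl⟩
    rw [Finset.mem_product]
    have hj' : j < n := hj
    refine ⟨Finset.mem_range.2 (by simp only; omega), ?_⟩
    have hjc' : (f a b)^[j] x = a ∨ (f a b)^[j] x = 0 ∨ (f a b)^[j] x = b := hjc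
    show (f a' b)^[k] x ∈ cand a ∪ cand 0 ∪ cand b
    rw [Finset.mem_union, Finset.mem_union]
    rcases hjc' with h | h | h
    · rw [h] at h1; exact Or.inl (Or.inl h1)
    · rw [h] at h1; exact Or.inl (Or.inr h1)
    · rw [h] at h1; exact Or.inr h1
  have hfin : (⋃ p ∈ (Finset.range (n + 1)) ×ˢ G, {x | (f a' b)^[p.1] x = p.2}).Finite :=
    Set.Finite.biUnion (Finset.finite_toSet _) fun p _ => iterate_fiber_finite a' b _ _
  have h1 := Set.ncard_le_ncard hsub hfin
  have h2 := Finset.set_ncard_biUnion_le ((Finset.range (n + 1)) ×ˢ G)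
    (fun p => {x | (f a' b)^[p.1] x = p.2})
  have h3 : ∑ p ∈ (Finset.range (n + 1)) ×ˢ G, {x | (f a' b)^[p.1] x = p.2}.ncard ≤
      ((n + 1) * 12) * (2 * lr a' b n) := by
    refine (Finset.sum_le_card_nsmul _ _ (2 * lr a' b n) fun p hp => ?_).trans ?_
    · rw [Finset.mem_product, Finset.mem_range] at hp
      exact (ncard_fiber a' b p.1 p.2).trans
        (Nat.mul_le_mul_left 2 (lr_mono a' b (by omega)))
    · rw [smul_eq_mul, Finset.card_product, Finset.card_range]
      exact Nat.mul_le_mul_right _ (Nat.mul_le_mul_left _ hG)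
  have h4 : 1 ≤ lr a' b n := Nat.le_add_left 1 _
  have h5 : (n + 1) * 12 * (2 * lr a' b n) + 1 ≤ 25 * (n + 1) * lr a' b n := by nlinarith
  have h6 : lr a b n = (Dr a b n).ncard + 1 := rfl
  omega

end Pool.Agent.Lib_helper55.ABEntropy
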