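import Mathlib

/-!
# Connected boundaries of graphs: definitions (MP_40378c_al)
-/

namespace Pool.Agent.Lib_helper55.ConnBdry


universe u v

/-! ## Definitions -/

section Defs

variable {V : Type u}

/-- `nbhd Γ r K` is `N_r(K)`, the set of vertices at graph distance at most `r` from `K`. -/
def nbhd (Γ : SimpleGraph V) (r : ℕ) (K : Set V) : Set V :=
  {x | ∃ y ∈ K, Γ.dist x y ≤ r}

/-- A ray of `Γ`: an injective one-way infinite path. -/
def Ray (Γ : SimpleGraph V) : Type u :=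
  {f : ℕ → V // Function.Injective f ∧ ∀ n, Γ.Adj (f n) (f (n + 1))}

/-- Two rays are equivalent if no finite set `K` of vertices separates them: for every finite
`K`, the two rays have tails in one and the same component of `Γ - K`. -/
def RayEquiv (Γ : SimpleGraph V) (f g : Ray Γ) : Prop :=
  ∀ K : Set V, K.Finite → ∃ N : ℕ, ∀ m ≥ N, ∀ n ≥ N,
    ∃ (hm : f.1 m ∈ Kᶜ) (hn : g.1 n ∈ Kᶜ), (Γ.induce Kᶜ).Reachable ⟨f.1 m, hm⟩ ⟨g.1 n, hn⟩

theorem RayEquiv.refl' (Γ : SimpleGraph V) (f : Ray Γ) : RayEquiv Γ f f := by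
  intro K hK
  have h1 : {n | f.1 n ∈ K}.Finite := hK.preimage (f.2.1.injOn)
  obtain ⟨N, hN⟩ := h1.bddAbove
  have hout : ∀ m ≥ N + 1, f.1 m ∈ Kᶜ := by
    intro m hm hmK
    have := hN hmK
    omega
  refine ⟨N + 1, fun m hm n hn => ⟨hout m hm, hout n hn, ?_⟩⟩
  have key : ∀ k, (Γ.induce Kᶜ).Reachable ⟨f.1 (N + 1), hout _ le_rfl⟩
      ⟨f.1 (N + 1 + k), hout _ (Nat.le_add_right _ _)⟩ := by
    intro k
    induction k with
    | zero => exact SimpleGraph.Reachable.refl _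
    | succ k ih =>
      refine ih.trans (SimpleGraph.Adj.reachable ?_)
      exact f.2.2 (N + 1 + k)
  obtain ⟨a, rfl⟩ := Nat.exists_eq_add_of_le hm
  obtain ⟨b, rfl⟩ := Nat.exists_eq_add_of_le hn
  exact (key a).symm.trans (key b)

/-- The setoid of equivalence of rays. -/
def raySetoid (Γ : SimpleGraph V) : Setoid (Ray Γ) where
  r := RayEquiv Γ
  iseqv :=
    { refl := RayEquiv.refl' Γ
      symm := by
        intro f g h K hK
        obtain ⟨N, hN⟩ := h K hK
        refine ⟨N, fun m hm n hn => ?_⟩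
        obtain ⟨h1, h2, h3⟩ := hN n hn m hm
        exact ⟨h2, h1, h3.symm⟩
      trans := by
        intro f g k h1 h2 K hK
        obtain ⟨N, hN⟩ := h1 K hK
        obtain ⟨M, hM⟩ := h2 K hK
        refine ⟨max N M, fun m hm n hn => ?_⟩
        obtain ⟨a1, a2, a3⟩ := hN m (le_trans (le_max_left _ _) hm) (max N M) (le_max_left _ _)
        obtain ⟨b1, b2, b3⟩ := hM (max N M) (le_max_right _ _) n (le_trans (le_max_right _ _) hn)
        exact ⟨a1, b2, a3.trans b3⟩ }

/-- The ends of `Γ`: equivalence classes of rays. -/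
def GraphEnd (Γ : SimpleGraph V) : Type u := Quotient (raySetoid Γ)

/-- The end `ξ` can be reached from the vertex set `A`: some ray contained in `A` belongs
to `ξ`. -/
def ReachedFrom (Γ : SimpleGraph V) (ξ : GraphEnd Γ) (A : Set V) : Prop :=
  ∃ f : Ray Γ, (∀ n, f.1 n ∈ A) ∧ Quotient.mk (raySetoid Γ) f = ξ

/-- `F` is `c`-connected: `F` and its complement induce connected subgraphs and no end can be
reached both from `F` and from its complement. -/
def CConnected (Γ : SimpleGraph V) (F : Set V) : Prop :=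
  (Γ.induce F).Connected ∧ (Γ.induce Fᶜ).Connected ∧
    ¬ ∃ ξ : GraphEnd Γ, ReachedFrom Γ ξ F ∧ ReachedFrom Γ ξ Fᶜ

/-- Property `CB_r`: `N_{r+1}(F) \ F` is connected for every `c`-connected `F`. -/
def CB (Γ : SimpleGraph V) (r : ℕ) : Prop :=
  ∀ F : Set V, CConnected Γ F → (Γ.induce (nbhd Γ (r + 1) F \ F)).Connected

/-- `Γ` has connected boundaries: it has `CB_r` for some `r`. -/
def HasConnectedBoundaries (Γ : SimpleGraph V) : Prop := ∃ r, CB Γ r

variable {W : Type v}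

/-- Quasi-isometry of the vertex sets with the graph metrics. -/
def QuasiIsometric (Γ : SimpleGraph V) (Δ : SimpleGraph W) : Prop :=
  ∃ (f : V → W) (A B : ℝ), 1 ≤ A ∧ 0 ≤ B ∧
    (∀ x y, (1 / A) * (Γ.dist x y : ℝ) - B ≤ (Δ.dist (f x) (f y) : ℝ) ∧
      (Δ.dist (f x) (f y) : ℝ) ≤ A * (Γ.dist x y : ℝ) + B) ∧
    ∀ z, ∃ x, (Δ.dist z (f x) : ℝ) ≤ B

/-- Bi-Lipschitz equivalence of the vertex sets with the graph metrics. -/
def BiLipschitzEquivalent (Γ : SimpleGraph V) (Δ : SimpleGraph W) : Prop :=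
  ∃ (f : V ≃ W) (A : ℝ), 1 ≤ A ∧
    ∀ x y, (1 / A) * (Γ.dist x y : ℝ) ≤ (Δ.dist (f x) (f y) : ℝ) ∧
      (Δ.dist (f x) (f y) : ℝ) ≤ A * (Γ.dist x y : ℝ)

end Defs

end Pool.Agent.Lib_helper55.ConnBdry
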