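import Pool.Agent.Lib_helper55.ConnBdryDefs

/-!
# Quasi-isometry invariance of connected boundaries: proofs (MP_40378c_al)
-/

namespace Pool.Agent.Lib_helper55.ConnBdry

universe u v

/-! ## Walks inside sets -/

section Conn

variable {V : Type u}

/-- `conn Γ S x y`: there is a walk from `x` to `y` inside `S`. -/
def conn (Γ : SimpleGraph V) (S : Set V) (x y : V) : Prop :=
  ∃ p : Γ.Walk x y, ∀ z ∈ p.support, z ∈ S

variable {Γ : SimpleGraph V} {S T : Set V} {x y z : V}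

theorem conn.left (h : conn Γ S x y) : x ∈ S := by
  obtain ⟨p, hp⟩ := h
  exact hp _ p.start_mem_support

theorem conn.right (h : conn Γ S x y) : y ∈ S := by
  obtain ⟨p, hp⟩ := h
  exact hp _ p.end_mem_support

theorem conn.rfl' (h : x ∈ S) : conn Γ S x x := ⟨SimpleGraph.Walk.nil, by simpa using h⟩

theorem conn.symm (h : conn Γ S x y) : conn Γ S y x := by
  obtain ⟨p, hp⟩ := h
  exact ⟨p.reverse, by simpa using hp⟩

theorem conn.trans (h : conn Γ S x y) (h' : conn Γ S y z) : conn Γ S x z := by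
  obtain ⟨p, hp⟩ := h
  obtain ⟨q, hq⟩ := h'
  refine ⟨p.append q, fun w hw => ?_⟩
  rw [SimpleGraph.Walk.mem_support_append_iff] at hw
  exact hw.elim (hp w) (hq w)

theorem conn.of_adj (hx : x ∈ S) (hy : y ∈ S) (h : Γ.Adj x y) : conn Γ S x y := by
  refine ⟨SimpleGraph.Walk.cons h SimpleGraph.Walk.nil, fun w hw => ?_⟩
  simp at hw
  rcases hw with rfl | rfl <;> assumption

theorem conn.mono (hST : S ⊆ T) (h : conn Γ S x y) : conn Γ T x y := by
  obtain ⟨p, hp⟩ := h
  exact ⟨p, fun w hw => hST (hp w hw)⟩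

theorem conn_of_walk_induce {a b : S} (p : (Γ.induce S).Walk a b) : conn Γ S a.1 b.1 := by
  induction p with
  | nil => exact conn.rfl' (Subtype.property _)
  | cons hadj p ih => exact (conn.of_adj (Subtype.property _) (Subtype.property _) hadj).trans ih

theorem conn_iff_reachable (hx : x ∈ S) (hy : y ∈ S) :
    conn Γ S x y ↔ (Γ.induce S).Reachable ⟨x, hx⟩ ⟨y, hy⟩ := by
  constructor
  · rintro ⟨p, hp⟩
    exact ⟨p.induce S hp⟩
  · rintro ⟨p⟩
    exact conn_of_walk_induce p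

theorem connected_iff_conn :
    (Γ.induce S).Connected ↔ S.Nonempty ∧ ∀ x ∈ S, ∀ y ∈ S, conn Γ S x y := by
  constructor
  · intro h
    obtain ⟨x⟩ := h.nonempty
    refine ⟨⟨x.1, x.2⟩, fun x hx y hy => (conn_iff_reachable hx hy).2 (h.preconnected _ _)⟩
  · rintro ⟨⟨x, hx⟩, h⟩
    have : Nonempty S := ⟨⟨x, hx⟩⟩
    exact ⟨fun a b => (conn_iff_reachable a.2 b.2).1 (h _ a.2 _ b.2)⟩

/-- Induction principle along a connection. -/
theorem conn.induct {P : V → Prop} (h : conn Γ S x y) (h0 : P x)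
    (hs : ∀ a b, a ∈ S → b ∈ S → Γ.Adj a b → P a → P b) : P y := by
  obtain ⟨p, hp⟩ := h
  induction p with
  | nil => exact h0
  | cons hadj p ih =>
    simp only [SimpleGraph.Walk.support_cons, List.mem_cons, forall_eq_or_imp] at hp
    exact ih (hs _ _ hp.1 (hp.2 _ p.start_mem_support) hadj h0) hp.2

theorem dist_le_of_mem_support {p : Γ.Walk x y} (hz : z ∈ p.support) : Γ.dist x z ≤ p.length := by
  classical
  exact (SimpleGraph.dist_le (p.takeUntil z hz)).trans (p.length_takeUntil_le_length hz)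

theorem conn_of_dist_le (hΓ : Γ.Connected) {k : ℕ} (hk : Γ.dist x y ≤ k)
    (hS : ∀ z, Γ.dist x z ≤ k → z ∈ S) : conn Γ S x y := by
  obtain ⟨p, hp⟩ := hΓ.exists_walk_length_eq_dist x y
  exact ⟨p, fun z hz => hS z ((dist_le_of_mem_support hz).trans (hp ▸ hk))⟩

theorem dist_map_le {W : Type v} {Δ : SimpleGraph W} (hΓ : Γ.Connected) (hΔ : Δ.Connected)
    {f : V → W} {L : ℕ} (hf : ∀ x y, Γ.Adj x y → Δ.dist (f x) (f y) ≤ L) (x y : V) :
    Δ.dist (f x) (f y) ≤ L * Γ.dist x y := by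
  obtain ⟨p, hp⟩ := hΓ.exists_walk_length_eq_dist x y
  rw [← hp]
  clear hp
  induction p with
  | nil => simp
  | cons hadj p ih =>
    rename_i a b c
    rw [SimpleGraph.Walk.length_cons]
    calc Δ.dist (f a) (f c) ≤ Δ.dist (f a) (f b) + Δ.dist (f b) (f c) := hΔ.dist_triangle
      _ ≤ L + L * p.length := add_le_add (hf _ _ hadj) ih
      _ = L * (p.length + 1) := by ring

end Conn

/-! ## Rays converging to a subsequence of a given sequence of vertices -/

section RayToward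

variable {X : Type u}

/-- In a connected locally finite graph, for every sequence `b` of vertices with finite fibres
there are a ray `R` and a subsequence of `b` converging to it. -/
theorem exists_ray_toward (H : SimpleGraph X) (hH : H.Connected)
    (lf : ∀ v, (H.neighborSet v).Finite) (b : ℕ → X) (hb : ∀ x, {n | b n = x}.Finite) :
    ∃ (R : ℕ → X) (φ : ℕ → ℕ), StrictMono φ ∧ (∀ n, H.Adj (R n) (R (n + 1))) ∧
      Function.Injective R ∧
      ∀ K : Set X, K.Finite → ∃ N, ∀ m ≥ N, ∀ k ≥ m, conn H Kᶜ (R m) (b (φ k)) := by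
  classical
  obtain ⟨o⟩ := hH.nonempty
  let St := {p : X × Set ℕ // p.2.Infinite ∧
    ∀ n ∈ p.2, H.dist o (b n) = H.dist o p.1 + H.dist p.1 (b n)}
  have step : ∀ s : St, ∃ s' : St, H.Adj s.1.1 s'.1.1 ∧
      H.dist o s'.1.1 = H.dist o s.1.1 + 1 ∧ s'.1.2 ⊆ s.1.2 := by
    rintro ⟨⟨w, I⟩, hI, hIb⟩
    simp only at hI hIb
    set I₁ : Set ℕ := I \ {n | b n = w} with hI₁
    have hI₁inf : I₁.Infinite := hI.sdiff (hb w)
    have hnb : ∀ n ∈ I₁, ∃ w' ∈ H.neighborSet w, H.dist w (b n) = H.dist w' (b n) + 1 := by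
      intro n hn
      have hne : w ≠ b n := fun h => hn.2 h.symm
      obtain ⟨p, hp⟩ := hH.exists_walk_length_eq_dist w (b n)
      cases p with
      | nil => exact absurd rfl hne
      | cons hadj q =>
        rename_i w'
        refine ⟨w', hadj, ?_⟩
        rw [SimpleGraph.Walk.length_cons] at hp
        have h1 : H.dist w' (b n) ≤ q.length := SimpleGraph.dist_le q
        have h2 : H.dist w (b n) ≤ H.dist w w' + H.dist w' (b n) := hH.dist_triangle
        have h3 : H.dist w w' = 1 := SimpleGraph.dist_eq_one_iff_adj.2 hadj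
        omega
    have : Nonempty X := ⟨o⟩
    choose! g hg1 hg2 using hnb
    have hpig : ∃ w' ∈ H.neighborSet w, (I₁ ∩ g ⁻¹' {w'}).Infinite := by
      by_contra hcon
      push Not at hcon
      apply hI₁inf
      have : I₁ ⊆ ⋃ w' ∈ H.neighborSet w, I₁ ∩ g ⁻¹' {w'} := by
        intro n hn
        simp only [Set.mem_iUnion]
        exact ⟨g n, hg1 n hn, hn, rfl⟩
      refine Set.Finite.subset ?_ this
      exact (lf w).biUnion (fun w' hw' => by
        have := hcon w' hw'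
        simpa using this)
    obtain ⟨w', hw', hinf⟩ := hpig
    have hkey : ∀ n ∈ I₁ ∩ g ⁻¹' {w'}, H.dist o w' = H.dist o w + 1 ∧
        H.dist o (b n) = H.dist o w' + H.dist w' (b n) := by
      rintro n ⟨hn, hgn⟩
      have hgn' : g n = w' := hgn
      have h1 := hIb n hn.1
      have h2 := hg2 n hn
      rw [hgn'] at h2
      have h3 : H.dist o (b n) ≤ H.dist o w' + H.dist w' (b n) := hH.dist_triangle
      have h4 : H.dist o w' ≤ H.dist o w + H.dist w w' := hH.dist_triangle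
      have h5 : H.dist w w' = 1 := SimpleGraph.dist_eq_one_iff_adj.2 hw'
      omega
    obtain ⟨n₀, hn₀⟩ := hinf.nonempty
    exact ⟨⟨(w', I₁ ∩ g ⁻¹' {w'}), hinf, fun n hn => (hkey n hn).2⟩, hw', (hkey n₀ hn₀).1,
      fun n hn => hn.1.1⟩
  choose nx hnx1 hnx2 hnx3 using step
  let s₀ : St := ⟨(o, Set.univ), Set.infinite_univ, fun n _ => by simp⟩
  let s : ℕ → St := fun n => Nat.rec s₀ (fun _ t => nx t) n
  have hs : ∀ n, s (n + 1) = nx (s n) := fun n => rfl
  have hdist : ∀ n, H.dist o (s n).1.1 = n := by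
    intro n
    induction n with
    | zero => simp [s, s₀]
    | succ n ih => rw [hs, hnx2, ih]
  have hanti : ∀ m k, m ≤ k → (s k).1.2 ⊆ (s m).1.2 := by
    intro m k hmk
    induction k, hmk using Nat.le_induction with
    | base => exact subset_rfl
    | succ k _ ih => rw [hs]; exact (hnx3 (s k)).trans ih
  have hsel : ∀ k a : ℕ, ∃ n ∈ (s k).1.2, a < n := fun k a => (s k).2.1.exists_gt a
  choose sel hsel1 hsel2 using hsel
  let φ : ℕ → ℕ := fun n => Nat.rec (sel 0 0) (fun k t => sel (k + 1) t) n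
  have hφs : ∀ n, φ (n + 1) = sel (n + 1) (φ n) := fun n => rfl
  have hφmem : ∀ n, φ n ∈ (s n).1.2 := by
    intro n
    cases n with
    | zero => exact hsel1 0 0
    | succ n => exact hsel1 (n + 1) (φ n)
  refine ⟨fun n => (s n).1.1, φ, strictMono_nat_of_lt_succ fun n => ?_, fun n => ?_, ?_, ?_⟩
  · rw [hφs]; exact hsel2 _ _
  · have := hnx1 (s n)
    rw [← hs] at this
    exact this
  · intro m k hmk
    have h1 := hdist m
    have h2 := hdist k
    simp only at hmk
    rw [hmk] at h1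
    omega
  · intro K hK
    have hK' : (H.dist o '' K).Finite := hK.image _
    obtain ⟨N, hN⟩ := hK'.bddAbove
    refine ⟨N + 1, fun m hm k hk => ?_⟩
    have hmem : φ k ∈ (s m).1.2 := hanti m k hk (hφmem k)
    have hd := (s m).2.2 _ hmem
    obtain ⟨p, hp⟩ := hH.exists_walk_length_eq_dist (s m).1.1 (b (φ k))
    refine ⟨p, fun z hz hzK => ?_⟩
    have h1 : H.dist o z ≤ N := hN ⟨z, hzK, rfl⟩
    have h2 : p.length = (p.takeUntil z hz).length + (p.dropUntil z hz).length := by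
      conv_lhs => rw [← p.take_spec hz]
      rw [SimpleGraph.Walk.length_append]
    have h3 : H.dist (s m).1.1 z ≤ (p.takeUntil z hz).length := SimpleGraph.dist_le _
    have h4 : H.dist z (b (φ k)) ≤ (p.dropUntil z hz).length := SimpleGraph.dist_le _
    have h5 : H.dist o (b (φ k)) ≤ H.dist o z + H.dist z (b (φ k)) := hH.dist_triangle
    have h6 := hdist m
    omega

end RayToward

/-! ## `c`-connected sets have finite boundary -/

section Boundary

variable {V : Type u} {Γ : SimpleGraph V}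

/-- The outer vertex boundary of a set. -/
def outerBdry (Γ : SimpleGraph V) (F : Set V) : Set V := {v | v ∉ F ∧ ∃ w ∈ F, Γ.Adj v w}

theorem finite_neighborSet_induce (lf : ∀ v, (Γ.neighborSet v).Finite) (S : Set V) (v : S) :
    ((Γ.induce S).neighborSet v).Finite := by
  have : ((Γ.induce S).neighborSet v) = Subtype.val ⁻¹' (Γ.neighborSet v.1) := by
    ext w; rfl
  rw [this]
  exact (lf v.1).preimage Subtype.val_injective.injOn

theorem conn_of_conn_induce {S K : Set V} {a b : S}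
    (h : conn (Γ.induce S) (Subtype.val ⁻¹' K)ᶜ a b) : conn Γ Kᶜ a.1 b.1 := by
  have ha : a.1 ∈ Kᶜ := h.left
  refine h.induct (P := fun c => conn Γ Kᶜ a.1 c.1) (conn.rfl' ha) ?_
  intro c d hc hd hadj hac
  exact hac.trans (conn.of_adj hc hd hadj)

/-- The boundary of a `c`-connected set is finite. -/
theorem CConnected.finite_outerBdry (lf : ∀ v, (Γ.neighborSet v).Finite) {F : Set V}
    (hF : CConnected Γ F) : (outerBdry Γ F).Finite := by
  by_contra hinf
  obtain ⟨hF1, hF2, hF3⟩ := hF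
  have hinf' : (outerBdry Γ F).Infinite := hinf
  let e : ℕ ↪ outerBdry Γ F := hinf'.natEmbedding
  have he : ∀ n, (e n).1 ∉ F ∧ ∃ w ∈ F, Γ.Adj (e n).1 w := fun n => (e n).2
  have he1 : ∀ n, (e n).1 ∈ Fᶜ := fun n => (he n).1
  choose he0 w hw hadj using he
  -- the two sequences
  let b' : ℕ → (Fᶜ : Set V) := fun n => ⟨(e n).1, he1 n⟩
  let b : ℕ → F := fun n => ⟨w n, hw n⟩
  have hb' : ∀ x, {n | b' n = x}.Finite := by
    intro x
    refine Set.Subsingleton.finite ?_
    intro m hm n hn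
    have hm' : b' m = x := hm
    have hn' : b' n = x := hn
    have h1 : b' m = b' n := hm'.trans hn'.symm
    have h2 : (e m).1 = (e n).1 := congrArg (fun t : (Fᶜ : Set V) => t.1) h1
    exact e.injective (Subtype.ext h2)
  have hb : ∀ x, {n | b n = x}.Finite := by
    intro x
    have : {n | b n = x} ⊆ (fun n => (e n).1) ⁻¹' (Γ.neighborSet x.1) := by
      intro n hn
      have hn' : b n = x := hn
      have h1 : w n = x.1 := congrArg Subtype.val hn'
      have h2 : Γ.Adj (w n) (e n).1 := (hadj n).symm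
      rw [h1] at h2
      exact h2
    refine ((lf x.1).preimage ?_).subset this
    intro m _ n _ hmn
    exact e.injective (Subtype.ext hmn)
  obtain ⟨R', φ, hφ, hR'adj, hR'inj, hR'⟩ := exists_ray_toward (Γ.induce Fᶜ) hF2
    (finite_neighborSet_induce lf _) b' hb'
  have hbφ : ∀ x, {n | b (φ n) = x}.Finite := by
    intro x
    exact (hb x).preimage (f := φ) hφ.injective.injOn
  obtain ⟨R, χ, hχ, hRadj, hRinj, hR⟩ := exists_ray_toward (Γ.induce F) hF1
    (finite_neighborSet_induce lf _) (fun n => b (φ n)) hbφ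
  let f : Ray Γ := ⟨fun n => (R n).1, fun m n h => hRinj (Subtype.ext h), fun n => hRadj n⟩
  let g : Ray Γ := ⟨fun n => (R' n).1, fun m n h => hR'inj (Subtype.ext h), fun n => hR'adj n⟩
  have hfg : RayEquiv Γ f g := by
    intro K hK
    obtain ⟨N₁, hN₁⟩ := hR (Subtype.val ⁻¹' K) (hK.preimage Subtype.val_injective.injOn)
    obtain ⟨N₂, hN₂⟩ := hR' (Subtype.val ⁻¹' K) (hK.preimage Subtype.val_injective.injOn)
    refine ⟨max N₁ N₂, fun m hm n hn => ?_⟩
    have h1 := hN₁ m (le_trans (le_max_left _ _) hm) (max m n) (le_max_left _ _)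
    have h2 := hN₂ n (le_trans (le_max_right _ _) hn) (χ (max m n))
      (le_trans (le_max_right m n) (hχ.id_le _))
    have h1' := conn_of_conn_induce h1
    have h2' := conn_of_conn_induce h2
    have h3 : conn Γ Kᶜ (R m).1 (R' n).1 := by
      refine h1'.trans ((conn.of_adj h1'.right h2'.right ?_).trans h2'.symm)
      exact (hadj (φ (χ (max m n)))).symm
    exact ⟨h3.left, h3.right, (conn_iff_reachable h3.left h3.right).1 h3⟩
  apply hF3
  refine ⟨Quotient.mk (raySetoid Γ) f, ⟨f, fun n => (R n).2, rfl⟩, ⟨g, fun n => (R' n).2, ?_⟩⟩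
  exact Quotient.sound ((raySetoid Γ).symm hfg)

/-- A walk leaving a set meets its outer boundary. -/
theorem exists_mem_outerBdry {F S : Set V} {x y : V} (h : conn Γ S x y) (hx : x ∈ F)
    (hy : y ∉ F) : ∃ z ∈ outerBdry Γ F, z ∈ S := by
  by_contra hcon
  push Not at hcon
  have : y ∈ F := by
    refine h.induct (P := fun c => c ∈ F) hx ?_
    intro a b ha hb hab haF
    by_contra hbF
    exact hcon b ⟨hbF, a, haF, hab.symm⟩ hb
  exact hy this

theorem cconnected_of_finite_outerBdry {F : Set V} (h1 : (Γ.induce F).Connected)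
    (h2 : (Γ.induce Fᶜ).Connected) (hfin : (outerBdry Γ F).Finite) : CConnected Γ F := by
  refine ⟨h1, h2, ?_⟩
  rintro ⟨ξ, ⟨f, hf, hfξ⟩, ⟨g, hg, hgξ⟩⟩
  have hfg : RayEquiv Γ f g := Quotient.exact (hfξ.trans hgξ.symm)
  obtain ⟨N, hN⟩ := hfg _ hfin
  obtain ⟨a1, a2, a3⟩ := hN N le_rfl N le_rfl
  have h := (conn_iff_reachable a1 a2).2 a3
  obtain ⟨z, hz, hz'⟩ := exists_mem_outerBdry h (hf N) (hg N)
  exact hz' hz

/-- The set of vertices of `S` connected to `q` inside `S`. -/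
def comp (Γ : SimpleGraph V) (S : Set V) (q : V) : Set V := {v | conn Γ S q v}

theorem comp_connected {S : Set V} {q : V} (hq : q ∈ S) : (Γ.induce (comp Γ S q)).Connected := by
  have key : ∀ v, conn Γ S q v → conn Γ (comp Γ S q) q v := by
    intro v hv
    have h : conn Γ S q v ∧ conn Γ (comp Γ S q) q v := by
      refine hv.induct (P := fun v => conn Γ S q v ∧ conn Γ (comp Γ S q) q v)
        ⟨conn.rfl' hq, conn.rfl' (conn.rfl' hq)⟩ ?_
      rintro a b ha hb hab ⟨h1, h2⟩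
      have h3 : conn Γ S q b := h1.trans (conn.of_adj ha hb hab)
      exact ⟨h3, h2.trans (conn.of_adj h1 h3 hab)⟩
    exact h.2
  rw [connected_iff_conn]
  exact ⟨⟨q, conn.rfl' hq⟩, fun x hx y hy => (key x hx).symm.trans (key y hy)⟩

theorem comp_compl_connected (hΓ : Γ.Connected) {F : Set V} {q : V}
    (hF : (Γ.induce F).Connected) : (Γ.induce (comp Γ Fᶜ q)ᶜ).Connected := by
  rw [connected_iff_conn] at hF ⊢
  obtain ⟨⟨f₀, hf₀⟩, hF⟩ := hF
  have hsub : F ⊆ (comp Γ Fᶜ q)ᶜ := fun x hx hx' => (conn.right hx') hx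
  have key : ∀ v ∈ (comp Γ Fᶜ q)ᶜ, conn Γ (comp Γ Fᶜ q)ᶜ v f₀ := by
    intro v hv
    obtain ⟨p, -⟩ := hΓ.exists_walk_length_eq_dist v f₀
    induction p with
    | nil => exact conn.rfl' hv
    | cons hadj p ih =>
      rename_i a b c
      by_cases ha : a ∈ F
      · exact (hF _ ha _ hf₀).mono hsub
      · by_cases hb : b ∈ comp Γ Fᶜ q
        · exact absurd (conn.trans hb (conn.of_adj (conn.right hb) ha hadj.symm)) hv
        · exact (conn.of_adj hv hb hadj).trans (ih hf₀ hb)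
  exact ⟨⟨f₀, hsub hf₀⟩, fun x hx y hy => (key x hx).trans (key y hy).symm⟩

theorem finite_nbhd (hΓ : Γ.Connected) (lf : ∀ v, (Γ.neighborSet v).Finite) {K : Set V}
    (hK : K.Finite) (r : ℕ) : (nbhd Γ r K).Finite := by
  induction r with
  | zero =>
    refine hK.subset ?_
    rintro x ⟨y, hy, hxy⟩
    have : Γ.dist x y = 0 := by omega
    rw [hΓ.dist_eq_zero_iff] at this
    rwa [this]
  | succ r ih =>
    have : nbhd Γ (r + 1) K ⊆ nbhd Γ r K ∪ ⋃ v ∈ nbhd Γ r K, Γ.neighborSet v := by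
      rintro x ⟨y, hy, hxy⟩
      obtain ⟨p, hp⟩ := hΓ.exists_walk_length_eq_dist x y
      cases p with
      | nil => exact Or.inl ⟨x, hy, by simp⟩
      | cons hadj q =>
        rename_i w
        right
        rw [SimpleGraph.Walk.length_cons] at hp
        have h1 : Γ.dist w y ≤ r := (SimpleGraph.dist_le q).trans (by omega)
        simp only [Set.mem_iUnion]
        exact ⟨w, ⟨y, hy, h1⟩, hadj.symm⟩
    exact (ih.union (ih.biUnion fun v _ => lf v)).subset this

end Boundary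

/-! ## The transfer theorem -/

section Main

variable {V : Type u} {W : Type v} {Γ : SimpleGraph V} {Δ : SimpleGraph W}

theorem exists_outerBdry_of_dist (hΔ : Δ.Connected) {A : Set W} {x a : W} (hx : x ∉ A)
    (ha : a ∈ A) {k : ℕ} (h : Δ.dist x a ≤ k) :
    ∃ b ∈ outerBdry Δ A, Δ.dist x b ≤ k ∧ conn Δ (nbhd Δ k A \ A) x b := by
  obtain ⟨p, hp⟩ := hΔ.exists_walk_length_eq_dist x a
  have key : ∀ (x a : W) (p : Δ.Walk x a), x ∉ A → a ∈ A → p.length ≤ k →
      ∃ b ∈ outerBdry Δ A, Δ.dist x b ≤ p.length ∧ conn Δ (nbhd Δ k A \ A) x b := by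
    intro x a p
    induction p with
    | nil => intro h1 h2; exact absurd h2 h1
    | cons hadj q ih =>
      rename_i x w a
      intro h1 h2 h3
      have h3' : q.length + 1 ≤ k := by simpa using h3
      by_cases hw : w ∈ A
      · refine ⟨x, ⟨h1, w, hw, hadj⟩, by simp, conn.rfl' ⟨⟨w, hw, ?_⟩, h1⟩⟩
        rw [SimpleGraph.dist_eq_one_iff_adj.2 hadj]
        omega
      · obtain ⟨b, hb, hb1, hb2⟩ := ih hw h2 (by omega)
        have hx : x ∈ nbhd Δ k A \ A :=
          ⟨⟨a, h2, (SimpleGraph.dist_le (SimpleGraph.Walk.cons hadj q)).trans h3⟩, h1⟩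
        refine ⟨b, hb, ?_, (conn.of_adj hx hb2.left hadj).trans hb2⟩
        have h4 : Δ.dist x b ≤ Δ.dist x w + Δ.dist w b := hΔ.dist_triangle
        rw [SimpleGraph.dist_eq_one_iff_adj.2 hadj] at h4
        simp only [SimpleGraph.Walk.length_cons]
        omega
  obtain ⟨b, hb, hb1, hb2⟩ := key x a p hx ha (hp ▸ h)
  exact ⟨b, hb, hb1.trans (hp ▸ h), hb2⟩

/-- Transfer of `CB` along a pair of quasi-inverse coarse Lipschitz maps between connected
locally finite graphs. -/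
theorem cb_transfer (hΓ : Γ.Connected) (hΔ : Δ.Connected)
    (lfΓ : ∀ v, (Γ.neighborSet v).Finite) (lfΔ : ∀ v, (Δ.neighborSet v).Finite)
    (φ : W → V) (ψ : V → W) (L : ℕ)
    (hφ : ∀ x y, Δ.Adj x y → Γ.dist (φ x) (φ y) ≤ L)
    (hψ : ∀ x y, Γ.Adj x y → Δ.dist (ψ x) (ψ y) ≤ L)
    (h1 : ∀ x, Δ.dist (ψ (φ x)) x ≤ L) (h2 : ∀ u, Γ.dist (φ (ψ u)) u ≤ L)
    {r : ℕ} (hCB : CB Γ r) : ∃ r', CB Δ r' := by
  have dφ : ∀ x y, Γ.dist (φ x) (φ y) ≤ L * Δ.dist x y := dist_map_le hΔ hΓ hφ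
  have dψ : ∀ u v, Δ.dist (ψ u) (ψ v) ≤ L * Γ.dist u v := dist_map_le hΓ hΔ hψ
  obtain ⟨C, hC⟩ : ∃ C, C = L * L + L := ⟨_, rfl⟩
  obtain ⟨t, ht⟩ : ∃ t, t = r + (L * C + L) + L + 1 := ⟨_, rfl⟩
  obtain ⟨M, hM⟩ : ∃ M, M = L * (t + r + 1 + L) + L + L := ⟨_, rfl⟩
  refine ⟨M + C, fun A hA => ?_⟩
  have hfinA := hA.finite_outerBdry lfΔ
  obtain ⟨hA1, hA2, -⟩ := hA
  rw [connected_iff_conn] at hA1 hA2
  obtain ⟨⟨a₀, ha₀⟩, hA1⟩ := hA1
  obtain ⟨⟨c₀, hc₀⟩, hA2⟩ := hA2
  obtain ⟨S, hS⟩ : ∃ S, S = nbhd Δ (M + C + 1) A \ A := ⟨_, rfl⟩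
  rw [← hS]
  -- distance transfer
  have dist_psi_le : ∀ u a k, Γ.dist u (φ a) ≤ k → Δ.dist (ψ u) a ≤ L * k + L := by
    intro u a k h
    calc Δ.dist (ψ u) a ≤ Δ.dist (ψ u) (ψ (φ a)) + Δ.dist (ψ (φ a)) a := hΔ.dist_triangle
      _ ≤ L * k + L := add_le_add ((dψ _ _).trans (Nat.mul_le_mul_left _ h)) (h1 a)
  have dist_le_of_psi : ∀ u a k, Δ.dist (ψ u) a ≤ k → Γ.dist u (φ a) ≤ L * k + L := by
    intro u a k h
    have h3 : Γ.dist u (φ a) ≤ Γ.dist u (φ (ψ u)) + Γ.dist (φ (ψ u)) (φ a) := hΓ.dist_triangle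
    have h4 : Γ.dist u (φ (ψ u)) ≤ L := by rw [SimpleGraph.dist_comm]; exact h2 u
    have h5 : Γ.dist (φ (ψ u)) (φ a) ≤ L * k := (dφ _ _).trans (Nat.mul_le_mul_left _ h)
    omega
  obtain ⟨F, hF⟩ : ∃ F, F = nbhd Γ t (φ '' A) := ⟨_, rfl⟩
  have memF : ∀ u, u ∈ F ↔ ∃ a ∈ A, Γ.dist u (φ a) ≤ t := by
    intro u
    rw [hF]
    constructor
    · rintro ⟨y, ⟨a, ha, rfl⟩, h⟩
      exact ⟨a, ha, h⟩
    · rintro ⟨a, ha, h⟩
      exact ⟨φ a, ⟨a, ha, rfl⟩, h⟩
  -- `F` is connected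
  have hFconn : (Γ.induce F).Connected := by
    rw [connected_iff_conn]
    have ha_mem : ∀ a ∈ A, φ a ∈ F := fun a ha => (memF _).2 ⟨a, ha, by simp⟩
    have k1 : ∀ a ∈ A, conn Γ F (φ a₀) (φ a) := by
      intro a ha
      refine (hA1 a₀ ha₀ a ha).induct (P := fun a => conn Γ F (φ a₀) (φ a))
        (conn.rfl' (ha_mem _ ha₀)) ?_
      intro b c hb hc hbc hab
      refine hab.trans (conn_of_dist_le hΓ (hφ b c hbc) ?_)
      intro z hz
      refine (memF _).2 ⟨b, hb, ?_⟩
      rw [SimpleGraph.dist_comm]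
      omega
    have k2 : ∀ u ∈ F, conn Γ F (φ a₀) u := by
      intro u hu
      obtain ⟨a, ha, hua⟩ := (memF u).1 hu
      rw [SimpleGraph.dist_comm] at hua
      refine (k1 a ha).trans (conn_of_dist_le hΓ hua ?_)
      intro z hz
      exact (memF _).2 ⟨a, ha, by rw [SimpleGraph.dist_comm]; exact hz⟩
    exact ⟨⟨_, ha_mem _ ha₀⟩, fun x hx y hy => (k2 x hx).symm.trans (k2 y hy)⟩
  have hnotF : ∀ w, w ∉ F → ∀ a ∈ A, t + 1 ≤ Γ.dist w (φ a) := by
    intro w hw a ha
    by_contra hcon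
    exact hw ((memF w).2 ⟨a, ha, by omega⟩)
  -- a vertex that is far from `φ '' A` is mapped outside `A`, with room `C`
  have far : ∀ u, (∀ a ∈ A, L * C + L < Γ.dist u (φ a)) → ∀ a ∈ A, C < Δ.dist (ψ u) a := by
    intro u hu a ha
    by_contra hcon
    have := dist_le_of_psi u a C (by omega)
    have := hu a ha
    omega
  -- connecting inside `S` points at distance at most `C` of a good `ψ u`
  have conn_good : ∀ u y, (∀ a ∈ A, L * C + L < Γ.dist u (φ a)) →
      (∃ a ∈ A, Γ.dist u (φ a) ≤ t + r + 1 + L) → Δ.dist (ψ u) y ≤ C → conn Δ S (ψ u) y := by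
    intro u y hu hu' hy
    refine conn_of_dist_le hΔ hy ?_
    intro z hz
    rw [hS]
    constructor
    · obtain ⟨a, ha, hua⟩ := hu'
      refine ⟨a, ha, ?_⟩
      have h3 := dist_psi_le u a _ hua
      have h4 : Δ.dist z a ≤ Δ.dist z (ψ u) + Δ.dist (ψ u) a := hΔ.dist_triangle
      rw [SimpleGraph.dist_comm (u := z) (v := ψ u)] at h4
      omega
    · intro hzA
      have := far u hu z hzA
      omega
  -- the outer boundary of a component
  have bdry_sub : ∀ q z, z ∈ outerBdry Γ (comp Γ Fᶜ q) → z ∈ F := by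
    rintro q z ⟨hz, w, hw, hzw⟩
    by_contra hzF
    exact hz (conn.trans hw (conn.of_adj (conn.right hw) hzF hzw.symm))
  -- each component of the complement of `F` is `c`-connected
  have comp_cc : ∀ q, q ∉ F → CConnected Γ (comp Γ Fᶜ q) := by
    intro q hq
    refine cconnected_of_finite_outerBdry (comp_connected hq) (comp_compl_connected hΓ hFconn) ?_
    have hfin : (nbhd Γ (L * (L * t + L) + L) (φ '' outerBdry Δ A)).Finite :=
      finite_nbhd hΓ lfΓ (hfinA.image φ) _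
    refine hfin.subset ?_
    intro z hz
    have hzF := bdry_sub q z hz
    obtain ⟨hz1, w, hw, hzw⟩ := hz
    obtain ⟨a, ha, hza⟩ := (memF z).1 hzF
    have hlow : ∀ a ∈ A, L * C + L < Γ.dist z (φ a) := by
      intro a ha
      have h3 := hnotF w (conn.right hw) a ha
      have h4 : Γ.dist w (φ a) ≤ Γ.dist w z + Γ.dist z (φ a) := hΓ.dist_triangle
      rw [SimpleGraph.dist_eq_one_iff_adj.2 hzw.symm] at h4
      omega
    have hzA : ψ z ∉ A := by
      intro hmem
      have := far z hlow _ hmem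
      simp at this
    obtain ⟨b, hb, hb1, -⟩ := exists_outerBdry_of_dist hΔ hzA ha (dist_psi_le z a t hza)
    exact ⟨φ b, ⟨b, hb, rfl⟩, dist_le_of_psi z b _ hb1⟩
  -- good bounds for the points near the boundary of a component
  have good : ∀ q, ∀ u ∈ nbhd Γ (r + 1) (comp Γ Fᶜ q) \ comp Γ Fᶜ q,
      (∀ a ∈ A, L * C + L < Γ.dist u (φ a)) ∧ ∃ a ∈ A, Γ.dist u (φ a) ≤ t + r + 1 := by
    rintro q u ⟨⟨w, hw, huw⟩, hu⟩
    constructor
    · intro a ha
      have h3 := hnotF w (conn.right hw) a ha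
      have h4 : Γ.dist w (φ a) ≤ Γ.dist w u + Γ.dist u (φ a) := hΓ.dist_triangle
      rw [SimpleGraph.dist_comm (u := w) (v := u)] at h4
      omega
    · obtain ⟨b, hb, hb1, -⟩ := exists_outerBdry_of_dist hΓ hu hw huw
      obtain ⟨a, ha, hba⟩ := (memF b).1 (bdry_sub q b hb)
      refine ⟨a, ha, ?_⟩
      have h4 : Γ.dist u (φ a) ≤ Γ.dist u b + Γ.dist b (φ a) := hΓ.dist_triangle
      omega
  have bdry_mem : ∀ q z, z ∈ outerBdry Γ (comp Γ Fᶜ q) →
      z ∈ nbhd Γ (r + 1) (comp Γ Fᶜ q) \ comp Γ Fᶜ q := by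
    rintro q z ⟨hz, w, hw, hzw⟩
    refine ⟨⟨w, hw, ?_⟩, hz⟩
    rw [SimpleGraph.dist_eq_one_iff_adj.2 hzw]
    omega
  -- all boundary vertices of a component are mapped to one class
  have bdry_conn : ∀ q, q ∉ F → ∀ z ∈ outerBdry Γ (comp Γ Fᶜ q),
      ∀ z' ∈ outerBdry Γ (comp Γ Fᶜ q), conn Δ S (ψ z) (ψ z') := by
    intro q hq z hz z' hz'
    have h3 := hCB _ (comp_cc q hq)
    rw [connected_iff_conn] at h3
    have h4 := h3.2 z (bdry_mem q z hz) z' (bdry_mem q z' hz')
    have hgood : ∀ u ∈ nbhd Γ (r + 1) (comp Γ Fᶜ q) \ comp Γ Fᶜ q, ∀ y,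
        Δ.dist (ψ u) y ≤ C → conn Δ S (ψ u) y := by
      intro u hu y hy
      obtain ⟨g1, a, ha, g2⟩ := good q u hu
      exact conn_good u y g1 ⟨a, ha, by omega⟩ hy
    refine h4.induct (P := fun v => conn Δ S (ψ z) (ψ v))
      (hgood z (bdry_mem q z hz) _ (by simp)) ?_
    intro u v hu hv huv hzu
    refine hzu.trans (hgood u hu _ ?_)
    have := hψ u v huv
    rw [hC]
    omega
  -- a vertex `p ∉ A` and a boundary vertex `z` near `φ p`
  have link : ∀ p z, (∃ q, z ∈ outerBdry Γ (comp Γ Fᶜ q)) → Γ.dist z (φ p) ≤ L →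
      conn Δ S p (ψ z) := by
    rintro p z ⟨q, hz⟩ hzp
    obtain ⟨g1, a, ha, g2⟩ := good q z (bdry_mem q z hz)
    refine (conn_good z p g1 ⟨a, ha, by omega⟩ ?_).symm
    have := dist_psi_le z p L hzp
    omega
  -- membership of `p` in `S`
  have memS : ∀ p, p ∉ A → (∃ a ∈ A, Γ.dist (φ p) (φ a) ≤ t + L) → p ∈ S := by
    rintro p hp ⟨a, ha, hpa⟩
    rw [hS]
    refine ⟨⟨a, ha, ?_⟩, hp⟩
    have h3 : Δ.dist p a ≤ Δ.dist p (ψ (φ p)) + Δ.dist (ψ (φ p)) a := hΔ.dist_triangle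
    have h4 := dist_psi_le (φ p) a _ hpa
    have h5 : Δ.dist p (ψ (φ p)) ≤ L := by rw [SimpleGraph.dist_comm]; exact h1 p
    have h6 : L * (t + L) ≤ L * (t + r + 1 + L) := Nat.mul_le_mul_left _ (by omega)
    omega
  -- the labelling argument
  have main : ∀ x ∈ outerBdry Δ A, ∀ y ∈ outerBdry Δ A, conn Δ S x y := by
    intro x hx y hy
    have outer_F : ∀ x ∈ outerBdry Δ A, φ x ∈ F := by
      rintro x ⟨hx, a, ha, hxa⟩
      exact (memF _).2 ⟨a, ha, (hφ x a hxa).trans (by omega)⟩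
    have outer_S : ∀ x ∈ outerBdry Δ A, x ∈ S := by
      intro x hx
      obtain ⟨a, ha, hxa⟩ := (memF _).1 (outer_F x hx)
      exact memS x hx.1 ⟨a, ha, by omega⟩
    -- label
    let R : V → W → Prop := fun q p =>
      (q ∈ F → conn Δ S x p) ∧
      (q ∉ F → ∀ z ∈ outerBdry Γ (comp Γ Fᶜ q), conn Δ S x (ψ z))
    have comp_eq : ∀ q q', q ∉ F → q' ∉ F → Γ.Adj q q' → comp Γ Fᶜ q = comp Γ Fᶜ q' := by
      intro q q' hq hq' hqq'
      ext v
      have h : conn Γ Fᶜ q q' := conn.of_adj hq hq' hqq'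
      exact ⟨fun hv => h.symm.trans hv, fun hv => h.trans hv⟩
    have bdry_of_adj : ∀ q q', q ∈ F → q' ∉ F → Γ.Adj q q' →
        q ∈ outerBdry Γ (comp Γ Fᶜ q') := by
      intro q q' hq hq' hqq'
      exact ⟨fun h => (conn.right h) hq, q', conn.rfl' hq', hqq'⟩
    have step1 : ∀ q q' p, Γ.Adj q q' → Γ.dist (φ p) q ≤ L → Γ.dist (φ p) q' ≤ L →
        R q p → R q' p := by
      intro q q' p hqq' hqp hq'p hR
      by_cases hq : q ∈ F
      · by_cases hq' : q' ∈ F
        · exact ⟨fun _ => hR.1 hq, fun h => absurd hq' h⟩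
        · refine ⟨fun h => absurd h hq', fun _ z hz => ?_⟩
          have hb := bdry_of_adj q q' hq hq' hqq'
          refine (hR.1 hq).trans ((link p q ⟨q', hb⟩ ?_).trans (bdry_conn q' hq' q hb z hz))
          rw [SimpleGraph.dist_comm]
          exact hqp
      · by_cases hq' : q' ∈ F
        · refine ⟨fun _ => ?_, fun h => absurd hq' h⟩
          have hb := bdry_of_adj q' q hq' hq hqq'.symm
          refine (hR.2 hq q' hb).trans (link p q' ⟨q, hb⟩ ?_).symm
          rw [SimpleGraph.dist_comm]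
          exact hq'p
        · refine ⟨fun h => absurd h hq', fun _ z hz => ?_⟩
          rw [← comp_eq q q' hq hq' hqq'] at hz
          exact hR.2 hq z hz
    have step2 : ∀ p p', p ∉ A → p' ∉ A → Δ.Adj p p' → R (φ p) p → R (φ p') p' := by
      intro p p' hp hp' hpp' hR
      -- first move along the walk from `φ p` to `φ p'`
      have hc : conn Γ {z | Γ.dist (φ p) z ≤ L} (φ p) (φ p') :=
        conn_of_dist_le hΓ (hφ p p' hpp') (fun z hz => hz)
      have hR' : R (φ p') p := by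
        refine hc.induct (P := fun q => R q p) hR ?_
        intro a b ha hb hab h
        exact step1 a b p hab ha hb h
      constructor
      · intro hF'
        have h3 := hR'.1 hF'
        refine h3.trans (conn.of_adj h3.right ?_ hpp')
        obtain ⟨a, ha, hpa⟩ := (memF _).1 hF'
        exact memS p' hp' ⟨a, ha, by omega⟩
      · exact hR'.2
    have hfinal : R (φ y) y := by
      refine (hA2 x hx.1 y hy.1).induct (P := fun p => R (φ p) p) ?_ ?_
      · exact ⟨fun _ => conn.rfl' (outer_S x hx), fun h => absurd (outer_F x hx) h⟩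
      · intro a b ha hb hab h
        exact step2 a b ha hb hab h
    exact hfinal.1 (outer_F y hy)
  rw [connected_iff_conn]
  have toBdry : ∀ u ∈ S, ∃ b ∈ outerBdry Δ A, conn Δ S u b := by
    intro u hu
    rw [hS] at hu
    obtain ⟨⟨a, ha, hua⟩, huA⟩ := hu
    obtain ⟨b, hb, -, hb2⟩ := exists_outerBdry_of_dist hΔ huA ha hua
    exact ⟨b, hb, hS ▸ hb2⟩
  constructor
  · obtain ⟨b, hb, -, hb2⟩ := exists_outerBdry_of_dist hΔ (hc₀ : c₀ ∉ A) ha₀ le_rfl
    have := main b hb b hb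
    exact ⟨b, this.left⟩
  · intro x hx y hy
    obtain ⟨b, hb, hxb⟩ := toBdry x hx
    obtain ⟨c, hc, hyc⟩ := toBdry y hy
    exact hxb.trans ((main b hb c hc).trans hyc.symm)

end Main

/-! ## Cayley graphs -/

section Cayley

variable {G : Type u} [Group G] {S T : Set G}

theorem finite_neighborSet_mulCayley (hS : S.Finite) (v : G) :
    ((SimpleGraph.mulCayley S).neighborSet v).Finite := by
  refine ((hS.image (fun g => v * g)).union (hS.image (fun g => v * g⁻¹))).subset ?_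
  intro w hw
  rw [SimpleGraph.mem_neighborSet, SimpleGraph.mulCayley_adj'] at hw
  obtain ⟨-, g, hg, h | h⟩ := hw
  · exact Or.inl ⟨g, hg, h⟩
  · exact Or.inr ⟨g, hg, by simp [h]⟩

theorem reachable_mul (hS : Subgroup.closure S = ⊤) (g : G) :
    ∀ x, (SimpleGraph.mulCayley S).Reachable x (x * g) := by
  have hg : g ∈ Subgroup.closure S := by rw [hS]; trivial
  induction hg using Subgroup.closure_induction with
  | mem s hs =>
    intro x
    by_cases h : x = x * s
    · rw [← h]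
    · exact SimpleGraph.Adj.reachable
        ((SimpleGraph.mulCayley_adj' S x (x * s)).2 ⟨h, s, hs, Or.inl rfl⟩)
  | one => intro x; rw [mul_one]
  | mul a b _ _ iha ihb => intro x; rw [← mul_assoc]; exact (iha x).trans (ihb (x * a))
  | inv a _ iha =>
    intro x
    have := iha (x * a⁻¹)
    rw [inv_mul_cancel_right] at this
    exact this.symm

theorem connected_mulCayley (hS : Subgroup.closure S = ⊤) :
    (SimpleGraph.mulCayley S).Connected := by
  rw [SimpleGraph.connected_iff_exists_forall_reachable]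
  exact ⟨1, fun g => by simpa using reachable_mul hS g 1⟩

theorem exists_dist_mul_le (hS : Subgroup.closure S = ⊤) (g : G) :
    ∃ k, ∀ x, (SimpleGraph.mulCayley S).dist x (x * g) ≤ k := by
  have hg : g ∈ Subgroup.closure S := by rw [hS]; trivial
  induction hg using Subgroup.closure_induction with
  | mem s hs =>
    refine ⟨1, fun x => ?_⟩
    by_cases h : x = x * s
    · rw [← h]; simp
    · exact (SimpleGraph.dist_eq_one_iff_adj.2
        ((SimpleGraph.mulCayley_adj' S x (x * s)).2 ⟨h, s, hs, Or.inl rfl⟩)).le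
  | one => exact ⟨0, fun x => by simp⟩
  | mul a b _ _ iha ihb =>
    obtain ⟨k, hk⟩ := iha
    obtain ⟨l, hl⟩ := ihb
    refine ⟨k + l, fun x => ?_⟩
    rw [← mul_assoc]
    exact ((connected_mulCayley hS).dist_triangle (v := x * a)).trans
      (add_le_add (hk x) (hl (x * a)))
  | inv a _ iha =>
    obtain ⟨k, hk⟩ := iha
    refine ⟨k, fun x => ?_⟩
    have := hk (x * a⁻¹)
    rw [inv_mul_cancel_right, SimpleGraph.dist_comm] at this
    exact this

theorem exists_dist_adj_le (hS : S.Finite) (hT : Subgroup.closure T = ⊤) :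
    ∃ L, ∀ x y, (SimpleGraph.mulCayley S).Adj x y → (SimpleGraph.mulCayley T).dist x y ≤ L := by
  choose k hk using fun g : G => exists_dist_mul_le hT g
  obtain ⟨L, hL⟩ := (hS.image k).bddAbove
  refine ⟨L, fun x y hxy => ?_⟩
  rw [SimpleGraph.mulCayley_adj'] at hxy
  obtain ⟨-, g, hg, rfl | rfl⟩ := hxy
  · exact (hk g x).trans (hL ⟨g, hg, rfl⟩)
  · rw [SimpleGraph.dist_comm]
    exact (hk g y).trans (hL ⟨g, hg, rfl⟩)

end Cayley

/-! ## Quasi-isometries -/

section QI

variable {V : Type u} {W : Type v} {Γ : SimpleGraph V} {Δ : SimpleGraph W}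

/-- Quasi-isometry invariance for connected locally finite graphs. -/
theorem hasConnectedBoundaries_of_quasiIsometric (hΓ : Γ.Connected) (hΔ : Δ.Connected)
    (lfΓ : ∀ v, (Γ.neighborSet v).Finite) (lfΔ : ∀ v, (Δ.neighborSet v).Finite)
    (hqi : QuasiIsometric Γ Δ) (h : HasConnectedBoundaries Γ) : HasConnectedBoundaries Δ := by
  obtain ⟨f, A, B, hA, hB, hf, hsurj⟩ := hqi
  obtain ⟨r, hr⟩ := h
  choose φ hφ using hsurj
  have hA0 : 0 < A := by linarith
  have hlow : ∀ x y, (Γ.dist x y : ℝ) ≤ A * ((Δ.dist (f x) (f y) : ℝ) + B) := by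
    intro x y
    have h1 := (hf x y).1
    have h2 : (1 / A) * (Γ.dist x y : ℝ) ≤ (Δ.dist (f x) (f y) : ℝ) + B := by linarith
    have h3 := mul_le_mul_of_nonneg_left h2 hA0.le
    rwa [← mul_assoc, mul_one_div_cancel hA0.ne', one_mul] at h3
  have hAB : 0 ≤ A * B := mul_nonneg hA0.le hB
  have hle : ∀ n : ℕ, (n : ℝ) ≤ A * (3 * B + 1) + B → n ≤ ⌈A * (3 * B + 1) + B⌉₊ := by
    intro n hn
    exact_mod_cast hn.trans (Nat.le_ceil _)
  refine cb_transfer hΓ hΔ lfΓ lfΔ φ f ⌈A * (3 * B + 1) + B⌉₊ ?_ ?_ ?_ ?_ hr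
  · intro z w hzw
    apply hle
    have h1 := hlow (φ z) (φ w)
    have h2 : Δ.dist (f (φ z)) (f (φ w)) ≤ Δ.dist (f (φ z)) z + Δ.dist z (f (φ w)) :=
      hΔ.dist_triangle
    have h3 : Δ.dist z (f (φ w)) ≤ Δ.dist z w + Δ.dist w (f (φ w)) := hΔ.dist_triangle
    rw [SimpleGraph.dist_eq_one_iff_adj.2 hzw] at h3
    rw [SimpleGraph.dist_comm (u := f (φ z)) (v := z)] at h2
    have h4 : (Δ.dist (f (φ z)) (f (φ w)) : ℝ) ≤
        (Δ.dist z (f (φ z)) : ℝ) + (1 + (Δ.dist w (f (φ w)) : ℝ)) := by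
      exact_mod_cast (show Δ.dist (f (φ z)) (f (φ w)) ≤
        Δ.dist z (f (φ z)) + (1 + Δ.dist w (f (φ w))) by omega)
    have h5 : (Δ.dist (f (φ z)) (f (φ w)) : ℝ) + B ≤ 3 * B + 1 := by
      linarith [hφ z, hφ w]
    have h6 := mul_le_mul_of_nonneg_left h5 hA0.le
    linarith
  · intro x y hxy
    apply hle
    have h1 := (hf x y).2
    rw [SimpleGraph.dist_eq_one_iff_adj.2 hxy] at h1
    push_cast at h1
    nlinarith
  · intro z
    apply hle
    rw [SimpleGraph.dist_comm]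
    have := hφ z
    nlinarith
  · intro u
    apply hle
    have h1 := hlow (φ (f u)) u
    have h2 := hφ (f u)
    rw [SimpleGraph.dist_comm] at h2
    have h5 : (Δ.dist (f (φ (f u))) (f u) : ℝ) + B ≤ 2 * B := by linarith
    have h6 := mul_le_mul_of_nonneg_left h5 hA0.le
    nlinarith

theorem BiLipschitzEquivalent.quasiIsometric (h : BiLipschitzEquivalent Γ Δ) :
    QuasiIsometric Γ Δ := by
  obtain ⟨f, A, hA, hf⟩ := h
  refine ⟨f, A, 0, hA, le_rfl, fun x y => ?_, fun z => ⟨f.symm z, by simp⟩⟩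
  simpa using hf x y

end QI

end Pool.Agent.Lib_helper55.ConnBdry
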