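import Mathlib
import Pool.Agent.Lib_helper71.Db.Defs

/-!
# The Bochner–Martinelli identity in `ℂ²` (with an unspecified nonzero constant)
-/

set_option autoImplicit false
set_option linter.style.haveILetI false

open MeasureTheory Set Metric

namespace Db

/-! ### elementary facts on `q` -/

theorem continuous_q : Continuous q := by
  unfold q
  fun_prop

theorem q_nonneg (v : V) : 0 ≤ q v := add_nonneg (Complex.normSq_nonneg _) (Complex.normSq_nonneg _)

theorem sq_norm_le_q (v : V) : ‖v‖ ^ 2 ≤ q v := by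
  have h : ∀ k, ‖v k‖ ^ 2 ≤ q v := by
    intro k
    rw [← Complex.normSq_eq_norm_sq]
    unfold q
    fin_cases k
    · simpa using Complex.normSq_nonneg _
    · simpa using Complex.normSq_nonneg _
  obtain ⟨k, hk⟩ : ∃ k, ‖v‖ = ‖v k‖ := by
    obtain ⟨k, -, hk⟩ := Finset.exists_mem_eq_sup' (Finset.univ_nonempty (α := Fin 2))
      (fun k => ‖v k‖₊)
    refine ⟨k, ?_⟩
    rw [← coe_nnnorm, ← coe_nnnorm, Pi.nnnorm_def]
    rw [← hk, Finset.sup'_eq_sup]
  rw [hk]
  exact h k

theorem q_pos {v : V} (hv : v ≠ 0) : 0 < q v :=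
  lt_of_lt_of_le (by positivity) (sq_norm_le_q v)

theorem q_smul (a : ℂ) (v : V) : q (a • v) = Complex.normSq a * q v := by
  simp only [q, Pi.smul_apply, smul_eq_mul, Complex.normSq_mul]
  ring

/-! ### integrability -/

theorem finrank_V : Module.finrank ℝ V = 4 := by
  change Module.finrank ℝ (Fin 2 → ℂ) = 4
  rw [Module.finrank_pi_fintype]
  simp [Complex.finrank_real_complex]

theorem integrableOn_norm_inv (R : ℝ) :
    IntegrableOn (fun v : V => (‖v‖ ^ 3)⁻¹) (ball (0 : V) R) := by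
  have hdim : Module.finrank ℝ V = 4 := finrank_V
  have h := (integrableOn_fun_norm_addHaar (E := V) (F := ℝ) (volume : Measure V)
    (f := fun r => (r ^ 3)⁻¹) (r := R))
  rw [h, hdim]
  have h1 : IntegrableOn (fun _ : ℝ => (1 : ℝ)) (Ioo 0 R) := by
    refine integrableOn_const (by simp) (by simp)
  refine h1.congr_fun (fun y hy => ?_) measurableSet_Ioo
  have : y ≠ 0 := hy.1.ne'
  simp only [smul_eq_mul]
  norm_num
  field_simp

/-- integrability of a function which is `O(‖v‖)` divided by `q²`. -/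
theorem integrable_div_q {F : V → ℂ} (hF : Continuous F) {C R : ℝ}
    (hC : ∀ v, ‖F v‖ ≤ C * ‖v‖) (hR : ∀ v, R ≤ ‖v‖ → F v = 0) :
    Integrable (fun v => F v / ((q v : ℂ)) ^ 2) := by
  have h1 : Integrable (fun v : V => (ball (0 : V) R).indicator
      (fun v => C * (‖v‖ ^ 3)⁻¹) v) := by
    rw [integrable_indicator_iff measurableSet_ball]
    exact (integrableOn_norm_inv R).const_mul C
  refine h1.mono' ?_ (Filter.Eventually.of_forall fun v => ?_)
  · refine Measurable.aestronglyMeasurable ?_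
    refine hF.measurable.div ?_
    exact ((Complex.continuous_ofReal.comp continuous_q).pow 2).measurable
  · by_cases hv : v ∈ ball (0 : V) R
    · rw [indicator_of_mem hv]
      by_cases h0 : v = 0
      · subst h0
        have : F 0 = 0 := by
          have := hC 0
          rw [norm_zero, mul_zero] at this
          exact norm_le_zero_iff.mp this
        rw [this]
        simp
      · have hn : 0 < ‖v‖ := norm_pos_iff.mpr h0
        have hq := sq_norm_le_q v
        have hq0 := q_pos h0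
        rw [norm_div, norm_pow, Complex.norm_real, Real.norm_of_nonneg hq0.le]
        have hCv := hC v
        have h2 : ‖v‖ ^ 4 ≤ q v ^ 2 := by
          calc ‖v‖ ^ 4 = (‖v‖ ^ 2) ^ 2 := by ring
            _ ≤ q v ^ 2 := by gcongr
        have hCn : 0 ≤ C * ‖v‖ := le_trans (norm_nonneg _) hCv
        calc ‖F v‖ / q v ^ 2 ≤ (C * ‖v‖) / ‖v‖ ^ 4 := by gcongr
          _ = C * (‖v‖ ^ 3)⁻¹ := by field_simp
    · rw [indicator_of_notMem hv]
      rw [mem_ball_zero_iff, not_lt] at hv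
      rw [hR v hv]
      simp

theorem locallyIntegrable_bm (k : Fin 2) :
    LocallyIntegrable (fun v : V => (starRingEnd ℂ) (v k) / ((q v : ℂ)) ^ 2) := by
  rw [locallyIntegrable_iff]
  intro K hK
  obtain ⟨R, hR⟩ := hK.isBounded.subset_ball (0 : V)
  refine IntegrableOn.mono_set ?_ hR
  have h1 : IntegrableOn (fun v : V => (‖v‖ ^ 3)⁻¹) (ball (0 : V) R) := integrableOn_norm_inv R
  refine h1.mono' ?_ (Filter.Eventually.of_forall fun v => ?_)
  · refine Measurable.aestronglyMeasurable ?_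
    refine Measurable.div ?_ ?_
    · exact (Complex.continuous_conj.comp (continuous_apply k)).measurable
    · exact ((Complex.continuous_ofReal.comp continuous_q).pow 2).measurable
  · by_cases h0 : v = 0
    · subst h0; simp
    · have hn : 0 < ‖v‖ := norm_pos_iff.mpr h0
      have hq := sq_norm_le_q v
      have hq0 := q_pos h0
      rw [norm_div, norm_pow, Complex.norm_real, Real.norm_of_nonneg hq0.le,
        RCLike.norm_conj]
      have h2 : ‖v‖ ^ 4 ≤ q v ^ 2 := by
        calc ‖v‖ ^ 4 = (‖v‖ ^ 2) ^ 2 := by ring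
          _ ≤ q v ^ 2 := by gcongr
      calc ‖v k‖ / q v ^ 2 ≤ ‖v‖ / ‖v‖ ^ 4 := by
            gcongr
            exact norm_le_pi_norm v k
        _ = (‖v‖ ^ 3)⁻¹ := by field_simp

/-! ### invariance -/

theorem integral_unit_smul (a : ℂ) (ha : ‖a‖ = 1) (f : V → ℂ) :
    ∫ v, f (a • v) = ∫ v, f v := by
  have h1 : ∀ k : Fin 2, MeasurePreserving (fun z : ℂ => a * z) (volume : Measure ℂ) volume := by
    intro k
    let e : ℂ ≃ₗᵢ[ℝ] ℂ := rotation ⟨a, by simp [Submonoid.unitSphere, ha]⟩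
    exact e.measurePreserving
  have h2 : MeasurePreserving (fun v : V => a • v) (volume : Measure V) volume := by
    have := measurePreserving_pi (fun _ : Fin 2 => (volume : Measure ℂ)) (fun _ => volume) h1
    exact this
  have h3 : MeasurableEmbedding (fun v : V => a • v) := by
    have ha0 : a ≠ 0 := by
      intro h; rw [h, norm_zero] at ha; exact zero_ne_one ha
    exact (Homeomorph.smulOfNeZero a ha0).measurableEmbedding
  exact h2.integral_comp h3 f

theorem integral_smul (a : ℂ) (ha : a ≠ 0) (f : V → ℂ) :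
    ∫ v, f (a • v) = ((‖a‖ ^ 4)⁻¹ : ℝ) • ∫ v, f v := by
  have hn : ‖a‖ ≠ 0 := norm_ne_zero_iff.mpr ha
  have h1 : ∫ v, f (a • v) = ∫ v, f ((‖a‖ : ℝ) • v) := by
    rw [← integral_unit_smul (a / ‖a‖) (by simp [hn]) (fun v => f ((‖a‖ : ℝ) • v))]
    congr 1
    ext v
    congr 1
    ext k
    simp only [Pi.smul_apply, smul_eq_mul, Complex.real_smul]
    have : (‖a‖ : ℂ) ≠ 0 := by exact_mod_cast hn
    field_simp
  rw [h1, Measure.integral_comp_smul]
  congr 1
  have hdim : Module.finrank ℝ V = 4 := finrank_V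
  rw [hdim, abs_of_nonneg (by positivity)]

theorem integral_smul_div_q (a : ℂ) (ha : a ≠ 0) (f : V → ℂ) :
    ∫ v, f (a • v) / ((q v : ℂ)) ^ 2 = ∫ v, f v / ((q v : ℂ)) ^ 2 := by
  have hn : ‖a‖ ≠ 0 := norm_ne_zero_iff.mpr ha
  have h1 : ∀ v, f (a • v) / ((q v : ℂ)) ^ 2 =
      (‖a‖ ^ 4 : ℝ) • (fun w => f w / ((q w : ℂ)) ^ 2) (a • v) := by
    intro v
    simp only [q_smul, Complex.normSq_eq_norm_sq]
    by_cases hv : v = 0
    · subst hv; simp [q]
    · have hq : (q v : ℂ) ≠ 0 := by exact_mod_cast (q_pos hv).ne'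
      have : (‖a‖ : ℂ) ≠ 0 := by exact_mod_cast hn
      rw [Complex.real_smul]
      push_cast
      field_simp
  simp_rw [h1]
  rw [MeasureTheory.integral_smul]
  have h2 := integral_smul a ha (fun w => f w / ((q w : ℂ)) ^ 2)
  rw [h2, smul_smul, mul_inv_cancel₀ (by positivity), one_smul]

/-! ### the vanishing lemma -/

theorem fderiv_smul_bound {h : V → ℂ} (hh : ContDiff ℝ 1 h) (hs : HasCompactSupport h) :
    ∃ C R : ℝ, 0 ≤ C ∧ (∀ v, ‖fderiv ℝ h v‖ ≤ C) ∧ (∀ v, R ≤ ‖v‖ → fderiv ℝ h v = 0) ∧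
      (∀ v, R ≤ ‖v‖ → h v = 0) := by
  obtain ⟨C, hC⟩ := (hs.fderiv (𝕜 := ℝ)).exists_bound_of_continuous
    (hh.continuous_fderiv (by norm_num))
  obtain ⟨R1, hR1⟩ := (hs.fderiv (𝕜 := ℝ)).isCompact.isBounded.subset_ball (0 : V)
  obtain ⟨R2, hR2⟩ := hs.isCompact.isBounded.subset_ball (0 : V)
  refine ⟨C, max R1 R2, le_trans (norm_nonneg _) (hC 0), hC, fun v hv => ?_, fun v hv => ?_⟩
  · by_contra hne
    have h1 : v ∈ tsupport (fderiv ℝ h) := subset_tsupport _ (Function.mem_support.mpr hne)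
    have h2 := hR1 h1
    rw [mem_ball_zero_iff] at h2
    exact absurd h2 (not_lt.mpr (le_trans (le_max_left _ _) hv))
  · by_contra hne
    have h1 : v ∈ tsupport h := subset_tsupport _ (Function.mem_support.mpr hne)
    have h2 := hR2 h1
    rw [mem_ball_zero_iff] at h2
    exact absurd h2 (not_lt.mpr (le_trans (le_max_right _ _) hv))

theorem vanish (h : V → ℂ) (hh : ContDiff ℝ 1 h) (hs : HasCompactSupport h) (h0 : h 0 = 0)
    (ω : ℂ) : ∫ v, fderiv ℝ h v (ω • v) / ((q v : ℂ)) ^ 2 = 0 := by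
  obtain ⟨C, R, hC0, hC, hR, hR'⟩ := fderiv_smul_bound hh hs
  have hcont : Continuous (fderiv ℝ h) := hh.continuous_fderiv (by norm_num)
  set K : V → ℂ := fun v => fderiv ℝ h v (ω • v) with hK
  have hKc : Continuous K := hcont.clm_apply (continuous_const_smul ω)
  have hKb : ∀ v, ‖K v‖ ≤ C * ‖ω‖ * ‖v‖ := by
    intro v
    calc ‖K v‖ ≤ ‖fderiv ℝ h v‖ * ‖ω • v‖ := ContinuousLinearMap.le_opNorm _ _
      _ ≤ C * (‖ω‖ * ‖v‖) := by
        rw [norm_smul]
        gcongr
        exact hC v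
      _ = C * ‖ω‖ * ‖v‖ := by ring
  have hKR : ∀ v, R ≤ ‖v‖ → K v = 0 := by
    intro v hv
    rw [hK]
    simp only [hR v hv]
    rfl
  have hhb : ∀ v, ‖h v‖ ≤ C * ‖v‖ := by
    intro v
    have := Convex.norm_image_sub_le_of_norm_fderiv_le (𝕜 := ℝ) (f := h) (s := univ) (x := 0)
      (y := v) (C := C) (fun x _ => (hh.differentiable (by norm_num)) x) (fun x _ => hC x)
      convex_univ (mem_univ _) (mem_univ _)
    rwa [h0, sub_zero, sub_zero] at this
  let a : ℝ → ℂ := fun t => Complex.exp (t * ω)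
  have ha0 : ∀ t, a t ≠ 0 := fun t => Complex.exp_ne_zero _
  have hac : Continuous a := by
    change Continuous fun t : ℝ => Complex.exp (t * ω)
    fun_prop
  have hder : ∀ t, HasDerivAt a (ω * a t) t := by
    intro t
    have h1 : HasDerivAt (fun t : ℝ => (t : ℂ) * ω) ω t := by
      simpa using (Complex.ofRealCLM.hasDerivAt (x := t)).mul_const ω
    have h2 := h1.cexp
    rwa [mul_comm] at h2
  -- fundamental theorem of calculus
  have hFTC : ∀ v, ∫ t in (0:ℝ)..1, K (a t • v) = h (a 1 • v) - h (a 0 • v) := by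
    intro v
    refine intervalIntegral.integral_eq_sub_of_hasDerivAt (f := fun t => h (a t • v)) ?_ ?_
    · intro t _
      have h1 : HasDerivAt (fun t => a t • v) ((ω * a t) • v) t := (hder t).smul_const v
      have h2 : HasFDerivAt h (fderiv ℝ h (a t • v)) (a t • v) :=
        ((hh.differentiable (by norm_num)) _).hasFDerivAt
      have h3 := h2.comp_hasDerivAt t h1
      rw [mul_smul] at h3
      exact h3
    · refine Continuous.intervalIntegrable ?_ _ _
      exact hKc.comp (hac.smul continuous_const)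
  have hMle : ∀ t ∈ Ioc (0:ℝ) 1, ‖a t‖ ≤ Real.exp ‖ω‖ ∧ Real.exp (-‖ω‖) ≤ ‖a t‖ := by
    intro t ht
    have h1 : ‖a t‖ = Real.exp (t * ω.re) := by
      change ‖Complex.exp (t * ω)‖ = _
      rw [Complex.norm_exp]
      congr 1
      simp
    rw [h1]
    have h2 := Complex.abs_re_le_norm ω
    have h3 := abs_le.mp h2
    constructor
    · apply Real.exp_le_exp.mpr
      nlinarith [ht.1, ht.2, norm_nonneg ω]
    · apply Real.exp_le_exp.mpr
      nlinarith [ht.1, ht.2, norm_nonneg ω]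
  set μ : Measure ℝ := (volume : Measure ℝ).restrict (Ioc 0 1) with hμ
  set g : V → ℝ := (ball (0 : V) (|R| * Real.exp ‖ω‖)).indicator
      (fun v => C * ‖ω‖ * Real.exp ‖ω‖ * (‖v‖ ^ 3)⁻¹) with hg
  have hgi : Integrable g := by
    rw [hg, integrable_indicator_iff measurableSet_ball]
    exact (integrableOn_norm_inv _).const_mul _
  have hbound : ∀ v, ∀ t ∈ Ioc (0:ℝ) 1, ‖K (a t • v) / ((q v : ℂ)) ^ 2‖ ≤ g v := by
    intro v t ht
    by_cases hv : v ∈ ball (0 : V) (|R| * Real.exp ‖ω‖)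
    · rw [hg, indicator_of_mem hv]
      by_cases h0 : v = 0
      · subst h0
        have : K 0 = 0 := by
          have := hKb 0
          rw [norm_zero, mul_zero] at this
          exact norm_le_zero_iff.mp this
        rw [smul_zero, this]
        simp
      · have hn : 0 < ‖v‖ := norm_pos_iff.mpr h0
        have hq := sq_norm_le_q v
        have hq0 := q_pos h0
        rw [norm_div, norm_pow, Complex.norm_real, Real.norm_of_nonneg hq0.le]
        have h2 : ‖v‖ ^ 4 ≤ q v ^ 2 := by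
          calc ‖v‖ ^ 4 = (‖v‖ ^ 2) ^ 2 := by ring
            _ ≤ q v ^ 2 := by gcongr
        have h3 : ‖K (a t • v)‖ ≤ C * ‖ω‖ * (Real.exp ‖ω‖ * ‖v‖) := by
          refine le_trans (hKb _) ?_
          rw [norm_smul]
          gcongr
          exact (hMle t ht).1
        calc ‖K (a t • v)‖ / q v ^ 2 ≤ (C * ‖ω‖ * (Real.exp ‖ω‖ * ‖v‖)) / ‖v‖ ^ 4 := by gcongr
          _ = C * ‖ω‖ * Real.exp ‖ω‖ * (‖v‖ ^ 3)⁻¹ := by field_simp
    · rw [hg, indicator_of_notMem hv]
      rw [mem_ball_zero_iff, not_lt] at hv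
      have h4 : R ≤ ‖a t • v‖ := by
        rw [norm_smul]
        calc R ≤ |R| := le_abs_self R
          _ = Real.exp (-‖ω‖) * (|R| * Real.exp ‖ω‖) := by
            rw [mul_comm |R|, ← mul_assoc, ← Real.exp_add]
            simp
          _ ≤ ‖a t‖ * ‖v‖ := by
            gcongr
            exact (hMle t ht).2
      rw [hKR _ h4]
      simp
  have hprod : Integrable (fun p : V × ℝ => K (a p.2 • p.1) / ((q p.1 : ℂ)) ^ 2)
      ((volume : Measure V).prod μ) := by
    have h1 : Integrable (fun p : V × ℝ => g p.1) ((volume : Measure V).prod μ) :=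
      hgi.comp_fst μ
    refine h1.mono' ?_ ?_
    · refine Measurable.aestronglyMeasurable ?_
      refine Measurable.div ?_ ?_
      · exact (hKc.comp ((hac.comp continuous_snd).smul continuous_fst)).measurable
      · exact (((Complex.continuous_ofReal.comp continuous_q).pow 2).comp
          continuous_fst).measurable
    · have h2 : ∀ᵐ p ∂((volume : Measure V).prod μ), p.2 ∈ Ioc (0:ℝ) 1 := by
        have h3 : ∀ᵐ t ∂μ, t ∈ Ioc (0:ℝ) 1 := ae_restrict_mem measurableSet_Ioc
        exact Measure.quasiMeasurePreserving_snd.ae h3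
      filter_upwards [h2] with p hp
      exact hbound p.1 p.2 hp
  have hswap := integral_integral_swap (f := fun v t => K (a t • v) / ((q v : ℂ)) ^ 2)
    (μ := (volume : Measure V)) (ν := μ) hprod
  have hin : ∀ t, ∫ v, K (a t • v) / ((q v : ℂ)) ^ 2 = ∫ v, K v / ((q v : ℂ)) ^ 2 :=
    fun t => integral_smul_div_q (a t) (ha0 t) K
  have hI1 : ∀ t, Integrable (fun v => h (a t • v) / ((q v : ℂ)) ^ 2) := by
    intro t
    refine integrable_div_q (C := C * ‖a t‖) (R := |R| / ‖a t‖)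
      (hh.continuous.comp (continuous_const_smul _)) ?_ ?_
    · intro v
      refine le_trans (hhb _) ?_
      rw [norm_smul, mul_assoc]
    · intro v hv
      apply hR'
      rw [norm_smul]
      have hat : 0 < ‖a t‖ := norm_pos_iff.mpr (ha0 t)
      rw [div_le_iff₀ hat] at hv
      calc R ≤ |R| := le_abs_self R
        _ ≤ ‖v‖ * ‖a t‖ := hv
        _ = _ := mul_comm _ _
  have hL : ∫ v, (∫ t, K (a t • v) / ((q v : ℂ)) ^ 2 ∂μ) = 0 := by
    have h1 : ∀ v, (∫ t, K (a t • v) / ((q v : ℂ)) ^ 2 ∂μ) =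
        h (a 1 • v) / ((q v : ℂ)) ^ 2 - h (a 0 • v) / ((q v : ℂ)) ^ 2 := by
      intro v
      rw [← sub_div, ← hFTC v, intervalIntegral.integral_of_le zero_le_one, ← hμ]
      exact integral_div _ _
    simp_rw [h1]
    rw [integral_sub (hI1 1) (hI1 0), integral_smul_div_q (a 1) (ha0 1) h,
      integral_smul_div_q (a 0) (ha0 0) h, sub_self]
  have hRR : ∫ t, (∫ v, K (a t • v) / ((q v : ℂ)) ^ 2) ∂μ = ∫ v, K v / ((q v : ℂ)) ^ 2 := by
    simp_rw [hin]
    rw [integral_const]
    simp [hμ, Measure.real]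
  rw [← hRR, ← hL]
  exact hswap.symm

/-! ### the operator `Σ conj(v_k) ∂/∂z̄_k` -/

theorem decomp (v : V) : v = ((v 0).re • (Pi.single 0 (1:ℂ) : V) +
    (v 0).im • (Pi.single 0 Complex.I : V)) + ((v 1).re • (Pi.single 1 (1:ℂ) : V) +
    (v 1).im • (Pi.single 1 Complex.I : V)) := by
  ext k
  fin_cases k
  · simp [Complex.re_add_im]
  · simp [Complex.re_add_im]

theorem sum_db (h : V → ℂ) (w v : V) : ∑ k, db k h w * (starRingEnd ℂ) (v k) =
    (1 / 2 : ℂ) * (fderiv ℝ h w v + Complex.I * fderiv ℝ h w (Complex.I • v)) := by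
  set L := fderiv ℝ h w with hL
  have h1 : L v = (((v 0).re • L (Pi.single 0 (1:ℂ)) + (v 0).im • L (Pi.single 0 Complex.I)) +
      ((v 1).re • L (Pi.single 1 (1:ℂ)) + (v 1).im • L (Pi.single 1 Complex.I))) := by
    conv_lhs => rw [decomp v]
    simp only [map_add, map_smul]
  have h2 : L (Complex.I • v) = (((-(v 0).im) • L (Pi.single 0 (1:ℂ)) +
      (v 0).re • L (Pi.single 0 Complex.I)) +
      ((-(v 1).im) • L (Pi.single 1 (1:ℂ)) + (v 1).re • L (Pi.single 1 Complex.I))) := by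
    conv_lhs => rw [decomp (Complex.I • v)]
    simp only [map_add, map_smul]
    simp
  rw [h1, h2, Fin.sum_univ_two]
  simp only [db, ← hL, Complex.real_smul]
  have hc : ∀ z : ℂ, (starRingEnd ℂ) z = (z.re : ℂ) - (z.im : ℂ) * Complex.I := by
    intro z
    apply Complex.ext <;> simp
  rw [hc (v 0), hc (v 1)]
  push_cast
  have hI : Complex.I ^ 2 = -1 := Complex.I_sq
  linear_combination (1/2 : ℂ) * ((v 0).im * L (Pi.single 0 Complex.I) +
    (v 1).im * L (Pi.single 1 Complex.I)) * (-1) * (hI) 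

/-- `B h v = Σ_k (∂h/∂z̄_k)(v) conj(v_k)`. -/
noncomputable def B (h : V → ℂ) (v : V) : ℂ := ∑ k, db k h v * (starRingEnd ℂ) (v k)

theorem B_eq (h : V → ℂ) (v : V) : B h v =
    (1 / 2 : ℂ) * (fderiv ℝ h v ((1 : ℂ) • v) + Complex.I * fderiv ℝ h v (Complex.I • v)) := by
  rw [B, sum_db, one_smul]

theorem integrable_fderiv (h : V → ℂ) (hh : ContDiff ℝ 1 h) (hs : HasCompactSupport h) (ω : ℂ) :
    Integrable (fun v => fderiv ℝ h v (ω • v) / ((q v : ℂ)) ^ 2) := by
  obtain ⟨C, R, hC0, hC, hR, hR'⟩ := fderiv_smul_bound hh hs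
  have hcont : Continuous (fderiv ℝ h) := hh.continuous_fderiv (by norm_num)
  refine integrable_div_q (C := C * ‖ω‖) (R := R)
    (hcont.clm_apply (continuous_const_smul ω)) ?_ ?_
  · intro v
    calc ‖fderiv ℝ h v (ω • v)‖ ≤ ‖fderiv ℝ h v‖ * ‖ω • v‖ :=
          ContinuousLinearMap.le_opNorm _ _
      _ ≤ C * (‖ω‖ * ‖v‖) := by
        rw [norm_smul]
        gcongr
        exact hC v
      _ = C * ‖ω‖ * ‖v‖ := by ring
  · intro v hv
    rw [hR v hv]
    rfl

theorem B_div (h : V → ℂ) (v : V) : B h v / ((q v : ℂ)) ^ 2 =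
    (1 / 2 : ℂ) * (fderiv ℝ h v ((1 : ℂ) • v) / ((q v : ℂ)) ^ 2 +
      Complex.I * (fderiv ℝ h v (Complex.I • v) / ((q v : ℂ)) ^ 2)) := by
  rw [B_eq]; ring

theorem integrable_B (h : V → ℂ) (hh : ContDiff ℝ 1 h) (hs : HasCompactSupport h) :
    Integrable (fun v => B h v / ((q v : ℂ)) ^ 2) := by
  simp_rw [B_div]
  exact ((integrable_fderiv h hh hs 1).add
    ((integrable_fderiv h hh hs Complex.I).const_mul _)).const_mul _

theorem integral_B (h : V → ℂ) (hh : ContDiff ℝ 1 h) (hs : HasCompactSupport h) :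
    ∫ v, B h v / ((q v : ℂ)) ^ 2 =
    (1 / 2 : ℂ) * ((∫ v, fderiv ℝ h v ((1 : ℂ) • v) / ((q v : ℂ)) ^ 2) +
      Complex.I * ∫ v, (fderiv ℝ h v (Complex.I • v) / ((q v : ℂ)) ^ 2)) := by
  simp_rw [B_div]
  rw [integral_const_mul, integral_add (integrable_fderiv h hh hs 1)
    ((integrable_fderiv h hh hs Complex.I).const_mul _), integral_const_mul]

theorem vanish_B (h : V → ℂ) (hh : ContDiff ℝ 1 h) (hs : HasCompactSupport h) (h0 : h 0 = 0) :
    ∫ v, B h v / ((q v : ℂ)) ^ 2 = 0 := by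
  rw [integral_B h hh hs, vanish h hh hs h0, vanish h hh hs h0]
  simp

/-! ### the radial bump -/

/-- A radial bump. -/
noncomputable def H0 (v : V) : ℝ := expNegInvGlue (1 - q v)

theorem contDiff_q : ContDiff ℝ ((⊤ : ℕ∞) : WithTop ℕ∞) q := by
  have h : q = fun v : V => (‖v 0‖ ^ 2 + ‖v 1‖ ^ 2 : ℝ) := by
    ext v
    simp only [q, Complex.normSq_eq_norm_sq]
  rw [h]
  have h1 : ∀ k : Fin 2, ContDiff ℝ ((⊤ : ℕ∞) : WithTop ℕ∞) (fun v : V => v k) := fun k =>
    contDiff_apply ℝ ℂ k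
  exact ((h1 0).norm_sq ℝ).add ((h1 1).norm_sq ℝ)

theorem contDiff_H0 : ContDiff ℝ 1 H0 := by
  have h1 : ContDiff ℝ ((1 : ℕ∞) : WithTop ℕ∞) expNegInvGlue := expNegInvGlue.contDiff
  have h2 : ContDiff ℝ 1 (fun v : V => 1 - q v) :=
    contDiff_const.sub (contDiff_q.of_le (by exact_mod_cast le_top))
  exact h1.comp h2

theorem H0_support : HasCompactSupport H0 := by
  refine HasCompactSupport.intro (isCompact_closedBall (0 : V) 1) ?_
  intro v hv
  rw [mem_closedBall_zero_iff, not_le] at hv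
  apply expNegInvGlue.zero_of_nonpos
  have := sq_norm_le_q v
  nlinarith [norm_nonneg v]

theorem H0_zero : 0 < H0 0 := by
  apply expNegInvGlue.pos_of_pos
  simp [q]

theorem hasDerivAt_glue (x : ℝ) : HasDerivAt expNegInvGlue (x⁻¹ ^ 2 * expNegInvGlue x) x := by
  have h := expNegInvGlue.hasDerivAt_polynomial_eval_inv_mul 1 x
  simpa using h

theorem fderiv_H0 (v : V) : fderiv ℝ H0 v v =
    -(((1 - q v)⁻¹ ^ 2 * expNegInvGlue (1 - q v)) * (2 * q v)) := by
  have h1 : HasDerivAt (fun t : ℝ => t • v) ((1 : ℝ) • v) 1 := (hasDerivAt_id (1:ℝ)).smul_const v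
  have h2 : HasFDerivAt H0 (fderiv ℝ H0 ((1:ℝ) • v)) ((1:ℝ) • v) :=
    ((contDiff_H0.differentiable (by norm_num)) _).hasFDerivAt
  have h3 := h2.comp_hasDerivAt (1:ℝ) h1
  simp only [one_smul] at h3
  have h4 : HasDerivAt (fun t : ℝ => 1 - t ^ 2 * q v) (-(2 * q v)) 1 := by
    have := ((hasDerivAt_pow 2 (1:ℝ)).mul_const (q v)).const_sub 1
    simpa using this
  have h5 : HasDerivAt (fun t : ℝ => expNegInvGlue (1 - t ^ 2 * q v))
      (((1 - q v)⁻¹ ^ 2 * expNegInvGlue (1 - q v)) * (-(2 * q v))) 1 := by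
    have h6 : HasDerivAt expNegInvGlue
      ((1 - q v)⁻¹ ^ 2 * expNegInvGlue (1 - q v)) (1 - (1:ℝ) ^ 2 * q v) := by
      have := hasDerivAt_glue (1 - (1:ℝ) ^ 2 * q v)
      simpa using this
    exact h6.comp (1:ℝ) h4
  have h7 : (H0 ∘ fun t : ℝ => t • v) = fun t : ℝ => expNegInvGlue (1 - t ^ 2 * q v) := by
    ext t
    simp only [Function.comp_apply, H0]
    congr 2
    have : (t • v : V) = ((t : ℂ) • v : V) := by
      ext k; simp
    rw [this, q_smul, Complex.normSq_ofReal]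
    ring
  rw [h7] at h3
  rw [h3.unique h5]
  ring

theorem fderiv_H0_nonpos (v : V) : fderiv ℝ H0 v v ≤ 0 := by
  rw [fderiv_H0]
  have h1 := expNegInvGlue.nonneg (1 - q v)
  have h2 := q_nonneg v
  have : 0 ≤ ((1 - q v)⁻¹ ^ 2 * expNegInvGlue (1 - q v)) * (2 * q v) := by positivity
  linarith

/-- The radial bump, as a complex function. -/
noncomputable def h0 (v : V) : ℂ := (H0 v : ℂ)

theorem contDiff_h0 : ContDiff ℝ 1 h0 := Complex.ofRealCLM.contDiff.comp contDiff_H0

theorem h0_support : HasCompactSupport h0 := H0_support.comp_left (g := fun x : ℝ => (x : ℂ)) (by simp)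

theorem fderiv_h0 (v w : V) : fderiv ℝ h0 v w = (fderiv ℝ H0 v w : ℝ) := by
  have h2 : HasFDerivAt H0 (fderiv ℝ H0 v) v :=
    ((contDiff_H0.differentiable (by norm_num)) _).hasFDerivAt
  have h3 : HasFDerivAt h0 (Complex.ofRealCLM.comp (fderiv ℝ H0 v)) v :=
    Complex.ofRealCLM.hasFDerivAt.comp v h2
  rw [h3.fderiv]
  rfl

theorem integral_fderiv_H0_ne : (∫ v, fderiv ℝ H0 v v / (q v) ^ 2) ≠ 0 := by
  have hint : Integrable (fun v => fderiv ℝ H0 v v / (q v) ^ 2) := by
    have := (integrable_fderiv h0 contDiff_h0 h0_support 1).re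
    refine this.congr (Filter.Eventually.of_forall fun v => ?_)
    simp only [one_smul, fderiv_h0]
    rw [← Complex.ofReal_pow, ← Complex.ofReal_div]
    exact Complex.ofReal_re _
  intro h
  have h1 : ∫ v, -(fderiv ℝ H0 v v / (q v) ^ 2) = 0 := by
    rw [integral_neg, h, neg_zero]
  rw [integral_eq_zero_iff_of_nonneg (f := fun v => -(fderiv ℝ H0 v v / (q v) ^ 2)) _ hint.neg] at h1
  · have hc : Continuous (fun v => fderiv ℝ H0 v v) :=
      (contDiff_H0.continuous_fderiv (by norm_num)).clm_apply continuous_id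
    have h2 : (fun v => fderiv ℝ H0 v v) =ᵐ[volume] fun _ => (0 : ℝ) := by
      filter_upwards [h1] with v hv
      by_cases hv0 : v = 0
      · subst hv0; simp
      · have := (q_pos hv0).ne'
        simp only [Pi.zero_apply, neg_eq_zero, div_eq_zero_iff] at hv
        rcases hv with hv | hv
        · exact hv
        · exact absurd hv (by positivity)
    have h3 := (Continuous.ae_eq_iff_eq volume hc continuous_const).mp h2
    have h4 := congrFun h3 ((1/2 : ℂ) • Pi.single 0 (1 : ℂ))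
    rw [fderiv_H0] at h4
    have h5 : q ((1/2 : ℂ) • Pi.single 0 (1 : ℂ)) = 1/4 := by
      rw [q_smul]
      simp [q, Complex.normSq_apply]
      norm_num
    rw [h5] at h4
    have h6 : 0 < expNegInvGlue (1 - 1/4) := expNegInvGlue.pos_of_pos (by norm_num)
    have h7 : 0 < ((1 - 1/4 : ℝ)⁻¹ ^ 2 * expNegInvGlue (1 - 1/4)) * (2 * (1/4)) := by positivity
    linarith
  · intro v
    have h1 := fderiv_H0_nonpos v
    have : 0 ≤ (-fderiv ℝ H0 v v) / (q v) ^ 2 := div_nonneg (by linarith) (by positivity)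
    rw [neg_div] at this
    exact this

theorem integral_B_h0_ne : (∫ v, B h0 v / ((q v : ℂ)) ^ 2) ≠ 0 := by
  rw [integral_B h0 contDiff_h0 h0_support]
  have h1 : ∀ ω : ℂ, (∫ v, fderiv ℝ h0 v (ω • v) / ((q v : ℂ)) ^ 2) =
      ((∫ v, fderiv ℝ H0 v (ω • v) / (q v) ^ 2 : ℝ) : ℂ) := by
    intro ω
    rw [← integral_complex_ofReal]
    congr 1
    ext v
    rw [fderiv_h0]
    push_cast
    rfl
  rw [h1, h1]
  intro h
  have h2 := congrArg Complex.re h
  simp only [one_smul] at h2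
  simp at h2
  exact integral_fderiv_H0_ne h2

theorem bm_identity : ∃ c : ℂ, c ≠ 0 ∧ ∀ h : V → ℂ, ContDiff ℝ 1 h → HasCompactSupport h →
    ∀ z, ∫ v : V, ∑ k, db k h (z + v) * ((starRingEnd ℂ) (v k) / ((q v : ℂ)) ^ 2) = c * h z := by
  have hH : (h0 0) ≠ 0 := by
    have := H0_zero
    simp only [h0, ne_eq, Complex.ofReal_eq_zero]
    exact this.ne'
  refine ⟨(∫ v, B h0 v / ((q v : ℂ)) ^ 2) / h0 0, div_ne_zero integral_B_h0_ne hH, ?_⟩
  intro h hh hs z
  set c1 : ℂ := h z / h0 0 with hc1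
  set g : V → ℂ := fun v => h (z + v) with hg
  have hgd : ContDiff ℝ 1 g := hh.comp (contDiff_const.add contDiff_id)
  have hgs : HasCompactSupport g := by
    have := hs.comp_homeomorph (Homeomorph.addLeft z)
    exact this
  set g' : V → ℂ := fun v => c1 * h0 v with hg'
  have hg'd : ContDiff ℝ 1 g' := contDiff_const.mul contDiff_h0
  have hg's : HasCompactSupport g' := h0_support.mul_left
  have hv := vanish_B (g - g') (hgd.sub hg'd) (hgs.sub hg's) (by
    simp only [Pi.sub_apply, hg, hg', hc1, add_zero]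
    field_simp
    ring)
  have hB : ∀ v, B (g - g') v = B g v - c1 * B h0 v := by
    intro v
    have e1 : fderiv ℝ (g - g') v = fderiv ℝ g v - c1 • fderiv ℝ h0 v := by
      rw [fderiv_sub ((hgd.differentiable (by norm_num)) v)
        ((hg'd.differentiable (by norm_num)) v)]
      congr 1
      exact fderiv_const_smul ((contDiff_h0.differentiable (by norm_num)) v) c1
    simp only [B_eq, e1]
    simp
    ring
  have hI : ∫ v, B g v / ((q v : ℂ)) ^ 2 = c1 * ∫ v, B h0 v / ((q v : ℂ)) ^ 2 := by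
    have e2 : ∀ v, B (g - g') v / ((q v : ℂ)) ^ 2 =
        B g v / ((q v : ℂ)) ^ 2 - c1 * (B h0 v / ((q v : ℂ)) ^ 2) := by
      intro v
      rw [hB]; ring
    simp_rw [e2] at hv
    rw [integral_sub (integrable_B g hgd hgs)
      ((integrable_B h0 contDiff_h0 h0_support).const_mul _), integral_const_mul] at hv
    exact sub_eq_zero.mp hv
  have hsum : ∀ v, ∑ k, db k h (z + v) * ((starRingEnd ℂ) (v k) / ((q v : ℂ)) ^ 2) =
      B g v / ((q v : ℂ)) ^ 2 := by
    intro v
    rw [B, Finset.sum_div]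
    refine Finset.sum_congr rfl fun k _ => ?_
    have e3 : db k g v = db k h (z + v) := by
      simp only [db]
      have e4 : fderiv ℝ g v = fderiv ℝ h (z + v) := fderiv_comp_add_left z
      rw [e4]
    rw [e3]
    ring
  simp_rw [hsum]
  rw [hI, hc1]
  ring

end Db
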