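import Mathlib
import Pool.Agent.Lib_helper71.Db.Defs

/-!
# Integrals depending smoothly on a parameter
-/

set_option autoImplicit false
set_option linter.style.haveILetI false

open MeasureTheory Set Metric Topology

namespace Db

/-- G3: parametric integrals. -/
theorem param_integral {U K : Set V} (hU : IsOpen U) (hK : IsCompact K) {m : V → ℂ}
    (hm : LocallyIntegrable m) {k : V → V → ℂ}
    (hk : ContDiffOn ℝ ((⊤ : ℕ∞) : WithTop ℕ∞) (fun p : V × V => k p.1 p.2) (U ×ˢ univ))
    (hk0 : ∀ z ∈ U, ∀ ζ, ζ ∉ K → k z ζ = 0) :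
    ContDiffOn ℝ ((⊤ : ℕ∞) : WithTop ℕ∞) (fun z => ∫ ζ, m ζ * k z ζ) U ∧
      ∀ z ∈ U, ∀ a, fderiv ℝ (fun z => ∫ ζ, m ζ * k z ζ) z a =
        ∫ ζ, m ζ * fderiv ℝ (fun z => k z ζ) z a := by
  set g : V → V → ℂ := fun z t => k z (-t) with hg
  have hnK : IsCompact (-K) := hK.neg
  have hgs : ∀ p, ∀ x, p ∈ U → x ∉ -K → g p x = 0 := by
    intro p x hp hx
    exact hk0 p hp _ (by simpa using hx)
  have hgc : ContDiffOn ℝ ((⊤ : ℕ∞) : WithTop ℕ∞) (Function.HasUncurry.uncurry g)
      (U ×ˢ univ) := by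
    have h1 : ContDiff ℝ ((⊤ : ℕ∞) : WithTop ℕ∞) (fun p : V × V => (p.1, -p.2)) :=
      contDiff_fst.prodMk contDiff_snd.neg
    have h2 := hk.comp h1.contDiffOn (s := U ×ˢ univ) (fun p hp => by
      exact ⟨hp.1, mem_univ _⟩)
    exact h2
  have hconv : ∀ z, (∫ ζ, m ζ * k z ζ) =
      (convolution m (g z) (ContinuousLinearMap.mul ℝ ℂ) volume) 0 := by
    intro z
    simp [convolution, hg]
  have hopen : IsOpen (U ×ˢ (univ : Set V)) := hU.prod isOpen_univ
  constructor
  · have h1 := contDiffOn_convolution_right_with_param (μ := (volume : Measure V))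
      (n := ⊤) (ContinuousLinearMap.mul ℝ ℂ) hU hnK hgs hm hgc
    have h2 : ContDiff ℝ ((⊤ : ℕ∞) : WithTop ℕ∞) (fun z : V => (z, (0 : V))) :=
      contDiff_id.prodMk contDiff_const
    have h3 := h1.comp h2.contDiffOn (s := U) (fun z hz => ⟨hz, mem_univ _⟩)
    refine h3.congr fun z _ => ?_
    exact hconv z
  · intro z hz a
    have hgc1 : ContDiffOn ℝ 1 (Function.HasUncurry.uncurry g) (U ×ˢ univ) :=
      hgc.of_le (by exact_mod_cast le_top)
    have h1 := hasFDerivAt_convolution_right_with_param (μ := (volume : Measure V))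
      (ContinuousLinearMap.mul ℝ ℂ) hU hnK hgs hm hgc1 (z, (0 : V)) hz
    have h2 : HasFDerivAt (fun z : V => (z, (0 : V)))
        ((ContinuousLinearMap.id ℝ V).prod (0 : V →L[ℝ] V)) z :=
      (hasFDerivAt_id z).prodMk (hasFDerivAt_const _ _)
    have h3 := h1.comp z h2
    have h4 : (fun z => ∫ ζ, m ζ * k z ζ) =
        (fun q : V × V => (convolution m (g q.1) (ContinuousLinearMap.mul ℝ ℂ) volume) q.2) ∘
          (fun z : V => (z, (0 : V))) := by
      ext z
      exact hconv z
    rw [h4, h3.fderiv]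
    simp only [ContinuousLinearMap.comp_apply, ContinuousLinearMap.prod_apply,
      zero_apply, ContinuousLinearMap.coe_id', id_eq]
    -- properties of the derivative of `g`
    set g' : V × V → (V × V →L[ℝ] ℂ) := fderiv ℝ (Function.HasUncurry.uncurry g) with hg'
    have hcont' : ContinuousOn g' (U ×ˢ univ) :=
      hgc1.continuousOn_fderiv_of_isOpen hopen le_rfl
    have hg'c : Continuous (fun x : V => g' (z, x)) := by
      refine hcont'.comp_continuous (.prodMk_right _) fun x => ⟨hz, mem_univ _⟩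
    have hg'0 : ∀ x, x ∉ -K → g' (z, x) = 0 := by
      intro x hx
      have h5 : (Function.HasUncurry.uncurry g) =ᶠ[𝓝 (z, x)] fun _ => (0 : ℂ) := by
        have h6 : U ×ˢ (-K)ᶜ ∈ 𝓝 (z, x) :=
          (hU.prod hnK.isClosed.isOpen_compl).mem_nhds ⟨hz, hx⟩
        filter_upwards [h6] with p hp
        exact hgs p.1 p.2 hp.1 hp.2
      rw [hg', h5.fderiv_eq]
      simp
    have hg's : HasCompactSupport (fun x : V => g' (z, x)) :=
      HasCompactSupport.intro hnK hg'0
    have hex : ConvolutionExistsAt m (fun x : V => g' (z, x)) 0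
        ((ContinuousLinearMap.mul ℝ ℂ).precompR (V × V)) volume :=
      hg's.convolutionExists_right _ hm hg'c 0
    rw [convolution]
    rw [ContinuousLinearMap.integral_apply hex]
    congr 1
    ext t
    simp only [ContinuousLinearMap.precompR_apply, zero_sub]
    -- the partial derivative
    have hd : HasFDerivAt (Function.HasUncurry.uncurry g) (g' (z, -t)) (z, -t) :=
      ((hgc1.differentiableOn one_ne_zero) _ ⟨hz, mem_univ _⟩ |>.differentiableAt
        (hopen.mem_nhds ⟨hz, mem_univ _⟩)).hasFDerivAt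
    have h7 : HasFDerivAt (fun z : V => (z, -t))
        ((ContinuousLinearMap.id ℝ V).prod (0 : V →L[ℝ] V)) z :=
      (hasFDerivAt_id z).prodMk (hasFDerivAt_const _ _)
    have h8 := hd.comp z h7
    have h9 : ((Function.HasUncurry.uncurry g) ∘ fun z : V => (z, -t)) = fun z => k z t := by
      ext w
      change g w (-t) = _
      simp [hg]
    rw [h9] at h8
    rw [h8.fderiv]
    simp

end Db
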