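import Pool.Agent.Lib_helper67.LR.Defs

/-!
Block TE of MP_e5d384_lc: the energy of most elements is small.
-/

set_option autoImplicit false
set_option linter.unusedSectionVars false

namespace Pool.Agent.Lib_helper55.LR

open Finset Pool.Agent.Lib_helper78.LR Pool.Agent.Lib_helper67.LR
open scoped BigOperators

theorem expect_apply_one {A : Type} [Fintype A] [Nonempty A] {q : ℕ} (i : Fin q) (f : A → ℝ) :
    (𝔼 u : Fin q → A, f (u i)) = 𝔼 a, f a := by
  classical
  rw [Fintype.expect_eq_sum_div_card, Fintype.expect_eq_sum_div_card]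
  have h := Fintype.sum_piFinset_apply f (univ : Finset A) i
  rw [Fintype.piFinset_univ] at h
  rw [h, Fintype.card_fun, Fintype.card_fin, nsmul_eq_mul, card_univ]
  have hq : 0 < q := i.pos
  have hA : (Fintype.card A : ℝ) ≠ 0 := by
    have : 0 < Fintype.card A := Fintype.card_pos
    positivity
  obtain ⟨m, rfl⟩ : ∃ m, q = m + 1 := ⟨q - 1, by omega⟩
  push_cast
  rw [pow_succ]
  field_simp

theorem expect_prod {A B : Type} [Fintype A] [Fintype B] (f : A × B → ℝ) :
    (𝔼 x, f x) = 𝔼 a, 𝔼 b, f (a, b) := by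
  rw [← Finset.univ_product_univ, Finset.expect_product]

/-- second moment of a sum of independent variables -/
theorem sq_one' {A : Type} [Fintype A] [Nonempty A] (q : ℕ) (g : Fin q → A → ℝ) :
    (𝔼 u : Fin q → A, (∑ i, g i (u i)) ^ 2) ≤
      ∑ i, (𝔼 a, g i a ^ 2) + (∑ i, 𝔼 a, g i a) ^ 2 := by
  classical
  induction q with
  | zero => simp
  | succ q ih =>
    have h1 : (𝔼 u : Fin (q + 1) → A, (∑ i, g i (u i)) ^ 2) =
        𝔼 a : A, 𝔼 u : Fin q → A, (g 0 a + ∑ i : Fin q, g i.succ (u i)) ^ 2 := by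
      rw [← expect_prod (fun x : A × (Fin q → A) => (g 0 x.1 + ∑ i : Fin q, g i.succ (x.2 i)) ^ 2)]
      refine Fintype.expect_equiv (Fin.consEquiv (fun _ => A)).symm _ _ ?_
      intro u
      rw [Fin.sum_univ_succ]
      rfl
    have h2 : ∀ a : A, (𝔼 u : Fin q → A, (g 0 a + ∑ i : Fin q, g i.succ (u i)) ^ 2) =
        g 0 a ^ 2 + 2 * g 0 a * (∑ i : Fin q, 𝔼 b, g i.succ b) +
          𝔼 u : Fin q → A, (∑ i : Fin q, g i.succ (u i)) ^ 2 := by
      intro a
      have h3 : ∀ u : Fin q → A, (g 0 a + ∑ i : Fin q, g i.succ (u i)) ^ 2 =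
          g 0 a ^ 2 + (2 * g 0 a) * (∑ i : Fin q, g i.succ (u i)) +
            (∑ i : Fin q, g i.succ (u i)) ^ 2 := fun u => by ring
      simp_rw [h3]
      rw [expect_add_distrib, expect_add_distrib, ← mul_expect, Finset.expect_sum_comm]
      congr 2
      · exact Fintype.expect_const _
      · congr 1
        exact Finset.sum_congr rfl fun i _ => expect_apply_one i _
    rw [h1]
    simp_rw [h2]
    rw [expect_add_distrib, expect_add_distrib, ← Finset.expect_mul, ← mul_expect,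
      Fintype.expect_const, Fin.sum_univ_succ, Fin.sum_univ_succ]
    have h4 := ih (fun i => g i.succ)
    have h5 : 0 ≤ (𝔼 a, g 0 a) ^ 2 := sq_nonneg _
    nlinarith [h4, h5]

theorem sq_two' {A : Type} [Fintype A] [Nonempty A] (τ : ℕ) (h : A → A → ℝ) :
    (𝔼 x : (Fin τ → A) × (Fin τ → A), (∑ i, ∑ j, h (x.1 i) (x.2 j)) ^ 2) ≤
      (τ : ℝ) ^ 2 * (𝔼 a, 𝔼 b, h a b ^ 2) + (τ : ℝ) ^ 3 * (𝔼 a, (𝔼 b, h a b) ^ 2) +
        (τ : ℝ) ^ 3 * (𝔼 b, (𝔼 a, h a b) ^ 2) + (τ : ℝ) ^ 4 * (𝔼 a, 𝔼 b, h a b) ^ 2 := by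
  classical
  rw [expect_prod (fun x : (Fin τ → A) × (Fin τ → A) => (∑ i, ∑ j, h (x.1 i) (x.2 j)) ^ 2)]
  -- fix `u`; apply `sq_one'` in `v`
  have h1 : ∀ u : Fin τ → A, (𝔼 v : Fin τ → A, (∑ i, ∑ j, h (u i) (v j)) ^ 2) ≤
      τ * (𝔼 b, (∑ i, h (u i) b) ^ 2) + (τ * ∑ i, 𝔼 b, h (u i) b) ^ 2 := by
    intro u
    have h2 := sq_one' τ (fun (_ : Fin τ) b => ∑ i, h (u i) b)
    have h3 : ∀ v : Fin τ → A, (∑ i, ∑ j, h (u i) (v j)) = ∑ j, ∑ i, h (u i) (v j) :=
      fun v => Finset.sum_comm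
    simp_rw [h3]
    refine h2.trans (le_of_eq ?_)
    rw [Finset.sum_const, Finset.sum_const, card_univ, Fintype.card_fin, nsmul_eq_mul,
      nsmul_eq_mul, Finset.expect_sum_comm]
  have h4 : (𝔼 u : Fin τ → A, 𝔼 v : Fin τ → A, (∑ i, ∑ j, h (u i) (v j)) ^ 2) ≤
      𝔼 u : Fin τ → A, (τ * (𝔼 b, (∑ i, h (u i) b) ^ 2) + (τ * ∑ i, 𝔼 b, h (u i) b) ^ 2) :=
    Finset.expect_le_expect fun u _ => h1 u
  refine h4.trans ?_
  have h5 : (𝔼 u : Fin τ → A, (∑ i, 𝔼 b, h (u i) b) ^ 2) ≤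
      τ * (𝔼 a, (𝔼 b, h a b) ^ 2) + (τ * (𝔼 a, 𝔼 b, h a b)) ^ 2 := by
    have := sq_one' τ (fun (_ : Fin τ) a => 𝔼 b, h a b)
    refine this.trans (le_of_eq ?_)
    rw [Finset.sum_const, Finset.sum_const, card_univ, Fintype.card_fin, nsmul_eq_mul,
      nsmul_eq_mul]
  have h6 : (𝔼 u : Fin τ → A, 𝔼 b, (∑ i, h (u i) b) ^ 2) ≤
      τ * (𝔼 a, 𝔼 b, h a b ^ 2) + τ ^ 2 * (𝔼 b, (𝔼 a, h a b) ^ 2) := by
    rw [Finset.expect_comm]
    have h7 : ∀ b : A, (𝔼 u : Fin τ → A, (∑ i, h (u i) b) ^ 2) ≤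
        τ * (𝔼 a, h a b ^ 2) + τ ^ 2 * (𝔼 a, h a b) ^ 2 := by
      intro b
      have := sq_one' τ (fun (_ : Fin τ) a => h a b)
      refine this.trans (le_of_eq ?_)
      rw [Finset.sum_const, Finset.sum_const, card_univ, Fintype.card_fin, nsmul_eq_mul,
        nsmul_eq_mul]
      ring
    refine (Finset.expect_le_expect fun b _ => h7 b).trans (le_of_eq ?_)
    rw [expect_add_distrib, ← mul_expect, ← mul_expect, Finset.expect_comm]
  rw [expect_add_distrib, ← mul_expect]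
  have h8 : (𝔼 u : Fin τ → A, (τ * ∑ i, 𝔼 b, h (u i) b : ℝ) ^ 2) =
      τ ^ 2 * 𝔼 u : Fin τ → A, (∑ i, 𝔼 b, h (u i) b) ^ 2 := by
    rw [mul_expect]
    exact Finset.expect_congr rfl fun u _ => by ring
  rw [h8]
  have ht : (0 : ℝ) ≤ τ := Nat.cast_nonneg _
  have h9 := mul_le_mul_of_nonneg_left h6 ht
  have h10 := mul_le_mul_of_nonneg_left h5 (by positivity : (0 : ℝ) ≤ (τ : ℝ) ^ 2)
  refine (add_le_add h9 h10).trans (le_of_eq ?_)
  ring

/-- first moment -/
theorem mean_two {A : Type} [Fintype A] [Nonempty A] (τ : ℕ) (h : A → A → ℝ) :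
    (𝔼 x : (Fin τ → A) × (Fin τ → A), (∑ i, ∑ j, h (x.1 i) (x.2 j))) =
      (τ : ℝ) ^ 2 * (𝔼 a, 𝔼 b, h a b) := by
  classical
  rw [Finset.expect_sum_comm]
  have h1 : ∀ i : Fin τ, (𝔼 x : (Fin τ → A) × (Fin τ → A), ∑ j, h (x.1 i) (x.2 j)) =
      τ * 𝔼 a, 𝔼 b, h a b := by
    intro i
    rw [Finset.expect_sum_comm]
    have h2 : ∀ j : Fin τ, (𝔼 x : (Fin τ → A) × (Fin τ → A), h (x.1 i) (x.2 j)) =
        𝔼 a, 𝔼 b, h a b := by
      intro j
      rw [expect_prod (fun x : (Fin τ → A) × (Fin τ → A) => h (x.1 i) (x.2 j))]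
      have h3 : ∀ u : Fin τ → A, (𝔼 v : Fin τ → A, h (u i) (v j)) = 𝔼 b, h (u i) b :=
        fun u => expect_apply_one j _
      simp_rw [h3]
      exact expect_apply_one i (fun a => 𝔼 b, h a b)
    rw [Finset.sum_congr rfl fun j _ => h2 j, Finset.sum_const, card_univ, Fintype.card_fin,
      nsmul_eq_mul]
  rw [Finset.sum_congr rfl fun i _ => h1 i, Finset.sum_const, card_univ, Fintype.card_fin,
      nsmul_eq_mul]
  ring

section
variable {V : Type} [AddCommGroup V] [Module (ZMod 2) V] [DecidableEq V]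

omit [DecidableEq V] in
theorem add_self_V (x : V) : x + x = 0 := by
  have h : (2 : ZMod 2) • x = x + x := by
    rw [two_smul]
  rw [← h]
  have : (2 : ZMod 2) = 0 := by decide
  rw [this, zero_smul]

theorem Spread.nonneg {S : Finset V} {K : ℝ} (hK : Spread S K) : 0 ≤ K := by
  have := hK {0}
  have h1 : (0 : ℝ) ≤ ((Bad S {0}).card : ℝ) := Nat.cast_nonneg _
  simp only [card_singleton, Nat.cast_one, mul_one] at this
  linarith

theorem Nn_le {S : Finset V} {K : ℝ} (hK : Spread S K) {η : V} (hη : η ≠ 0) :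
    (Nn S η : ℝ) ≤ K := by
  have h1 : (S.filter fun z => z + η ∈ S) ⊆ Bad S {η} := by
    intro z hz
    rw [mem_filter] at hz
    rw [mem_Bad]
    refine ⟨hz.1, z + η, hz.2, ?_, ?_⟩
    · intro h
      exact hη (by simpa using h)
    · have : z + (z + η) = η := by
        rw [← add_assoc, add_self_V, zero_add]
      rw [this]
      exact Submodule.subset_span (by simp)
  have h2 : (Nn S η : ℝ) ≤ ((Bad S {η}).card : ℝ) := by
    exact_mod_cast card_le_card h1
  have h3 := hK {η}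
  simp only [card_singleton, Nat.cast_one, mul_one] at h3
  exact h2.trans h3

/-- the set of good pairs -/
def hit (S : Finset V) (β : V) (a b : {x // x ∈ S}) : ℝ :=
  if (a : V) ≠ β ∧ (b : V) ≠ β ∧ (a : V) ≠ b ∧ (b : V) + ((a : V) + β) ∈ S then 1 else 0

theorem hit_sq (S : Finset V) (β : V) (a b : {x // x ∈ S}) : hit S β a b ^ 2 = hit S β a b := by
  unfold hit
  split_ifs <;> simp

theorem hit_nonneg (S : Finset V) (β : V) (a b : {x // x ∈ S}) : 0 ≤ hit S β a b := by
  unfold hit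
  split_ifs <;> simp

theorem hit_symm (S : Finset V) (β : V) (a b : {x // x ∈ S}) : hit S β a b = hit S β b a := by
  unfold hit
  have h : ((b : V) + ((a : V) + β)) = ((a : V) + ((b : V) + β)) := by abel
  rw [h]
  congr 1
  apply propext
  constructor
  · rintro ⟨h1, h2, h3, h4⟩; exact ⟨h2, h1, Ne.symm h3, h4⟩
  · rintro ⟨h1, h2, h3, h4⟩; exact ⟨h2, h1, Ne.symm h3, h4⟩

theorem sum_hit (S : Finset V) {β : V} (hβ : β ∈ S) (a : {x // x ∈ S}) :
    ∑ b, hit S β a b = if (a : V) ≠ β then (Nn S ((a : V) + β) : ℝ) - 2 else 0 := by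
  split_ifs with ha
  · have h1 : ∑ b, hit S β a b = ((((S.filter fun z => z + ((a : V) + β) ∈ S).erase β).erase
        (a : V)).card : ℝ) := by
      unfold hit
      rw [Finset.sum_coe_sort S (fun b => if (a : V) ≠ β ∧ b ≠ β ∧ (a : V) ≠ b ∧
        b + ((a : V) + β) ∈ S then (1 : ℝ) else 0), Finset.sum_boole]
      congr 2
      ext z
      simp only [mem_filter, mem_erase]
      constructor
      · rintro ⟨h1, h2, h3, h4, h5⟩
        exact ⟨Ne.symm h4, h3, h1, h5⟩
      · rintro ⟨h1, h2, h3, h4⟩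
        exact ⟨h3, ha, h2, Ne.symm h1, h4⟩
    rw [h1]
    have hm1 : β ∈ S.filter fun z => z + ((a : V) + β) ∈ S := by
      rw [mem_filter]
      refine ⟨hβ, ?_⟩
      have : β + ((a : V) + β) = a := by
        rw [add_comm (a : V) β, ← add_assoc, add_self_V, zero_add]
      rw [this]
      exact a.2
    have hm2 : (a : V) ∈ (S.filter fun z => z + ((a : V) + β) ∈ S).erase β := by
      rw [mem_erase, mem_filter]
      refine ⟨ha, a.2, ?_⟩
      rw [← add_assoc, add_self_V, zero_add]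
      exact hβ
    have hc2 := card_erase_add_one hm2
    have hc1 := card_erase_add_one hm1
    have : (Nn S ((a : V) + β)) = (((S.filter fun z => z + ((a : V) + β) ∈ S).erase β).erase
        (a : V)).card + 2 := by
      unfold Nn
      omega
    rw [this]
    push_cast
    ring
  · push Not at ha
    apply Finset.sum_eq_zero
    intro b _
    unfold hit
    rw [if_neg]
    rintro ⟨h, _⟩
    exact h ha

theorem sum_sum_hit (S : Finset V) {β : V} (hβ : β ∈ S) :
    ∑ a, ∑ b, hit S β a b = en S β := by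
  rw [Finset.sum_congr rfl fun a _ => sum_hit S hβ a]
  rw [Finset.sum_coe_sort S (fun a => if a ≠ β then (Nn S (a + β) : ℝ) - 2 else 0)]
  unfold en
  rw [← Finset.sum_filter]
  congr 1
  ext z
  simp [and_comm]

theorem hit_bad (S : Finset V) {β : V} (hβ : β ∈ S) (a b : {x // x ∈ S}) (h : hit S β a b ≠ 0)
    (T : Finset V) (ha : (a : V) ∈ T) (hb : (b : V) ∈ T) : β ∈ Bad S T := by
  unfold hit at h
  rw [ite_ne_right_iff] at h
  obtain ⟨⟨h1, h2, h3, h4⟩, -⟩ := h
  rw [mem_Bad]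
  refine ⟨hβ, _, h4, ?_, ?_⟩
  · intro h5
    apply h3
    have h6 : (b : V) + a = 0 := by
      have : ((b : V) + a) + β = β := by rw [add_assoc]; exact h5
      simpa using this
    have h7 : (b : V) + a = (b : V) + b := by rw [h6, add_self_V]
    exact add_left_cancel h7
  · have : β + ((b : V) + ((a : V) + β)) = (b : V) + a := by
      have : β + ((b : V) + ((a : V) + β)) = (b : V) + a + (β + β) := by abel
      rw [this, add_self_V, add_zero]
    rw [this]
    exact Submodule.add_mem _ (Submodule.subset_span hb) (Submodule.subset_span ha)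

/-- a point of large energy is bad with probability at least `1/2` -/
theorem half_le {S : Finset V} {K : ℝ} (hK : Spread S K) {q : ℕ}
    (h4 : 4 * q * K ≤ S.card) {β : V} (hβ : β ∈ S)
    (hbig : 3 / 2 * (S.card : ℝ) ^ 2 ≤ (q : ℝ) ^ 2 * en S β) [Nonempty {x // x ∈ S}] :
    (Fintype.card ((Fin q → {x // x ∈ S}) × (Fin q → {x // x ∈ S})) : ℝ) / 2 ≤
      ((univ.filter fun x : (Fin q → {x // x ∈ S}) × (Fin q → {x // x ∈ S}) =>
        (∑ i, ∑ j, hit S β (x.1 i) (x.2 j)) ≠ 0).card : ℝ) := by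
  classical
  set A := {x // x ∈ S} with hA
  set X := (Fin q → A) × (Fin q → A) with hX
  set H : X → ℝ := fun x => ∑ i, ∑ j, hit S β (x.1 i) (x.2 j) with hH
  have hs : (0 : ℝ) < S.card := by
    have : 0 < S.card := card_pos.2 ⟨β, hβ⟩
    exact_mod_cast this
  have hcA : (Fintype.card A : ℝ) = S.card := by simp [hA]
  have hK0 := Spread.nonneg hK
  have hX0 : (0 : ℝ) < Fintype.card X := by
    have : 0 < Fintype.card X := Fintype.card_pos
    exact_mod_cast this
  set m : ℝ := (𝔼 a : A, 𝔼 b : A, hit S β a b) with hm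
  have hm' : m = en S β / (S.card : ℝ) ^ 2 := by
    rw [hm, Fintype.expect_eq_sum_div_card]
    simp_rw [Fintype.expect_eq_sum_div_card]
    rw [← Finset.sum_div, sum_sum_hit S hβ, hcA]
    field_simp
  set μ : ℝ := (q : ℝ) ^ 2 * m with hμ
  have hμ1 : 3 / 2 ≤ μ := by
    rw [hμ, hm', mul_div_assoc', le_div_iff₀ (by positivity)]
    exact hbig
  have hμ0 : 0 < μ := by linarith
  -- first moment
  have hE : (𝔼 x : X, H x) = μ := mean_two q (hit S β)
  have hE' : ∑ x : X, H x = Fintype.card X * μ := by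
    rw [← hE, Fintype.card_mul_expect]
  -- row bounds
  have hrow : ∀ a : A, (𝔼 b : A, hit S β a b) ≤ K / S.card := by
    intro a
    rw [Fintype.expect_eq_sum_div_card, hcA]
    apply div_le_div_of_nonneg_right _ hs.le
    rw [sum_hit S hβ a]
    split_ifs with h
    · have hne : (a : V) + β ≠ 0 := by
        intro h0
        apply h
        have h7 : (a : V) + β = β + β := by rw [h0, add_self_V]
        exact add_right_cancel h7
      have := Nn_le hK hne
      linarith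
    · exact hK0
  have hrow0 : ∀ a : A, 0 ≤ (𝔼 b : A, hit S β a b) := fun a =>
    Finset.expect_nonneg fun b _ => hit_nonneg S β a b
  have hsq1 : (𝔼 a : A, (𝔼 b : A, hit S β a b) ^ 2) ≤ K / S.card * m := by
    rw [hm, mul_expect]
    apply Finset.expect_le_expect
    intro a _
    rw [sq]
    exact mul_le_mul_of_nonneg_right (hrow a) (hrow0 a)
  have hsymm : ∀ b : A, (𝔼 a : A, hit S β a b) = (𝔼 a : A, hit S β b a) := fun b =>
    Finset.expect_congr rfl fun a _ => hit_symm S β a b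
  have hsq2 : (𝔼 b : A, (𝔼 a : A, hit S β a b) ^ 2) ≤ K / S.card * m := by
    simp_rw [hsymm]
    exact hsq1
  have hsq0 : (𝔼 a : A, 𝔼 b : A, hit S β a b ^ 2) = m := by
    simp_rw [hit_sq]
    rfl
  have hE2 : (𝔼 x : X, H x ^ 2) ≤ μ ^ 2 + 3 / 2 * μ := by
    refine (sq_two' q (hit S β)).trans ?_
    rw [hsq0]
    have hq0 : (0 : ℝ) ≤ q := Nat.cast_nonneg _
    have h1 : (q : ℝ) ^ 3 * (K / S.card * m) ≤ μ / 4 := by
      have : (q : ℝ) ^ 3 * (K / S.card * m) = (q * K / S.card) * μ := by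
        rw [hμ]; ring
      rw [this]
      have h2 : (q : ℝ) * K / S.card ≤ 1 / 4 := by
        rw [div_le_iff₀ hs]
        linarith
      have := mul_le_mul_of_nonneg_right h2 hμ0.le
      linarith
    have h2 := mul_le_mul_of_nonneg_left hsq1 (by positivity : (0 : ℝ) ≤ (q : ℝ) ^ 3)
    have h3 := mul_le_mul_of_nonneg_left hsq2 (by positivity : (0 : ℝ) ≤ (q : ℝ) ^ 3)
    have h5 : (q : ℝ) ^ 4 * m ^ 2 = μ ^ 2 := by rw [hμ]; ring
    have h6 : (q : ℝ) ^ 4 * (𝔼 a : A, 𝔼 b : A, hit S β a b) ^ 2 = μ ^ 2 := by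
      rw [← hm]; exact h5
    rw [h6]
    have h7 : (q : ℝ) ^ 2 * m = μ := rfl
    rw [h7]
    linarith
  have hE2' : ∑ x : X, H x ^ 2 ≤ Fintype.card X * (μ ^ 2 + 3 / 2 * μ) := by
    have : ∑ x : X, H x ^ 2 = Fintype.card X * (𝔼 x : X, H x ^ 2) := by
      rw [Fintype.card_mul_expect]
    rw [this]
    exact mul_le_mul_of_nonneg_left hE2 hX0.le
  -- Cauchy-Schwarz
  set P := univ.filter fun x : X => H x ≠ 0 with hP
  have hCS := sq_sum_le_card_mul_sum_sq (s := P) (f := H)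
  have h5 : ∑ x ∈ P, H x = ∑ x, H x := by
    rw [hP]
    exact Finset.sum_filter_ne_zero _
  have h6 : ∑ x ∈ P, H x ^ 2 ≤ ∑ x, H x ^ 2 :=
    Finset.sum_le_univ_sum_of_nonneg fun x => sq_nonneg _
  rw [h5, hE'] at hCS
  have hPc : (0 : ℝ) ≤ (P.card : ℝ) := Nat.cast_nonneg _
  have h7 : ((Fintype.card X : ℝ) * μ) ^ 2 ≤
      P.card * ((Fintype.card X : ℝ) * (μ ^ 2 + 3 / 2 * μ)) :=
    hCS.trans (mul_le_mul_of_nonneg_left (h6.trans hE2') hPc)
  have h8 : (Fintype.card X : ℝ) * μ ≤ P.card * (μ + 3 / 2) := by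
    have h9 : (Fintype.card X : ℝ) * μ * ((Fintype.card X : ℝ) * μ) ≤
      (P.card * (μ + 3 / 2)) * ((Fintype.card X : ℝ) * μ) := by
      calc (Fintype.card X : ℝ) * μ * ((Fintype.card X : ℝ) * μ) =
          ((Fintype.card X : ℝ) * μ) ^ 2 := by ring
        _ ≤ P.card * ((Fintype.card X : ℝ) * (μ ^ 2 + 3 / 2 * μ)) := h7
        _ = _ := by ring
    exact le_of_mul_le_mul_right h9 (by positivity)
  have h10 : (P.card : ℝ) * (μ + 3 / 2) ≤ P.card * (2 * μ) :=
    mul_le_mul_of_nonneg_left (by linarith) hPc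
  have h11 : (Fintype.card X : ℝ) * μ ≤ (2 * P.card) * μ := by linarith
  have h12 := le_of_mul_le_mul_right h11 hμ0
  have : (Fintype.card X : ℝ) / 2 ≤ P.card := by linarith
  exact this

end

end Pool.Agent.Lib_helper55.LR

namespace Pool.Agent.Lib_helper67.LR

open Finset Pool.Agent.Lib_helper78.LR Pool.Agent.Lib_helper55.LR

theorem typical_energy {V : Type} [AddCommGroup V] [Module (ZMod 2) V] [DecidableEq V]
    (S : Finset V) (hS : S.Nonempty) (K : ℝ) (hK : Spread S K) (q : ℕ) (hq : 0 < q)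
    (h4 : 4 * q * K ≤ S.card) :
    ((S.filter fun β => 3 / 2 * (S.card : ℝ) ^ 2 ≤ (q : ℝ) ^ 2 * en S β).card : ℝ) ≤
      4 * K * q := by
  classical
  obtain ⟨β₀, hβ₀⟩ := hS
  have : Nonempty {x // x ∈ S} := ⟨⟨β₀, hβ₀⟩⟩
  set A := {x // x ∈ S} with hA
  set X := (Fin q → A) × (Fin q → A) with hX
  set Big := S.filter fun β => 3 / 2 * (S.card : ℝ) ^ 2 ≤ (q : ℝ) ^ 2 * en S β with hBig
  let T : X → Finset V := fun x => univ.image (fun i => (x.1 i : V)) ∪
    univ.image (fun i => (x.2 i : V))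
  have hT : ∀ x : X, ((T x).card : ℝ) ≤ 2 * q := by
    intro x
    have h1 : (T x).card ≤ q + q := by
      refine (card_union_le _ _).trans (add_le_add ?_ ?_)
      · exact card_image_le.trans (by simp)
      · exact card_image_le.trans (by simp)
    have : ((T x).card : ℝ) ≤ ((q + q : ℕ) : ℝ) := by exact_mod_cast h1
    push_cast at this
    linarith
  have hK0 := Spread.nonneg hK
  have hX0 : (0 : ℝ) < Fintype.card X := by
    have : 0 < Fintype.card X := Fintype.card_pos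
    exact_mod_cast this
  -- double counting
  have hup : ∑ x : X, ((Bad S (T x)).card : ℝ) ≤ Fintype.card X * (2 * q * K) := by
    calc ∑ x : X, ((Bad S (T x)).card : ℝ) ≤ ∑ x : X, (2 * q * K) := by
          apply Finset.sum_le_sum
          intro x _
          refine (hK (T x)).trans ?_
          have := mul_le_mul_of_nonneg_left (hT x) hK0
          linarith
      _ = _ := by simp
  have hlow : (Big.card : ℝ) * (Fintype.card X / 2) ≤ ∑ x : X, ((Bad S (T x)).card : ℝ) := by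
    have h1 : ∑ x : X, ((Bad S (T x)).card : ℝ) =
        ∑ x : X, ∑ β ∈ S, (if β ∈ Bad S (T x) then (1 : ℝ) else 0) := by
      apply Finset.sum_congr rfl
      intro x _
      rw [Finset.sum_boole]
      congr 2
      ext β
      rw [mem_filter]
      constructor
      · intro h; exact ⟨((mem_Bad _ _ _).1 h).1, h⟩
      · intro h; exact h.2
    rw [h1, Finset.sum_comm]
    have h2 : ∀ β ∈ Big, (Fintype.card X : ℝ) / 2 ≤
        ∑ x : X, (if β ∈ Bad S (T x) then (1 : ℝ) else 0) := by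
      intro β hβ
      rw [hBig, mem_filter] at hβ
      refine (half_le hK h4 hβ.1 hβ.2).trans ?_
      rw [Finset.sum_boole]
      have : (univ.filter fun x : X => (∑ i, ∑ j, hit S β (x.1 i) (x.2 j)) ≠ 0) ⊆
          univ.filter fun x : X => β ∈ Bad S (T x) := by
        intro x hx
        rw [mem_filter] at hx ⊢
        refine ⟨mem_univ _, ?_⟩
        obtain ⟨i, -, hi⟩ := Finset.exists_ne_zero_of_sum_ne_zero hx.2
        obtain ⟨j, -, hj⟩ := Finset.exists_ne_zero_of_sum_ne_zero hi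
        refine hit_bad S hβ.1 _ _ hj (T x) ?_ ?_
        · exact mem_union_left _ (mem_image_of_mem _ (mem_univ i))
        · exact mem_union_right _ (mem_image_of_mem _ (mem_univ j))
      exact_mod_cast card_le_card this
    calc (Big.card : ℝ) * (Fintype.card X / 2) = ∑ β ∈ Big, (Fintype.card X : ℝ) / 2 := by
          rw [Finset.sum_const, nsmul_eq_mul]
      _ ≤ ∑ β ∈ Big, ∑ x : X, (if β ∈ Bad S (T x) then (1 : ℝ) else 0) :=
          Finset.sum_le_sum h2
      _ ≤ ∑ β ∈ S, ∑ x : X, (if β ∈ Bad S (T x) then (1 : ℝ) else 0) := by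
          apply Finset.sum_le_sum_of_subset_of_nonneg (filter_subset _ _)
          intro β _ _
          exact Finset.sum_nonneg fun x _ => by split_ifs <;> norm_num
  have h := hlow.trans hup
  have h' : (Big.card : ℝ) * Fintype.card X ≤ (4 * K * q) * Fintype.card X := by linarith
  exact le_of_mul_le_mul_right h' hX0

end Pool.Agent.Lib_helper67.LR
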