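import Mathlib

/-!
# A meta-Fibonacci sequence and k-regular sequences: definitions (MP_f90694_nt)
-/

namespace Pool.Agent.Lib_helper55.MetaFib


/-! ## Definitions -/

/-- The recurrence defining `h : ℤ → ℤ`. -/
def IsMetaFib (h : ℤ → ℤ) : Prop :=
  (∀ n ≤ 0, h n = 1) ∧ h 1 = 1 ∧ ∀ n > 1, h n = h (n - h (n - 1)) + h (n - 2)

/-- The `k`-kernel of a sequence. -/
def kernel (k : ℕ) (a : ℕ → ℤ) : Set (ℕ → ℤ) :=
  {b | ∃ j c : ℕ, c < k ^ j ∧ b = fun n => a (k ^ j * n + c)}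

/-- An integer sequence is `k`-regular if its `k`-kernel generates a finitely generated
`ℤ`-submodule of `ℤ^ℕ`. -/
def IsRegularSeq (k : ℕ) (a : ℕ → ℤ) : Prop :=
  (Submodule.span ℤ (kernel k a)).FG

/-- The set of natural numbers `m` with `h m mod 2 = i`. -/
def parityIndexSet (h : ℤ → ℤ) (i : ℤ) : Set ℕ := {m | h m % 2 = i}

/-- `u_i`: the strictly increasing enumeration of `{m : h m mod 2 = i}`. -/
noncomputable def u (h : ℤ → ℤ) (i : ℤ) (n : ℕ) : ℤ :=
  (Nat.nth (fun m => m ∈ parityIndexSet h i) n : ℤ)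

end Pool.Agent.Lib_helper55.MetaFib
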