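import Pool.Agent.Lib_helper55.MetaFibDefs

/-!
# 2-regularity of the parity index sequences: proofs (MP_f90694_nt)
-/

namespace Pool.Agent.Lib_helper55.MetaFib

/-! ## Existence and uniqueness of `h` -/

/-- The values of `h` at natural numbers. -/
def H : ℕ → ℤ
  | 0 => 1
  | n + 1 => if n % 2 = 0 then (n / 2 : ℕ) + 1 else H (n - 1) + H ((n + 1) / 2)
decreasing_by all_goals omega

theorem H_zero : H 0 = 1 := by rw [H]

theorem H_odd (n : ℕ) : H (2 * n + 1) = n + 1 := by
  rw [H]
  have h1 : 2 * n % 2 = 0 := by omega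
  have h2 : 2 * n / 2 = n := by omega
  rw [if_pos h1, h2]

theorem H_even (n : ℕ) : H (2 * n + 2) = H (2 * n) + H (n + 1) := by
  rw [H]
  have h1 : ¬ (2 * n + 1) % 2 = 0 := by omega
  have h2 : 2 * n + 1 - 1 = 2 * n := by omega
  have h3 : (2 * n + 1 + 1) / 2 = n + 1 := by omega
  rw [if_neg h1, h2, h3]

theorem H_ge (n : ℕ) : (1 : ℤ) ≤ H n ∧ (2 ≤ n → (2 : ℤ) ≤ H n) ∧
    (n % 2 = 0 → 1 ≤ n → (n : ℤ) ≤ H n) := by
  induction n using Nat.strong_induction_on with
  | _ n ih =>
    rcases Nat.even_or_odd' n with ⟨m, rfl | rfl⟩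
    · rcases m with _ | m
      · simp [H_zero]
      · rw [show 2 * (m + 1) = 2 * m + 2 by ring, H_even]
        have h1 := ih (2 * m) (by omega)
        have h2 := ih (m + 1) (by omega)
        refine ⟨by linarith [h1.1, h2.1], fun _ => by linarith [h1.1, h2.1], fun _ _ => ?_⟩
        rcases m with _ | m
        · simp only [mul_zero, zero_add, H_zero]
          have : H 1 = 1 := by simpa using H_odd 0
          rw [this]; norm_num
        · have h3 := h1.2.2 (by omega) (by omega)
          have h4 := h2.2.1 (by omega)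
          push_cast at h3 ⊢
          linarith
    · rw [H_odd]
      refine ⟨by omega, fun _ => by omega, fun h => by omega⟩

/-- The function `h`. -/
def hfun (n : ℤ) : ℤ := if n ≤ 0 then 1 else H n.toNat

theorem hfun_nat (n : ℕ) : hfun n = H n := by
  unfold hfun
  split_ifs with h
  · have : n = 0 := by omega
    subst this
    rw [H_zero]
  · simp

theorem isMetaFib_hfun : IsMetaFib hfun := by
  refine ⟨fun n hn => by simp [hfun, hn], ?_, ?_⟩
  · have := hfun_nat 1
    rw [show ((1 : ℕ) : ℤ) = 1 by rfl] at this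
    rw [this]
    simpa using H_odd 0
  · intro n hn
    obtain ⟨k, rfl⟩ : ∃ k : ℕ, n = k := ⟨n.toNat, by omega⟩
    rcases Nat.even_or_odd' k with ⟨m, rfl | rfl⟩
    · obtain ⟨m, rfl⟩ : ∃ m', m = m' + 1 := ⟨m - 1, by omega⟩
      have e1 : ((2 * (m + 1) : ℕ) : ℤ) - 1 = ((2 * m + 1 : ℕ) : ℤ) := by push_cast; ring
      have e2 : ((2 * (m + 1) : ℕ) : ℤ) - 2 = ((2 * m : ℕ) : ℤ) := by push_cast; ring
      rw [e1, e2, hfun_nat (2 * m + 1), H_odd]
      have e3 : ((2 * (m + 1) : ℕ) : ℤ) - ((m : ℤ) + 1) = ((m + 1 : ℕ) : ℤ) := by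
        push_cast; ring
      rw [e3, hfun_nat, hfun_nat, hfun_nat, show 2 * (m + 1) = 2 * m + 2 by ring, H_even]
      ring
    · obtain ⟨m, rfl⟩ : ∃ m', m = m' + 1 := ⟨m - 1, by omega⟩
      have e1 : ((2 * (m + 1) + 1 : ℕ) : ℤ) - 1 = ((2 * m + 2 : ℕ) : ℤ) := by push_cast; ring
      have e2 : ((2 * (m + 1) + 1 : ℕ) : ℤ) - 2 = ((2 * m + 1 : ℕ) : ℤ) := by push_cast; ring
      rw [e1, e2, hfun_nat (2 * m + 2), hfun_nat (2 * m + 1), hfun_nat, H_odd, H_odd]
      have h1 := (H_ge (2 * m + 2)).2.2 (by omega) (by omega)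
      have h2 : hfun (((2 * (m + 1) + 1 : ℕ) : ℤ) - H (2 * m + 2)) = 1 := by
        rcases lt_or_eq_of_le h1 with h | h
        · have : ((2 * (m + 1) + 1 : ℕ) : ℤ) - H (2 * m + 2) ≤ 0 := by push_cast at h ⊢; omega
          unfold hfun
          rw [if_pos this]
        · have : ((2 * (m + 1) + 1 : ℕ) : ℤ) - H (2 * m + 2) = ((1 : ℕ) : ℤ) := by
            push_cast at h ⊢; omega
          rw [this, hfun_nat]
          simpa using H_odd 0
      rw [h2]
      push_cast
      ring

theorem isMetaFib_unique {h : ℤ → ℤ} (hh : IsMetaFib h) : h = hfun := by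
  have hf := isMetaFib_hfun
  have pos : ∀ n : ℤ, 1 ≤ hfun n := by
    intro n
    unfold hfun
    split_ifs
    · exact le_rfl
    · exact (H_ge _).1
  have key : ∀ k : ℕ, ∀ n : ℤ, n ≤ k → h n = hfun n := by
    intro k
    induction k with
    | zero => intro n hn; rw [hh.1 n (by exact_mod_cast hn), hf.1 n (by exact_mod_cast hn)]
    | succ k ih =>
      intro n hn
      rcases lt_or_eq_of_le hn with h1 | h1
      · exact ih n (by push_cast at h1; omega)
      · push_cast at h1
        rcases Nat.eq_zero_or_pos k with hk | hk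
        · subst hk
          have : n = 1 := by simpa using h1
          rw [this, hh.2.1, hf.2.1]
        · rw [hh.2.2 n (by omega), hf.2.2 n (by omega), ih (n - 1) (by omega),
            ih (n - 2) (by omega), ih (n - hfun (n - 1)) (by have := pos (n - 1); omega)]
  funext n
  exact key n.toNat n (by omega)

/-! ## The parity sequence on blocks of length 16 -/

/-- The parity of `h n`. -/
def r (n : ℕ) : ℤ := H n % 2

/-- `P n = r (2 n)`. -/
def P (n : ℕ) : ℤ := r (2 * n)

theorem r_odd (n : ℕ) : r (2 * n + 1) = (n + 1) % 2 := by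
  unfold r; rw [H_odd]

theorem P_succ (n : ℕ) : P (n + 1) = (P n + r (n + 1)) % 2 := by
  unfold P r
  rw [show 2 * (n + 1) = 2 * n + 2 by ring, H_even]
  omega

theorem P_range (n : ℕ) : P n = 0 ∨ P n = 1 := by
  unfold P r; omega

theorem r_even (n : ℕ) : r (2 * n) = P n := rfl

theorem P_odd (n : ℕ) : P (2 * n + 1) = (P (2 * n) + n + 1) % 2 := by
  rw [P_succ, r_odd]; omega

theorem P_even (n : ℕ) : P (2 * n + 2) = (P (2 * n + 1) + P (n + 1)) % 2 := by
  rw [P_succ, show 2 * n + 1 + 1 = 2 * (n + 1) by ring, r_even]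

theorem P_odd_succ (n : ℕ) : P (2 * n + 3) = (P (2 * n + 1) + P (n + 1) + n) % 2 := by
  have h1 := P_odd (n + 1)
  rw [show 2 * (n + 1) + 1 = 2 * n + 3 by ring, show 2 * (n + 1) = 2 * n + 2 by ring,
    P_even] at h1
  rw [h1]
  push_cast
  omega

theorem P_four_three_aux (m : ℕ) : P (4 * m + 3) = (P (4 * m + 1) + P (2 * m + 1)) % 2 := by
  have h1 := P_odd_succ (2 * m)
  rw [show 2 * (2 * m) + 3 = 4 * m + 3 by ring, show 2 * (2 * m) + 1 = 4 * m + 1 by ring] at h1
  rw [h1]; push_cast; omega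

theorem P_four_five (m : ℕ) : P (4 * m + 5) = (P (4 * m + 1) + P (m + 1) + 1) % 2 := by
  have h1 := P_odd_succ (2 * m + 1)
  have h2 := P_four_three_aux m
  have h3 := P_even m
  rw [show 2 * (2 * m + 1) + 3 = 4 * m + 5 by ring, show 2 * (2 * m + 1) + 1 = 4 * m + 3 by ring,
    show 2 * m + 1 + 1 = 2 * m + 2 by ring] at h1
  rw [h1, h2, h3]; push_cast; omega

theorem P_four_three_step (m : ℕ) : P (4 * (m + 1) + 3) = (P (4 * m + 3) + m + 1) % 2 := by
  have h1 := P_four_three_aux (m + 1)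
  have h2 := P_four_five m
  have h3 := P_odd_succ m
  have h4 := P_four_three_aux m
  rw [show 4 * (m + 1) + 1 = 4 * m + 5 by ring, show 2 * (m + 1) + 1 = 2 * m + 3 by ring] at h1
  rw [h1, h2, h3, h4]; omega

theorem P_zero : P 0 = 1 := by
  unfold P r; rw [H_zero]; rfl

theorem P_one : P 1 = 0 := by
  have h := P_odd 0
  simpa [P_zero] using h

theorem P_three : P 3 = 0 := by
  have h := P_four_three_aux 0
  simpa [P_one] using h

/-- `P (4 m + 3)` is explicit. -/
theorem P_four_three (m : ℕ) :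
    P (4 * m + 3) = if m % 4 = 1 ∨ m % 4 = 2 then 1 else 0 := by
  induction m with
  | zero => simpa using P_three
  | succ m ih =>
    rw [P_four_three_step, ih]
    split_ifs <;> omega

/-- The automatic sequence `x q = P (8 q + 1)`. -/
def x (q : ℕ) : ℤ := P (8 * q + 1)

theorem P_eight_three (q : ℕ) : P (8 * q + 3) = (q : ℤ) % 2 := by
  have h := P_four_three (2 * q)
  rw [show 4 * (2 * q) + 3 = 8 * q + 3 by ring] at h
  rw [h]; split_ifs <;> omega

theorem P_eight_seven (q : ℕ) : P (8 * q + 7) = ((q : ℤ) + 1) % 2 := by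
  have h := P_four_three (2 * q + 1)
  rw [show 4 * (2 * q + 1) + 3 = 8 * q + 7 by ring] at h
  rw [h]; split_ifs <;> omega

theorem P_eight_five (q : ℕ) :
    P (8 * q + 5) = if q % 4 = 0 ∨ q % 4 = 1 then 1 else 0 := by
  have h := P_four_three_aux (2 * q + 1)
  rw [show 4 * (2 * q + 1) + 3 = 8 * q + 7 by ring,
    show 4 * (2 * q + 1) + 1 = 8 * q + 5 by ring,
    show 2 * (2 * q + 1) + 1 = 4 * q + 3 by ring, P_eight_seven, P_four_three] at h
  have h2 := P_range (8 * q + 5)
  split_ifs at h ⊢ <;> omega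

theorem x_eq (q : ℕ) : x q = (P (4 * q + 1) + q) % 2 := by
  have h := P_four_three_aux (2 * q)
  rw [show 4 * (2 * q) + 3 = 8 * q + 3 by ring, show 4 * (2 * q) + 1 = 8 * q + 1 by ring,
    show 2 * (2 * q) + 1 = 4 * q + 1 by ring, P_eight_three] at h
  unfold x
  have h2 := P_range (8 * q + 1)
  have h3 := P_range (4 * q + 1)
  omega

theorem x_even (q : ℕ) : x (2 * q) = x q := by
  rw [x_eq, show 4 * (2 * q) + 1 = 8 * q + 1 by ring]
  unfold x
  have h2 := P_range (8 * q + 1)
  push_cast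
  omega

theorem x_odd (q : ℕ) : x (2 * q + 1) = if q % 4 = 0 ∨ q % 4 = 1 then 0 else 1 := by
  rw [x_eq, show 4 * (2 * q + 1) + 1 = 8 * q + 5 by ring, P_eight_five]
  split_ifs <;> push_cast <;> omega

/-- The state of the automaton at `q`. -/
def st (q : ℕ) : Fin 4 × Bool := (⟨q % 4, Nat.mod_lt _ (by norm_num)⟩, decide (x q = 1))

theorem x_range (q : ℕ) : x q = 0 ∨ x q = 1 := P_range _

/-- Transition for the digit `0`. -/
def d0 (s : Fin 4 × Bool) : Fin 4 × Bool := (⟨2 * s.1.1 % 4, Nat.mod_lt _ (by norm_num)⟩, s.2)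

/-- Transition for the digit `1`. -/
def d1 (s : Fin 4 × Bool) : Fin 4 × Bool :=
  (⟨(2 * s.1.1 + 1) % 4, Nat.mod_lt _ (by norm_num)⟩, decide (s.1.1 = 2 ∨ s.1.1 = 3))

theorem st_even (q : ℕ) : st (2 * q) = d0 (st q) := by
  unfold st d0
  rw [x_even]
  ext
  · simp only; omega
  · simp

theorem st_odd (q : ℕ) : st (2 * q + 1) = d1 (st q) := by
  unfold st d1
  rw [x_odd]
  ext
  · simp only; omega
  · simp only
    split_ifs with h
    · simp only [zero_ne_one, decide_false]
      symm
      rw [decide_eq_false_iff_not]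
      omega
    · simp only [decide_true]
      symm
      rw [decide_eq_true_iff]
      omega

theorem st_kernel (j : ℕ) : ∀ c < 2 ^ j, ∃ σ : Fin 4 × Bool → Fin 4 × Bool,
    ∀ n, st (2 ^ j * n + c) = σ (st n) := by
  induction j with
  | zero =>
    intro c hc
    have hc0 : c = 0 := by simpa using hc
    subst hc0
    exact ⟨id, fun n => by simp⟩
  | succ j ih =>
    intro c hc
    rw [pow_succ] at hc
    obtain ⟨σ, hσ⟩ := ih (c / 2) (by omega)
    rcases Nat.mod_two_eq_zero_or_one c with h | h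
    · refine ⟨fun s => d0 (σ s), fun n => ?_⟩
      have e : 2 ^ (j + 1) * n + c = 2 * (2 ^ j * n + c / 2) := by
        rw [pow_succ, mul_add, show 2 * (c / 2) = c by omega]; ring
      rw [e, st_even, hσ]
    · refine ⟨fun s => d1 (σ s), fun n => ?_⟩
      have e : 2 ^ (j + 1) * n + c = 2 * (2 ^ j * n + c / 2) + 1 := by
        have : c = 2 * (c / 2) + 1 := by omega
        rw [pow_succ]; conv_lhs => rw [this]
        ring
      rw [e, st_odd, hσ]

/-- The parities on the block `[16 q, 16 q + 16)`, in terms of the state at `q`. -/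
def word (s : Fin 4 × Bool) (t : ℕ) : ℤ :=
  let q : ℤ := (s.1.1 : ℤ)
  let xx : ℤ := if s.2 then 1 else 0
  let y : ℤ := if s.1.1 = 0 ∨ s.1.1 = 1 then 1 else 0
  if t % 4 = 1 then 1 else if t % 4 = 3 then 0
  else if t = 0 then (xx + 1) % 2
  else if t = 2 then xx
  else if t = 4 then q % 2
  else if t = 6 then q % 2
  else if t = 8 then (y + 1) % 2
  else if t = 10 then y
  else (q + 1) % 2

theorem r_word (q t : ℕ) (ht : t < 16) : r (16 * q + t) = word (st q) t := by
  have hx : (if (st q).2 = true then (1 : ℤ) else 0) = x q := by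
    unfold st
    rcases x_range q with h | h <;> simp [h]
  have hq1 : (st q).1.1 = q % 4 := rfl
  have h3 := P_eight_three q
  have h7 := P_eight_seven q
  have h5 := P_eight_five q
  have hP1 : x q = P (8 * q + 1) := rfl
  have e0 := P_odd (4 * q)
  rw [show 2 * (4 * q) + 1 = 8 * q + 1 by ring, show 2 * (4 * q) = 8 * q by ring] at e0
  have e2 := P_odd (4 * q + 1)
  rw [show 2 * (4 * q + 1) + 1 = 8 * q + 3 by ring, show 2 * (4 * q + 1) = 8 * q + 2 by ring] at e2
  have e4 := P_odd (4 * q + 2)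
  rw [show 2 * (4 * q + 2) + 1 = 8 * q + 5 by ring, show 2 * (4 * q + 2) = 8 * q + 4 by ring] at e4
  have e6 := P_odd (4 * q + 3)
  rw [show 2 * (4 * q + 3) + 1 = 8 * q + 7 by ring, show 2 * (4 * q + 3) = 8 * q + 6 by ring] at e6
  have r0 := P_range (8 * q)
  have r2 := P_range (8 * q + 2)
  have r4 := P_range (8 * q + 4)
  have r6 := P_range (8 * q + 6)
  have r1 := P_range (8 * q + 1)
  push_cast at e0 e2 e4 e6
  have hev : ∀ m, r (16 * q + 2 * m) = P (8 * q + m) := by
    intro m; rw [show 16 * q + 2 * m = 2 * (8 * q + m) by ring, r_even]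
  have hod : ∀ m, r (16 * q + (2 * m + 1)) = ((m : ℤ) + 1) % 2 := by
    intro m
    rw [show 16 * q + (2 * m + 1) = 2 * (8 * q + m) + 1 by ring, r_odd]; push_cast; omega
  unfold word
  simp only [hx, hq1]
  interval_cases t
  · rw [hev 0, add_zero]; simp only [Nat.zero_mod]; norm_num; omega
  · rw [hod 0]; norm_num
  · rw [hev 1]; norm_num; rfl
  · rw [hod 1]; norm_num
  · rw [hev 2]; norm_num; omega
  · rw [hod 2]; norm_num
  · rw [hev 3]; norm_num; omega
  · rw [hod 3]; norm_num
  · rw [hev 4]; norm_num; split_ifs at h5 ⊢ <;> omega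
  · rw [hod 4]; norm_num
  · rw [hev 5]; norm_num; split_ifs at h5 ⊢ <;> omega
  · rw [hod 5]; norm_num
  · rw [hev 6]; norm_num; omega
  · rw [hod 6]; norm_num
  · rw [hev 7]; norm_num; omega
  · rw [hod 7]; norm_num

/-- The position of the `c`-th occurrence of `i` in the block with state `s`. -/
def pos (i : ℤ) (s : Fin 4 × Bool) (c : ℕ) : ℕ :=
  ((List.range 16).filter fun t => decide (word s t = i)).getD c 0

theorem pos_spec : ∀ i ∈ ([0, 1] : List ℤ), ∀ a : Fin 4, ∀ b : Bool, ∀ c < 8,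
    pos i (a, b) c < 16 ∧ word (a, b) (pos i (a, b) c) = i ∧
      Nat.count (fun t => word (a, b) t = i) (pos i (a, b) c) = c := by
  decide +kernel

theorem count_word : ∀ i ∈ ([0, 1] : List ℤ), ∀ a : Fin 4, ∀ b : Bool,
    Nat.count (fun t => word (a, b) t = i) 16 = 8 := by
  decide +kernel

theorem count_congr {p p' : ℕ → Prop} [DecidablePred p] [DecidablePred p'] (n : ℕ)
    (h : ∀ k < n, (p k ↔ p' k)) : Nat.count p n = Nat.count p' n := by
  induction n with
  | zero => simp
  | succ n ih =>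
    rw [Nat.count_succ, Nat.count_succ, ih fun k hk => h k (by omega)]
    simp only [h n (by omega)]

theorem count_block (i : ℤ) (hi : i ∈ ([0, 1] : List ℤ)) (q : ℕ) :
    Nat.count (fun m => r m = i) (16 * q) = 8 * q := by
  induction q with
  | zero => simp
  | succ q ih =>
    rw [show 16 * (q + 1) = 16 * q + 16 by ring, Nat.count_add, ih]
    rw [count_congr (p' := fun t => word (st q) t = i) 16
      (fun k hk => by rw [r_word q k hk])]
    rw [count_word i hi (st q).1 (st q).2]
    ring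

theorem nth_eq (i : ℤ) (hi : i ∈ ([0, 1] : List ℤ)) (q c : ℕ) (hc : c < 8) :
    Nat.nth (fun m => r m = i) (8 * q + c) = 16 * q + pos i (st q) c := by
  obtain ⟨h1, h2, h3⟩ := pos_spec i hi (st q).1 (st q).2 c hc
  have h4 : Nat.count (fun m => r m = i) (16 * q + pos i (st q) c) = 8 * q + c := by
    rw [Nat.count_add, count_block i hi]
    rw [count_congr (p' := fun t => word (st q) t = i) (pos i (st q) c)
      (fun k hk => by rw [r_word q k (lt_trans hk h1)])]
    rw [h3]
  rw [← h4]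
  apply Nat.nth_count (p := fun m => r m = i)
  rw [r_word q _ h1]
  exact h2

theorem mem_parityIndexSet (i : ℤ) (m : ℕ) : m ∈ parityIndexSet hfun i ↔ r m = i := by
  unfold parityIndexSet r
  rw [Set.mem_ofPred_eq, hfun_nat]

theorem u_eq (i : ℤ) (hi : i ∈ ([0, 1] : List ℤ)) (q c : ℕ) (hc : c < 8) :
    u hfun i (8 * q + c) = 16 * q + pos i (st q) c := by
  unfold u
  simp only [mem_parityIndexSet]
  rw [nth_eq i hi q c hc]
  push_cast
  ring

/-- The indicator sequence of a state. -/
def ind (s : Fin 4 × Bool) : ℕ → ℤ := fun n => if st n = s then 1 else 0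

/-- A finite generating set. -/
def gens (a : ℕ → ℤ) : Set (ℕ → ℤ) :=
  {fun n : ℕ => (n : ℤ)} ∪ Set.range ind ∪
    Set.range (fun p : Fin 3 × Fin 8 => fun n => a (2 ^ (p.1 : ℕ) * n + p.2))

theorem gens_finite (a : ℕ → ℤ) : (gens a).Finite :=
  ((Set.finite_singleton _).union (Set.finite_range _)).union (Set.finite_range _)

theorem isRegularSeq_u (i : ℤ) (hi : i ∈ ([0, 1] : List ℤ)) : IsRegularSeq 2 (u hfun i) := by
  unfold IsRegularSeq
  have hle : Submodule.span ℤ (kernel 2 (u hfun i)) ≤ Submodule.span ℤ (gens (u hfun i)) := by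
    rw [Submodule.span_le]
    rintro b ⟨j, c, hc, rfl⟩
    rcases Nat.lt_or_ge j 3 with hj | hj
    · apply Submodule.subset_span
      right
      have hc8 : c < 8 := by
        have : 2 ^ j ≤ 2 ^ 3 := Nat.pow_le_pow_right (by norm_num) (by omega)
        omega
      exact ⟨(⟨j, hj⟩, ⟨c, hc8⟩), rfl⟩
    · obtain ⟨j, rfl⟩ : ∃ j', j = j' + 3 := ⟨j - 3, by omega⟩
      have hpow : 2 ^ (j + 3) = 8 * 2 ^ j := by ring
      rw [hpow] at hc
      obtain ⟨σ, hσ⟩ := st_kernel j (c / 8) (by omega)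
      have key : (fun n => u hfun i (2 ^ (j + 3) * n + c)) =
          (16 * 2 ^ j : ℤ) • (fun n : ℕ => (n : ℤ)) +
            ∑ s : Fin 4 × Bool, (16 * (c / 8 : ℕ) + pos i (σ s) (c % 8) : ℤ) • ind s := by
        funext n
        have e : 2 ^ (j + 3) * n + c = 8 * (2 ^ j * n + c / 8) + c % 8 := by
          rw [hpow]
          have : c = 8 * (c / 8) + c % 8 := by omega
          conv_lhs => rw [this]
          ring
        rw [e, u_eq i hi _ _ (Nat.mod_lt _ (by norm_num)), hσ]
        simp only [Pi.add_apply, Pi.smul_apply, Finset.sum_apply, ind, smul_eq_mul, mul_ite,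
          mul_one, mul_zero, Finset.sum_ite_eq, Finset.mem_univ, if_true]
        push_cast
        ring
      rw [key]
      refine Submodule.add_mem _ (Submodule.smul_mem _ _ (Submodule.subset_span ?_))
        (Submodule.sum_mem _ fun s _ => Submodule.smul_mem _ _ (Submodule.subset_span ?_))
      · exact Or.inl (Or.inl rfl)
      · exact Or.inl (Or.inr ⟨s, rfl⟩)
  have hnoeth : IsNoetherian ℤ (Submodule.span ℤ (gens (u hfun i))) :=
    isNoetherian_span_of_finite ℤ (gens_finite _)
  exact isNoetherian_submodule.1 hnoeth _ hle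

theorem infinite_parityIndexSet (i : ℤ) (hi : i ∈ ([0, 1] : List ℤ)) :
    (parityIndexSet hfun i).Infinite := by
  refine Set.infinite_of_injective_forall_mem (f := fun q => 16 * q + pos i (st q) 0) ?_ ?_
  · intro q q' h
    have h1 := (pos_spec i hi (st q).1 (st q).2 0 (by norm_num)).1
    have h2 := (pos_spec i hi (st q').1 (st q').2 0 (by norm_num)).1
    have h3 : 16 * q + pos i (st q) 0 = 16 * q' + pos i (st q') 0 := h
    have h1' : pos i (st q) 0 < 16 := h1
    have h2' : pos i (st q') 0 < 16 := h2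
    omega
  · intro q
    obtain ⟨h1, h2, -⟩ := pos_spec i hi (st q).1 (st q).2 0 (by norm_num)
    rw [mem_parityIndexSet, r_word q _ h1]
    exact h2

end Pool.Agent.Lib_helper55.MetaFib
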