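import Mathlib

/-!
# Separable Hadwiger numbers: definitions (MP_75a0ab_co)
-/

open scoped RealInnerProductSpace Pointwise

namespace Pool.Agent.Lib_helper55.SepHadwiger


/-! ## Definitions -/

/-- Euclidean space `ℝ^d`. -/
abbrev E (d : ℕ) : Type := EuclideanSpace ℝ (Fin d)

/-- `K` is an `o`-symmetric convex body in `ℝ^d`: compact, convex, with nonempty interior and
`K = -K`. -/
def IsSymBody {d : ℕ} (K : Set (E d)) : Prop :=
  IsCompact K ∧ Convex ℝ K ∧ (interior K).Nonempty ∧ ∀ x ∈ K, -x ∈ K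

/-- The translate `v + K`. -/
def translate {d : ℕ} (K : Set (E d)) (v : E d) : Set (E d) := (fun x => v + x) '' K

/-- The hyperplane `{x | ⟪a, x⟫ = c}` separates `A` and `B`: they lie in different closed
half-spaces bounded by it. -/
def Separates {d : ℕ} (a : E d) (c : ℝ) (A B : Set (E d)) : Prop :=
  ((∀ x ∈ A, ⟪a, x⟫ ≤ c) ∧ (∀ x ∈ B, c ≤ ⟪a, x⟫)) ∨
  ((∀ x ∈ A, c ≤ ⟪a, x⟫) ∧ (∀ x ∈ B, ⟪a, x⟫ ≤ c))

/-- The translates `v + K`, `v ∈ T`, form a packing: their interiors are pairwise disjoint. -/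
def IsPacking {d : ℕ} (K : Set (E d)) (T : Set (E d)) : Prop :=
  ∀ v ∈ T, ∀ w ∈ T, v ≠ w → Disjoint (interior (translate K v)) (interior (translate K w))

/-- The family of translates `v + K`, `v ∈ T`, is totally separable: any two distinct members
are separated by a hyperplane that misses the interior of every member. -/
def TotallySeparable {d : ℕ} (K : Set (E d)) (T : Set (E d)) : Prop :=
  ∀ v ∈ T, ∀ w ∈ T, v ≠ w → ∃ (a : E d) (c : ℝ), a ≠ 0 ∧
    Separates a c (translate K v) (translate K w) ∧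
    ∀ u ∈ T, {x : E d | ⟪a, x⟫ = c} ∩ interior (translate K u) = ∅

/-- `T` is (the set of translation vectors of) a separable Hadwiger configuration of `K`:
each `v + K`, `v ∈ T`, touches `K`, and these translates together with `K` form a totally
separable packing. -/
def IsSepHadwigerConfig {d : ℕ} (K : Set (E d)) (T : Finset (E d)) : Prop :=
  0 ∉ T ∧ (∀ v ∈ T, (translate K v ∩ K).Nonempty) ∧
    IsPacking K (insert 0 (T : Set (E d))) ∧ TotallySeparable K (insert 0 (T : Set (E d)))

/-- The separable Hadwiger number. -/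
noncomputable def Hsep {d : ℕ} (K : Set (E d)) : ℕ∞ :=
  sSup {n : ℕ∞ | ∃ T : Finset (E d), IsSepHadwigerConfig K T ∧ (T.card : ℕ∞) = n}

/-- The density statement in dimension `d`: every `o`-symmetric convex body `K₀` is a limit, in
the Hausdorff metric, of `o`-symmetric convex bodies `K` with `Hsep K = 2 d`. -/
def DensityStatement (d : ℕ) : Prop :=
  ∀ K₀ : Set (E d), IsSymBody K₀ → ∀ ε > 0, ∃ K : Set (E d), IsSymBody K ∧
    Metric.hausdorffDist K K₀ < ε ∧ Hsep K = ((2 * d : ℕ) : ℕ∞)

end Pool.Agent.Lib_helper55.SepHadwiger
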