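import Pool.Agent.Lib_helper55.SepHadwigerDefs

/-!
# Robust separable Hadwiger configurations: proofs (MP_75a0ab_co)
-/

open scoped RealInnerProductSpace Pointwise

namespace Pool.Agent.Lib_helper55.SepHadwiger

/-! ## Robust configurations -/

section Robust

variable {d n : ℕ}

theorem interior_lt_of_le {a : E d} {c : ℝ} (ha : a ≠ 0) {A : Set (E d)}
    (hA : ∀ x ∈ A, ⟪a, x⟫ ≤ c) {x : E d} (hx : x ∈ interior A) : ⟪a, x⟫ < c := by
  rw [mem_interior_iff_mem_nhds, Metric.mem_nhds_iff] at hx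
  obtain ⟨ε, hε, hball⟩ := hx
  have hna : 0 < ‖a‖ := norm_pos_iff.2 ha
  have hmem : x + (ε / (2 * ‖a‖)) • a ∈ A := by
    apply hball
    rw [Metric.mem_ball, dist_eq_norm, add_sub_cancel_left, norm_smul, Real.norm_eq_abs,
      abs_of_pos (by positivity)]
    field_simp
    linarith
  have h := hA _ hmem
  rw [inner_add_right, inner_smul_right, real_inner_self_eq_norm_sq] at h
  have : 0 < ε / (2 * ‖a‖) * ‖a‖ ^ 2 := by positivity
  linarith

theorem interior_gt_of_ge {a : E d} {c : ℝ} (ha : a ≠ 0) {A : Set (E d)}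
    (hA : ∀ x ∈ A, c ≤ ⟪a, x⟫) {x : E d} (hx : x ∈ interior A) : c < ⟪a, x⟫ := by
  have h := interior_lt_of_le (a := -a) (c := -c) (neg_ne_zero.2 ha)
    (A := A) (fun y hy => by rw [inner_neg_left]; linarith [hA y hy]) hx
  rw [inner_neg_left] at h
  linarith

/-- Lower bound for `Hsep` from vectors `w i ∈ K` maximizing functionals `f i` over `K` with
`⟪f i, w j⟫ ≤ 0` for `i ≠ j`. -/
theorem le_Hsep_of_max {K : Set (E d)} (hsym : ∀ x ∈ K, -x ∈ K) (f w : Fin n → E d)
    (hw : ∀ i, w i ∈ K) (hmax : ∀ i, ∀ x ∈ K, ⟪f i, x⟫ ≤ ⟪f i, w i⟫)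
    (hpos : ∀ i, 0 < ⟪f i, w i⟫) (hneg : ∀ i j, i ≠ j → ⟪f i, w j⟫ ≤ 0) :
    (n : ℕ∞) ≤ Hsep K := by
  classical
  have hf0 : ∀ i, f i ≠ 0 := by
    intro i h
    have := hpos i
    rw [h, inner_zero_left] at this
    exact lt_irrefl _ this
  have hinj : Function.Injective (fun i => (2 : ℝ) • w i) := by
    intro i j hij
    by_contra hne
    have h1 : w i = w j := by
      have := congrArg (fun x => (2 : ℝ)⁻¹ • x) hij
      simpa [smul_smul] using this
    have h2 := hneg i j hne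
    rw [← h1] at h2
    linarith [hpos i]
  have hmin : ∀ i, ∀ x ∈ K, -⟪f i, w i⟫ ≤ ⟪f i, x⟫ := by
    intro i x hx
    have := hmax i _ (hsym x hx)
    rw [inner_neg_right] at this
    linarith
  -- bounds on the members of the configuration
  have hself : ∀ i, ∀ x ∈ translate K ((2 : ℝ) • w i), ⟪f i, w i⟫ ≤ ⟪f i, x⟫ := by
    rintro i _ ⟨y, hy, rfl⟩
    simp only [inner_add_right, inner_smul_right]
    linarith [hmin i y hy]
  have hother : ∀ i j, i ≠ j → ∀ x ∈ translate K ((2 : ℝ) • w j), ⟪f i, x⟫ ≤ ⟪f i, w i⟫ := by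
    rintro i j hij _ ⟨y, hy, rfl⟩
    simp only [inner_add_right, inner_smul_right]
    linarith [hmax i y hy, hneg i j hij]
  have hzero : ∀ i, ∀ x ∈ translate K 0, ⟪f i, x⟫ ≤ ⟪f i, w i⟫ := by
    rintro i _ ⟨y, hy, rfl⟩
    simpa using hmax i y hy
  let T : Finset (E d) := Finset.univ.image (fun i => (2 : ℝ) • w i)
  have hcard : T.card = n := by
    rw [Finset.card_image_of_injective _ hinj, Finset.card_univ, Fintype.card_fin]
  have hT : ∀ v, v ∈ (insert 0 (T : Set (E d))) → v = 0 ∨ ∃ i, v = (2 : ℝ) • w i := by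
    intro v hv
    rcases hv with hv | hv
    · exact Or.inl hv
    · rw [Finset.mem_coe, Finset.mem_image] at hv
      obtain ⟨i, -, rfl⟩ := hv
      exact Or.inr ⟨i, rfl⟩
  -- the hyperplane `⟪f i, x⟫ = ⟪f i, w i⟫` misses all interiors
  have hmiss : ∀ i, ∀ u ∈ (insert 0 (T : Set (E d))),
      {x : E d | ⟪f i, x⟫ = ⟪f i, w i⟫} ∩ interior (translate K u) = ∅ := by
    intro i u hu
    rw [Set.eq_empty_iff_forall_notMem]
    rintro x ⟨hx1, hx2⟩
    have hx1' : ⟪f i, x⟫ = ⟪f i, w i⟫ := hx1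
    rcases hT u hu with rfl | ⟨j, rfl⟩
    · exact absurd hx1' (interior_lt_of_le (hf0 i) (hzero i) hx2).ne
    · by_cases hij : i = j
      · subst hij
        exact absurd hx1' (interior_gt_of_ge (hf0 i) (hself i) hx2).ne'
      · exact absurd hx1' (interior_lt_of_le (hf0 i) (hother i j hij) hx2).ne
  -- separation of member `i` from every other member
  have hsep1 : ∀ i, ∀ u ∈ (insert 0 (T : Set (E d))), u ≠ (2 : ℝ) • w i →
      (∀ x ∈ translate K u, ⟪f i, x⟫ ≤ ⟪f i, w i⟫) := by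
    intro i u hu hne
    rcases hT u hu with rfl | ⟨j, rfl⟩
    · exact hzero i
    · have hij : i ≠ j := by rintro rfl; exact hne rfl
      exact hother i j hij
  have hpair : ∀ v ∈ (insert 0 (T : Set (E d))), ∀ w' ∈ (insert 0 (T : Set (E d))), v ≠ w' →
      ∃ (a : E d) (c : ℝ), a ≠ 0 ∧ Separates a c (translate K v) (translate K w') ∧
      (∀ u ∈ (insert 0 (T : Set (E d))), {x : E d | ⟪a, x⟫ = c} ∩ interior (translate K u) = ∅) := by
    intro v hv w' hw' hne
    rcases hT v hv with rfl | ⟨i, rfl⟩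
    · rcases hT w' hw' with rfl | ⟨j, rfl⟩
      · exact absurd rfl hne
      · exact ⟨f j, ⟪f j, w j⟫, hf0 j, Or.inl ⟨hsep1 j _ hv hne, hself j⟩, hmiss j⟩
    · exact ⟨f i, ⟪f i, w i⟫, hf0 i, Or.inr ⟨hself i, hsep1 i _ hw' hne.symm⟩, hmiss i⟩
  have hconf : IsSepHadwigerConfig K T := by
    refine ⟨?_, ?_, ?_, hpair⟩
    · intro h0
      rw [Finset.mem_image] at h0
      obtain ⟨i, -, hi⟩ := h0
      have h1 : ⟪f i, (2 : ℝ) • w i⟫ = 0 := by rw [hi, inner_zero_right]
      rw [inner_smul_right] at h1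
      linarith [hpos i]
    · intro v hv
      rw [Finset.mem_image] at hv
      obtain ⟨i, -, rfl⟩ := hv
      refine ⟨w i, ⟨-w i, hsym _ (hw i), ?_⟩, hw i⟩
      simp only [two_smul]
      abel
    · intro v hv w' hw' hne
      obtain ⟨a, c, ha, hs, -⟩ := hpair v hv w' hw' hne
      rw [Set.disjoint_left]
      intro x hx hx'
      rcases hs with ⟨h1, h2⟩ | ⟨h1, h2⟩
      · exact absurd (interior_lt_of_le ha h1 hx) (interior_gt_of_ge ha h2 hx').le.not_gt
      · exact absurd (interior_lt_of_le ha h2 hx') (interior_gt_of_ge ha h1 hx).le.not_gt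
  exact le_sSup ⟨T, hconf, by rw [hcard]⟩

/-- A body whose neighbourhood consists of bodies with `Hsep ≥ n`, from `n` vectors `u i` and
`n` functionals `f i` with `⟪f i, u i⟫ = 1` and `-1 < ⟪f i, u j⟫ < 0` for `i ≠ j`. -/
theorem exists_robust (u f : Fin n → E d) (h1 : ∀ i, ⟪f i, u i⟫ = 1)
    (h2 : ∀ i j, i ≠ j → -1 < ⟪f i, u j⟫ ∧ ⟪f i, u j⟫ < 0) :
    ∃ K₀ : Set (E d), IsSymBody K₀ ∧ ∃ ε > 0, ∀ K : Set (E d), IsSymBody K →
      Metric.hausdorffDist K K₀ < ε → (n : ℕ∞) ≤ Hsep K := by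
  classical
  -- uniform slack
  obtain ⟨θ, hθ0, hθ1, hθ⟩ : ∃ θ : ℝ, 0 < θ ∧ θ ≤ 1 ∧ ∀ i j, i ≠ j →
      ⟪f i, u j⟫ ≤ -θ ∧ -1 + θ ≤ ⟪f i, u j⟫ := by
    have key : ∀ᶠ θ : ℝ in nhdsWithin 0 (Set.Ioi 0), ∀ i j, i ≠ j →
        ⟪f i, u j⟫ ≤ -θ ∧ -1 + θ ≤ ⟪f i, u j⟫ := by
      rw [Filter.eventually_all]
      intro i
      rw [Filter.eventually_all]
      intro j
      by_cases hij : i = j
      · exact Filter.Eventually.of_forall fun _ h => absurd hij h
      · have ha : ∀ᶠ θ : ℝ in nhds 0, θ < -⟪f i, u j⟫ :=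
          eventually_lt_nhds (by linarith [(h2 i j hij).2])
        have hb : ∀ᶠ θ : ℝ in nhds 0, θ < 1 + ⟪f i, u j⟫ :=
          eventually_lt_nhds (by linarith [(h2 i j hij).1])
        filter_upwards [nhdsWithin_le_nhds ha, nhdsWithin_le_nhds hb] with θ hθa hθb _
        constructor <;> linarith
    have hc : ∀ᶠ θ : ℝ in nhdsWithin 0 (Set.Ioi 0), θ < 1 :=
      nhdsWithin_le_nhds (eventually_lt_nhds one_pos)
    obtain ⟨θ, hk, hc', hpos⟩ := (key.and (hc.and self_mem_nhdsWithin)).exists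
    exact ⟨θ, hpos, hc'.le, hk⟩
  -- bound on the norms of the functionals
  obtain ⟨M, hM0, hM⟩ : ∃ M : ℝ, 0 < M ∧ ∀ i, ‖f i‖ ≤ M := by
    refine ⟨1 + ∑ i, ‖f i‖, by positivity, fun i => ?_⟩
    have := Finset.single_le_sum (f := fun i => ‖f i‖) (fun i _ => norm_nonneg _)
      (Finset.mem_univ i)
    linarith
  have hin : ∀ i x, |⟪f i, x⟫| ≤ M * ‖x‖ := fun i x =>
    (abs_real_inner_le_norm _ _).trans (mul_le_mul_of_nonneg_right (hM i) (norm_nonneg _))
  set C : ℝ := 2 / θ with hC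
  have hCpos : 0 < C := by positivity
  have hCθ : C * θ = 2 := by rw [hC]; field_simp
  set ε : ℝ := θ / (M * (3 * C + 2)) with hε
  have hεpos : 0 < ε := by positivity
  have hMε : M * ε * (3 * C + 2) = θ := by rw [hε]; field_simp
  -- the body
  set P : Set (E d) := Set.range u ∪ Set.range (fun i => -u i) with hP
  have hPfin : P.Finite := (Set.finite_range _).union (Set.finite_range _)
  have hPneg : -P = P := by
    ext x
    simp only [hP, Set.mem_neg, Set.mem_union, Set.mem_range]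
    constructor
    · rintro (⟨i, hi⟩ | ⟨i, hi⟩)
      · exact Or.inr ⟨i, by rw [hi, neg_neg]⟩
      · exact Or.inl ⟨i, neg_injective hi⟩
    · rintro (⟨i, hi⟩ | ⟨i, hi⟩)
      · exact Or.inr ⟨i, by rw [hi]⟩
      · exact Or.inl ⟨i, by rw [← hi, neg_neg]⟩
  by_cases hn : n = 0
  · subst hn
    refine ⟨Metric.closedBall 0 1, ⟨isCompact_closedBall _ _, convex_closedBall _ _, ⟨0, ?_⟩, ?_⟩,
      1, one_pos, fun K _ _ => by simp⟩
    · exact mem_interior.2 ⟨Metric.ball 0 1, Metric.ball_subset_closedBall, Metric.isOpen_ball,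
        by simp⟩
    · intro x hx
      simpa using hx
  have hPne : P.Nonempty := ⟨u ⟨0, Nat.pos_of_ne_zero hn⟩, Or.inl ⟨_, rfl⟩⟩
  set Q : Set (E d) := convexHull ℝ P with hQ
  have hQneg : -Q = Q := by rw [hQ, ← convexHull_neg, hPneg]
  have h0Q : (0 : E d) ∈ Q := by
    obtain ⟨x, hx⟩ := hPne
    have hx' : x ∈ Q := subset_convexHull ℝ _ hx
    have hx'' : -x ∈ Q := by rw [← hQneg]; simpa using hx'
    have := (convex_convexHull ℝ P) hx' hx'' (by norm_num : (0 : ℝ) ≤ 1 / 2)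
      (by norm_num : (0 : ℝ) ≤ 1 / 2) (by norm_num)
    simpa using this
  set K₀ : Set (E d) := Q + Metric.closedBall 0 ε with hK₀
  have hK₀comp : IsCompact K₀ := (hPfin.isCompact_convexHull ℝ).add (isCompact_closedBall _ _)
  have hK₀conv : Convex ℝ K₀ := (convex_convexHull ℝ P).add (convex_closedBall _ _)
  have hK₀int : (interior K₀).Nonempty := by
    refine ⟨0, mem_interior.2 ⟨Metric.ball 0 ε, ?_, Metric.isOpen_ball, by simp [hεpos]⟩⟩
    intro x hx
    rw [hK₀]
    exact ⟨0, h0Q, x, Metric.ball_subset_closedBall hx, by simp⟩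
  have hK₀neg : ∀ x ∈ K₀, -x ∈ K₀ := by
    have h : K₀ = -K₀ := by
      rw [hK₀, neg_add, hQneg]
      simp
    intro x hx
    rw [h]
    simpa using hx
  have hK₀ne : K₀.Nonempty := ⟨0 + 0, Set.add_mem_add h0Q (by simp [hεpos.le])⟩
  refine ⟨K₀, ⟨hK₀comp, hK₀conv, hK₀int, hK₀neg⟩, ε, hεpos, ?_⟩
  rintro K ⟨hKcomp, -, hKint, hsym⟩ hdist'
  have hKne : K.Nonempty := hKint.mono interior_subset
  have hfin : Metric.hausdorffEDist K K₀ ≠ ⊤ :=
    Metric.hausdorffEDist_ne_top_of_nonempty_of_bounded hKne hK₀ne hKcomp.isBounded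
      hK₀comp.isBounded
  -- the linear inequality on `Q`
  have hQineq : ∀ i j, i ≠ j → ∀ x ∈ Q, ⟪f i, x⟫ ≤ -θ + C * (1 - ⟪f j, x⟫) := by
    intro i j hij x hx
    have hconv : Convex ℝ {x : E d | ⟪f i + C • f j, x⟫ ≤ C - θ} := by
      have := convex_halfSpace_le (𝕜 := ℝ) (f := fun x : E d => ⟪f i + C • f j, x⟫)
        ⟨fun x y => inner_add_right _ _ _, fun c x => by simp [inner_smul_right]⟩ (C - θ)
      exact this
    have hsub : P ⊆ {x : E d | ⟪f i + C • f j, x⟫ ≤ C - θ} := by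
      rintro y (⟨k, rfl⟩ | ⟨k, rfl⟩)
      · simp only [Set.mem_ofPred_eq, inner_add_left, inner_smul_left]
        simp only [conj_trivial]
        have hik : ⟪f i, u k⟫ ≤ 1 := by
          by_cases h : i = k
          · rw [← h, h1]
          · linarith [(hθ i k h).1]
        by_cases h : j = k
        · subst h
          rw [h1]
          linarith [(hθ i j hij).1]
        · have h3 := (hθ j k h).1
          have h4 : C * ⟪f j, u k⟫ ≤ C * (-θ) := mul_le_mul_of_nonneg_left h3 hCpos.le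
          have h5 : C * (-θ) = -2 := by linarith
          have h6 : 2 ≤ C := by rw [hC, le_div_iff₀ hθ0]; linarith
          linarith
      · simp only [Set.mem_ofPred_eq, inner_add_left, inner_smul_left, inner_neg_right]
        simp only [conj_trivial]
        have hik : -⟪f i, u k⟫ ≤ 1 := by
          by_cases h : i = k
          · rw [← h, h1]; norm_num
          · linarith [(hθ i k h).2]
        have hjk : -⟪f j, u k⟫ ≤ 1 - θ := by
          by_cases h : j = k
          · rw [← h, h1]; linarith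
          · linarith [(hθ j k h).2]
        have h4 : C * (-⟪f j, u k⟫) ≤ C * (1 - θ) := mul_le_mul_of_nonneg_left hjk hCpos.le
        have h5 : C * (1 - θ) = C - 2 := by linarith
        linarith
    have hx' := convexHull_min hsub hconv hx
    simp only [Set.mem_ofPred_eq, inner_add_left, inner_smul_left] at hx'
    simp only [conj_trivial] at hx'
    linarith
  -- maximizers
  have hexm : ∀ i, ∃ w ∈ K, ∀ x ∈ K, ⟪f i, x⟫ ≤ ⟪f i, w⟫ := by
    intro i
    obtain ⟨w, hw, hwmax⟩ := hKcomp.exists_isMaxOn hKne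
      (f := fun x : E d => ⟪f i, x⟫) (by fun_prop)
    exact ⟨w, hw, fun x hx => hwmax hx⟩
  choose w hwK hwmax using hexm
  have hlow : ∀ i, 1 - M * ε ≤ ⟪f i, w i⟫ := by
    intro i
    have hu : u i ∈ K₀ := by
      rw [hK₀]
      exact ⟨u i, subset_convexHull ℝ _ (Or.inl ⟨i, rfl⟩), 0, by simp [hεpos.le], by simp⟩
    obtain ⟨u', hu', hd⟩ := Metric.exists_dist_lt_of_hausdorffDist_lt' hu hdist' hfin
    rw [dist_eq_norm] at hd
    have h3 := hwmax i u' hu'
    have h4 := hin i (u' - u i)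
    rw [inner_sub_right, h1] at h4
    have h5 : M * ‖u' - u i‖ ≤ M * ε := mul_le_mul_of_nonneg_left hd.le hM0.le
    have h6 := (abs_le.1 (h4.trans h5)).1
    linarith
  have hMε1 : M * ε < 1 / 2 := by
    have h6 : 2 ≤ C := by rw [hC, le_div_iff₀ hθ0]; linarith
    have hMεpos : 0 < M * ε := by positivity
    nlinarith
  refine le_Hsep_of_max hsym f w hwK hwmax (fun i => ?_) (fun i j hij => ?_)
  · linarith [hlow i]
  · -- `⟪f i, w j⟫ ≤ 0`
    obtain ⟨y, hy, hd⟩ := Metric.exists_dist_lt_of_hausdorffDist_lt (hwK j) hdist' hfin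
    rw [hK₀] at hy
    obtain ⟨k, hk, b, hb, rfl⟩ := hy
    rw [Metric.mem_closedBall, dist_zero_right] at hb
    rw [dist_eq_norm] at hd
    have hbM : M * ‖b‖ ≤ M * ε := mul_le_mul_of_nonneg_left hb hM0.le
    have hdM : M * ‖w j - (k + b)‖ ≤ M * ε := mul_le_mul_of_nonneg_left hd.le hM0.le
    have e1 := (hin j b).trans hbM
    have e2 := (hin i b).trans hbM
    have e3 := (hin j (w j - (k + b))).trans hdM
    have e4 := (hin i (w j - (k + b))).trans hdM
    rw [inner_sub_right, inner_add_right] at e3 e4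
    have e1' := abs_le.1 e1
    have e2' := abs_le.1 e2
    have e3' := abs_le.1 e3
    have e4' := abs_le.1 e4
    have e5 := hQineq i j hij k hk
    have e6 := hlow j
    have e7 : 1 - ⟪f j, k⟫ ≤ 3 * (M * ε) := by linarith
    have e8 : C * (1 - ⟪f j, k⟫) ≤ C * (3 * (M * ε)) := mul_le_mul_of_nonneg_left e7 hCpos.le
    nlinarith

end Robust

/-! ## Robust configurations as matrices and block sums -/

section Matrices

/-- A robust configuration of `n` vectors in dimension `d`: functionals `F i` and vectors `U i`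
with `F i (U i) > 0` and `-F i (U i) < F i (U j) < 0` for `i ≠ j`. -/
def Robust (d n : ℕ) : Prop :=
  ∃ F U : Fin n → Fin d → ℝ, (∀ i, 0 < ∑ k, F i k * U i k) ∧
    ∀ i j, i ≠ j → -(∑ k, F i k * U i k) < ∑ k, F i k * U j k ∧ ∑ k, F i k * U j k < 0

theorem robust_add {d₁ n₁ d₂ n₂ : ℕ} (F₁ U₁ : Fin n₁ → Fin d₁ → ℝ) (z κ : Fin d₁ → ℝ)
    (h1 : ∀ i, 0 < ∑ k, F₁ i k * U₁ i k)
    (h2 : ∀ i j, i ≠ j → -(∑ k, F₁ i k * U₁ i k) < ∑ k, F₁ i k * U₁ j k ∧
      ∑ k, F₁ i k * U₁ j k < 0)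
    (hz : ∀ i, ∑ k, F₁ i k * z k < 0) (hκ : ∀ j, ∑ k, κ k * U₁ j k < 0)
    (h : Robust d₂ n₂) : Robust (d₁ + d₂) (n₁ + n₂) := by
  obtain ⟨F₂, U₂, h3, h4⟩ := h
  -- the configuration depending on a small parameter `s`
  let F : ℝ → Fin (n₁ + n₂) → Fin (d₁ + d₂) → ℝ := fun s =>
    Fin.append (fun i => Fin.append (F₁ i) 0) (fun j => Fin.append (fun k => s * κ k) (F₂ j))
  let U : ℝ → Fin (n₁ + n₂) → Fin (d₁ + d₂) → ℝ := fun s =>
    Fin.append (fun i => Fin.append (U₁ i) 0) (fun j => Fin.append (fun k => s * z k) (U₂ j))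
  have e11 : ∀ s i j, ∑ k, F s (Fin.castAdd n₂ i) k * U s (Fin.castAdd n₂ j) k
      = ∑ k, F₁ i k * U₁ j k := by
    intro s i j
    simp [F, U, Fin.sum_univ_add]
  have e12 : ∀ s i j, ∑ k, F s (Fin.castAdd n₂ i) k * U s (Fin.natAdd n₁ j) k
      = s * ∑ k, F₁ i k * z k := by
    intro s i j
    simp [F, U, Fin.sum_univ_add, Finset.mul_sum]
    refine Finset.sum_congr rfl fun k _ => by ring
  have e21 : ∀ s i j, ∑ k, F s (Fin.natAdd n₁ i) k * U s (Fin.castAdd n₂ j) k
      = s * ∑ k, κ k * U₁ j k := by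
    intro s i j
    simp [F, U, Fin.sum_univ_add, Finset.mul_sum]
    refine Finset.sum_congr rfl fun k _ => by ring
  have e22 : ∀ s i j, ∑ k, F s (Fin.natAdd n₁ i) k * U s (Fin.natAdd n₁ j) k
      = s ^ 2 * (∑ k, κ k * z k) + ∑ k, F₂ i k * U₂ j k := by
    intro s i j
    simp [F, U, Fin.sum_univ_add, Finset.mul_sum]
    refine Finset.sum_congr rfl fun k _ => by ring
  -- all conditions hold for small positive `s`
  have small : ∀ (a b : ℝ), a < b → ∀ c e : ℝ, ∀ᶠ s : ℝ in nhdsWithin 0 (Set.Ioi 0),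
      a + s * c + s ^ 2 * e < b := by
    intro a b hab c e
    have hc : Continuous fun s : ℝ => a + s * c + s ^ 2 * e := by fun_prop
    have := (hc.tendsto 0).eventually_lt_const (by simpa using hab : a + 0 * c + 0 ^ 2 * e < b)
    exact nhdsWithin_le_nhds this
  have key : ∀ᶠ s : ℝ in nhdsWithin 0 (Set.Ioi 0),
      (∀ i, 0 < ∑ k, F s i k * U s i k) ∧
      ∀ i j, i ≠ j → -(∑ k, F s i k * U s i k) < ∑ k, F s i k * U s j k ∧
        ∑ k, F s i k * U s j k < 0 := by
    apply Filter.Eventually.and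
    · rw [Filter.eventually_all]
      intro i
      refine Fin.addCases (fun i => ?_) (fun i => ?_) i
      · simp only [e11]
        exact Filter.Eventually.of_forall fun _ => h1 i
      · simp only [e22]
        filter_upwards [small (-∑ k, F₂ i k * U₂ i k) 0 (by linarith [h3 i]) 0
          (-∑ k, κ k * z k)] with s hs
        linarith
    · rw [Filter.eventually_all]
      intro i
      rw [Filter.eventually_all]
      intro j
      refine Fin.addCases (fun i => ?_) (fun i => ?_) i <;>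
        refine Fin.addCases (fun j => ?_) (fun j => ?_) j
      · simp only [e11]
        refine Filter.Eventually.of_forall fun _ hij => h2 i j ?_
        rintro rfl; exact hij rfl
      · simp only [e11, e12]
        filter_upwards [small (-∑ k, F₁ i k * U₁ i k) 0 (by linarith [h1 i])
          (-∑ k, F₁ i k * z k) 0, self_mem_nhdsWithin] with s hs hpos _
        have : s * ∑ k, F₁ i k * z k < 0 := mul_neg_of_pos_of_neg hpos (hz i)
        constructor <;> linarith
      · simp only [e22, e21]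
        filter_upwards [small (-∑ k, F₂ i k * U₂ i k) 0 (by linarith [h3 i])
          (-∑ k, κ k * U₁ j k) (-∑ k, κ k * z k), self_mem_nhdsWithin] with s hs hpos _
        have : s * ∑ k, κ k * U₁ j k < 0 := mul_neg_of_pos_of_neg hpos (hκ j)
        constructor <;> linarith
      · simp only [e22]
        by_cases hij : i = j
        · subst hij
          exact Filter.Eventually.of_forall fun _ h => absurd rfl h
        · have h5 := h4 i j hij
          filter_upwards [small (∑ k, F₂ i k * U₂ j k) 0 h5.2 0 (∑ k, κ k * z k),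
            small (-∑ k, F₂ i k * U₂ i k) (∑ k, F₂ i k * U₂ j k) h5.1 0
              (-2 * ∑ k, κ k * z k)] with s hs1 hs2 _
          constructor <;> linarith
  obtain ⟨s, hs⟩ := key.exists
  exact ⟨F s, U s, hs.1, hs.2⟩


/-- A robust configuration gives the body of `exists_robust`. -/
theorem Robust.exists_body {d n : ℕ} (h : Robust d n) :
    ∃ K₀ : Set (E d), IsSymBody K₀ ∧ ∃ ε > 0, ∀ K : Set (E d), IsSymBody K →
      Metric.hausdorffDist K K₀ < ε → (n : ℕ∞) ≤ Hsep K := by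
  obtain ⟨F, U, h1, h2⟩ := h
  have hin : ∀ i j, ⟪(WithLp.toLp 2 (fun k => (∑ k, F i k * U i k)⁻¹ * F i k) : E d),
      (WithLp.toLp 2 (U j) : E d)⟫ = (∑ k, F i k * U i k)⁻¹ * ∑ k, F i k * U j k := by
    intro i j
    rw [PiLp.inner_apply, Finset.mul_sum]
    refine Finset.sum_congr rfl fun k _ => ?_
    simp
    ring
  refine exists_robust (fun j => (WithLp.toLp 2 (U j) : E d))
    (fun i => (WithLp.toLp 2 (fun k => (∑ k, F i k * U i k)⁻¹ * F i k) : E d)) ?_ ?_
  · intro i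
    rw [hin, inv_mul_cancel₀ (h1 i).ne']
  · intro i j hij
    rw [hin]
    have hpos := inv_pos.2 (h1 i)
    have h3 := mul_lt_mul_of_pos_left (h2 i j hij).1 hpos
    rw [mul_neg, inv_mul_cancel₀ (h1 i).ne'] at h3
    exact ⟨h3, mul_neg_of_pos_of_neg hpos (h2 i j hij).2⟩

/-! ## Explicit configurations -/

/-- Dot product of integer lists. -/
def ldot : List ℤ → List ℤ → ℤ
  | a :: as, b :: bs => a * b + ldot as bs
  | _, _ => 0

theorem ldot_eq (d : ℕ) : ∀ (l m : List ℤ), l.length = d → m.length = d →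
    (ldot l m : ℝ) = ∑ k : Fin d, ((l.getD k 0 : ℤ) : ℝ) * ((m.getD k 0 : ℤ) : ℝ) := by
  induction d with
  | zero => intro l m hl hm; simp [List.length_eq_zero_iff.1 hl, ldot]
  | succ d ih =>
    intro l m hl hm
    match l, m, hl, hm with
    | a :: as, b :: bs, hl, hm =>
      rw [Fin.sum_univ_succ]
      have := ih as bs (by simpa using hl) (by simpa using hm)
      simp only [ldot, Int.cast_add, Int.cast_mul, this]
      simp

/-- Boolean check that integer lists `F`, `U` (with `n` rows of length `d`) form a robust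
configuration. -/
def chk (d n : ℕ) (F U : List (List ℤ)) : Bool :=
  (List.range n).all fun i =>
    (F.getD i []).length == d && (U.getD i []).length == d &&
    decide (0 < ldot (F.getD i []) (U.getD i [])) && (List.range n).all fun j =>
      (i == j) || (decide (-ldot (F.getD i []) (U.getD i []) < ldot (F.getD i []) (U.getD j [])) &&
        decide (ldot (F.getD i []) (U.getD j []) < 0))

/-- The real matrix of an integer list of lists. -/
def toMat (d n : ℕ) (F : List (List ℤ)) : Fin n → Fin d → ℝ :=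
  fun i k => (((F.getD i []).getD k 0 : ℤ) : ℝ)

theorem chk_spec {d n : ℕ} {F U : List (List ℤ)} (h : chk d n F U = true) :
    (∀ i, 0 < ∑ k, toMat d n F i k * toMat d n U i k) ∧
    ∀ i j, i ≠ j → -(∑ k, toMat d n F i k * toMat d n U i k) <
      ∑ k, toMat d n F i k * toMat d n U j k ∧
      ∑ k, toMat d n F i k * toMat d n U j k < 0 := by
  simp only [chk, List.all_eq_true, List.mem_range, Bool.and_eq_true, Bool.or_eq_true,
    beq_iff_eq, decide_eq_true_eq] at h
  have e : ∀ i j : Fin n, ∑ k, toMat d n F i k * toMat d n U j k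
      = (ldot (F.getD i []) (U.getD j []) : ℝ) := by
    intro i j
    rw [ldot_eq d _ _ (h i i.2).1.1.1 (h j j.2).1.1.2]
    rfl
  constructor
  · intro i
    rw [e]
    exact_mod_cast (h i i.2).1.2
  · intro i j hij
    rw [e, e]
    have hij' : (i : ℕ) ≠ j := fun h => hij (Fin.ext h)
    have h3 := ((h i i.2).2 j j.2).resolve_left hij'
    exact ⟨by exact_mod_cast h3.1, by exact_mod_cast h3.2⟩

theorem robust_of_chk {d n : ℕ} {F U : List (List ℤ)} (h : chk d n F U = true) : Robust d n :=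
  ⟨toMat d n F, toMat d n U, (chk_spec h).1, (chk_spec h).2⟩

/-- functionals of a robust configuration of 12 vectors in dimension 6 -/
def F6 : List (List ℤ) :=
  [[11, 12, 3, -7, 20, 11],
   [22, 9, 10, -11, -12, 2],
   [-2, 3, 1, -20, 9, -16],
   [1, -26, -20, 4, 31, -4],
   [-3, -9, 13, -6, 9, 6],
   [25, 2, -23, 16, -5, 20],
   [-19, -6, -4, 11, -1, 26],
   [-16, 0, -19, -4, -7, -5],
   [-7, 33, -8, -7, -13, 21],
   [14, -15, -16, -5, -12, -16],
   [-19, -1, 12, -14, -26, 2],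
   [15, -33, 10, 7, -24, 17]]

/-- vectors of a robust configuration of 12 vectors in dimension 6 -/
def U6 : List (List ℤ) :=
  [[14, 39, 23, 34, 41, -12],
   [33, 31, 38, 20, -20, -29],
   [-9, 18, 18, -9, 16, -51],
   [-7, -13, -9, 39, 39, -25],
   [-17, -10, 59, 28, 24, -17],
   [26, 21, -10, 67, 0, -7],
   [-34, 4, 13, 60, 6, 10],
   [-39, 21, -18, 41, -4, -44],
   [-14, 63, 12, 43, -10, -14],
   [18, -2, -1, 41, -17, -62],
   [-31, 11, 42, 17, -31, -27],
   [10, -19, 43, 65, -22, -19]]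

/-- functionals of a robust configuration of 15 vectors in dimension 7 -/
def F7 : List (List ℤ) :=
  [[-5, -4, -6, 2, -5, 12, -5],
   [-5, 4, 2, 6, 0, -4, 4],
   [0, 7, -2, 5, 12, -29, 7],
   [30, 9, 1, -2, 7, -17, -5],
   [13, 20, -3, -5, 12, -15, 25],
   [12, 10, -10, -13, -3, 8, -27],
   [2, -13, 6, 11, -3, -8, 5],
   [6, 22, -4, 12, 3, 9, 4],
   [15, -3, 18, -17, -11, -30, 0],
   [3, 5, 29, 22, -25, -11, -15],
   [-12, -27, -7, 4, -7, -9, -36],
   [7, 0, -27, 1, 15, 7, -17],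
   [-2, 36, -12, 23, 14, -20, -24],
   [5, 26, 7, 0, 2, -16, 9],
   [-6, 19, -8, -9, 7, -18, 0]]

/-- vectors of a robust configuration of 15 vectors in dimension 7 -/
def U7 : List (List ℤ) :=
  [[-6, -3, -67, -5, -82, 0, 34],
   [-37, 2, 36, 2, 34, 13, 1],
   [-25, -21, 73, -15, 119, 9, -17],
   [22, -10, 90, -3, 106, 29, -27],
   [11, -7, -22, -14, -6, 4, 37],
   [-6, 12, 35, -27, 26, 23, -27],
   [13, -28, 3, 17, 3, 2, 19],
   [7, 11, 41, 10, 44, 42, -4],
   [0, -10, 16, -30, -10, -6, 5],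
   [-5, 2, 85, 3, 50, 29, -31],
   [-26, -15, 24, -10, 28, -1, -24],
   [-1, -12, 6, -3, 54, 18, -6],
   [-33, 6, 132, -8, 162, 44, -62],
   [-19, 18, 98, -30, 90, 32, -23],
   [-43, 5, 5, -44, 18, 1, 1]]

/-- functionals of a robust configuration of 17 vectors in dimension 8 -/
def F8 : List (List ℤ) :=
  [[1, 9, -5, -9, -11, -5, -3, 2],
   [-10, -4, 0, 5, 5, 18, -6, 5],
   [-2, 4, 4, 6, 6, 6, 3, 0],
   [-1, -3, -6, 2, -7, 1, 0, -1],
   [-8, -7, -3, -11, 2, 7, -3, 6],
   [-17, -1, 2, -1, 12, -4, -6, -3],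
   [-17, -3, 0, -3, -8, -18, 2, -6],
   [4, -1, -7, -1, 2, -14, 4, 0],
   [-3, -2, -7, -4, 6, 1, -6, -1],
   [-4, 2, -7, 0, 19, -3, 1, -13],
   [-17, 9, 5, 8, -12, 6, -3, -8],
   [-2, 0, 0, -11, 9, 1, -4, 9],
   [-3, 4, 0, -2, 2, 5, 1, -5],
   [-5, -6, -6, 0, 3, -8, 11, -10],
   [-7, -7, 4, 0, 2, -1, 5, 10],
   [-15, 2, 1, -13, 0, -6, -6, -2],
   [-12, -3, -4, -2, 3, 1, -4, -9]]

/-- vectors of a robust configuration of 17 vectors in dimension 8 -/
def U8 : List (List ℤ) :=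
  [[11, 11, 2, -5, -8, -1, -9, 0],
   [8, -15, 13, 9, -1, 5, -19, -3],
   [6, 7, 14, 7, 7, 0, -1, 2],
   [8, -15, -3, 4, -12, 1, -7, -5],
   [14, -27, 19, -17, -6, 11, -2, -14],
   [7, -10, 23, 11, 7, -11, -27, -5],
   [7, -19, 21, 3, -8, -11, -12, -11],
   [9, -2, -3, 8, 3, -13, -4, 6],
   [17, -15, 5, 6, 2, -5, -31, -7],
   [18, -10, 16, -1, 10, -3, -11, -18],
   [5, 0, 18, 5, -9, 1, -16, -10],
   [10, 1, 11, -5, 7, -3, -9, 6],
   [12, -2, 17, -17, -4, 12, 5, -20],
   [13, -24, 15, -9, -3, 2, 10, -18],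
   [5, -17, 15, 4, 1, -4, 2, 6],
   [13, -10, 32, -14, -6, -2, -20, -17],
   [12, -26, 22, -5, -5, 4, -18, -27]]

/-- functionals of a robust configuration of 22 vectors in dimension 9 -/
def F9 : List (List ℤ) :=
  [[-1, 4, -18, 2, -27, -6, -3, -5, 22],
   [-10, 2, 15, 3, -1, 17, -14, -5, -10],
   [0, -5, -1, -9, 3, 11, -1, 18, -2],
   [12, 9, 2, -18, -11, -6, 2, 5, 0],
   [11, 27, 4, 7, -2, -8, 16, 7, 13],
   [-5, -10, 24, 23, -5, -2, 16, 5, -9],
   [12, 16, -59, 9, -4, -3, 11, 45, -2],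
   [-7, 27, 9, 16, -17, -20, -24, -6, -14],
   [16, 8, 11, 0, -6, 10, -2, -20, 13],
   [2, -5, 5, -4, -7, -3, -2, 5, -18],
   [7, 7, 29, -6, 8, 18, 13, 17, 21],
   [10, 14, -2, 15, 15, 16, -6, 8, 6],
   [-10, -24, -10, 9, -14, 1, 23, 23, 8],
   [11, -18, -19, 7, -1, 21, -1, -2, 3],
   [-2, -11, -7, 8, -6, -2, -27, 16, 9],
   [35, -12, 6, 8, 14, -6, 17, 45, 4],
   [-7, 5, -4, 13, -6, 11, 15, -7, 4],
   [-14, 2, 13, -8, -13, -3, -6, 10, 9],
   [3, 11, -8, -9, -5, 13, 2, -4, -14],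
   [20, -37, 23, -17, -14, 6, -7, 12, 16],
   [15, -5, -10, 12, -13, -10, 17, -5, -11],
   [16, -9, 10, 16, -2, 0, -16, -6, -5]]

/-- vectors of a robust configuration of 22 vectors in dimension 9 -/
def U9 : List (List ℤ) :=
  [[-16, -7, -28, -16, 3, -29, 1, -28, 28],
   [-28, -6, 13, -6, 29, 10, -15, -18, -12],
   [-23, -17, -10, -32, 41, 2, -2, 9, -6],
   [5, 0, -10, -42, 16, -35, 7, -16, 2],
   [-6, 22, -4, -5, 36, -36, 22, -15, 14],
   [-21, -16, 24, 10, 32, -27, 18, -15, -7],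
   [-11, 6, -40, -10, 31, -24, 3, 3, -1],
   [-17, 16, -2, 2, 15, -34, -16, -16, -10],
   [8, -2, 1, -18, 22, -5, 6, -46, 19],
   [-12, -18, 3, -22, 22, -26, -1, -8, -34],
   [-18, -7, 20, -20, 51, -6, 19, -13, 20],
   [-3, 10, -10, 7, 55, -2, -12, -10, 7],
   [-30, -32, -16, -11, 19, -23, 20, -4, 10],
   [1, -27, -27, -6, 26, 8, -1, -23, 5],
   [-20, -23, -19, -5, 30, -27, -29, -2, 13],
   [9, -18, -1, -6, 52, -35, 8, 3, 1],
   [-27, 3, -13, 5, 21, 1, 25, -31, 7],
   [-42, -7, 11, -24, 12, -24, -3, -6, 16],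
   [-12, 9, -24, -29, 27, 3, 7, -26, -23],
   [0, -40, 9, -30, 23, -19, -1, -18, 14],
   [12, -13, -15, 0, 12, -31, 21, -26, -8],
   [9, -25, 5, 6, 42, -28, -17, -30, -8]]

/-- a vector on which all functionals of `F7` are negative -/
def z7 : List ℤ := [-1, 0, 2, -1, 2, 1, 0]

/-- a functional negative on all vectors of `U7` -/
def k7 : List ℤ := [0, 1, 0, 1, 0, -1, 0]

theorem chk6 : chk 6 12 F6 U6 = true := by decide +kernel
theorem chk7 : chk 7 15 F7 U7 = true := by decide +kernel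
theorem chk8 : chk 8 17 F8 U8 = true := by decide +kernel
theorem chk9 : chk 9 22 F9 U9 = true := by decide +kernel

theorem z7_neg : ∀ i < 15, (F7.getD i []).length = 7 ∧ ldot (F7.getD i []) z7 < 0 := by
  decide +kernel
theorem k7_neg : ∀ i < 15, (U7.getD i []).length = 7 ∧ ldot k7 (U7.getD i []) < 0 := by
  decide +kernel

/-- Adding seven dimensions and fifteen vectors. -/
theorem Robust.add_seven {d n : ℕ} (h : Robust d n) : Robust (7 + d) (15 + n) := by
  refine robust_add (toMat 7 15 F7) (toMat 7 15 U7) (fun k => ((z7.getD k 0 : ℤ) : ℝ))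
    (fun k => ((k7.getD k 0 : ℤ) : ℝ)) (chk_spec chk7).1 (chk_spec chk7).2 ?_ ?_ h
  · intro i
    have e := ldot_eq 7 (F7.getD i []) z7 (z7_neg i i.2).1 rfl
    have h3 : (ldot (F7.getD i []) z7 : ℝ) < 0 := by exact_mod_cast (z7_neg i i.2).2
    rw [e] at h3
    exact h3
  · intro i
    have e := ldot_eq 7 k7 (U7.getD i []) rfl (k7_neg i i.2).1
    have h3 : (ldot k7 (U7.getD i []) : ℝ) < 0 := by exact_mod_cast (k7_neg i i.2).2
    rw [e] at h3
    exact h3

/-- Adding one dimension and one vector. -/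
theorem Robust.add_one {d n : ℕ} (h : Robust d n) : Robust (1 + d) (1 + n) := by
  refine robust_add (d₁ := 1) (n₁ := 1) (fun _ _ => 1) (fun _ _ => 1) (fun _ => -1) (fun _ => -1)
    ?_ ?_ ?_ ?_ h
  · intro i; simp
  · intro i j hij; exact absurd (Subsingleton.elim i j) hij
  · intro i; simp
  · intro i; simp

theorem exists_robust_of_seven_le (d : ℕ) (hd : 7 ≤ d) : ∃ n, 2 * d + 1 ≤ n ∧ Robust d n := by
  induction d using Nat.strong_induction_on with
  | _ d ih =>
    have h9 : Robust 9 22 := robust_of_chk chk9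
    rcases Nat.lt_or_ge d 14 with h14 | h14
    · interval_cases d
      · exact ⟨15, by norm_num, robust_of_chk chk7⟩
      · exact ⟨17, by norm_num, robust_of_chk chk8⟩
      · exact ⟨22, by norm_num, h9⟩
      · exact ⟨23, by norm_num, h9.add_one⟩
      · exact ⟨24, by norm_num, h9.add_one.add_one⟩
      · exact ⟨25, by norm_num, h9.add_one.add_one.add_one⟩
      · exact ⟨27, by norm_num, (robust_of_chk chk6).add_seven⟩
    · obtain ⟨n, hn, hr⟩ := ih (d - 7) (by omega) (by omega)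
      refine ⟨15 + n, by omega, ?_⟩
      have := hr.add_seven
      rwa [show 7 + (d - 7) = d by omega] at this

end Matrices

end Pool.Agent.Lib_helper55.SepHadwiger
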