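import Mathlib

/-!
# The group `K₁(R)` of a (not necessarily commutative) ring

`St R` is the group of finitary automorphisms of the left module `ℕ →₀ R` and `K1 R` is its
abelianization.  For a finitely generated free module `P` and an automorphism `α` of `P`
we define its class `cl α : K1 R` and prove the usual additivity properties.
-/

set_option autoImplicit false

open Finsupp

namespace Pool.Wh

variable {R : Type*} [Ring R]

section push

variable {P V : Type*} [AddCommGroup P] [Module R P] [AddCommGroup V] [Module R V]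

/-- the linear endomorphism `1 + E (α - 1) S`. -/
def pushLin (E : P →ₗ[R] V) (S : V →ₗ[R] P) (α : P →ₗ[R] P) : V →ₗ[R] V :=
  LinearMap.id + E ∘ₗ (α - LinearMap.id) ∘ₗ S

theorem pushLin_apply (E : P →ₗ[R] V) (S : V →ₗ[R] P) (α : P →ₗ[R] P) (v : V) :
    pushLin E S α v = v + E (α (S v) - S v) := by
  simp [pushLin]

theorem pushLin_comp (E : P →ₗ[R] V) (S : V →ₗ[R] P) (h : ∀ x, S (E x) = x)
    (α β : P →ₗ[R] P) : pushLin E S α ∘ₗ pushLin E S β = pushLin E S (α ∘ₗ β) := by
  ext v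
  simp only [LinearMap.comp_apply, pushLin_apply, map_add, map_sub, h]
  abel

theorem pushLin_id (E : P →ₗ[R] V) (S : V →ₗ[R] P) : pushLin E S LinearMap.id = LinearMap.id := by
  ext v; simp [pushLin_apply]

/-- `α ↦ 1 + E (α - 1) S` as a group homomorphism. -/
def push (E : P →ₗ[R] V) (S : V →ₗ[R] P) (h : ∀ x, S (E x) = x) :
    (P ≃ₗ[R] P) →* (V ≃ₗ[R] V) where
  toFun α := LinearEquiv.ofLinearMap (pushLin E S α) (pushLin E S α.symm)
    (by rw [pushLin_comp E S h]; simp [pushLin_id])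
    (by rw [pushLin_comp E S h]; simp [pushLin_id])
  map_one' := by
    apply LinearEquiv.toLinearMap_injective
    ext v; simp [pushLin_apply]
  map_mul' α β := by
    apply LinearEquiv.toLinearMap_injective
    have := pushLin_comp E S h α β
    exact this.symm

theorem push_apply (E : P →ₗ[R] V) (S : V →ₗ[R] P) (h : ∀ x, S (E x) = x)
    (α : P ≃ₗ[R] P) (v : V) : push E S h α v = v + E (α (S v) - S v) := by
  change pushLin E S α v = _
  rw [pushLin_apply]; rfl

end push

/-- A linear endomorphism of `ℕ →₀ R` given by a finite matrix. -/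
def IsFin (f : (ℕ →₀ R) →ₗ[R] (ℕ →₀ R)) : Prop :=
  ∃ n : ℕ, (∀ v, ∀ i ≥ n, f v i = 0) ∧ ∀ i ≥ n, f (single i 1) = 0

theorem IsFin.add {f g : (ℕ →₀ R) →ₗ[R] (ℕ →₀ R)} (hf : IsFin f) (hg : IsFin g) :
    IsFin (f + g) := by
  obtain ⟨n, h1, h2⟩ := hf
  obtain ⟨m, k1, k2⟩ := hg
  refine ⟨max n m, fun v i hi => ?_, fun i hi => ?_⟩
  · simp [h1 v i (le_trans (le_max_left _ _) hi), k1 v i (le_trans (le_max_right _ _) hi)]
  · simp [h2 i (le_trans (le_max_left _ _) hi), k2 i (le_trans (le_max_right _ _) hi)]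

theorem IsFin.neg {f : (ℕ →₀ R) →ₗ[R] (ℕ →₀ R)} (hf : IsFin f) : IsFin (-f) := by
  obtain ⟨n, h1, h2⟩ := hf
  exact ⟨n, fun v i hi => by simp [h1 v i hi], fun i hi => by simp [h2 i hi]⟩

theorem IsFin.comp {f g : (ℕ →₀ R) →ₗ[R] (ℕ →₀ R)} (hf : IsFin f) (hg : IsFin g) :
    IsFin (f ∘ₗ g) := by
  obtain ⟨n, h1, h2⟩ := hf
  obtain ⟨m, k1, k2⟩ := hg
  refine ⟨max n m, fun v i hi => ?_, fun i hi => ?_⟩
  · exact h1 _ i (le_trans (le_max_left _ _) hi)
  · simp [k2 i (le_trans (le_max_right _ _) hi)]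

/-- The stable general linear group: finitary automorphisms of `ℕ →₀ R`. -/
def St (R : Type*) [Ring R] : Subgroup ((ℕ →₀ R) ≃ₗ[R] (ℕ →₀ R)) where
  carrier := {f | IsFin ((f : (ℕ →₀ R) →ₗ[R] (ℕ →₀ R)) - LinearMap.id)}
  one_mem' := ⟨0, fun v i _ => by simp, fun i _ => by simp⟩
  mul_mem' := by
    intro f g hf hg
    have : ((f * g : (ℕ →₀ R) ≃ₗ[R] (ℕ →₀ R)) : (ℕ →₀ R) →ₗ[R] (ℕ →₀ R)) - LinearMap.id =
        ((f : (ℕ →₀ R) →ₗ[R] (ℕ →₀ R)) - LinearMap.id) ∘ₗ
          ((g : (ℕ →₀ R) →ₗ[R] (ℕ →₀ R)) - LinearMap.id) +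
        (((f : (ℕ →₀ R) →ₗ[R] (ℕ →₀ R)) - LinearMap.id) +
          ((g : (ℕ →₀ R) →ₗ[R] (ℕ →₀ R)) - LinearMap.id)) := by
      apply LinearMap.ext
      intro v
      simp only [LinearMap.sub_apply, LinearMap.add_apply, LinearMap.comp_apply,
        LinearMap.id_apply, map_sub, LinearEquiv.coe_coe, LinearEquiv.mul_apply]
      abel
    change IsFin _
    rw [this]
    exact (hf.comp hg).add (hf.add hg)
  inv_mem' := by
    intro f hf
    obtain ⟨n, h1, h2⟩ := hf
    refine ⟨n, fun v i hi => ?_, fun i hi => ?_⟩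
    · have h := h1 (f⁻¹ v) i hi
      have e : f (f⁻¹ v) = v := by
        change f (f.symm v) = v
        simp
      simp only [LinearMap.sub_apply, LinearEquiv.coe_coe, LinearMap.id_apply, e,
        Finsupp.sub_apply] at h
      simp only [LinearMap.sub_apply, LinearEquiv.coe_coe, LinearMap.id_apply,
        Finsupp.sub_apply]
      rw [← neg_sub, h, neg_zero]
    · have h := h2 i hi
      simp only [LinearMap.sub_apply, LinearEquiv.coe_coe, LinearMap.id_apply, sub_eq_zero] at h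
      simp only [LinearMap.sub_apply, LinearEquiv.coe_coe, LinearMap.id_apply, sub_eq_zero]
      change f.symm (single i 1) = _
      rw [LinearEquiv.symm_apply_eq, h]

/-- `K₁(R)`, written multiplicatively. -/
abbrev K1 (R : Type*) [Ring R] := Abelianization (St R)

/-- A finitary embedding of `P` as a direct summand of `ℕ →₀ R`. -/
structure FPair (R : Type*) [Ring R] (P : Type*) [AddCommGroup P] [Module R P] where
  E : P →ₗ[R] (ℕ →₀ R)
  S : (ℕ →₀ R) →ₗ[R] P
  hSE : ∀ x, S (E x) = x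
  n : ℕ
  hE : ∀ x, ∀ i ≥ n, E x i = 0
  hS : ∀ i ≥ n, S (single i 1) = 0

section FPair

variable {P : Type*} [AddCommGroup P] [Module R P]

theorem lin_eq_sum (f : (ℕ →₀ R) →ₗ[R] P) (v : ℕ →₀ R) :
    f v = v.sum fun i r => r • f (single i 1) := by
  conv_lhs => rw [← v.sum_single]
  rw [map_finsuppSum]
  refine Finsupp.sum_congr fun i _ => ?_
  rw [← map_smul, smul_single, smul_eq_mul, mul_one]

/-- push forward along a finitary pair lands in `St R`. -/
noncomputable def FPair.push (p : FPair R P) : (P ≃ₗ[R] P) →* St R :=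
  (Wh.push p.E p.S p.hSE).codRestrict (St R) (by
    intro α
    change IsFin _
    have : ((Wh.push p.E p.S p.hSE α : (ℕ →₀ R) ≃ₗ[R] (ℕ →₀ R)) :
        (ℕ →₀ R) →ₗ[R] (ℕ →₀ R)) - LinearMap.id =
        p.E ∘ₗ ((α : P →ₗ[R] P) - LinearMap.id) ∘ₗ p.S := by
      apply LinearMap.ext
      intro v
      simp [push_apply]
    rw [this]
    refine ⟨p.n, fun v i hi => p.hE _ i hi, fun i hi => ?_⟩
    simp [p.hS i hi])

theorem FPair.push_apply (p : FPair R P) (α : P ≃ₗ[R] P) (v : ℕ →₀ R) :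
    (p.push α : (ℕ →₀ R) ≃ₗ[R] (ℕ →₀ R)) v = v + p.E (α (p.S v) - p.S v) :=
  Wh.push_apply p.E p.S p.hSE α v

/-- two pairs are disjoint -/
def FPair.Disj {Q : Type*} [AddCommGroup Q] [Module R Q] (p : FPair R P) (q : FPair R Q) : Prop :=
  (∀ x, p.S (q.E x) = 0) ∧ (∀ x, q.S (p.E x) = 0)

theorem FPair.disj_symm {Q : Type*} [AddCommGroup Q] [Module R Q] {p : FPair R P}
    {q : FPair R Q} (h : p.Disj q) : q.Disj p := ⟨h.2, h.1⟩

/-- a pair is supported above `N` -/
def FPair.Above (p : FPair R P) (N : ℕ) : Prop :=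
  (∀ x, ∀ i < N, p.E x i = 0) ∧ ∀ i < N, p.S (single i 1) = 0

theorem FPair.disj_of_above {Q : Type*} [AddCommGroup Q] [Module R Q] (p : FPair R P)
    (q : FPair R Q) (h : q.Above p.n) : p.Disj q := by
  refine ⟨fun x => ?_, fun x => ?_⟩
  · rw [lin_eq_sum, Finsupp.sum]
    refine Finset.sum_eq_zero fun i _ => ?_
    by_cases hi : i < p.n
    · rw [h.1 x i hi, zero_smul]
    · rw [p.hS i (not_lt.mp hi), smul_zero]
  · rw [lin_eq_sum, Finsupp.sum]
    refine Finset.sum_eq_zero fun i _ => ?_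
    by_cases hi : i < p.n
    · rw [h.2 i hi, smul_zero]
    · rw [p.hE x i (not_lt.mp hi), zero_smul]

/-- the swap automorphism of two disjoint pairs for the same module -/
theorem FPair.push_eq_of_disj (p q : FPair R P) (h : p.Disj q) (α : P ≃ₗ[R] P) :
    (Abelianization.of (p.push α) : K1 R) = Abelianization.of (q.push α) := by
  -- the involution
  let s : (ℕ →₀ R) →ₗ[R] (ℕ →₀ R) := LinearMap.id - (p.E - q.E) ∘ₗ (p.S - q.S)
  have hs : ∀ v, s v = v - (p.E (p.S v - q.S v) - q.E (p.S v - q.S v)) := by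
    intro v; simp [s]
  have hp : ∀ v, p.S (s v) = q.S v := by
    intro v
    rw [hs]
    simp only [map_sub, p.hSE, h.1]
    abel
  have hq : ∀ v, q.S (s v) = p.S v := by
    intro v
    rw [hs]
    simp only [map_sub, q.hSE, h.2]
    abel
  have hss : ∀ v, s (s v) = v := by
    intro v
    rw [hs (s v), hp, hq, hs v]
    simp only [map_sub]
    abel
  let σ : (ℕ →₀ R) ≃ₗ[R] (ℕ →₀ R) := LinearEquiv.ofLinearMap s s
    (LinearMap.ext fun v => hss v) (LinearMap.ext fun v => hss v)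
  have hσ : σ ∈ St R := by
    refine ⟨max p.n q.n, fun v i hi => ?_, fun i hi => ?_⟩
    · change (s v - v) i = 0
      rw [hs]
      simp [p.hE _ i (le_trans (le_max_left _ _) hi), q.hE _ i (le_trans (le_max_right _ _) hi)]
    · change s (single i 1) - single i 1 = 0
      rw [hs]
      simp [p.hS i (le_trans (le_max_left _ _) hi), q.hS i (le_trans (le_max_right _ _) hi)]
  have key : (⟨σ, hσ⟩ : St R) * p.push α = q.push α * ⟨σ, hσ⟩ := by
    apply Subtype.ext
    apply LinearEquiv.ext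
    intro v
    change s ((p.push α : (ℕ →₀ R) ≃ₗ[R] (ℕ →₀ R)) v) =
      (q.push α : (ℕ →₀ R) ≃ₗ[R] (ℕ →₀ R)) (s v)
    rw [FPair.push_apply, FPair.push_apply, hq, hs v, map_add, hs v, hs (p.E _)]
    simp only [map_sub, p.hSE, h.2]
    abel
  have := congrArg (Abelianization.of : St R →* K1 R) key
  rw [map_mul, map_mul, mul_comm] at this
  exact mul_right_cancel this

theorem exists_above [Module.Free R P] [Module.Finite R P] (N : ℕ) :
    ∃ p : FPair R P, p.Above N := by
  classical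
  let b := Module.Free.chooseBasis R P
  let ι := Module.Free.ChooseBasisIndex R P
  let e : ι ≃ Fin (Fintype.card ι) := Fintype.equivFin ι
  let j : ι → ℕ := fun i => N + (e i : ℕ)
  have hj : Function.Injective j := by
    intro a c h
    have : (e a : ℕ) = e c := by simpa [j] using h
    exact e.injective (Fin.ext this)
  let E : P →ₗ[R] (ℕ →₀ R) := b.constr ℕ fun i => single (j i) 1
  let S : (ℕ →₀ R) →ₗ[R] P := ∑ i, (Finsupp.lapply (j i)).smulRight (b i)
  have hS : ∀ v, S v = ∑ i, v (j i) • b i := by intro v; simp [S]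
  have hE : ∀ x, E x = ∑ i, b.repr x i • single (j i) (1 : R) := by
    intro x
    simp [E, Module.Basis.constr_apply_fintype, Module.Basis.equivFun_apply]
  have hEa : ∀ x k, E x k = ∑ i, if j i = k then b.repr x i else 0 := by
    intro x k
    rw [hE, Finsupp.finsetSum_apply]
    refine Finset.sum_congr rfl fun i _ => ?_
    rw [smul_single, smul_eq_mul, mul_one, single_apply]
  refine ⟨⟨E, S, fun x => ?_, N + Fintype.card ι, fun x i hi => ?_, fun i hi => ?_⟩, ?_, ?_⟩
  · rw [hS]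
    have : ∀ i, E x (j i) = b.repr x i := by
      intro i
      rw [hEa]
      rw [Finset.sum_eq_single i]
      · simp
      · intro k _ hk
        rw [if_neg (fun h => hk (hj h))]
      · simp
    simp only [this]
    exact b.sum_repr x
  · rw [hEa]
    refine Finset.sum_eq_zero fun k _ => ?_
    rw [if_neg]
    have := (e k).isLt
    simp only [j]
    omega
  · rw [hS]
    refine Finset.sum_eq_zero fun k _ => ?_
    have := (e k).isLt
    rw [single_apply, if_neg, zero_smul]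
    simp only [j]
    omega
  · intro x i hi
    change E x i = 0
    rw [hEa]
    refine Finset.sum_eq_zero fun k _ => ?_
    rw [if_neg]
    simp only [j]
    omega
  · intro i hi
    change S (single i 1) = 0
    rw [hS]
    refine Finset.sum_eq_zero fun k _ => ?_
    rw [single_apply, if_neg, zero_smul]
    simp only [j]
    omega

theorem FPair.push_eq [Module.Free R P] [Module.Finite R P] (p q : FPair R P) (α : P ≃ₗ[R] P) :
    (Abelianization.of (p.push α) : K1 R) = Abelianization.of (q.push α) := by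
  obtain ⟨r, hr⟩ := exists_above (R := R) (P := P) (max p.n q.n)
  have h1 : r.Above p.n := ⟨fun x i hi => hr.1 x i (lt_of_lt_of_le hi (le_max_left _ _)),
    fun i hi => hr.2 i (lt_of_lt_of_le hi (le_max_left _ _))⟩
  have h2 : r.Above q.n := ⟨fun x i hi => hr.1 x i (lt_of_lt_of_le hi (le_max_right _ _)),
    fun i hi => hr.2 i (lt_of_lt_of_le hi (le_max_right _ _))⟩
  rw [p.push_eq_of_disj r (p.disj_of_above r h1), q.push_eq_of_disj r (q.disj_of_above r h2)]

end FPair

section cl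

variable {P : Type*} [AddCommGroup P] [Module R P] [Module.Free R P] [Module.Finite R P]
variable {Q : Type*} [AddCommGroup Q] [Module R Q] [Module.Free R Q] [Module.Finite R Q]

/-- The class in `K₁(R)` of an automorphism of a finitely generated free module. -/
noncomputable def cl : (P ≃ₗ[R] P) →* K1 R :=
  (Abelianization.of).comp (exists_above (R := R) (P := P) 0).choose.push

theorem cl_eq (p : FPair R P) (α : P ≃ₗ[R] P) : cl α = Abelianization.of (p.push α) :=
  FPair.push_eq _ _ _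

/-- invariance under isomorphism -/
theorem cl_conj (φ : P ≃ₗ[R] Q) (α : P ≃ₗ[R] P) (β : Q ≃ₗ[R] Q)
    (h : ∀ x, φ (α x) = β (φ x)) : cl α = cl β := by
  obtain ⟨p, -⟩ := exists_above (R := R) (P := P) 0
  let q : FPair R Q := ⟨p.E ∘ₗ φ.symm, φ ∘ₗ p.S, fun x => by simp [p.hSE], p.n,
    fun x i hi => p.hE _ i hi, fun i hi => by simp [p.hS i hi]⟩
  rw [cl_eq p, cl_eq q]
  congr 1
  apply Subtype.ext
  apply LinearEquiv.ext
  intro v
  rw [FPair.push_apply, FPair.push_apply]
  have : β (q.S v) - q.S v = φ (α (p.S v) - p.S v) := by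
    change β (φ (p.S v)) - φ (p.S v) = _
    rw [← h, map_sub]
  rw [this]
  change _ = v + p.E (φ.symm (φ _))
  simp

/-- `cl` of an element that factors as conjugation in `P` -/
theorem cl_conj_self (φ α : P ≃ₗ[R] P) : cl (φ * α * φ⁻¹) = cl α := by
  rw [map_mul, map_mul, map_inv, mul_comm (cl φ), mul_assoc, mul_inv_cancel, mul_one]

/-- block diagonal automorphisms -/
theorem cl_prod (α : P ≃ₗ[R] P) (β : Q ≃ₗ[R] Q) :
    cl (LinearEquiv.prodCongr α β : (P × Q) ≃ₗ[R] (P × Q)) = cl α * cl β := by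
  obtain ⟨p, -⟩ := exists_above (R := R) (P := P) 0
  obtain ⟨q, hq⟩ := exists_above (R := R) (P := Q) p.n
  have hd := p.disj_of_above q hq
  let r : FPair R (P × Q) := ⟨p.E.coprod q.E, p.S.prod q.S, fun x => by
      ext <;> simp [p.hSE, q.hSE, hd.1, hd.2], max p.n q.n,
    fun x i hi => by
      simp [p.hE _ i (le_trans (le_max_left _ _) hi), q.hE _ i (le_trans (le_max_right _ _) hi)],
    fun i hi => by
      simp [p.hS i (le_trans (le_max_left _ _) hi), q.hS i (le_trans (le_max_right _ _) hi)]⟩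
  rw [cl_eq p, cl_eq q, cl_eq r, ← map_mul]
  congr 1
  apply Subtype.ext
  apply LinearEquiv.ext
  intro v
  change (r.push _ : (ℕ →₀ R) ≃ₗ[R] (ℕ →₀ R)) v =
    (p.push α : (ℕ →₀ R) ≃ₗ[R] (ℕ →₀ R)) ((q.push β : (ℕ →₀ R) ≃ₗ[R] (ℕ →₀ R)) v)
  rw [FPair.push_apply, FPair.push_apply, FPair.push_apply]
  have e1 : p.S (v + q.E (β (q.S v) - q.S v)) = p.S v := by
    rw [map_add, hd.1, add_zero]
  rw [e1]
  change v + (p.E.coprod q.E) ((LinearEquiv.prodCongr α β) (p.S v, q.S v) - (p.S v, q.S v)) = _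
  simp only [LinearEquiv.prodCongr_apply, map_sub, LinearMap.coprod_apply]
  abel

/-- the unipotent automorphism `(x, y) ↦ (x + γ y, y)`. -/
def uni (γ : Q →ₗ[R] P) : (P × Q) ≃ₗ[R] (P × Q) :=
  LinearEquiv.ofLinearMap
    ((LinearMap.fst R P Q + γ ∘ₗ LinearMap.snd R P Q).prod (LinearMap.snd R P Q))
    ((LinearMap.fst R P Q - γ ∘ₗ LinearMap.snd R P Q).prod (LinearMap.snd R P Q))
    (by ext <;> simp) (by ext <;> simp)

omit [Module.Free R P] [Module.Finite R P] [Module.Free R Q] [Module.Finite R Q] in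
@[simp] theorem uni_apply (γ : Q →ₗ[R] P) (x : P × Q) : uni γ x = (x.1 + γ x.2, x.2) := rfl

omit [Module.Free R P] [Module.Finite R P] [Module.Free R Q] [Module.Finite R Q] in
@[simp] theorem uni_inv_apply (γ : Q →ₗ[R] P) (x : P × Q) :
    (uni γ)⁻¹ x = (x.1 - γ x.2, x.2) := rfl

theorem cl_one : cl (1 : P ≃ₗ[R] P) = 1 := map_one _

theorem cl_refl : cl (LinearEquiv.refl R P) = 1 := map_one _

theorem cl_uni (γ : Q →ₗ[R] P) : cl (uni γ) = 1 := by
  -- work in (P × Q) × Q
  have h1 : cl (uni γ) = cl (LinearEquiv.prodCongr (uni γ) (LinearEquiv.refl R Q)) := by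
    rw [cl_prod, cl_refl, mul_one]
  rw [h1]
  -- A : ((x,y),z) ↦ ((x + γ z, y), z);  B : ((x,y),z) ↦ ((x,y), z + y)
  let A : ((P × Q) × Q) ≃ₗ[R] ((P × Q) × Q) :=
    uni ((LinearMap.inl R P Q) ∘ₗ γ)
  let B : ((P × Q) × Q) ≃ₗ[R] ((P × Q) × Q) :=
    LinearEquiv.ofLinearMap
      ((LinearMap.fst R (P × Q) Q).prod (LinearMap.snd R (P × Q) Q +
        LinearMap.snd R P Q ∘ₗ LinearMap.fst R (P × Q) Q))
      ((LinearMap.fst R (P × Q) Q).prod (LinearMap.snd R (P × Q) Q -
        LinearMap.snd R P Q ∘ₗ LinearMap.fst R (P × Q) Q))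
      (by apply LinearMap.ext; intro x; simp) (by apply LinearMap.ext; intro x; simp)
  have hB : ∀ x, B x = (x.1, x.2 + x.1.2) := fun x => rfl
  have hBi : ∀ x, B⁻¹ x = (x.1, x.2 - x.1.2) := fun x => rfl
  have hA : ∀ x, A x = ((x.1.1 + γ x.2, x.1.2), x.2) := by
    intro x; simp [A, Prod.ext_iff]
  have hAi : ∀ x, A⁻¹ x = ((x.1.1 - γ x.2, x.1.2), x.2) := by
    intro x; simp [A, Prod.ext_iff]
  have key : LinearEquiv.prodCongr (uni γ) (LinearEquiv.refl R Q) = A * B * A⁻¹ * B⁻¹ := by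
    apply LinearEquiv.ext
    intro x
    change LinearEquiv.prodCongr (uni γ) (LinearEquiv.refl R Q) x = A (B (A⁻¹ (B⁻¹ x)))
    rw [hBi, hAi, hB, hA]
    simp
    abel
  rw [key, map_mul, map_mul, map_mul, map_inv, map_inv, mul_comm (cl A), mul_assoc (cl B),
    mul_inv_cancel, mul_one, mul_inv_cancel]

/-- block triangular automorphisms -/
theorem cl_triang (f : (P × Q) ≃ₗ[R] (P × Q)) (α : P ≃ₗ[R] P) (β : Q ≃ₗ[R] Q)
    (hα : ∀ x : P, f (x, 0) = (α x, 0)) (hβ : ∀ x : P × Q, (f x).2 = β x.2) :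
    cl f = cl α * cl β := by
  rw [← cl_prod, ← mul_one (cl (LinearEquiv.prodCongr α β))]
  let γ : Q →ₗ[R] P := α.symm.toLinearMap ∘ₗ LinearMap.fst R P Q ∘ₗ f.toLinearMap ∘ₗ
    LinearMap.inr R P Q
  rw [← cl_uni γ, ← map_mul]
  congr 1
  apply LinearEquiv.ext
  intro x
  change f x = LinearEquiv.prodCongr α β (uni γ x)
  have hx : x = (x.1, 0) + (0, x.2) := by ext <;> simp
  have e1 : f x = (α x.1, 0) + f (0, x.2) := by
    conv_lhs => rw [hx, map_add, hα]
  rw [e1]
  have e2 : (f (0, x.2)).2 = β x.2 := hβ (0, x.2)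
  ext
  · simp [γ]
  · simp [e2]

end cl

end Pool.Wh
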