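import Mathlib
import Pool.Agent.Lib_helper55.WhK1

/-!
# `K₁`, part 2: Sylvester's identity, matrices, functoriality
-/

set_option autoImplicit false

open Finsupp
open scoped Matrix

namespace Pool.Wh

variable {R : Type*} [Ring R]

section sylvester

variable {P : Type*} [AddCommGroup P] [Module R P] [Module.Free R P] [Module.Finite R P]
variable {Q : Type*} [AddCommGroup Q] [Module R Q] [Module.Free R Q] [Module.Finite R Q]

/-- the lower unipotent automorphism `(x, y) ↦ (x, y + b x)`. -/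
def low (b : P →ₗ[R] Q) : (P × Q) ≃ₗ[R] (P × Q) :=
  LinearEquiv.ofLinearMap
    ((LinearMap.fst R P Q).prod (LinearMap.snd R P Q + b ∘ₗ LinearMap.fst R P Q))
    ((LinearMap.fst R P Q).prod (LinearMap.snd R P Q - b ∘ₗ LinearMap.fst R P Q))
    (by ext <;> simp) (by ext <;> simp)

omit [Module.Free R P] [Module.Finite R P] [Module.Free R Q] [Module.Finite R Q] in
@[simp] theorem low_apply (b : P →ₗ[R] Q) (x : P × Q) : low b x = (x.1, x.2 + b x.1) := rfl

theorem cl_low (b : P →ₗ[R] Q) : cl (low b) = 1 := by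
  rw [← cl_uni b]
  refine cl_conj (LinearEquiv.prodComm R P Q) (low b) (uni b) fun x => ?_
  simp

/-- Sylvester's identity `[1 + ab] = [1 + ba]` in `K₁`. -/
theorem cl_sylvester (a : Q →ₗ[R] P) (b : P →ₗ[R] Q) (α : P ≃ₗ[R] P) (β : Q ≃ₗ[R] Q)
    (hα : ∀ x, α x = x + a (b x)) (hβ : ∀ y, β y = y + b (a y)) : cl α = cl β := by
  -- `U = [[1, a], [-b, 1]]`
  have h1 : cl ((uni a : (P × Q) ≃ₗ[R] (P × Q)) *
      LinearEquiv.prodCongr α (LinearEquiv.refl R Q) * low (-b)) = cl α := by
    rw [map_mul, map_mul, cl_uni, cl_low, cl_prod, cl_refl]; simp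
  have h2 : cl (low (-b) * (LinearEquiv.prodCongr (LinearEquiv.refl R P) β *
      uni a)) = cl β := by
    rw [map_mul, map_mul, cl_uni, cl_low, cl_prod, cl_refl]; simp
  rw [← h1, ← h2]
  congr 1
  apply LinearEquiv.ext
  intro x
  change uni a (LinearEquiv.prodCongr α (LinearEquiv.refl R Q) (low (-b) x)) =
    low (-b) (LinearEquiv.prodCongr (LinearEquiv.refl R P) β (uni a x))
  simp [hα, hβ]
  abel

/-- If `1 + ab` is invertible then so is `1 + ba`. -/
noncomputable def sylEquiv (a : Q →ₗ[R] P) (b : P →ₗ[R] Q) (α : P ≃ₗ[R] P)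
    (hα : ∀ x, α x = x + a (b x)) : Q ≃ₗ[R] Q :=
  LinearEquiv.ofLinearMap (LinearMap.id + b ∘ₗ a) (LinearMap.id - b ∘ₗ α.symm.toLinearMap ∘ₗ a)
    (by
      apply LinearMap.ext
      intro y
      have h : ∀ z, α.symm (z + a (b z)) = z := fun z => by rw [← hα, α.symm_apply_apply]
      have h1 : α (α.symm (a y)) = a y := α.apply_symm_apply _
      have h2 := hα (α.symm (a y))
      rw [h1] at h2
      have h3 := congrArg b h2
      simp only [map_add] at h3
      simp only [LinearMap.comp_apply, LinearMap.add_apply, LinearMap.id_apply,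
        LinearMap.sub_apply, map_sub, LinearEquiv.coe_coe]
      rw [h3]
      abel)
    (by
      apply LinearMap.ext
      intro y
      have h : ∀ z, α.symm (z + a (b z)) = z := fun z => by rw [← hα, α.symm_apply_apply]
      simp only [LinearMap.comp_apply, LinearMap.add_apply, LinearMap.id_apply,
        LinearMap.sub_apply, map_add, LinearEquiv.coe_coe]
      have h2 := congrArg b (h (a y))
      simp only [map_add] at h2
      generalize b (α.symm (a y)) = A at h2 ⊢
      generalize b (α.symm (a (b (a y)))) = B at h2 ⊢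
      rw [← h2]
      abel)

omit [Module.Free R P] [Module.Finite R P] [Module.Free R Q] [Module.Finite R Q] in
@[simp] theorem sylEquiv_apply (a : Q →ₗ[R] P) (b : P →ₗ[R] Q) (α : P ≃ₗ[R] P)
    (hα : ∀ x, α x = x + a (b x)) (y : Q) : sylEquiv a b α hα y = y + b (a y) := rfl

end sylvester

section matrices

variable {ι κ : Type*} [Fintype ι] [DecidableEq ι] [Fintype κ] [DecidableEq κ]

/-- The automorphism `v ↦ v ᵥ* M` of the left module `ι → R`. -/
def vmE (M : (Matrix ι ι R)ˣ) : (ι → R) ≃ₗ[R] (ι → R) :=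
  LinearEquiv.ofLinearMap (M : Matrix ι ι R).vecMulLinear
    ((M⁻¹ : (Matrix ι ι R)ˣ) : Matrix ι ι R).vecMulLinear
    (by
      apply LinearMap.ext
      intro v
      simp [Matrix.vecMul_vecMul])
    (by
      apply LinearMap.ext
      intro v
      simp [Matrix.vecMul_vecMul])

@[simp] theorem vmE_apply (M : (Matrix ι ι R)ˣ) (v : ι → R) :
    vmE M v = v ᵥ* (M : Matrix ι ι R) := rfl

theorem vmE_mul (M N : (Matrix ι ι R)ˣ) : vmE (M * N) = vmE N * vmE M := by
  apply LinearEquiv.ext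
  intro v
  change v ᵥ* (M.val * N.val) = (v ᵥ* M.val) ᵥ* N.val
  rw [Matrix.vecMul_vecMul]

theorem vmE_one : vmE (1 : (Matrix ι ι R)ˣ) = 1 := by
  apply LinearEquiv.ext
  intro v
  simp

/-- The class in `K₁` of an invertible matrix. -/
noncomputable def clM : (Matrix ι ι R)ˣ →* K1 R where
  toFun M := cl (vmE M)
  map_one' := by rw [vmE_one, map_one]
  map_mul' M N := by rw [vmE_mul, map_mul, mul_comm]

theorem clM_eq (M : (Matrix ι ι R)ˣ) : clM M = cl (vmE M) := rfl

/-- every automorphism of `ι → R` is given by an invertible matrix -/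
theorem exists_vmE (α : (ι → R) ≃ₗ[R] (ι → R)) : ∃ M : (Matrix ι ι R)ˣ, vmE M = α := by
  have h1 : LinearMap.toMatrixRight' (α.symm : (ι → R) →ₗ[R] (ι → R)) *
      LinearMap.toMatrixRight' (α : (ι → R) →ₗ[R] (ι → R)) = 1 := by
    rw [← LinearMap.toMatrixRight'_comp]
    simp
  have h2 : LinearMap.toMatrixRight' (α : (ι → R) →ₗ[R] (ι → R)) *
      LinearMap.toMatrixRight' (α.symm : (ι → R) →ₗ[R] (ι → R)) = 1 := by
    rw [← LinearMap.toMatrixRight'_comp]
    simp
  refine ⟨⟨_, _, h2, h1⟩, ?_⟩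
  apply LinearEquiv.ext
  intro v
  change (LinearMap.toMatrixRight'.symm (LinearMap.toMatrixRight' (α : (ι → R) →ₗ[R] (ι → R)))) v
    = α v
  rw [LinearEquiv.symm_apply_apply]
  rfl

/-- invariance under reindexing -/
theorem clM_reindex (e : ι ≃ κ) (M : (Matrix ι ι R)ˣ) (N : (Matrix κ κ R)ˣ)
    (h : (N : Matrix κ κ R) = (M : Matrix ι ι R).submatrix e.symm e.symm) : clM N = clM M := by
  symm
  refine cl_conj (LinearEquiv.funCongrLeft R R e.symm) (vmE M) (vmE N) fun v => ?_
  ext j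
  simp only [LinearEquiv.funCongrLeft_apply, LinearMap.funLeft_apply, vmE_apply, h]
  simp only [Matrix.vecMul, dotProduct, Matrix.submatrix_apply, LinearMap.funLeft_apply]
  exact Fintype.sum_equiv e _ _ fun i => by simp

theorem clM_conj (P : (Matrix ι ι R)ˣ) (M : (Matrix ι ι R)ˣ) : clM (P * M * P⁻¹) = clM M := by
  rw [map_mul, map_mul, map_inv, mul_comm (clM P), mul_assoc, mul_inv_cancel, mul_one]

/-- block triangular matrices -/
theorem clM_blocks (M : (Matrix (ι ⊕ κ) (ι ⊕ κ) R)ˣ) (A : (Matrix ι ι R)ˣ) (D : (Matrix κ κ R)ˣ)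
    (B : Matrix ι κ R)
    (h : (M : Matrix (ι ⊕ κ) (ι ⊕ κ) R) = Matrix.fromBlocks A.val B 0 D.val) :
    clM M = clM A * clM D := by
  have key : clM M = cl (LinearEquiv.prodCongr (vmE A) (vmE D) * low
      ((D⁻¹ : (Matrix κ κ R)ˣ).val.vecMulLinear ∘ₗ B.vecMulLinear)) := by
    refine cl_conj (LinearEquiv.sumArrowLequivProdArrow ι κ R R) (vmE M) _ fun v => ?_
    rw [LinearEquiv.mul_apply, low_apply]
    ext i
    · simp [Matrix.vecMul, dotProduct, h]
    · simp only [LinearEquiv.prodCongr_apply, map_add]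
      simp only [vmE_apply, LinearMap.comp_apply, Matrix.vecMulLinear_apply,
        Matrix.vecMul_vecMul, Matrix.mul_assoc, Units.inv_mul, Matrix.mul_one]
      simp [Matrix.vecMul, dotProduct, h, add_comm]
  rw [key, map_mul, cl_prod, cl_low, mul_one]
  rfl

theorem clM_blocks_low (M : (Matrix (ι ⊕ κ) (ι ⊕ κ) R)ˣ) (A : (Matrix ι ι R)ˣ)
    (D : (Matrix κ κ R)ˣ) (B : Matrix κ ι R)
    (h : (M : Matrix (ι ⊕ κ) (ι ⊕ κ) R) = Matrix.fromBlocks A.val 0 B D.val) :
    clM M = clM A * clM D := by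
  have key : clM M = cl (LinearEquiv.prodCongr (vmE A) (vmE D) * uni
      ((A⁻¹ : (Matrix ι ι R)ˣ).val.vecMulLinear ∘ₗ B.vecMulLinear)) := by
    refine cl_conj (LinearEquiv.sumArrowLequivProdArrow ι κ R R) (vmE M) _ fun v => ?_
    rw [LinearEquiv.mul_apply, uni_apply]
    ext i
    · simp only [LinearEquiv.prodCongr_apply, map_add]
      simp only [vmE_apply, LinearMap.comp_apply, Matrix.vecMulLinear_apply,
        Matrix.vecMul_vecMul, Matrix.mul_assoc, Units.inv_mul, Matrix.mul_one]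
      simp [Matrix.vecMul, dotProduct, h]
    · simp [Matrix.vecMul, dotProduct, h]
  rw [key, map_mul, cl_prod, cl_uni, mul_one]
  rfl

end matrices

end Pool.Wh
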