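import Mathlib
import Pool.Agent.Lib_helper55.WhK1b

/-!
# `K₁`, part 3: surjectivity from matrices, functoriality
-/

set_option autoImplicit false
set_option linter.unusedSectionVars false

open Finsupp
open scoped Matrix

namespace Pool.Wh

variable {R : Type*} [Ring R] {S : Type*} [Ring S]

section std

variable {ι : Type*} [Fintype ι] [DecidableEq ι]

/-- The standard pair attached to an injection `ι → ℕ`. -/
noncomputable def FPair.std (R : Type*) [Ring R] (j : ι → ℕ) (hj : Function.Injective j) :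
    FPair R (ι → R) where
  E := ∑ i, (Finsupp.lsingle (j i)) ∘ₗ (LinearMap.proj i)
  S := LinearMap.pi fun i => Finsupp.lapply (j i)
  hSE x := by
    ext i
    simp only [LinearMap.coe_sum, Finset.sum_apply, LinearMap.comp_apply, LinearMap.proj_apply,
      lsingle_apply, LinearMap.pi_apply, lapply_apply, Finsupp.finsetSum_apply]
    rw [Finset.sum_eq_single i]
    · simp
    · intro k _ hk
      rw [single_apply, if_neg (fun h => hk (hj h))]
    · simp
  n := (Finset.univ.sup j) + 1
  hE x i hi := by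
    simp only [LinearMap.coe_sum, Finset.sum_apply, LinearMap.comp_apply, LinearMap.proj_apply,
      lsingle_apply, Finsupp.finsetSum_apply]
    refine Finset.sum_eq_zero fun k _ => ?_
    rw [single_apply, if_neg]
    have : j k ≤ Finset.univ.sup j := Finset.le_sup (Finset.mem_univ k)
    omega
  hS i hi := by
    ext k
    simp only [LinearMap.pi_apply, lapply_apply, Pi.zero_apply]
    rw [single_apply, if_neg]
    have : j k ≤ Finset.univ.sup j := Finset.le_sup (Finset.mem_univ k)
    omega

theorem FPair.std_E (j : ι → ℕ) (hj : Function.Injective j) (x : ι → R) :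
    (FPair.std R j hj).E x = ∑ i, single (j i) (x i) := by
  simp [FPair.std]

theorem FPair.std_S (j : ι → ℕ) (hj : Function.Injective j) (v : ℕ →₀ R) (i : ι) :
    (FPair.std R j hj).S v i = v (j i) := by
  simp [FPair.std]

theorem FPair.std_E_single (j : ι → ℕ) (hj : Function.Injective j) (i : ι) (r : R) :
    (FPair.std R j hj).E (Pi.single i r) = single (j i) r := by
  rw [FPair.std_E, Finset.sum_eq_single i]
  · simp
  · intro k _ hk
    simp [Pi.single_eq_of_ne hk]
  · simp

theorem FPair.std_E_apply (j : ι → ℕ) (hj : Function.Injective j) (x : ι → R) (i : ι) :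
    (FPair.std R j hj).E x (j i) = x i := by
  have := congrFun ((FPair.std R j hj).hSE x) i
  rwa [FPair.std_S] at this

end std

/-- every element of `K₁` is the class of an invertible matrix of any large size. -/
theorem exists_clM (x : K1 R) : ∃ n : ℕ, ∀ m ≥ n, ∃ M : (Matrix (Fin m) (Fin m) R)ˣ,
    clM M = x := by
  obtain ⟨φ, rfl⟩ := QuotientGroup.mk_surjective x
  obtain ⟨n, h1, h2⟩ := φ.2
  refine ⟨n, fun m hm => ?_⟩
  have h1' : ∀ v, ∀ i ≥ m, (φ : (ℕ →₀ R) ≃ₗ[R] (ℕ →₀ R)) v i = v i := by
    intro v i hi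
    have := h1 v i (le_trans hm hi)
    simpa [sub_eq_zero] using this
  have h2' : ∀ i ≥ m, (φ : (ℕ →₀ R) ≃ₗ[R] (ℕ →₀ R)) (single i 1) = single i 1 := by
    intro i hi
    have := h2 i (le_trans hm hi)
    simpa [sub_eq_zero] using this
  let p : FPair R (Fin m → R) := FPair.std R (fun i : Fin m => (i : ℕ)) Fin.val_injective
  -- `E S v = v` for `v` supported in `[0, m)`
  have hES : ∀ v : ℕ →₀ R, (∀ i ≥ m, v i = 0) → p.E (p.S v) = v := by
    intro v hv
    ext k
    by_cases hk : k < m
    · have := FPair.std_E_apply (R := R) (fun i : Fin m => (i : ℕ)) Fin.val_injective (p.S v)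
        ⟨k, hk⟩
      change p.E (p.S v) k = _ at this
      rw [this]
      exact FPair.std_S _ _ _ _
    · rw [hv k (not_lt.mp hk)]
      change (FPair.std R (fun i : Fin m => (i : ℕ)) Fin.val_injective).E (p.S v) k = 0
      rw [FPair.std_E, Finsupp.finsetSum_apply]
      refine Finset.sum_eq_zero fun i _ => ?_
      rw [single_apply, if_neg]
      have := i.isLt
      omega
  have hE0 : ∀ x, ∀ i ≥ m, p.E x i = 0 := by
    intro x i hi
    change (FPair.std R (fun i : Fin m => (i : ℕ)) Fin.val_injective).E x i = 0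
    rw [FPair.std_E, Finsupp.finsetSum_apply]
    refine Finset.sum_eq_zero fun k _ => ?_
    rw [single_apply, if_neg]
    have := k.isLt
    omega
  have hinv : ∀ v, ∀ i ≥ m, (φ : (ℕ →₀ R) ≃ₗ[R] (ℕ →₀ R)).symm v i = v i := by
    intro v i hi
    have := h1' ((φ : (ℕ →₀ R) ≃ₗ[R] (ℕ →₀ R)).symm v) i hi
    rw [LinearEquiv.apply_symm_apply] at this
    exact this.symm
  let α : (Fin m → R) ≃ₗ[R] (Fin m → R) := LinearEquiv.ofLinearMap
    (p.S ∘ₗ (φ : (ℕ →₀ R) ≃ₗ[R] (ℕ →₀ R)).toLinearMap ∘ₗ p.E)
    (p.S ∘ₗ (φ : (ℕ →₀ R) ≃ₗ[R] (ℕ →₀ R)).symm.toLinearMap ∘ₗ p.E)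
    (by
      apply LinearMap.ext
      intro x
      simp only [LinearMap.comp_apply, LinearEquiv.coe_coe, LinearMap.id_apply]
      rw [hES _ (fun i hi => by rw [hinv _ i hi, hE0 _ i hi]), LinearEquiv.apply_symm_apply,
        p.hSE])
    (by
      apply LinearMap.ext
      intro x
      simp only [LinearMap.comp_apply, LinearEquiv.coe_coe, LinearMap.id_apply]
      rw [hES _ (fun i hi => by rw [h1' _ i hi, hE0 _ i hi]), LinearEquiv.symm_apply_apply,
        p.hSE])
  obtain ⟨M, hM⟩ := exists_vmE α
  refine ⟨M, ?_⟩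
  rw [clM_eq, hM, cl_eq p]
  change Abelianization.of (p.push α) = Abelianization.of φ
  congr 1
  apply Subtype.ext
  apply LinearEquiv.toLinearMap_injective
  apply Finsupp.lhom_ext'
  intro i
  apply LinearMap.ext_ring
  change (p.push α : (ℕ →₀ R) ≃ₗ[R] (ℕ →₀ R)) (single i 1) =
    (φ : (ℕ →₀ R) ≃ₗ[R] (ℕ →₀ R)) (single i 1)
  rw [FPair.push_apply]
  by_cases hi : i < m
  · have e1 : p.E (p.S (single i 1)) = (single i 1 : ℕ →₀ R) := by
      apply hES
      intro k hk
      rw [single_apply, if_neg]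
      omega
    have e2 : α (p.S (single i 1)) = p.S ((φ : (ℕ →₀ R) ≃ₗ[R] (ℕ →₀ R)) (single i 1)) := by
      change p.S ((φ : (ℕ →₀ R) ≃ₗ[R] (ℕ →₀ R)) (p.E (p.S (single i 1)))) = _
      rw [e1]
    rw [e2, map_sub, hES _ (fun k hk => ?_), e1]
    · abel
    · rw [h1' _ k hk, single_apply, if_neg]
      omega
  · rw [h2' i (not_lt.mp hi)]
    have : p.S (single i 1) = 0 := by
      ext k
      change (FPair.std R (fun i : Fin m => (i : ℕ)) Fin.val_injective).S _ k = 0
      rw [FPair.std_S, single_apply, if_neg]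
      have := k.isLt
      omega
    rw [this]
    simp

section functoriality

variable (f : R →+* S)

/-- base change of finitary endomorphisms -/
noncomputable def bc (φ : (ℕ →₀ R) →ₗ[R] (ℕ →₀ R)) : (ℕ →₀ S) →ₗ[S] (ℕ →₀ S) :=
  Finsupp.linearCombination S fun i => mapRange f (map_zero f) (φ (single i 1))

theorem bc_mapRange (φ : (ℕ →₀ R) →ₗ[R] (ℕ →₀ R)) (v : ℕ →₀ R) :
    bc f φ (mapRange f (map_zero f) v) = mapRange f (map_zero f) (φ v) := by
  induction v using Finsupp.induction_linear with
  | zero => simp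
  | add x y hx hy =>
    rw [mapRange_add (map_add f), map_add, map_add, mapRange_add (map_add f), hx, hy]
  | single i r =>
    rw [mapRange_single, bc, linearCombination_single]
    have : (single i r : ℕ →₀ R) = r • single i 1 := by
      rw [smul_single, smul_eq_mul, mul_one]
    rw [this, map_smul]
    ext k
    simp

theorem bc_comp (φ ψ : (ℕ →₀ R) →ₗ[R] (ℕ →₀ R)) : bc f (φ ∘ₗ ψ) = bc f φ ∘ₗ bc f ψ := by
  apply Finsupp.lhom_ext'
  intro i
  apply LinearMap.ext_ring
  have h : ∀ χ : (ℕ →₀ R) →ₗ[R] (ℕ →₀ R), bc f χ (single i 1) =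
      mapRange f (map_zero f) (χ (single i 1)) := by
    intro χ
    rw [bc, linearCombination_single, one_smul]
  simp only [LinearMap.comp_apply, lsingle_apply]
  rw [h, h, bc_mapRange]
  rfl

theorem bc_id : bc f (LinearMap.id : (ℕ →₀ R) →ₗ[R] (ℕ →₀ R)) = LinearMap.id := by
  apply Finsupp.lhom_ext'
  intro i
  apply LinearMap.ext_ring
  simp [bc]

/-- base change on the stable general linear group -/
noncomputable def StMap : St R →* St S where
  toFun φ := ⟨LinearEquiv.ofLinearMap (bc f (φ.1 : (ℕ →₀ R) →ₗ[R] (ℕ →₀ R)))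
    (bc f (φ.1.symm : (ℕ →₀ R) →ₗ[R] (ℕ →₀ R)))
    (by rw [← bc_comp]; simp [bc_id]) (by rw [← bc_comp]; simp [bc_id]), by
      obtain ⟨n, h1, h2⟩ := φ.2
      have h1' : ∀ v, ∀ i ≥ n, (φ : (ℕ →₀ R) ≃ₗ[R] (ℕ →₀ R)) v i = v i := by
        intro v i hi
        have := h1 v i hi
        simpa [sub_eq_zero] using this
      have h2' : ∀ i ≥ n, (φ : (ℕ →₀ R) ≃ₗ[R] (ℕ →₀ R)) (single i 1) = single i 1 := by
        intro i hi
        have := h2 i hi
        simpa [sub_eq_zero] using this
      refine ⟨n, fun v i hi => ?_, fun i hi => ?_⟩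
      · change (bc f (φ.1 : (ℕ →₀ R) →ₗ[R] (ℕ →₀ R)) v - v) i = 0
        rw [Finsupp.sub_apply, sub_eq_zero]
        induction v using Finsupp.induction_linear with
        | zero => simp
        | add x y hx hy => rw [map_add, Finsupp.add_apply, Finsupp.add_apply, hx, hy]
        | single k s =>
          rw [bc, linearCombination_single, Finsupp.smul_apply, mapRange_apply]
          change s • f (φ.1 (single k 1) i) = _
          rw [h1' _ i hi]
          by_cases hk : k = i
          · subst hk; simp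
          · rw [single_apply, single_apply, if_neg hk, if_neg hk]; simp
      · change bc f (φ.1 : (ℕ →₀ R) →ₗ[R] (ℕ →₀ R)) (single i 1) - single i 1 = 0
        rw [bc, linearCombination_single]
        change (1 : S) • mapRange f (map_zero f) (φ.1 (single i 1)) - _ = 0
        rw [h2' i hi]
        simp⟩
  map_one' := by
    apply Subtype.ext
    apply LinearEquiv.toLinearMap_injective
    change bc f LinearMap.id = LinearMap.id
    exact bc_id f
  map_mul' φ ψ := by
    apply Subtype.ext
    apply LinearEquiv.toLinearMap_injective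
    change bc f ((φ.1 : (ℕ →₀ R) →ₗ[R] (ℕ →₀ R)) ∘ₗ (ψ.1 : (ℕ →₀ R) →ₗ[R] (ℕ →₀ R))) = _
    rw [bc_comp]
    rfl

/-- functoriality of `K₁` -/
noncomputable def K1map : K1 R →* K1 S := Abelianization.map (StMap f)

theorem K1map_clM {ι : Type*} [Fintype ι] [DecidableEq ι] (M : (Matrix ι ι R)ˣ) :
    K1map f (clM M) = clM (Units.map (f.mapMatrix (m := ι)).toMonoidHom M) := by
  let e : ι ≃ Fin (Fintype.card ι) := Fintype.equivFin ι
  let j : ι → ℕ := fun i => (e i : ℕ)
  have hj : Function.Injective j := fun a c h => e.injective (Fin.ext h)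
  let p := FPair.std R j hj
  let q := FPair.std S j hj
  rw [clM_eq, clM_eq, cl_eq p, cl_eq q]
  change Abelianization.of (StMap f (p.push (vmE M))) = _
  congr 1
  apply Subtype.ext
  apply LinearEquiv.toLinearMap_injective
  apply Finsupp.lhom_ext'
  intro k
  apply LinearMap.ext_ring
  change bc f ((p.push (vmE M)).1 : (ℕ →₀ R) →ₗ[R] (ℕ →₀ R)) (single k 1) =
    (q.push _ : (ℕ →₀ S) ≃ₗ[S] (ℕ →₀ S)) (single k 1)
  rw [bc, linearCombination_single, one_smul, FPair.push_apply]
  change mapRange f (map_zero f) ((p.push (vmE M)).1 (single k 1)) = _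
  rw [FPair.push_apply, mapRange_add (map_add f)]
  have h1 : mapRange f (map_zero f) (single k (1 : R)) = single k (1 : S) := by simp
  rw [h1]
  congr 1
  have h2 : ∀ x : ι → R, mapRange f (map_zero f) (p.E x) = q.E (fun i => f (x i)) := by
    intro x
    rw [FPair.std_E, FPair.std_E]
    ext m
    simp only [mapRange_apply, Finsupp.finsetSum_apply, map_sum, single_apply]
    refine Finset.sum_congr rfl fun i _ => ?_
    split_ifs <;> simp
  rw [h2]
  congr 1
  have h3 : ∀ i, f (p.S (single k 1) i) = q.S (single k 1) i := by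
    intro i
    rw [FPair.std_S, FPair.std_S, single_apply, single_apply]
    split_ifs <;> simp
  ext i
  simp only [Pi.sub_apply, map_sub, h3, vmE_apply]
  congr 1
  simp only [Matrix.vecMul, dotProduct, map_sum, map_mul, h3]
  rfl

end functoriality

end Pool.Wh
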