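import Mathlib
import Pool.Agent.Lib_helper97.Perm.Stable

/-!
# Group rings of finite groups: augmentation, norm element, passage to `ℚ[G]`
-/

set_option autoImplicit false
set_option linter.unusedSectionVars false

open scoped Matrix

namespace Pool.Wh

universe u

/-- the augmentation of a group ring -/
noncomputable def aug (k : Type*) [CommRing k] (G : Type*) [Group G] :
    MonoidAlgebra k G →ₐ[k] k := MonoidAlgebra.lift k k G 1

/-- the norm element `Σ g` -/
noncomputable def nrm (k : Type*) [CommRing k] (G : Type*) [Group G] [Fintype G] :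
    MonoidAlgebra k G := ∑ g : G, MonoidAlgebra.single g 1

section basics

variable {k : Type*} [CommRing k] {G : Type*} [Group G] [Fintype G]

@[simp] theorem aug_single (g : G) (r : k) : aug k G (MonoidAlgebra.single g r) = r := by
  simp [aug]

theorem single_mul_nrm (g : G) (r : k) :
    MonoidAlgebra.single g r * nrm k G = r • nrm k G := by
  rw [nrm, Finset.mul_sum, Finset.smul_sum]
  refine Fintype.sum_equiv (Equiv.mulLeft g) _ _ fun h => ?_
  simp [MonoidAlgebra.single_mul_single]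

theorem mul_nrm (y : MonoidAlgebra k G) : y * nrm k G = aug k G y • nrm k G := by
  induction y using MonoidAlgebra.induction_linear with
  | zero => simp
  | add x y hx hy => rw [add_mul, hx, hy, map_add, add_smul]
  | single g r => rw [single_mul_nrm, aug_single]

theorem aug_nrm : aug k G (nrm k G) = Fintype.card G := by
  rw [nrm, map_sum]
  simp

/-- the element `|G| - Σ g`. -/
noncomputable def aEl (k : Type*) [CommRing k] (G : Type*) [Group G] [Fintype G] :
    MonoidAlgebra k G := (Fintype.card G : MonoidAlgebra k G) - nrm k G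

theorem aug_aEl : aug k G (aEl k G) = 0 := by
  rw [aEl, map_sub, aug_nrm, map_natCast, sub_self]

theorem mul_aEl_of_aug {y : MonoidAlgebra k G} (hy : aug k G y = 0) :
    y * aEl k G = y * (Fintype.card G : MonoidAlgebra k G) := by
  rw [aEl, mul_sub, mul_nrm, hy, zero_smul, sub_zero]

end basics

section rationalization

variable (G : Type u) [Group G]

/-- the inclusion `ℤ[G] → ℚ[G]` -/
noncomputable def toQ : MonoidAlgebra ℤ G →+* MonoidAlgebra ℚ G :=
  MonoidAlgebra.mapRingHom G (Int.castRingHom ℚ)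

variable {G}

theorem toQ_coeff (x : MonoidAlgebra ℤ G) (g : G) : (toQ G x).coeff g = (x.coeff g : ℚ) := by
  simp [toQ]

theorem toQ_injective : Function.Injective (toQ G) := by
  intro x y h
  apply MonoidAlgebra.coeff_injective
  ext g
  have := congrArg (fun z => MonoidAlgebra.coeff z g) h
  simp only [toQ_coeff] at this
  exact_mod_cast this

theorem toQ_aug (x : MonoidAlgebra ℤ G) : aug ℚ G (toQ G x) = ((aug ℤ G x : ℤ) : ℚ) := by
  induction x using MonoidAlgebra.induction_linear with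
  | zero => simp
  | add x y hx hy => simp [map_add, hx, hy]
  | single g r =>
    rw [toQ, MonoidAlgebra.mapRingHom_single]
    change aug ℚ G (MonoidAlgebra.single g (r : ℚ)) = _
    unfold aug
    simp

theorem toQ_aEl [Fintype G] : toQ G (aEl ℤ G) = aEl ℚ G := by
  simp [aEl, nrm, toQ]

theorem exists_denom (x : MonoidAlgebra ℚ G) :
    ∃ (q : ℕ) (y : MonoidAlgebra ℤ G), 0 < q ∧ toQ G y = (q : MonoidAlgebra ℚ G) * x := by
  induction x using MonoidAlgebra.induction_linear with
  | zero => exact ⟨1, 0, one_pos, by simp⟩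
  | add x y hx hy =>
    obtain ⟨q, x', hq, hx'⟩ := hx
    obtain ⟨r, y', hr, hy'⟩ := hy
    refine ⟨q * r, (r : MonoidAlgebra ℤ G) * x' + (q : MonoidAlgebra ℤ G) * y',
      Nat.mul_pos hq hr, ?_⟩
    rw [map_add, map_mul, map_mul, map_natCast, map_natCast, hx', hy', Nat.cast_mul, mul_add]
    congr 1
    · rw [← mul_assoc, (Nat.cast_commute r (q : MonoidAlgebra ℚ G)).eq]
    · rw [← mul_assoc]
  | single g r =>
    refine ⟨r.den, MonoidAlgebra.single g r.num, r.den_pos, ?_⟩
    rw [toQ, MonoidAlgebra.mapRingHom_single, MonoidAlgebra.natCast_def,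
      MonoidAlgebra.single_mul_single]
    simp [mul_comm, Rat.mul_den_eq_num]

theorem exists_denom_fun {ι : Type*} [Fintype ι] [DecidableEq ι] (x : ι → MonoidAlgebra ℚ G) :
    ∃ (q : ℕ) (y : ι → MonoidAlgebra ℤ G), 0 < q ∧
      ∀ i, toQ G (y i) = (q : MonoidAlgebra ℚ G) * x i := by
  choose q y hq hy using fun i => exists_denom (x i)
  refine ⟨∏ i, q i, fun i => ((∏ j ∈ (Finset.univ.erase i), q j : ℕ) : MonoidAlgebra ℤ G) * y i,
    Finset.prod_pos fun i _ => hq i, fun i => ?_⟩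
  rw [map_mul, map_natCast, hy, ← mul_assoc, ← Nat.cast_mul,
    Finset.prod_erase_mul _ _ (Finset.mem_univ i)]

end rationalization

section exact

variable {G : Type u} [Group G] [Finite G]

theorem ker_prod_range {A : Type*} [Ring A] [IsSemisimpleRing A] {P Q : Type*} [AddCommGroup P]
    [Module A P] [AddCommGroup Q] [Module A Q] (f : P →ₗ[A] Q) :
    Nonempty (P ≃ₗ[A] (LinearMap.ker f) × (LinearMap.range f)) := by
  obtain ⟨C, hC⟩ := exists_isCompl (LinearMap.ker f)
  exact ⟨((Submodule.prodEquivOfIsCompl _ _ hC).symm).trans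
    (LinearEquiv.prodCongr (LinearEquiv.refl A _)
      ((Submodule.quotientEquivOfIsCompl _ _ hC).symm.trans f.quotKerEquivRange))⟩

/-- the augmentation ideal over `ℚ` -/
noncomputable def augI (G : Type u) [Group G] :
    Submodule (MonoidAlgebra ℚ G) (MonoidAlgebra ℚ G) where
  carrier := {y | aug ℚ G y = 0}
  add_mem' {a b} ha hb := by
    simp only [Set.mem_ofPred_eq] at ha hb ⊢
    rw [map_add, ha, hb, add_zero]
  zero_mem' := map_zero _
  smul_mem' c a ha := by
    simp only [Set.mem_ofPred_eq, smul_eq_mul] at ha ⊢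
    rw [map_mul, ha, mul_zero]

/-- `w ↦ w ⬝ d` -/
def dotL {A : Type*} [Ring A] {κ : Type*} [Fintype κ] (d : κ → A) : (κ → A) →ₗ[A] A where
  toFun w := w ⬝ᵥ d
  map_add' a b := add_dotProduct a b d
  map_smul' c a := smul_dotProduct c a d

theorem kernel_semisimple {A : Type u} [Ring A] [Algebra ℚ A] [IsSemisimpleRing A]
    [FiniteDimensional ℚ A] {m x : ℕ} (V : (Fin m → A) →ₗ[A] (Fin x → A))
    (D : (Fin x → A) →ₗ[A] A) (hVD : LinearMap.range V = LinearMap.ker D)
    (hD : LinearMap.range D ≠ ⊤) :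
    x ≤ m ∧ Nonempty ((LinearMap.ker V) ≃ₗ[A] ((LinearMap.range D) × (Fin (m - x) → A))) := by
  have f1 : FiniteDimensional ℚ (LinearMap.ker V) := PermRep.fd_submodule ℚ A _
  have f2 : FiniteDimensional ℚ (LinearMap.range D) := PermRep.fd_submodule ℚ A _
  have f3 : FiniteDimensional ℚ (LinearMap.ker D) := PermRep.fd_submodule ℚ A _
  have f4 : FiniteDimensional ℚ (LinearMap.range V) := PermRep.fd_submodule ℚ A _
  obtain ⟨e1⟩ := ker_prod_range V
  obtain ⟨e2⟩ := ker_prod_range D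
  have e3 : (LinearMap.range V) ≃ₗ[A] (LinearMap.ker D) := LinearEquiv.ofEq _ _ hVD
  -- `ker V × A^x ≃ A^m × range D`
  let e4 : ((LinearMap.ker V) × (Fin x → A)) ≃ₗ[A] ((Fin m → A) × (LinearMap.range D)) :=
    (LinearEquiv.prodCongr (LinearEquiv.refl A _) (e2.trans
      (LinearEquiv.prodCongr e3.symm (LinearEquiv.refl A _)))).trans
      ((LinearEquiv.prodAssoc A _ _ _).symm.trans
        (LinearEquiv.prodCongr e1.symm (LinearEquiv.refl A _)))
  have hlt : Module.finrank ℚ (LinearMap.range D) < Module.finrank ℚ A := by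
    have h1 : LinearMap.range D < ⊤ := lt_top_iff_ne_top.mpr hD
    have h2 : ((LinearMap.range D).restrictScalars ℚ) < ⊤ := by
      rw [lt_top_iff_ne_top]
      intro h
      apply hD
      apply Submodule.restrictScalars_injective ℚ A A
      rw [h]
      rfl
    exact Submodule.finrank_lt h2.ne
  have hdim := LinearEquiv.finrank_eq (e4.restrictScalars ℚ)
  rw [Module.finrank_prod, Module.finrank_prod, Module.finrank_pi_fintype,
    Module.finrank_pi_fintype, Finset.sum_const, Finset.sum_const, Finset.card_univ,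
    Finset.card_univ, Fintype.card_fin, Fintype.card_fin, smul_eq_mul, smul_eq_mul] at hdim
  have hxm : x ≤ m := by
    by_contra hcon
    push Not at hcon
    have : (m + 1) * Module.finrank ℚ A ≤ x * Module.finrank ℚ A :=
      Nat.mul_le_mul_right _ hcon
    rw [add_mul, one_mul] at this
    omega
  refine ⟨hxm, ?_⟩
  let e5 : (Fin m → A) ≃ₗ[A] ((Fin (m - x) → A) × (Fin x → A)) :=
    (LinearEquiv.funCongrLeft A A (finSumFinEquiv.trans (finCongr (Nat.sub_add_cancel hxm)))).trans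
      (LinearEquiv.sumArrowLequivProdArrow (Fin (m - x)) (Fin x) A A)
  let e6 : ((LinearMap.ker V) × (Fin x → A)) ≃ₗ[A]
      (((LinearMap.range D) × (Fin (m - x) → A)) × (Fin x → A)) :=
    e4.trans ((LinearEquiv.prodComm A _ _).trans
      ((LinearEquiv.prodCongr (LinearEquiv.refl A _) e5).trans
        (LinearEquiv.prodAssoc A _ _ _).symm))
  exact PermRep.cancel_of_semisimple ℚ A _ _ _ e6

theorem toQ_vecMul {m x : ℕ} (V : Matrix (Fin m) (Fin x) (MonoidAlgebra ℤ G))
    (v : Fin m → MonoidAlgebra ℤ G) (j : Fin x) :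
    toQ G ((v ᵥ* V) j) = ((fun i => toQ G (v i)) ᵥ* (V.map (toQ G))) j := by
  simp only [Matrix.vecMul, dotProduct, map_sum, map_mul, Matrix.map_apply]

theorem toQ_dot {x : ℕ} (D w : Fin x → MonoidAlgebra ℤ G) :
    toQ G (w ⬝ᵥ D) = (fun i => toQ G (w i)) ⬝ᵥ (fun i => toQ G (D i)) := by
  simp only [dotProduct, map_sum, map_mul]

theorem exists_split [Fintype G] {m x : ℕ} (V : Matrix (Fin m) (Fin x) (MonoidAlgebra ℤ G))
    (D : Fin x → MonoidAlgebra ℤ G)
    (hV : ∀ w : Fin x → MonoidAlgebra ℤ G, w ⬝ᵥ D = 0 ↔ ∃ v, v ᵥ* V = w)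
    (hD : ∀ y, aug ℤ G y = 0 ↔ ∃ w : Fin x → MonoidAlgebra ℤ G, w ⬝ᵥ D = y) :
    x ≤ m ∧ ∃ (N : ℕ) (m0 c : Fin m → MonoidAlgebra ℤ G), 0 < N ∧ m0 ᵥ* V = 0 ∧
      m0 ⬝ᵥ c = (N : MonoidAlgebra ℤ G) * aEl ℤ G := by
  haveI : NeZero (Nat.card G : ℚ) := ⟨by exact_mod_cast Nat.card_pos.ne'⟩
  haveI : IsSemisimpleRing (MonoidAlgebra ℚ G) := inferInstance
  haveI : FiniteDimensional ℚ (MonoidAlgebra ℚ G) := inferInstance
  let VA : (Fin m → MonoidAlgebra ℚ G) →ₗ[MonoidAlgebra ℚ G] (Fin x → MonoidAlgebra ℚ G) :=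
    (V.map (toQ G)).vecMulLinear
  let DA : (Fin x → MonoidAlgebra ℚ G) →ₗ[MonoidAlgebra ℚ G] MonoidAlgebra ℚ G :=
    dotL (fun i => toQ G (D i))
  have hVA : ∀ v, VA v = v ᵥ* (V.map (toQ G)) := fun v => rfl
  have hDA : ∀ w, DA w = w ⬝ᵥ (fun i => toQ G (D i)) := fun w => rfl
  -- invertibility of natural numbers
  have hinv : ∀ q : ℕ, 0 < q → ∀ a : MonoidAlgebra ℚ G,
      ((q : ℚ)⁻¹ • ((q : MonoidAlgebra ℚ G) * a)) = a := by
    intro q hq a
    rw [← nsmul_eq_mul, ← Nat.cast_smul_eq_nsmul ℚ, smul_smul, inv_mul_cancel₀, one_smul]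
    exact_mod_cast hq.ne'
  have hker : ∀ w, DA w = 0 → ∃ v, VA v = w := by
    intro w hw
    obtain ⟨q, w', hq, hw'⟩ := exists_denom_fun w
    have h1 : w' ⬝ᵥ D = 0 := by
      apply toQ_injective
      rw [toQ_dot, map_zero]
      have : (fun i => toQ G (w' i)) = (q : MonoidAlgebra ℚ G) • w := by
        ext i : 1
        rw [hw']
        rfl
      rw [this, smul_dotProduct]
      rw [hDA] at hw
      rw [hw, smul_zero]
    obtain ⟨v, hv⟩ := (hV w').mp h1
    refine ⟨(q : ℚ)⁻¹ • (fun i => toQ G (v i)), ?_⟩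
    rw [LinearMap.map_smul_of_tower]
    ext j : 1
    rw [Pi.smul_apply, hVA, ← toQ_vecMul, hv, hw', hinv q hq]
  have hcomp : ∀ v, DA (VA v) = 0 := by
    intro v
    obtain ⟨q, v', hq, hv'⟩ := exists_denom_fun v
    have h1 : (q : MonoidAlgebra ℚ G) • v = (fun i => toQ G (v' i)) := by
      ext i : 1
      rw [hv']
      rfl
    have h2 : DA (VA ((q : MonoidAlgebra ℚ G) • v)) = 0 := by
      rw [h1]
      have h3 : VA (fun i => toQ G (v' i)) = fun j => toQ G ((v' ᵥ* V) j) := by
        ext j : 1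
        rw [hVA, ← toQ_vecMul]
      rw [h3, hDA, ← toQ_dot, (hV (v' ᵥ* V)).mpr ⟨v', rfl⟩, map_zero]
    rw [map_smul, map_smul, smul_eq_mul] at h2
    rw [← hinv q hq (DA (VA v)), h2, smul_zero]
  have hrange : LinearMap.range VA = LinearMap.ker DA := by
    ext w
    rw [LinearMap.mem_range, LinearMap.mem_ker]
    constructor
    · rintro ⟨v, rfl⟩
      exact hcomp v
    · exact hker w
  have hrangeD : ∀ y, y ∈ LinearMap.range DA ↔ aug ℚ G y = 0 := by
    intro y
    rw [LinearMap.mem_range]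
    constructor
    · rintro ⟨w, rfl⟩
      rw [hDA, dotProduct, map_sum]
      refine Finset.sum_eq_zero fun i _ => ?_
      rw [map_mul, toQ_aug, (hD (D i)).mpr ⟨Pi.single i 1, by simp⟩]
      simp
    · intro hy
      obtain ⟨q, y', hq, hy'⟩ := exists_denom y
      have h1 : aug ℤ G y' = 0 := by
        have h2 : ((aug ℤ G y' : ℤ) : ℚ) = 0 := by
          rw [← toQ_aug, hy', map_mul, hy, mul_zero]
        exact_mod_cast h2
      obtain ⟨w, hw⟩ := (hD y').mp h1
      refine ⟨(q : ℚ)⁻¹ • (fun i => toQ G (w i)), ?_⟩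
      rw [LinearMap.map_smul_of_tower, hDA, ← toQ_dot, hw, hy', hinv q hq]
  have hne : LinearMap.range DA ≠ ⊤ := by
    intro h
    have h1 : (1 : MonoidAlgebra ℚ G) ∈ LinearMap.range DA := by rw [h]; trivial
    rw [hrangeD, map_one] at h1
    exact one_ne_zero h1
  obtain ⟨hxm, ⟨e⟩⟩ := kernel_semisimple VA DA hrange hne
  refine ⟨hxm, ?_⟩
  obtain ⟨C, hC⟩ := exists_isCompl (LinearMap.ker VA)
  have ha : aEl ℚ G ∈ LinearMap.range DA := (hrangeD _).mpr aug_aEl
  let μ : LinearMap.ker VA := e.symm (⟨aEl ℚ G, ha⟩, 0)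
  let η : (Fin m → MonoidAlgebra ℚ G) →ₗ[MonoidAlgebra ℚ G] MonoidAlgebra ℚ G :=
    (LinearMap.range DA).subtype ∘ₗ (LinearMap.fst _ _ _) ∘ₗ e.toLinearMap ∘ₗ
      Submodule.projectionOnto _ _ hC
  have hημ : η (μ : Fin m → MonoidAlgebra ℚ G) = aEl ℚ G := by
    change ((e (Submodule.projectionOnto _ _ hC (μ : Fin m → MonoidAlgebra ℚ G))).1 :
      MonoidAlgebra ℚ G) = _
    rw [Submodule.projectionOnto_apply_left hC, LinearEquiv.apply_symm_apply]
  obtain ⟨q1, m0, hq1, hm0⟩ := exists_denom_fun (μ : Fin m → MonoidAlgebra ℚ G)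
  obtain ⟨q2, c, hq2, hc⟩ := exists_denom_fun (fun i => η (Pi.single i 1))
  have hm0' : (fun i => toQ G (m0 i)) =
      (q1 : MonoidAlgebra ℚ G) • (μ : Fin m → MonoidAlgebra ℚ G) := by
    ext i : 1
    rw [hm0]
    rfl
  refine ⟨q1 * q2, m0, c, Nat.mul_pos hq1 hq2, ?_, ?_⟩
  · ext j : 1
    apply toQ_injective
    rw [toQ_vecMul, hm0', ← hVA, map_smul, LinearMap.mem_ker.mp μ.2, smul_zero]
    simp
  · apply toQ_injective
    rw [toQ_dot, hm0', map_mul, map_natCast, toQ_aEl, ← hημ]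
    have h1 : ∀ v : Fin m → MonoidAlgebra ℚ G, η v = ∑ i, v i * η (Pi.single i 1) := by
      intro v
      conv_lhs => rw [← Finset.univ_sum_single v, map_sum]
      refine Finset.sum_congr rfl fun i _ => ?_
      rw [← smul_eq_mul, ← map_smul, ← Pi.single_smul, smul_eq_mul, mul_one]
    rw [h1, dotProduct, Nat.cast_mul, Finset.mul_sum]
    refine Finset.sum_congr rfl fun i _ => ?_
    simp only [Pi.smul_apply, smul_eq_mul, hc]
    rw [mul_assoc, mul_assoc]
    congr 1
    rw [← mul_assoc, ← mul_assoc, (Nat.cast_commute q2 _).eq]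

end exact

end Pool.Wh
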