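import Mathlib
import Pool.Agent.Lib_helper55.WhK1c
import Pool.Agent.Lib_helper55.WhRat

/-!
# Self-equivalences realising units
-/

set_option autoImplicit false
set_option linter.unusedSectionVars false

open scoped Matrix

namespace Pool.Wh

universe u

section clU

variable {R : Type*} [Ring R]

/-- right multiplication by a unit -/
def rmul (u : Rˣ) : R ≃ₗ[R] R where
  toFun y := y * u
  map_add' a b := add_mul a b _
  map_smul' a b := by simp [mul_assoc]
  invFun y := y * (u⁻¹ : Rˣ)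
  left_inv y := by simp [mul_assoc]
  right_inv y := by simp [mul_assoc]

@[simp] theorem rmul_apply (u : Rˣ) (y : R) : rmul u y = y * u := rfl

/-- The class of a unit in `K₁`. -/
noncomputable def clU : Rˣ →* K1 R where
  toFun u := cl (rmul u)
  map_one' := by
    have : rmul (1 : Rˣ) = 1 := by ext; simp
    rw [this, map_one]
  map_mul' u v := by
    rw [mul_comm (cl (rmul u)), ← map_mul]
    congr 1
    apply LinearEquiv.ext
    intro y
    change y * ((u * v : Rˣ) : R) = (y * u) * v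
    rw [Units.val_mul, mul_assoc]

theorem clU_eq (u : Rˣ) : clU u = cl (rmul u) := rfl

end clU

section units

variable {G : Type u} [Group G] [Fintype G]

/-- reduction of the group ring modulo `n` -/
noncomputable def redG (G : Type u) [Group G] (n : ℕ) :
    MonoidAlgebra ℤ G →+* MonoidAlgebra (ZMod n) G :=
  MonoidAlgebra.mapRingHom G (Int.castRingHom (ZMod n))

theorem exists_of_redG_eq_zero {n : ℕ} (z : MonoidAlgebra ℤ G) (hz : redG G n z = 0) :
    ∃ y : MonoidAlgebra ℤ G, z = (n : MonoidAlgebra ℤ G) * y := by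
  have h1 : ∀ g, (n : ℤ) ∣ z.coeff g := by
    intro g
    have : (redG G n z).coeff g = 0 := by rw [hz]; simp
    rw [redG, MonoidAlgebra.coeff_mapRingHom] at this
    exact (ZMod.intCast_zmod_eq_zero_iff_dvd _ _).mp (by simpa using this)
  refine ⟨MonoidAlgebra.ofCoeff (Finsupp.equivFunOnFinite.symm fun g => z.coeff g / n), ?_⟩
  apply MonoidAlgebra.coeff_injective
  ext g
  rw [← nsmul_eq_mul, MonoidAlgebra.coeff_smul]
  simp only [MonoidAlgebra.coeff_ofCoeff, Finsupp.smul_apply, Finsupp.equivFunOnFinite_symm_apply_apply,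
    nsmul_eq_mul]
  exact (Int.mul_ediv_cancel' (h1 g)).symm

theorem unit_pow {N : ℕ} (hN : 0 < N) (v : (MonoidAlgebra ℤ G)ˣ) :
    ∃ k : ℕ, 0 < k ∧ ∃ w : MonoidAlgebra ℤ G,
      ((v ^ k : (MonoidAlgebra ℤ G)ˣ) : MonoidAlgebra ℤ G) =
        1 + w * ((N : MonoidAlgebra ℤ G) * aEl ℤ G) := by
  set n := N * Fintype.card G with hn
  have hnpos : 0 < n := Nat.mul_pos hN Fintype.card_pos
  haveI : NeZero n := ⟨hnpos.ne'⟩
  haveI : Finite (MonoidAlgebra (ZMod n) G) := by
    refine Finite.of_injective (fun z : MonoidAlgebra (ZMod n) G => (z.coeff : G → ZMod n)) ?_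
    intro a b h
    apply MonoidAlgebra.coeff_injective
    exact DFunLike.coe_injective h
  let ρ : (MonoidAlgebra ℤ G)ˣ →* (MonoidAlgebra (ZMod n) G)ˣ := Units.map (redG G n).toMonoidHom
  have hfin : Finite (MonoidAlgebra (ZMod n) G)ˣ := inferInstance
  set k0 := Nat.card (MonoidAlgebra (ZMod n) G)ˣ with hk0
  have hk0pos : 0 < k0 := Nat.card_pos
  have h1 : (ρ v) ^ k0 = 1 := pow_card_eq_one'
  have h2 : ρ (v ^ (k0 * 2)) = 1 := by rw [map_pow, pow_mul, h1, one_pow]
  have h3 : redG G n (((v ^ (k0 * 2) : (MonoidAlgebra ℤ G)ˣ) : MonoidAlgebra ℤ G) - 1) = 0 := by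
    rw [map_sub, map_one, sub_eq_zero]
    exact congrArg Units.val h2
  obtain ⟨y, hy⟩ := exists_of_redG_eq_zero _ h3
  have h4 : aug ℤ G ((v ^ (k0 * 2) : (MonoidAlgebra ℤ G)ˣ) : MonoidAlgebra ℤ G) = 1 := by
    have h5 : (Units.map (aug ℤ G).toRingHom.toMonoidHom (v ^ (k0 * 2))) = 1 := by
      rw [map_pow, mul_comm, pow_mul, sq, Int.units_mul_self, one_pow]
    exact congrArg Units.val h5
  have h5 : aug ℤ G y = 0 := by
    have h6 := congrArg (aug ℤ G) hy
    rw [map_sub, map_one, h4, sub_self, map_mul, map_natCast] at h6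
    rcases mul_eq_zero.mp h6.symm with h7 | h7
    · exfalso
      have : (n : ℤ) ≠ 0 := by exact_mod_cast hnpos.ne'
      exact this h7
    · exact h7
  refine ⟨k0 * 2, by omega, y, ?_⟩
  have h8 : y * ((N : MonoidAlgebra ℤ G) * aEl ℤ G) = (n : MonoidAlgebra ℤ G) * y := by
    rw [← mul_assoc, ← (Nat.cast_commute N y).eq, mul_assoc, mul_aEl_of_aug h5, hn, Nat.cast_mul,
      mul_assoc, (Nat.cast_commute (Fintype.card G) y).eq]
  rw [h8, ← hy]
  abel

end units

section self

variable {G : Type u} [Group G] [Fintype G]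

/-- every unit has a power whose class is the torsion of a self-equivalence -/
theorem exists_self_equiv {m x : ℕ}
    (V : (Fin m → MonoidAlgebra ℤ G) →ₗ[MonoidAlgebra ℤ G] (Fin x → MonoidAlgebra ℤ G))
    (D : (Fin x → MonoidAlgebra ℤ G) →ₗ[MonoidAlgebra ℤ G] MonoidAlgebra ℤ G)
    (hV : LinearMap.range V = LinearMap.ker D)
    (hD : ∀ y, y ∈ LinearMap.range D ↔ aug ℤ G y = 0) (v : (MonoidAlgebra ℤ G)ˣ) :
    ∃ k : ℕ, 0 < k ∧ ∃ Φ : (Fin m → MonoidAlgebra ℤ G) ≃ₗ[MonoidAlgebra ℤ G]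
      (Fin m → MonoidAlgebra ℤ G), V ∘ₗ Φ.toLinearMap = V ∧ cl Φ = clU v ^ k := by
  let MV : Matrix (Fin m) (Fin x) (MonoidAlgebra ℤ G) := LinearMap.toMatrixRight' V
  have hMV : ∀ v, v ᵥ* MV = V v := by
    intro v
    change LinearMap.toMatrixRight'.symm (LinearMap.toMatrixRight' V) v = V v
    rw [LinearEquiv.symm_apply_apply]
  let dV : Fin x → MonoidAlgebra ℤ G := fun i => D (Pi.single i 1)
  have hdV : ∀ w, w ⬝ᵥ dV = D w := by
    intro w
    conv_rhs => rw [← Finset.univ_sum_single w, map_sum]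
    rw [dotProduct]
    refine Finset.sum_congr rfl fun i _ => ?_
    rw [← smul_eq_mul, ← map_smul, ← Pi.single_smul, smul_eq_mul, mul_one]
  obtain ⟨-, N, m0, c, hN, hm0, hc⟩ := exists_split MV dV
    (fun w => by
      rw [hdV, ← LinearMap.mem_ker, ← hV, LinearMap.mem_range]
      simp only [hMV])
    (fun y => by
      rw [← hD, LinearMap.mem_range]
      simp only [hdV])
  obtain ⟨k, hk, w, hw⟩ := unit_pow hN v
  refine ⟨k, hk, ?_⟩
  -- `a y = y w m0`, `b v = v ⬝ c`
  let a : MonoidAlgebra ℤ G →ₗ[MonoidAlgebra ℤ G] (Fin m → MonoidAlgebra ℤ G) :=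
    LinearMap.toSpanSingleton _ _ (w • m0)
  let b : (Fin m → MonoidAlgebra ℤ G) →ₗ[MonoidAlgebra ℤ G] MonoidAlgebra ℤ G := dotL c
  have ha : ∀ y, a y = y • (w • m0) := fun y => rfl
  have hb : ∀ v, b v = v ⬝ᵥ c := fun v => rfl
  have hα : ∀ y, rmul (v ^ k) y = y + b (a y) := by
    intro y
    rw [rmul_apply, hw, ha, hb, smul_dotProduct, smul_dotProduct, hc, mul_add, mul_one,
      smul_eq_mul, smul_eq_mul]
  refine ⟨sylEquiv b a (rmul (v ^ k)) hα, ?_, ?_⟩
  · apply LinearMap.ext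
    intro z
    change V (sylEquiv b a (rmul (v ^ k)) hα z) = V z
    rw [sylEquiv_apply, map_add, ha, map_smul, map_smul, ← hMV m0, hm0, smul_zero, smul_zero,
      add_zero]
  · rw [← map_pow, clU_eq]
    exact (cl_sylvester b a (rmul (v ^ k)) _ hα (fun y => rfl)).symm

theorem le_of_range_eq {m x : ℕ}
    (V : (Fin m → MonoidAlgebra ℤ G) →ₗ[MonoidAlgebra ℤ G] (Fin x → MonoidAlgebra ℤ G))
    (D : (Fin x → MonoidAlgebra ℤ G) →ₗ[MonoidAlgebra ℤ G] MonoidAlgebra ℤ G)
    (hV : LinearMap.range V = LinearMap.ker D)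
    (hD : ∀ y, y ∈ LinearMap.range D ↔ aug ℤ G y = 0) : x ≤ m := by
  let MV : Matrix (Fin m) (Fin x) (MonoidAlgebra ℤ G) := LinearMap.toMatrixRight' V
  have hMV : ∀ v, v ᵥ* MV = V v := by
    intro v
    change LinearMap.toMatrixRight'.symm (LinearMap.toMatrixRight' V) v = V v
    rw [LinearEquiv.symm_apply_apply]
  let dV : Fin x → MonoidAlgebra ℤ G := fun i => D (Pi.single i 1)
  have hdV : ∀ w, w ⬝ᵥ dV = D w := by
    intro w
    conv_rhs => rw [← Finset.univ_sum_single w, map_sum]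
    rw [dotProduct]
    refine Finset.sum_congr rfl fun i _ => ?_
    rw [← smul_eq_mul, ← map_smul, ← Pi.single_smul, smul_eq_mul, mul_one]
  exact (exists_split MV dV
    (fun w => by
      rw [hdV, ← LinearMap.mem_ker, ← hV, LinearMap.mem_range]
      simp only [hMV])
    (fun y => by
      rw [← hD, LinearMap.mem_range]
      simp only [hdV])).1

end self

end Pool.Wh
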