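import Mathlib
import Pool.Agent.Lib_helper55.WhSelf
import Pool.Agent.Lib_helper64.SH.Wh

/-!
# Permutation modules and classes in `K₁`
-/

set_option autoImplicit false
set_option linter.unusedSectionVars false

open scoped Matrix

namespace Pool.Wh

section mrep

variable {R S : Type*} [Ring R] [Ring S]
variable {ι X Y : Type*} [Fintype ι] [DecidableEq ι] [Fintype X] [DecidableEq X]
  [Fintype Y] [DecidableEq Y]

/-- Sylvester's identity for matrices -/
theorem clM_sylvester (M : (Matrix X X R)ˣ) (N : (Matrix Y Y R)ˣ) (A : Matrix X Y R)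
    (B : Matrix Y X R) (hM : M.val = 1 + A * B) (hN : N.val = 1 + B * A) : clM M = clM N := by
  refine cl_sylvester B.vecMulLinear A.vecMulLinear (vmE M) (vmE N) (fun v => ?_) (fun w => ?_)
  · rw [vmE_apply, hM]
    simp [Matrix.vecMul_add, Matrix.vecMul_vecMul]
  · rw [vmE_apply, hN]
    simp [Matrix.vecMul_add, Matrix.vecMul_vecMul]

/-- extension of a matrix representation to matrices -/
def mrep (φ : R →+* Matrix X X S) (ι : Type*) [Fintype ι] [DecidableEq ι] :
    Matrix ι ι R →+* Matrix (ι × X) (ι × X) S :=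
  (Matrix.compRingEquiv ι X S).toRingHom.comp (φ.mapMatrix (m := ι))

theorem mrep_apply (φ : R →+* Matrix X X S) (M : Matrix ι ι R) (a b : ι × X) :
    mrep φ ι M a b = φ (M a.1 b.1) a.2 b.2 := rfl

/-- the class of the matrix obtained through a matrix representation -/
noncomputable def clR (φ : R →+* Matrix X X S) : (Matrix ι ι R)ˣ →* K1 S :=
  clM.comp (Units.map (mrep φ ι).toMonoidHom)

theorem clR_apply (φ : R →+* Matrix X X S) (M : (Matrix ι ι R)ˣ) :
    clR φ M = clM (Units.map (mrep φ ι).toMonoidHom M) := rfl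

/-- `1 ⊗ N` -/
def tens (ι : Type*) [DecidableEq ι] (N : Matrix X Y S) : Matrix (ι × X) (ι × Y) S :=
  Matrix.of fun a b => if a.1 = b.1 then N a.2 b.2 else 0

theorem tens_mul_tens {Z : Type*} [Fintype Z] [DecidableEq Z] (N : Matrix X Y S)
    (N' : Matrix Y Z S) : tens ι N * tens ι N' = tens ι (N * N') := by
  ext ⟨i, x⟩ ⟨k, z⟩
  simp only [tens, Matrix.mul_apply, Matrix.of_apply, Fintype.sum_prod_type]
  by_cases h : i = k
  · subst h
    rw [if_pos rfl, Finset.sum_eq_single i]
    · simp
    · intro j _ hj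
      simp [Ne.symm hj]
    · simp
  · rw [if_neg h]
    refine Finset.sum_eq_zero fun j _ => Finset.sum_eq_zero fun y _ => ?_
    by_cases h1 : i = j
    · subst h1; simp [h]
    · simp [h1]

theorem tens_one : tens ι (1 : Matrix X X S) = 1 := by
  ext ⟨i, x⟩ ⟨k, z⟩
  simp only [tens, Matrix.of_apply, Matrix.one_apply, Prod.mk.injEq]
  by_cases h : i = k <;> simp [h]

theorem tens_smul (N : Matrix X Y S) (t : ℤ) : tens ι (t • N) = t • tens ι N := by
  ext ⟨i, x⟩ ⟨k, z⟩
  simp only [tens, Matrix.of_apply, Matrix.smul_apply]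
  split_ifs <;> simp

theorem mrep_mul_tens (φ : R →+* Matrix X X S) (φ' : R →+* Matrix Y Y S) (N : Matrix X Y S)
    (h : ∀ a, φ a * N = N * φ' a) (M : Matrix ι ι R) :
    mrep φ ι M * tens ι N = tens ι N * mrep φ' ι M := by
  ext ⟨i, x⟩ ⟨k, z⟩
  simp only [tens, Matrix.mul_apply, Matrix.of_apply, Fintype.sum_prod_type, mrep_apply]
  have h1 : ∑ j, ∑ y, φ (M i j) x y * (if j = k then N y z else 0) =
      (φ (M i k) * N) x z := by
    rw [Finset.sum_eq_single k]
    · simp [Matrix.mul_apply]
    · intro j _ hj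
      simp [hj]
    · simp
  have h2 : ∑ j, ∑ y, (if i = j then N x y else 0) * φ' (M j k) y z =
      (N * φ' (M i k)) x z := by
    rw [Finset.sum_eq_single i]
    · simp [Matrix.mul_apply]
    · intro j _ hj
      simp [Ne.symm hj]
    · simp
  rw [h1, h2, h]

/-- The intertwiner lemma. -/
theorem clR_intertwine (φ : R →+* Matrix X X S) (φ' : R →+* Matrix Y Y S) (N : Matrix X Y S)
    (N' : Matrix Y X S) (t : ℤ) (hN : ∀ a, φ a * N = N * φ' a)
    (h1 : N * N' = t • (1 : Matrix X X S)) (h2 : N' * N = t • (1 : Matrix Y Y S))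
    (M : (Matrix ι ι R)ˣ) (B : Matrix ι ι R) (hM : M.val = 1 + t • B) :
    clR φ M = clR φ' M := by
  rw [clR_apply, clR_apply]
  refine clM_sylvester _ _ (tens ι N) (tens ι N' * mrep φ ι B) ?_ ?_
  · change mrep φ ι M.val = _
    rw [hM, map_add, map_one, map_zsmul, ← Matrix.mul_assoc, tens_mul_tens, h1, tens_smul,
      tens_one, smul_one_mul]
  · change mrep φ' ι M.val = _
    rw [hM, map_add, map_one, map_zsmul, Matrix.mul_assoc, mrep_mul_tens φ φ' N hN,
      ← Matrix.mul_assoc, tens_mul_tens, h2, tens_smul, tens_one, smul_one_mul]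

/-- conjugate representations -/
theorem clR_conj (φ φ' : R →+* Matrix X X S) (T : (Matrix X X S)ˣ)
    (h : ∀ a, φ a * T.val = T.val * φ' a) (M : (Matrix ι ι R)ˣ) : clR φ M = clR φ' M := by
  let T' : (Matrix (ι × X) (ι × X) S)ˣ :=
    ⟨tens ι T.val, tens ι (T⁻¹ : (Matrix X X S)ˣ).val,
      by rw [tens_mul_tens, Units.mul_inv, tens_one],
      by rw [tens_mul_tens, Units.inv_mul, tens_one]⟩
  have key : Units.map (mrep φ ι).toMonoidHom M * T' =
      T' * Units.map (mrep φ' ι).toMonoidHom M := by
    apply Units.ext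
    exact mrep_mul_tens φ φ' T.val h M.val
  have := congrArg (clM : _ →* K1 S) key
  rw [map_mul, map_mul, mul_comm] at this
  exact mul_left_cancel this

theorem clR_map {S0 : Type*} [Ring S0] (f : S0 →+* S) (ψ : R →+* Matrix X X S0)
    (φ : R →+* Matrix X X S) (h : ∀ a, φ a = (ψ a).map f) (M : (Matrix ι ι R)ˣ) :
    clR φ M = K1map f (clR ψ M) := by
  rw [clR_apply, clR_apply, K1map_clM]
  congr 1
  apply Units.ext
  ext a b
  change mrep φ ι M.val a b = f (mrep ψ ι M.val a b)
  rw [mrep_apply, mrep_apply, h]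
  rfl

end mrep

section sigma

variable {S : Type*} [Ring S] {I : Type*} [Fintype I] [DecidableEq I] {Z : I → Type*}
  [∀ i, Fintype (Z i)] [∀ i, DecidableEq (Z i)]

/-- block diagonal matrices as a group homomorphism -/
def bdiag : (∀ i, (Matrix (Z i) (Z i) S)ˣ) →* (Matrix (Σ i, Z i) (Σ i, Z i) S)ˣ where
  toFun f := ⟨Matrix.blockDiagonal' fun i => (f i).val, Matrix.blockDiagonal' fun i => (f i)⁻¹.val,
    by
      rw [← Matrix.blockDiagonal'_mul]
      simp only [Units.mul_inv]
      exact (Matrix.blockDiagonal'_one (α := S) (m' := Z)),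
    by
      rw [← Matrix.blockDiagonal'_mul]
      simp only [Units.inv_mul]
      exact (Matrix.blockDiagonal'_one (α := S) (m' := Z))⟩
  map_one' := by
    apply Units.ext
    exact (Matrix.blockDiagonal'_one (α := S) (m' := Z))
  map_mul' f g := by
    apply Units.ext
    exact Matrix.blockDiagonal'_mul (fun i => (f i).val) (fun i => (g i).val)

/-- the inclusion of a block -/
def inc (S : Type*) [Ring S] (Z : I → Type*) [∀ i, DecidableEq (Z i)] (i : I) :
    Matrix (Z i) (Σ i, Z i) S :=
  Matrix.of fun w p => if p = ⟨i, w⟩ then 1 else 0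

theorem inc_mul_transpose (i : I) : inc S Z i * (inc S Z i)ᵀ = (1 : Matrix (Z i) (Z i) S) := by
  ext w w'
  simp only [Matrix.mul_apply, inc, Matrix.of_apply, Matrix.transpose_apply, Matrix.one_apply]
  rw [Finset.sum_eq_single ⟨i, w⟩]
  · by_cases h : w = w'
    · subst h; simp
    · rw [if_neg h]
      simp [h]
  · intro p _ hp
    simp [hp]
  · simp

theorem clM_bdiag_single (i : I) (x : (Matrix (Z i) (Z i) S)ˣ) :
    clM (bdiag (Pi.mulSingle (M := fun i => (Matrix (Z i) (Z i) S)ˣ) i x)) = clM x := by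
  refine clM_sylvester _ _ ((inc S Z i)ᵀ * (x.val - 1)) (inc S Z i) ?_ ?_
  · change Matrix.blockDiagonal'
      (fun j => (Pi.mulSingle (M := fun i => (Matrix (Z i) (Z i) S)ˣ) i x j).val) = _
    ext ⟨j, z⟩ ⟨j', z'⟩
    rw [Matrix.add_apply, Matrix.mul_apply]
    simp only [Matrix.mul_apply, inc, Matrix.of_apply, Matrix.transpose_apply]
    by_cases hj : j = i
    · subst hj
      by_cases hj' : j' = j
      · subst hj'
        rw [Matrix.blockDiagonal'_apply_eq, Pi.mulSingle_eq_same]
        rw [Finset.sum_eq_single z']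
        · rw [Finset.sum_eq_single z]
          · simp [Matrix.one_apply]
          · intro w _ hw
            simp [Ne.symm hw]
          · simp
        · intro w _ hw
          simp [Ne.symm hw]
        · simp
      · rw [Matrix.blockDiagonal'_apply_ne _ _ _ (Ne.symm hj')]
        simp [hj', Matrix.one_apply, Ne.symm hj']
    · by_cases hj' : j' = j
      · subst hj'
        rw [Matrix.blockDiagonal'_apply_eq, Pi.mulSingle_eq_of_ne hj]
        simp [hj, Matrix.one_apply]
      · rw [Matrix.blockDiagonal'_apply_ne _ _ _ (Ne.symm hj')]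
        simp [hj, Matrix.one_apply, Ne.symm hj']
  · rw [← Matrix.mul_assoc, inc_mul_transpose, Matrix.one_mul]
    abel

theorem clM_bdiag_finset (f : ∀ i, (Matrix (Z i) (Z i) S)ˣ) (s : Finset I) :
    clM (bdiag (fun i => if i ∈ s then f i else 1)) = ∏ i ∈ s, clM (f i) := by
  induction s using Finset.induction_on with
  | empty =>
    have : (fun i => if i ∈ (∅ : Finset I) then f i else 1) = 1 := by
      ext1 i; simp
    rw [this, map_one, map_one, Finset.prod_empty]
  | insert i s hi ih =>
    have : (fun j => if j ∈ insert i s then f j else 1) =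
        (Pi.mulSingle (M := fun i => (Matrix (Z i) (Z i) S)ˣ) i (f i)) *
          (fun j => if j ∈ s then f j else 1) := by
      ext1 j
      rw [Pi.mul_apply]
      by_cases hj : j = i
      · subst hj
        rw [Pi.mulSingle_eq_same, if_neg hi, mul_one, if_pos (Finset.mem_insert_self _ _)]
      · rw [Pi.mulSingle_eq_of_ne hj, one_mul]
        simp [Finset.mem_insert, hj]
    rw [this, map_mul, map_mul, clM_bdiag_single, ih, Finset.prod_insert hi]

theorem clM_bdiag (f : ∀ i, (Matrix (Z i) (Z i) S)ˣ) : clM (bdiag f) = ∏ i, clM (f i) := by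
  rw [← clM_bdiag_finset f Finset.univ]
  simp

end sigma

section groupring

universe u

variable {G : Type u} [Group G]

section perm

variable (G) (X : Type*) [Fintype X] [DecidableEq X] [MulAction G X]

/-- `g ↦ g P_X(g)` -/
noncomputable def permHom : G →* Matrix X X (MonoidAlgebra ℤ G) where
  toFun g := Matrix.of fun x x' => if x = g • x' then MonoidAlgebra.single g 1 else 0
  map_one' := by
    ext x x'
    simp [Matrix.one_apply, MonoidAlgebra.one_def]
  map_mul' g h := by
    ext x x'
    rw [Matrix.mul_apply, Finset.sum_eq_single (h • x')]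
    · simp only [Matrix.of_apply, if_true, mul_smul]
      by_cases hx : x = g • h • x'
      · rw [if_pos hx, if_pos hx, MonoidAlgebra.single_mul_single, one_mul]
      · rw [if_neg hx, if_neg hx, zero_mul]
    · intro y _ hy
      simp [hy]
    · simp

/-- the permutation representation `ℤ[G] → M_X(ℤ[G])` -/
noncomputable def permRep : MonoidAlgebra ℤ G →+* Matrix X X (MonoidAlgebra ℤ G) :=
  (MonoidAlgebra.lift ℤ (Matrix X X (MonoidAlgebra ℤ G)) G (permHom G X)).toRingHom

variable {X}

theorem permRep_single (g : G) (r : ℤ) (x x' : X) :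
    permRep G X (MonoidAlgebra.single g r) x x' =
      if x = g • x' then MonoidAlgebra.single g r else 0 := by
  change (MonoidAlgebra.lift ℤ (Matrix X X (MonoidAlgebra ℤ G)) G (permHom G X))
    (MonoidAlgebra.single g r) x x' = _
  rw [MonoidAlgebra.lift_single, Matrix.smul_apply]
  simp only [permHom, MonoidHom.coe_mk, OneHom.coe_mk, Matrix.of_apply]
  split_ifs <;> simp

theorem permRep_unique [Subsingleton X] (a : MonoidAlgebra ℤ G) (x x' : X) :
    permRep G X a x x' = a := by
  induction a using MonoidAlgebra.induction_linear with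
  | zero => simp
  | add a b ha hb => rw [map_add, Matrix.add_apply, ha, hb]
  | single g r => rw [permRep_single, if_pos (Subsingleton.elim _ _)]

theorem clR_permRep_unique [Unique X] {ι : Type*} [Fintype ι] [DecidableEq ι]
    (M : (Matrix ι ι (MonoidAlgebra ℤ G))ˣ) : clR (permRep G X) M = clM M := by
  rw [clR_apply]
  refine clM_reindex (Equiv.prodUnique ι X).symm M _ ?_
  apply Matrix.ext
  rintro ⟨i, x⟩ ⟨j, y⟩
  change mrep (permRep G X) ι M.val (i, x) (j, y) = _
  rw [mrep_apply, permRep_unique]
  rfl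

theorem permRep_intertwine {Y : Type*} [Fintype Y] [DecidableEq Y] [MulAction G Y]
    (N : Matrix X Y ℤ) (hN : ∀ (g : G) (x : X) (y : Y), N (g • x) (g • y) = N x y)
    (a : MonoidAlgebra ℤ G) :
    permRep G X a * N.map (Int.cast : ℤ → MonoidAlgebra ℤ G) =
      N.map (Int.cast : ℤ → MonoidAlgebra ℤ G) * permRep G Y a := by
  induction a using MonoidAlgebra.induction_linear with
  | zero => simp
  | add a b ha hb => rw [map_add, map_add, Matrix.add_mul, Matrix.mul_add, ha, hb]
  | single g r =>
    ext x y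
    rw [Matrix.mul_apply, Matrix.mul_apply, Finset.sum_eq_single (g⁻¹ • x),
      Finset.sum_eq_single (g • y)]
    · rw [permRep_single, permRep_single, smul_inv_smul, if_pos rfl, if_pos rfl,
        Matrix.map_apply, Matrix.map_apply, (Int.cast_commute _ _).eq]
      congr 2
      rw [← hN g (g⁻¹ • x) y, smul_inv_smul]
    · intro z _ hz
      rw [permRep_single, if_neg hz, mul_zero]
    · simp
    · intro z _ hz
      rw [permRep_single, if_neg, zero_mul]
      intro h
      exact hz (by rw [h, inv_smul_smul])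
    · simp

theorem permRep_sigma {I : Type*} [Fintype I] [DecidableEq I] {Z : I → Type*}
    [∀ i, Fintype (Z i)] [∀ i, DecidableEq (Z i)] [∀ i, MulAction G (Z i)]
    (a : MonoidAlgebra ℤ G) :
    permRep G (Σ i, Z i) a = Matrix.blockDiagonal' fun i => permRep G (Z i) a := by
  induction a using MonoidAlgebra.induction_linear with
  | zero =>
    simp only [map_zero]
    exact (Matrix.blockDiagonal'_zero (α := MonoidAlgebra ℤ G)).symm
  | add a b ha hb =>
    simp only [map_add]
    rw [ha, hb]
    exact (Matrix.blockDiagonal'_add _ _).symm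
  | single g r =>
    ext ⟨i, x⟩ ⟨j, y⟩
    rw [permRep_single]
    by_cases h : i = j
    · subst h
      rw [Matrix.blockDiagonal'_apply_eq, permRep_single]
      congr 1
      simp [Sigma.smul_mk]
    · rw [Matrix.blockDiagonal'_apply_ne _ _ _ h, if_neg]
      intro h2
      exact h (congrArg Sigma.fst h2)

theorem clR_permRep_sigma {I : Type*} [Fintype I] [DecidableEq I] {Z : I → Type*}
    [∀ i, Fintype (Z i)] [∀ i, DecidableEq (Z i)] [∀ i, MulAction G (Z i)]
    {ι : Type*} [Fintype ι] [DecidableEq ι] (M : (Matrix ι ι (MonoidAlgebra ℤ G))ˣ) :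
    clR (permRep G (Σ i, Z i)) M = ∏ i, clR (permRep G (Z i)) M := by
  simp only [clR_apply]
  rw [← clM_bdiag (Z := fun i => ι × Z i)
    (fun i => Units.map (mrep (permRep G (Z i)) ι).toMonoidHom M)]
  let e : (ι × Σ i, Z i) ≃ (Σ i, (ι × Z i)) :=
    ⟨fun p => ⟨p.2.1, (p.1, p.2.2)⟩, fun p => (p.2.1, ⟨p.1, p.2.2⟩), fun _ => rfl, fun _ => rfl⟩
  symm
  refine clM_reindex e _ _ ?_
  apply Matrix.ext
  rintro ⟨i, k, x⟩ ⟨j, l, y⟩
  change Matrix.blockDiagonal' (fun i => mrep (permRep G (Z i)) ι M.val) ⟨i, (k, x)⟩ ⟨j, (l, y)⟩ =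
    mrep (permRep G (Σ i, Z i)) ι M.val (k, ⟨i, x⟩) (l, ⟨j, y⟩)
  rw [mrep_apply, permRep_sigma]
  by_cases h : i = j
  · subst h
    rw [Matrix.blockDiagonal'_apply_eq, Matrix.blockDiagonal'_apply_eq, mrep_apply]
  · rw [Matrix.blockDiagonal'_apply_ne _ _ _ h, Matrix.blockDiagonal'_apply_ne _ _ _ h]

end perm

section coset

variable (C : Subgroup G) [Fintype (G ⧸ C)] [DecidableEq (G ⧸ C)]

theorem out_mem {C : Subgroup G} (g : G) (x x' : G ⧸ C) (h : x = g • x') :
    (Quotient.out x)⁻¹ * g * Quotient.out x' ∈ C := by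
  rw [mul_assoc, ← QuotientGroup.eq]
  have h1 : (QuotientGroup.mk (Quotient.out x) : G ⧸ C) = x := QuotientGroup.out_eq' x
  have h2 : (QuotientGroup.mk (Quotient.out x') : G ⧸ C) = x' := QuotientGroup.out_eq' x'
  rw [h1, h]
  conv_lhs => rw [← h2]
  rfl

open Classical in
/-- the coset representation over `ℤ[C]` -/
noncomputable def cosHom : G →* Matrix (G ⧸ C) (G ⧸ C) (MonoidAlgebra ℤ C) where
  toFun g := Matrix.of fun x x' =>
    if h : x = g • x' then MonoidAlgebra.single ⟨_, out_mem g x x' h⟩ 1 else 0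
  map_one' := by
    apply Matrix.ext
    intro x x'
    rw [Matrix.of_apply, Matrix.one_apply]
    by_cases h : x = x'
    · subst h
      rw [dif_pos (one_smul G x).symm, if_pos rfl, MonoidAlgebra.one_def]
      congr 1
      apply Subtype.ext
      simp
    · rw [if_neg h, dif_neg (by rwa [one_smul])]
  map_mul' g h := by
    apply Matrix.ext
    intro x x'
    rw [Matrix.mul_apply, Finset.sum_eq_single (h • x')]
    · simp only [Matrix.of_apply]
      by_cases hx : x = g • h • x'
      · rw [dif_pos hx, dif_pos trivial, dif_pos (by rw [hx, mul_smul]),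
          MonoidAlgebra.single_mul_single, one_mul]
        congr 1
        apply Subtype.ext
        change _ = ((Quotient.out x)⁻¹ * g * Quotient.out (h • x')) *
          ((Quotient.out (h • x'))⁻¹ * h * Quotient.out x')
        group
      · rw [dif_neg hx, zero_mul, dif_neg (by rwa [mul_smul])]
    · intro y _ hy
      simp [hy]
    · simp

/-- the coset representation over `ℤ[C]` -/
noncomputable def cosRep : MonoidAlgebra ℤ G →+* Matrix (G ⧸ C) (G ⧸ C) (MonoidAlgebra ℤ C) :=
  (MonoidAlgebra.lift ℤ (Matrix (G ⧸ C) (G ⧸ C) (MonoidAlgebra ℤ C)) G (cosHom C)).toRingHom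

/-- the inclusion `ℤ[C] → ℤ[G]` -/
noncomputable def incl : MonoidAlgebra ℤ C →+* MonoidAlgebra ℤ G :=
  MonoidAlgebra.mapDomainRingHom ℤ C.subtype

/-- diagonal matrix of coset representatives -/
noncomputable def cosT : (Matrix (G ⧸ C) (G ⧸ C) (MonoidAlgebra ℤ G))ˣ where
  val := Matrix.diagonal fun x => MonoidAlgebra.single (Quotient.out x) 1
  inv := Matrix.diagonal fun x => MonoidAlgebra.single (Quotient.out x)⁻¹ 1
  val_inv := by
    rw [Matrix.diagonal_mul_diagonal]
    simp [MonoidAlgebra.single_mul_single, ← MonoidAlgebra.one_def]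
  inv_val := by
    rw [Matrix.diagonal_mul_diagonal]
    simp [MonoidAlgebra.single_mul_single, ← MonoidAlgebra.one_def]

theorem permRep_coset (a : MonoidAlgebra ℤ G) :
    permRep G (G ⧸ C) a * (cosT C).val =
      (cosT C).val * ((incl C).mapMatrix (m := G ⧸ C)).comp (cosRep C) a := by
  induction a using MonoidAlgebra.induction_linear with
  | zero => simp
  | add a b ha hb => rw [map_add, map_add, Matrix.add_mul, Matrix.mul_add, ha, hb]
  | single g r =>
    apply Matrix.ext
    intro x x'
    change (permRep G (G ⧸ C) (MonoidAlgebra.single g r) *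
      (Matrix.diagonal fun x : G ⧸ C => MonoidAlgebra.single (Quotient.out x) (1 : ℤ))) x x' =
      ((Matrix.diagonal fun x : G ⧸ C => MonoidAlgebra.single (Quotient.out x) (1 : ℤ)) *
        ((incl C).mapMatrix (cosRep C (MonoidAlgebra.single g r)))) x x'
    rw [Matrix.mul_diagonal, Matrix.diagonal_mul, permRep_single]
    have h1 : cosRep C (MonoidAlgebra.single g r) = r • cosHom C g :=
      MonoidAlgebra.lift_single _ _ _
    rw [h1, map_zsmul, Matrix.smul_apply]
    change _ = _ * (r • (incl C) (cosHom C g x x'))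
    by_cases h : x = g • x'
    · rw [if_pos h]
      have h2 : cosHom C g x x' = MonoidAlgebra.single ⟨_, out_mem g x x' h⟩ 1 := by
        simp [cosHom, h]
      rw [h2, incl, MonoidAlgebra.mapDomainRingHom_apply, MonoidAlgebra.mapDomain_single]
      rw [MonoidAlgebra.single_mul_single, MonoidAlgebra.smul_single,
        MonoidAlgebra.single_mul_single]
      congr 1
      · change _ = Quotient.out x * ((Quotient.out x)⁻¹ * g * Quotient.out x')
        group
      · simp
    · rw [if_neg h]
      have h2 : cosHom C g x x' = 0 := by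
        simp [cosHom, h]
      rw [h2]
      simp

theorem clR_permRep_coset {ι : Type*} [Fintype ι] [DecidableEq ι]
    (M : (Matrix ι ι (MonoidAlgebra ℤ G))ˣ) :
    clR (permRep G (G ⧸ C)) M = K1map (incl C) (clR (cosRep C) M) := by
  rw [clR_conj (permRep G (G ⧸ C)) (((incl C).mapMatrix (m := G ⧸ C)).comp (cosRep C)) (cosT C)
    (permRep_coset C) M]
  exact clR_map (incl C) (cosRep C) _ (fun a => rfl) M

end coset

end groupring

end Pool.Wh
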