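import Mathlib
import Pool.Agent.Lib_helper55.WhPerm
import Pool.Agent.Lib_helper97.Perm.Intertwine

/-!
# `K₁(ℤ[G])` is torsion modulo the classes of units (given Artin induction data)
-/

set_option autoImplicit false
set_option linter.unusedSectionVars false

open scoped Matrix

namespace Pool.Wh

universe u

section torsU

/-- elements of `K₁` with a positive power which is the class of a unit -/
noncomputable def torsU (R : Type*) [Ring R] : Subgroup (K1 R) where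
  carrier := {z | ∃ k : ℕ, 0 < k ∧ ∃ v : Rˣ, z ^ k = clU v}
  mul_mem' := by
    rintro a b ⟨k, hk, u, hu⟩ ⟨l, hl, v, hv⟩
    refine ⟨k * l, Nat.mul_pos hk hl, u ^ l * v ^ k, ?_⟩
    rw [mul_pow, pow_mul, hu, mul_comm k l, pow_mul, hv, map_mul, map_pow, map_pow]
  one_mem' := ⟨1, one_pos, 1, by rw [map_one, one_pow]⟩
  inv_mem' := by
    rintro a ⟨k, hk, u, hu⟩
    exact ⟨k, hk, u⁻¹, by rw [inv_pow, hu, map_inv]⟩

theorem mem_torsU {R : Type*} [Ring R] {z : K1 R} :
    z ∈ torsU R ↔ ∃ k : ℕ, 0 < k ∧ ∃ v : Rˣ, z ^ k = clU v := Iff.rfl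

theorem mem_torsU_of_pow {R : Type*} [Ring R] {z : K1 R} {m : ℕ} (hm : 0 < m)
    (h : z ^ m ∈ torsU R) : z ∈ torsU R := by
  obtain ⟨k, hk, v, hv⟩ := h
  exact ⟨m * k, Nat.mul_pos hm hk, v, by rw [pow_mul, hv]⟩

theorem clM_diagU {R : Type u} [Ring R] (u : Rˣ) :
    clM (Pool.Agent.SH.ClassSys.diagU u) = clU u := by
  rw [clM_eq, clU_eq]
  refine cl_conj (LinearEquiv.funUnique Unit R R) _ _ fun v => ?_
  simp [Matrix.vecMul, dotProduct, Pool.Agent.SH.ClassSys.diagU]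

theorem K1map_clU {R S : Type u} [Ring R] [Ring S] (f : R →+* S) (u : Rˣ) :
    K1map f (clU u) = clU (Units.map f.toMonoidHom u) := by
  rw [← clM_diagU, K1map_clM, ← clM_diagU]
  congr 1

end torsU

section artin

variable {G : Type u} [Group G]

theorem clR_coset_mem (C : Subgroup G) [Fintype (G ⧸ C)] [DecidableEq (G ⧸ C)] [Finite C]
    (hC : IsCyclic C) {ι : Type*} [Fintype ι] [DecidableEq ι]
    (M : (Matrix ι ι (MonoidAlgebra ℤ G))ˣ) :
    clR (permRep G (G ⧸ C)) M ∈ torsU (MonoidAlgebra ℤ G) := by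
  rw [clR_permRep_coset]
  letI : CommGroup C := IsCyclic.commGroup
  obtain ⟨k, hk, w, hw⟩ := Pool.Agent.SH.K1_groupRing_comm_torsion C (clR (cosRep C) M)
  rw [Pool.Agent.SH.clUnit_apply, clM_diagU] at hw
  exact ⟨k, hk, _, by rw [← map_pow, hw, K1map_clU]⟩

theorem exists_pow_eq_one_add {r : ℕ} [Finite G] {t : ℤ} (ht : t ≠ 0)
    (M : (Matrix (Fin r) (Fin r) (MonoidAlgebra ℤ G))ˣ) :
    ∃ k : ℕ, 0 < k ∧ ∃ B : Matrix (Fin r) (Fin r) (MonoidAlgebra ℤ G),
      (M ^ k).val = 1 + t • B := by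
  classical
  haveI := Fintype.ofFinite G
  set n := t.natAbs with hn
  haveI : NeZero n := ⟨Int.natAbs_ne_zero.mpr ht⟩
  haveI : Finite (MonoidAlgebra (ZMod n) G) := by
    refine Finite.of_injective (fun z : MonoidAlgebra (ZMod n) G => (z.coeff : G → ZMod n)) ?_
    intro a b h
    apply MonoidAlgebra.coeff_injective
    exact DFunLike.coe_injective h
  haveI : Finite (Matrix (Fin r) (Fin r) (MonoidAlgebra (ZMod n) G)) :=
    inferInstanceAs (Finite (Fin r → Fin r → MonoidAlgebra (ZMod n) G))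
  let ρ : (Matrix (Fin r) (Fin r) (MonoidAlgebra ℤ G))ˣ →*
      (Matrix (Fin r) (Fin r) (MonoidAlgebra (ZMod n) G))ˣ :=
    Units.map ((redG G n).mapMatrix (m := Fin r)).toMonoidHom
  refine ⟨Nat.card (Matrix (Fin r) (Fin r) (MonoidAlgebra (ZMod n) G))ˣ, Nat.card_pos, ?_⟩
  set k := Nat.card (Matrix (Fin r) (Fin r) (MonoidAlgebra (ZMod n) G))ˣ
  have h1 : ρ (M ^ k) = 1 := by rw [map_pow]; exact pow_card_eq_one'
  have h2 : ∀ i j, ∃ y : MonoidAlgebra ℤ G, ((M ^ k).val - 1) i j = t • y := by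
    intro i j
    have h3 : redG G n (((M ^ k).val - 1) i j) = 0 := by
      have h4 : (redG G n).mapMatrix ((M ^ k).val) = 1 := congrArg Units.val h1
      have h5 : (redG G n).mapMatrix ((M ^ k).val - 1) = 0 := by
        rw [map_sub, map_one, h4, sub_self]
      exact congrFun (congrFun h5 i) j
    obtain ⟨y, hy⟩ := exists_of_redG_eq_zero _ h3
    refine ⟨(t.sign : ℤ) • y, ?_⟩
    rw [hy, smul_smul, mul_comm, Int.sign_mul_self_eq_natAbs, ← hn, zsmul_eq_mul]
    push_cast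
    rfl
  choose y hy using h2
  refine ⟨Matrix.of y, ?_⟩
  rw [← sub_eq_iff_eq_add']
  ext i j : 2
  rw [hy]
  rfl

/-- Artin induction data -/
def ArtinData (G : Type u) [Group G] : Prop :=
  ∃ (n : ℕ) (I J : Type) (_ : Fintype I) (_ : Fintype J) (H : I → Subgroup G)
    (K : J → Subgroup G), 0 < n ∧ (∀ i, IsCyclic (H i)) ∧ (∀ j, IsCyclic (K j)) ∧
    ∀ g : G, n + ∑ i, Nat.card (MulAction.fixedBy (G ⧸ H i) g) =
      ∑ j, Nat.card (MulAction.fixedBy (G ⧸ K j) g)

theorem card_fixedBy_sigma {I : Type*} [Fintype I] {Z : I → Type*} [∀ i, Finite (Z i)]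
    [∀ i, MulAction G (Z i)] (g : G) :
    Nat.card (MulAction.fixedBy (Σ i, Z i) g) = ∑ i, Nat.card (MulAction.fixedBy (Z i) g) := by
  classical
  rw [← Nat.card_sigma]
  refine Nat.card_congr ⟨fun p => ⟨p.1.1, p.1.2, ?_⟩, fun p => ⟨⟨p.1, p.2.1⟩, ?_⟩, ?_, ?_⟩
  · obtain ⟨⟨i, z⟩, h⟩ := p
    rw [MulAction.mem_fixedBy] at h ⊢
    have := (Sigma.mk.inj_iff.mp h).2
    exact eq_of_heq this
  · obtain ⟨i, z, h⟩ := p
    rw [MulAction.mem_fixedBy] at h ⊢
    change (⟨i, g • z⟩ : Σ i, Z i) = ⟨i, z⟩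
    rw [h]
  · intro p; rfl
  · intro p; rfl

theorem K1_torsion_of_artin [Finite G] (hA : ArtinData G) (z : K1 (MonoidAlgebra ℤ G)) :
    ∃ k : ℕ, 0 < k ∧ ∃ v : (MonoidAlgebra ℤ G)ˣ, z ^ k = clU v := by
  classical
  obtain ⟨n, I, J, _, _, H, K, hn, hH, hK, hfix⟩ := hA
  haveI := Fintype.ofFinite G
  haveI hfq : ∀ C : Subgroup G, Fintype (G ⧸ C) := fun C => Fintype.ofFinite _
  let H' : Fin n ⊕ I → Subgroup G := Sum.elim (fun _ => ⊤) H
  let X := Σ i, G ⧸ H' i
  let Y := Σ j, G ⧸ K j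
  have hXY : ∀ g : G, Nat.card (MulAction.fixedBy X g) = Nat.card (MulAction.fixedBy Y g) := by
    intro g
    rw [card_fixedBy_sigma, card_fixedBy_sigma, ← hfix g, Fintype.sum_sum_type]
    congr 1
    have : ∀ i : Fin n, Nat.card (MulAction.fixedBy (G ⧸ H' (Sum.inl i)) g) = 1 := by
      intro i
      haveI : Subsingleton (G ⧸ H' (Sum.inl i)) :=
        QuotientGroup.subsingleton_quotient_top
      rw [Nat.card_eq_one_iff_unique]
      refine ⟨inferInstance, ⟨⟨QuotientGroup.mk 1, ?_⟩⟩⟩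
      rw [MulAction.mem_fixedBy]
      exact Subsingleton.elim _ _
    rw [Finset.sum_congr rfl fun i _ => this i]
    simp
  obtain ⟨P, Q, t, ht, hQP, hPQ, hP, hQ⟩ := PermRep.exists_intertwiner G X Y hXY
  obtain ⟨r, hr⟩ := exists_clM z
  obtain ⟨M, rfl⟩ := hr r le_rfl
  obtain ⟨k, hk, B, hB⟩ := exists_pow_eq_one_add ht M
  have hcast1 : Q.map (Int.cast : ℤ → MonoidAlgebra ℤ G) * P.map (Int.cast : ℤ → MonoidAlgebra ℤ G)
      = t • (1 : Matrix X X (MonoidAlgebra ℤ G)) := by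
    have := congrArg (fun Z => Z.map (Int.castRingHom (MonoidAlgebra ℤ G))) hQP
    simp only [Matrix.map_mul] at this
    rw [show (Int.cast : ℤ → MonoidAlgebra ℤ G) = (Int.castRingHom (MonoidAlgebra ℤ G)) from rfl,
      this]
    ext i j : 2
    rw [Matrix.map_apply, Matrix.smul_apply, Matrix.smul_apply, Matrix.one_apply,
      Matrix.one_apply]
    by_cases hij : i = j
    · rw [if_pos hij, if_pos hij]; simp
    · rw [if_neg hij, if_neg hij]; simp
  have hcast2 : P.map (Int.cast : ℤ → MonoidAlgebra ℤ G) * Q.map (Int.cast : ℤ → MonoidAlgebra ℤ G)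
      = t • (1 : Matrix Y Y (MonoidAlgebra ℤ G)) := by
    have := congrArg (fun Z => Z.map (Int.castRingHom (MonoidAlgebra ℤ G))) hPQ
    simp only [Matrix.map_mul] at this
    rw [show (Int.cast : ℤ → MonoidAlgebra ℤ G) = (Int.castRingHom (MonoidAlgebra ℤ G)) from rfl,
      this]
    ext i j : 2
    rw [Matrix.map_apply, Matrix.smul_apply, Matrix.smul_apply, Matrix.one_apply,
      Matrix.one_apply]
    by_cases hij : i = j
    · rw [if_pos hij, if_pos hij]; simp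
    · rw [if_neg hij, if_neg hij]; simp
  have key := clR_intertwine (permRep G X) (permRep G Y) (Q.map Int.cast) (P.map Int.cast) t
    (permRep_intertwine G Q hQ) hcast1 hcast2 (M ^ k) B hB
  rw [map_pow, map_pow, clR_permRep_sigma, clR_permRep_sigma, Fintype.prod_sum_type] at key
  have h1 : ∀ i : Fin n, clR (permRep G (G ⧸ H' (Sum.inl i))) M = clM M := by
    intro i
    haveI : Subsingleton (G ⧸ H' (Sum.inl i)) :=
      QuotientGroup.subsingleton_quotient_top
    haveI : Unique (G ⧸ H' (Sum.inl i)) := Unique.mk' _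
    exact clR_permRep_unique G M
  rw [Finset.prod_congr rfl fun i _ => h1 i] at key
  simp only [Finset.prod_const, Finset.card_univ, Fintype.card_fin] at key
  have h2 : (∏ i : I, clR (permRep G (G ⧸ H' (Sum.inr i))) M) ∈ torsU (MonoidAlgebra ℤ G) :=
    Subgroup.prod_mem _ fun i _ => clR_coset_mem (H i) (hH i) M
  have h3 : (∏ j : J, clR (permRep G (G ⧸ K j)) M) ∈ torsU (MonoidAlgebra ℤ G) :=
    Subgroup.prod_mem _ fun j _ => clR_coset_mem (K j) (hK j) M
  have h4 : (clM M ^ n) ^ k ∈ torsU (MonoidAlgebra ℤ G) := by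
    have h5 := Subgroup.pow_mem _ h3 k
    rw [← key, mul_pow] at h5
    exact (Subgroup.mul_mem_cancel_right _ (Subgroup.pow_mem _ h2 k)).mp h5
  exact mem_torsU_of_pow hn (mem_torsU_of_pow hk h4)

end artin

end Pool.Wh
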