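import Mathlib
import Pool.Agent.Lib_helper55.WhSelf

/-!
# The core finiteness theorem (assembly)
-/

set_option autoImplicit false
set_option linter.unusedSectionVars false

open scoped Matrix

namespace Pool.Wh

universe u

section core

variable {G : Type u} [Group G] [Fintype G]

/-- classes of the self-equivalences of `V` -/
noncomputable def stabCl {R : Type*} [Ring R] {P : Type*} [AddCommGroup P] [Module R P]
    [Module.Free R P] [Module.Finite R P] {Q : Type*} [AddCommGroup Q] [Module R Q]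
    (V : P →ₗ[R] Q) : Subgroup (K1 R) where
  carrier := {z | ∃ Φ : P ≃ₗ[R] P, V ∘ₗ Φ.toLinearMap = V ∧ cl Φ = z}
  mul_mem' := by
    rintro _ _ ⟨Φ, hΦ, rfl⟩ ⟨Ψ, hΨ, rfl⟩
    refine ⟨Φ * Ψ, ?_, map_mul _ _ _⟩
    change V ∘ₗ (Φ.toLinearMap ∘ₗ Ψ.toLinearMap) = V
    rw [← LinearMap.comp_assoc, hΦ, hΨ]
  one_mem' := ⟨1, rfl, map_one _⟩
  inv_mem' := by
    rintro _ ⟨Φ, hΦ, rfl⟩
    refine ⟨Φ⁻¹, ?_, map_inv _ _⟩
    conv_lhs => rw [← hΦ]
    rw [LinearMap.comp_assoc]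
    have : Φ.toLinearMap ∘ₗ (Φ⁻¹).toLinearMap = LinearMap.id := by
      apply LinearMap.ext
      intro v
      change Φ (Φ.symm v) = v
      simp
    rw [this, LinearMap.comp_id]

theorem core_of {m x : ℕ}
    (D : (Fin x → MonoidAlgebra ℤ G) →ₗ[MonoidAlgebra ℤ G] MonoidAlgebra ℤ G)
    (hD : ∀ y, y ∈ LinearMap.range D ↔ aug ℤ G y = 0)
    (hJZ : ∃ (k : ℕ) (c : {V : (Fin m → MonoidAlgebra ℤ G) →ₗ[MonoidAlgebra ℤ G]
        (Fin x → MonoidAlgebra ℤ G) // LinearMap.range V = LinearMap.ker D} → Fin k),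
      ∀ V V', c V = c V' → ∃ Φ : (Fin m → MonoidAlgebra ℤ G) ≃ₗ[MonoidAlgebra ℤ G]
        (Fin m → MonoidAlgebra ℤ G), V'.1 = V.1 ∘ₗ Φ.toLinearMap)
    (hFG : (MonoidHom.range (cl : ((Fin m → MonoidAlgebra ℤ G) ≃ₗ[MonoidAlgebra ℤ G]
      (Fin m → MonoidAlgebra ℤ G)) →* K1 (MonoidAlgebra ℤ G))).FG)
    (hU : ∀ z : K1 (MonoidAlgebra ℤ G), ∃ k : ℕ, 0 < k ∧ ∃ v, z ^ k = clU v) :
    ∃ (k : ℕ) (c : {V : (Fin m → MonoidAlgebra ℤ G) →ₗ[MonoidAlgebra ℤ G]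
        (Fin x → MonoidAlgebra ℤ G) // LinearMap.range V = LinearMap.ker D} → Fin k),
      ∀ V V', c V = c V' → ∃ Φ : (Fin m → MonoidAlgebra ℤ G) ≃ₗ[MonoidAlgebra ℤ G]
        (Fin m → MonoidAlgebra ℤ G), V'.1 = V.1 ∘ₗ Φ.toLinearMap ∧ cl Φ = 1 := by
  classical
  set H := MonoidHom.range (cl : ((Fin m → MonoidAlgebra ℤ G) ≃ₗ[MonoidAlgebra ℤ G]
      (Fin m → MonoidAlgebra ℤ G)) →* K1 (MonoidAlgebra ℤ G)) with hH
  obtain ⟨k1, c1, hc1⟩ := hJZ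
  -- finiteness of the quotients
  have hfin : ∀ V : {V : (Fin m → MonoidAlgebra ℤ G) →ₗ[MonoidAlgebra ℤ G]
        (Fin x → MonoidAlgebra ℤ G) // LinearMap.range V = LinearMap.ker D},
      Finite (H ⧸ (stabCl V.1).subgroupOf H) := by
    intro V
    haveI : Group.FG H := (Group.fg_iff_subgroup_fg H).mpr hFG
    haveI : Group.FG (H ⧸ (stabCl V.1).subgroupOf H) := inferInstance
    refine CommGroup.finite_of_fg_torsion _ ?_
    intro z
    obtain ⟨z, rfl⟩ := QuotientGroup.mk_surjective z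
    obtain ⟨k, hk, v, hv⟩ := hU z.1
    obtain ⟨k', hk', Φ, hΦ1, hΦ2⟩ := exists_self_equiv V.1 D V.2 hD v
    rw [isOfFinOrder_iff_pow_eq_one]
    refine ⟨k * k', Nat.mul_pos hk hk', ?_⟩
    rw [← QuotientGroup.mk_pow, QuotientGroup.eq_one_iff, Subgroup.mem_subgroupOf]
    refine ⟨Φ, hΦ1, ?_⟩
    rw [hΦ2, SubmonoidClass.coe_pow, pow_mul, hv]
  let rep : Set.range c1 → {V : (Fin m → MonoidAlgebra ℤ G) →ₗ[MonoidAlgebra ℤ G]
        (Fin x → MonoidAlgebra ℤ G) // LinearMap.range V = LinearMap.ker D} := fun i => i.2.choose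
  have hrep : ∀ i, c1 (rep i) = i.1 := fun i => i.2.choose_spec
  have hex : ∀ V : {V : (Fin m → MonoidAlgebra ℤ G) →ₗ[MonoidAlgebra ℤ G]
        (Fin x → MonoidAlgebra ℤ G) // LinearMap.range V = LinearMap.ker D},
      ∃ Φ : (Fin m → MonoidAlgebra ℤ G) ≃ₗ[MonoidAlgebra ℤ G]
        (Fin m → MonoidAlgebra ℤ G), V.1 = (rep ⟨c1 V, V, rfl⟩).1 ∘ₗ Φ.toLinearMap :=
    fun V => hc1 _ _ (hrep _)
  choose Φ hΦ using hex
  haveI : ∀ i : Set.range c1, Finite (H ⧸ (stabCl (rep i).1).subgroupOf H) := fun i => hfin _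
  let T := Σ i : Set.range c1, (H ⧸ (stabCl (rep i).1).subgroupOf H)
  haveI : Finite T := inferInstance
  obtain ⟨l, ⟨e⟩⟩ := Finite.exists_equiv_fin T
  refine ⟨l, fun V => e ⟨⟨c1 V, V, rfl⟩, QuotientGroup.mk (⟨cl (Φ V), Φ V, rfl⟩ : H)⟩, ?_⟩
  intro V V' hVV'
  have h1 := e.injective hVV'
  rw [Sigma.mk.injEq] at h1
  obtain ⟨h2, h3⟩ := h1
  have h4 : c1 V = c1 V' := congrArg Subtype.val h2
  -- transport
  have h5 : ∀ (i j : Set.range c1) (hij : i = j) (a b : H),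
      HEq (QuotientGroup.mk a : H ⧸ (stabCl (rep i).1).subgroupOf H)
        (QuotientGroup.mk b : H ⧸ (stabCl (rep j).1).subgroupOf H) →
      (a : K1 (MonoidAlgebra ℤ G))⁻¹ * b ∈ stabCl (rep i).1 := by
    rintro i j rfl a b hab
    have := QuotientGroup.eq.mp (eq_of_heq hab)
    rw [Subgroup.mem_subgroupOf] at this
    exact this
  have h6 := h5 _ _ h2 _ _ h3
  obtain ⟨s, hs1, hs2⟩ := h6
  have hV := hΦ V
  have hV' := hΦ V'
  have hrr : rep ⟨c1 V', V', rfl⟩ = rep ⟨c1 V, V, rfl⟩ := by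
    congr 1
    exact Subtype.ext h4.symm
  rw [hrr] at hV'
  refine ⟨(Φ V)⁻¹ * s⁻¹ * Φ V', ?_, ?_⟩
  · have hs3 : (rep ⟨c1 V, V, rfl⟩).1 ∘ₗ (s⁻¹).toLinearMap = (rep ⟨c1 V, V, rfl⟩).1 := by
      conv_lhs => rw [← hs1]
      rw [LinearMap.comp_assoc]
      have : s.toLinearMap ∘ₗ (s⁻¹).toLinearMap = LinearMap.id := by
        apply LinearMap.ext
        intro v
        change s (s.symm v) = v
        simp
      rw [this, LinearMap.comp_id]
    apply LinearMap.ext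
    intro v
    change V'.1 v = V.1 ((Φ V).symm ((s⁻¹) (Φ V' v)))
    conv_rhs => rw [hV]
    change _ = (rep ⟨c1 V, V, rfl⟩).1 (Φ V ((Φ V).symm ((s⁻¹) (Φ V' v))))
    rw [LinearEquiv.apply_symm_apply]
    have := LinearMap.congr_fun hs3 (Φ V' v)
    change (rep ⟨c1 V, V, rfl⟩).1 (s⁻¹ (Φ V' v)) = _ at this
    rw [this]
    conv_lhs => rw [hV']
    rfl
  · rw [map_mul, map_mul, map_inv, map_inv, hs2]
    simp only [mul_inv_rev, inv_inv]
    rw [mul_comm (cl (Φ V))⁻¹, mul_assoc, mul_assoc]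
    group

end core

end Pool.Wh
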