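import Mathlib
import Pool.Agent.Lib_helper55.WhCore
import Pool.Agent.Lib_helper55.WhArtin
import Pool.Agent.Lib_helper97.Lat.ClFG
import Pool.Agent.Lib_helper98.SH.Artin

/-!
# The core finiteness theorem

For a finite group `G` there are only finitely many epimorphisms from `ℤ[G]^m` onto the kernel of
`D : ℤ[G]^x → ℤ[G]` (whose image is the augmentation ideal) up to automorphisms of `ℤ[G]^m` which
are trivial in `K₁(ℤ[G])`.
-/

set_option autoImplicit false

namespace Pool.Wh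

theorem artinData (G : Type) [Group G] [Finite G] : ArtinData G := by
  obtain ⟨n, hn, I, J, hI, hJ, C, D, hC, hD, h⟩ := Pool.Agent.Lib_helper98.SH.exists_families G
  exact ⟨n, I, J, hI, hJ, C, D, hn, hC, hD, h⟩

/-- `K₁(ℤ[G])` is torsion modulo the classes of units. -/
theorem K1_torsion_mod_units (G : Type) [Group G] [Finite G] (z : K1 (MonoidAlgebra ℤ G)) :
    ∃ k : ℕ, 0 < k ∧ ∃ v : (MonoidAlgebra ℤ G)ˣ, z ^ k = clU v :=
  K1_torsion_of_artin (artinData G) z

theorem core (G : Type) [Group G] [Finite G] (m x : ℕ)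
    (D : (Fin x → MonoidAlgebra ℤ G) →ₗ[MonoidAlgebra ℤ G] MonoidAlgebra ℤ G)
    (hD : ∀ y, y ∈ LinearMap.range D ↔ aug ℤ G y = 0) :
    ∃ (k : ℕ) (c : {V : (Fin m → MonoidAlgebra ℤ G) →ₗ[MonoidAlgebra ℤ G]
        (Fin x → MonoidAlgebra ℤ G) // LinearMap.range V = LinearMap.ker D} → Fin k),
      ∀ V V', c V = c V' → ∃ Φ : (Fin m → MonoidAlgebra ℤ G) ≃ₗ[MonoidAlgebra ℤ G]
        (Fin m → MonoidAlgebra ℤ G), V'.1 = V.1 ∘ₗ Φ.toLinearMap ∧ cl Φ = 1 := by
  haveI := Fintype.ofFinite G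
  exact core_of D hD (Lat.orbits_finite m x _) (Lat.cl_range_fg m) (K1_torsion_mod_units G)

end Pool.Wh

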